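import Mathlib
import Pool.Agent.Helper11.AADefs

/-!
SUBEXP = MP_f992e4_an: definitions for the sub-exponential Aaronson-Ambainis bound.

Overview: /team-store/subexp_blueprint.md.
-/

set_option linter.dupNamespace false

namespace Pool.Agent.SUB

open Finset Pool.Agent.Helper11.Cube Pool.Agent.Helper11.AA

variable {n : ℕ}

/-- Functions of degree at most `d` with values in `[-1,1]`. -/
def Bdd (d : ℕ) (f : Cube n → ℝ) : Prop := DegLE f d ∧ ∀ x, |f x| ≤ 1

/-- The cut-off `min(1, ((v/η - 1)^+)^p)`: it vanishes for `v ≤ η` and equals `1` for `v ≥ 2η`. -/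
noncomputable def cut (η : ℝ) (p : ℕ) (v : ℝ) : ℝ := min 1 ((max 0 (v / η - 1)) ^ p)

/-- The smoothed indicator that coordinate `w` is pivotal at threshold `η`. -/
noncomputable def hw (η : ℝ) (p : ℕ) (f : Cube n → ℝ) (w : Fin n) (x : Cube n) : ℝ :=
  cut η p |discreteDeriv w f x|

/-- The smoothed probability that coordinate `w` is pivotal at threshold `η`. -/
noncomputable def Pw (η : ℝ) (p : ℕ) (f : Cube n → ℝ) (w : Fin n) : ℝ := ex (hw η p f w)

/-- The point which agrees with `y` on `S` and with `x` off `S`. -/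
def mix (S : Finset (Fin n)) (y x : Cube n) : Cube n := fun i => if i ∈ S then y i else x i

/-- The bias of the coordinate `a` under the probability measure with density `h / ex h`. -/
noncomputable def bias (h : Cube n → ℝ) (a : Fin n) : ℝ :=
  ex (fun x => ((x a : ℤ) : ℝ) * h x) / ex h

/-- Relative entropy of a `±1` variable with mean `b` with respect to the uniform one (nats). -/
noncomputable def KL (b : ℝ) : ℝ := ((1 + b) * Real.log (1 + b) + (1 - b) * Real.log (1 - b)) / 2

/-- `φ_γ(b) = ((1+b)^(1+γ) + (1-b)^(1+γ))/2 - 1`. -/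
noncomputable def phi (γ b : ℝ) : ℝ := ((1 + b) ^ (1 + γ) + (1 - b) ^ (1 + γ)) / 2 - 1

/-- Probability of the set `S` when every element is put into `S` with probability `s`. -/
noncomputable def wt (s : ℝ) (S : Finset (Fin n)) : ℝ := s ^ S.card * (1 - s) ^ (Sᶜ).card

/-- The average of the functional `F` over the random restriction of `f` in which every coordinate
is fixed (to a uniform value) with probability `s`. -/
noncomputable def avg (s : ℝ) (F : (Cube n → ℝ) → ℝ) (f : Cube n → ℝ) : ℝ :=
  ∑ S : Finset (Fin n), wt s S * ex (fun y => F (fun x => f (mix S y x)))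

/-- The generator of the random restriction process:
`lap F f = ∑_a (E_σ F(f|_{x_a = σ}) - F(f))`. -/
noncomputable def lap (F : (Cube n → ℝ) → ℝ) (f : Cube n → ℝ) : ℝ :=
  ∑ a : Fin n, ((F (fun x => f (Function.update x a 1))
    + F (fun x => f (Function.update x a (-1)))) / 2 - F f)

/-- `F_γ(f) = ∑_w P_w^(1+γ)`. -/
noncomputable def Fg (η : ℝ) (p : ℕ) (γ : ℝ) (f : Cube n → ℝ) : ℝ := ∑ w, Pw η p f w ^ (1 + γ)

/-- `Psi = e^u E F_γ` at the time `u`, i.e. at the density `s = 1 - e^(-u)` of fixed coordinates. -/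
noncomputable def Psi (η : ℝ) (p : ℕ) (γ u : ℝ) (f : Cube n → ℝ) : ℝ :=
  Real.exp u * avg (1 - Real.exp (-u)) (Fg η p γ) f

/-- The next threshold. -/
noncomputable def nxt (d p : ℕ) (η : ℝ) : ℝ := η ^ 2 / (3072000 * (p : ℝ) ^ 2 * (d : ℝ) ^ 2)

end Pool.Agent.SUB
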