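import Mathlib
import Pool.Agent.SUB.Defs

/-!
SUBEXP module KLR: real inequalities for
`KL b = ((1+b) log (1+b) + (1-b) log (1-b))/2` and
`phi γ b = ((1+b)^(1+γ) + (1-b)^(1+γ))/2 - 1`.

* `KL_nonneg`: `x log x ≥ x - 1` for `x ≥ 0`, applied to `1+b` and `1-b`.
* `KL_le_sq`: `log (1+b) ≤ b` and `log (1-b) ≤ -b` (the cases `b = ±1` directly, `log 0 = 0`,
  `log 2 ≤ 1`), multiply by `1+b ≥ 0`, `1-b ≥ 0`.
* `phi_le`: for `0 ≤ γ ≤ 1` and `|b| ≤ 1`, `phi γ b ≤ γ (1+γ) KL b`. Both sides are even in `b`,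
  so let `0 ≤ b`. Put `G(b) = γ(1+γ) KL b - phi γ b` on `[0,1)`:
  `G(0) = 0`, `G'(b) = (1+γ)/2 * (γ (log(1+b) - log(1-b)) - ((1+b)^γ - (1-b)^γ))`, `G'(0) = 0`,
  `(G')' = (1+γ) γ/2 * ((1+b)^(-1) + (1-b)^(-1) - (1+b)^(γ-1) - (1-b)^(γ-1)) ≥ 0` since
  `x^(γ-1) ≤ (1-γ) x^(-1) + γ` (weighted AM-GM `Real.geom_mean_le_arith_mean2_weighted`, as
  `x^(γ-1) = (x^(-1))^(1-γ) * 1^γ`) and `(1+b)^(-1) + (1-b)^(-1) = 2/(1-b^2) ≥ 2`.
  Two applications of `monotoneOn_of_deriv_nonneg`; at `b = 1` use continuity (both sides are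
  continuous in `b`; `x log x` is continuous: `Real.continuous_mul_log`).
-/

set_option linter.dupNamespace false

namespace Pool.Agent.SUB

open Finset

private lemma mul_log_ge (x : ℝ) (hx : 0 ≤ x) : x - 1 ≤ x * Real.log x := by
  rcases hx.eq_or_lt with h | h
  · subst h; simp
  · have h1 := Real.one_sub_inv_le_log_of_pos h
    have h2 : x * (1 - x⁻¹) ≤ x * Real.log x := mul_le_mul_of_nonneg_left h1 h.le
    have e : x * (1 - x⁻¹) = x - 1 := by field_simp
    linarith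

private lemma mul_log_le (x : ℝ) (hx : 0 ≤ x) : x * Real.log x ≤ x * (x - 1) := by
  rcases hx.eq_or_lt with h | h
  · subst h; simp
  · exact mul_le_mul_of_nonneg_left (Real.log_le_sub_one_of_pos h) h.le

lemma KL_zero : KL 0 = 0 := by
  simp [KL]

lemma phi_zero (γ : ℝ) : phi γ 0 = 0 := by
  simp [phi]

lemma KL_nonneg {b : ℝ} (hb : |b| ≤ 1) : 0 ≤ KL b := by
  have hb' := abs_le.mp hb
  have h1 := mul_log_ge (1 + b) (by linarith)
  have h2 := mul_log_ge (1 - b) (by linarith)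
  unfold KL
  linarith

lemma KL_le_sq {b : ℝ} (hb : |b| ≤ 1) : KL b ≤ b ^ 2 := by
  have hb' := abs_le.mp hb
  have h1 := mul_log_le (1 + b) (by linarith)
  have h2 := mul_log_le (1 - b) (by linarith)
  unfold KL
  nlinarith

private lemma aux_rpow {γ x : ℝ} (hγ : 0 ≤ γ) (hγ1 : γ ≤ 1) (hx : 0 < x) :
    x ^ (γ - 1) ≤ (1 - γ) * x⁻¹ + γ := by
  have h := Real.geom_mean_le_arith_mean2_weighted (w₁ := 1 - γ) (w₂ := γ) (p₁ := x⁻¹) (p₂ := 1)
    (by linarith) hγ (inv_nonneg.mpr hx.le) zero_le_one (by ring)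
  have e : (x⁻¹) ^ (1 - γ) = x ^ (γ - 1) := by
    rw [Real.inv_rpow hx.le, ← Real.rpow_neg hx.le]
    congr 1
    ring
  rw [e] at h
  simpa using h

/-- the derivative `G'` -/
private noncomputable def dG (γ b : ℝ) : ℝ :=
  (1 + γ) / 2 * (γ * (Real.log (1 + b) - Real.log (1 - b)) - ((1 + b) ^ γ - (1 - b) ^ γ))

private noncomputable def GG (γ b : ℝ) : ℝ := γ * (1 + γ) * KL b - phi γ b

private lemma hasDeriv_dG {γ b : ℝ} (h0 : 0 ≤ b) (h1 : b < 1) :
    HasDerivAt (dG γ) ((1 + γ) / 2 * (γ * ((1 + b)⁻¹ + (1 - b)⁻¹) -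
      (γ * (1 + b) ^ (γ - 1) + γ * (1 - b) ^ (γ - 1)))) b := by
  have hp : HasDerivAt (fun b : ℝ => 1 + b) 1 b := by
    simpa using (hasDerivAt_id b).const_add 1
  have hm : HasDerivAt (fun b : ℝ => 1 - b) (-1) b := by
    simpa using (hasDerivAt_id b).const_sub 1
  have hp0 : (1 + b) ≠ 0 := by linarith
  have hm0 : (1 - b) ≠ 0 := by linarith
  have l1 := hp.log hp0
  have l2 := hm.log hm0
  have r1 := hp.rpow_const (p := γ) (Or.inl hp0)
  have r2 := hm.rpow_const (p := γ) (Or.inl hm0)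
  have := (((l1.sub l2).const_mul γ).sub (r1.sub r2)).const_mul ((1 + γ) / 2)
  refine this.congr_deriv ?_
  ring

private lemma dG_nonneg {γ b : ℝ} (hγ : 0 ≤ γ) (hγ1 : γ ≤ 1) (h0 : 0 ≤ b) (h1 : b < 1) :
    0 ≤ dG γ b := by
  have hmono : MonotoneOn (dG γ) (Set.Ico 0 1) := by
    apply monotoneOn_of_deriv_nonneg (convex_Ico 0 1)
    · intro x hx
      exact (hasDeriv_dG hx.1 hx.2).continuousAt.continuousWithinAt
    · intro x hx
      rw [interior_Ico] at hx
      exact (hasDeriv_dG hx.1.le hx.2).differentiableAt.differentiableWithinAt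
    · intro x hx
      rw [interior_Ico] at hx
      rw [(hasDeriv_dG hx.1.le hx.2).deriv]
      have hp0 : 0 < 1 + x := by linarith [hx.1]
      have hm0 : 0 < 1 - x := by linarith [hx.2]
      have a1 := aux_rpow hγ hγ1 hp0
      have a2 := aux_rpow hγ hγ1 hm0
      have a3 : 2 ≤ (1 + x)⁻¹ + (1 - x)⁻¹ := by
        have : (1 + x)⁻¹ + (1 - x)⁻¹ = 2 / (1 - x ^ 2) := by
          have : (1 - x ^ 2) = (1 + x) * (1 - x) := by ring
          rw [this]
          field_simp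
          ring
        rw [this, le_div_iff₀ (by nlinarith)]
        nlinarith [sq_nonneg x]
      have a4 : (1 + x) ^ (γ - 1) + (1 - x) ^ (γ - 1) ≤ (1 + x)⁻¹ + (1 - x)⁻¹ := by
        nlinarith
      have a5 : 0 ≤ γ * ((1 + x)⁻¹ + (1 - x)⁻¹) -
          (γ * (1 + x) ^ (γ - 1) + γ * (1 - x) ^ (γ - 1)) := by
        nlinarith
      exact mul_nonneg (by linarith) a5
  have h := hmono (Set.left_mem_Ico.mpr one_pos) ⟨h0, h1⟩ h0
  have e : dG γ 0 = 0 := by simp [dG]
  linarith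

private lemma hasDeriv_GG {γ b : ℝ} (h0 : 0 ≤ b) (h1 : b < 1) :
    HasDerivAt (GG γ) (dG γ b) b := by
  have hp : HasDerivAt (fun b : ℝ => 1 + b) 1 b := by
    simpa using (hasDerivAt_id b).const_add 1
  have hm : HasDerivAt (fun b : ℝ => 1 - b) (-1) b := by
    simpa using (hasDerivAt_id b).const_sub 1
  have hp0 : (1 + b) ≠ 0 := by linarith
  have hm0 : (1 - b) ≠ 0 := by linarith
  have l1 := hp.mul (hp.log hp0)
  have l2 := hm.mul (hm.log hm0)
  have r1 := hp.rpow_const (p := 1 + γ) (Or.inl hp0)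
  have r2 := hm.rpow_const (p := 1 + γ) (Or.inl hm0)
  have := (((l1.add l2).div_const 2).const_mul (γ * (1 + γ))).sub
    (((r1.add r2).div_const 2).sub_const 1)
  refine (this.congr_of_eventuallyEq ?_).congr_deriv ?_
  · exact Filter.Eventually.of_forall (fun x => by simp [GG, KL, phi])
  · have e : 1 + γ - 1 = γ := by ring
    rw [e]
    unfold dG
    field_simp
    ring

private lemma GG_nonneg {γ b : ℝ} (hγ : 0 ≤ γ) (hγ1 : γ ≤ 1) (h0 : 0 ≤ b) (h1 : b < 1) :
    0 ≤ GG γ b := by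
  have hmono : MonotoneOn (GG γ) (Set.Ico 0 1) := by
    apply monotoneOn_of_deriv_nonneg (convex_Ico 0 1)
    · intro x hx
      exact (hasDeriv_GG hx.1 hx.2).continuousAt.continuousWithinAt
    · intro x hx
      rw [interior_Ico] at hx
      exact (hasDeriv_GG hx.1.le hx.2).differentiableAt.differentiableWithinAt
    · intro x hx
      rw [interior_Ico] at hx
      rw [(hasDeriv_GG hx.1.le hx.2).deriv]
      exact dG_nonneg hγ hγ1 hx.1.le hx.2
  have h := hmono (Set.left_mem_Ico.mpr one_pos) ⟨h0, h1⟩ h0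
  have e : GG γ 0 = 0 := by simp [GG, KL_zero, phi_zero]
  linarith

private lemma continuous_GG {γ : ℝ} (hγ : 0 ≤ γ) : Continuous (GG γ) := by
  have c1 : Continuous (fun b : ℝ => (1 + b) * Real.log (1 + b)) :=
    Real.continuous_mul_log.comp (continuous_const.add continuous_id)
  have c2 : Continuous (fun b : ℝ => (1 - b) * Real.log (1 - b)) :=
    Real.continuous_mul_log.comp (continuous_const.sub continuous_id)
  have c3 : Continuous (fun b : ℝ => (1 + b) ^ (1 + γ)) :=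
    (Real.continuous_rpow_const (by linarith)).comp (continuous_const.add continuous_id)
  have c4 : Continuous (fun b : ℝ => (1 - b) ^ (1 + γ)) :=
    (Real.continuous_rpow_const (by linarith)).comp (continuous_const.sub continuous_id)
  exact (continuous_const.mul ((c1.add c2).div_const 2)).sub
    (((c3.add c4).div_const 2).sub continuous_const)

private lemma GG_nonneg' {γ b : ℝ} (hγ : 0 ≤ γ) (hγ1 : γ ≤ 1) (h0 : 0 ≤ b) (h1 : b ≤ 1) :
    0 ≤ GG γ b := by
  have hsub : Set.Icc (0:ℝ) 1 ⊆ closure (Set.Ico (0:ℝ) 1) := by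
    rw [closure_Ico (by norm_num)]
  have hcl : IsClosed {x : ℝ | 0 ≤ GG γ x} := isClosed_le continuous_const (continuous_GG hγ)
  have : closure (Set.Ico (0:ℝ) 1) ⊆ {x : ℝ | 0 ≤ GG γ x} :=
    hcl.closure_subset_iff.mpr (fun x hx => GG_nonneg hγ hγ1 hx.1 hx.2)
  exact this (hsub ⟨h0, h1⟩)

lemma phi_le {γ b : ℝ} (hγ : 0 ≤ γ) (hγ1 : γ ≤ 1) (hb : |b| ≤ 1) :
    phi γ b ≤ γ * (1 + γ) * KL b := by
  have h := GG_nonneg' hγ hγ1 (abs_nonneg b) hb
  have e : GG γ |b| = GG γ b := by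
    rcases abs_cases b with h | h
    · rw [h.1]
    · rw [h.1]
      simp only [GG, KL, phi, sub_neg_eq_add, ← sub_eq_add_neg]
      ring
  rw [e] at h
  unfold GG at h
  linarith

end Pool.Agent.SUB
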