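import Mathlib
import Pool.Agent.SUB.Defs
import Pool.Agent.Helper11.Degree

/-!
SUBEXP module DRV: derivatives, restrictions and the worst case inequalities of Markov type.

* `bdd_mix`: `f (mix S y x) = ∑_A coef f A * chi (A ∩ S) y * chi (A \ S) x` (inversion), every term
  with `coef f A ≠ 0` has degree `|A \ S| ≤ |A| ≤ d` (`degLE_sum`, `degLE_const_mul`, `degLE_chi`,
  `degLE_mono`).
* `bdd_update`: `Function.update x a u = mix {a} (fun _ => u) x`.
* `bdd_deriv`: `discreteDeriv w f = 1/2 * (f (update · w 1)) + (-1/2) * (f (update · w (-1)))`.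
* `sum_abs_deriv_le` of `Pool.Agent.Helper11.AA` gives `sum_abs_deriv`.
* `abs_block`: split `s` by the sign of `f v - f (flipOn (B i) v)` and use `block_flip_bound` twice.
* `card_big`: every `w` counted contributes more than `η` to `∑_w |D_w f(x)| ≤ 2 d^2`.
-/

set_option linter.dupNamespace false

namespace Pool.Agent.SUB

open Finset Pool.Agent.Helper11.Cube Pool.Agent.Helper11.AA

variable {n d : ℕ}

private lemma drv_chi_mix (A S : Finset (Fin n)) (y x : Cube n) :
    chi A (mix S y x) = chi (A ∩ S) y * chi (A \ S) x := by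
  unfold chi mix
  have h : ∀ i ∈ A, (((if i ∈ S then y i else x i : ℤˣ) : ℤ) : ℝ)
      = if i ∈ S then ((y i : ℤ) : ℝ) else ((x i : ℤ) : ℝ) := by
    intro i _
    split_ifs <;> rfl
  rw [Finset.prod_congr rfl h, Finset.prod_ite, Finset.filter_mem_eq_inter,
    Finset.filter_notMem_eq_sdiff]

lemma bdd_mix {f : Cube n → ℝ} (hf : Bdd d f) (S : Finset (Fin n)) (y : Cube n) :
    Bdd d (fun x => f (mix S y x)) := by
  refine ⟨?_, fun x => hf.2 _⟩
  have h : (fun x => f (mix S y x))
      = fun x => ∑ A : Finset (Fin n), (coef f A * chi (A ∩ S) y) * chi (A \ S) x := by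
    funext x
    rw [inversion f (mix S y x)]
    refine Finset.sum_congr rfl (fun A _ => ?_)
    rw [drv_chi_mix]
    ring
  rw [h]
  refine degLE_sum Finset.univ (fun A x => (coef f A * chi (A ∩ S) y) * chi (A \ S) x)
    (fun A _ => ?_)
  by_cases hA : d < A.card
  · rw [hf.1 A hA]
    have h0 : (fun x : Cube n => (0 * chi (A ∩ S) y) * chi (A \ S) x) = fun _ => (0 : ℝ) := by
      funext x; ring
    simp only [h0]
    exact degLE_const 0
  · push Not at hA
    exact degLE_const_mul _ (degLE_mono (degLE_chi _)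
      (le_trans (Finset.card_le_card Finset.sdiff_subset) hA))

private lemma drv_update (x : Cube n) (a : Fin n) (u : ℤˣ) :
    Function.update x a u = mix {a} (fun _ => u) x := by
  funext i
  unfold mix
  by_cases h : i = a
  · subst h; simp
  · simp [h]

lemma bdd_update {f : Cube n → ℝ} (hf : Bdd d f) (a : Fin n) (u : ℤˣ) :
    Bdd d (fun x => f (Function.update x a u)) := by
  simp_rw [drv_update]
  exact bdd_mix hf _ _

lemma bdd_deriv {f : Cube n → ℝ} (hf : Bdd d f) (w : Fin n) : Bdd d (discreteDeriv w f) := by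
  constructor
  · have h : discreteDeriv w f
        = fun x => (1 / 2) * f (Function.update x w 1) + (-1 / 2) * f (Function.update x w (-1)) := by
      funext x
      unfold discreteDeriv
      ring
    rw [h]
    exact degLE_add (degLE_const_mul _ (bdd_update hf w 1).1)
      (degLE_const_mul _ (bdd_update hf w (-1)).1)
  · intro x
    unfold discreteDeriv
    have h1 := abs_le.mp (hf.2 (Function.update x w 1))
    have h2 := abs_le.mp (hf.2 (Function.update x w (-1)))
    rw [abs_le]
    constructor <;> linarith [h1.1, h1.2, h2.1, h2.2]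

lemma deriv_comm (a w : Fin n) (f : Cube n → ℝ) (x : Cube n) :
    discreteDeriv a (discreteDeriv w f) x = discreteDeriv w (discreteDeriv a f) x := by
  by_cases h : a = w
  · subst h; rfl
  · unfold discreteDeriv
    rw [Function.update_comm h, Function.update_comm h, Function.update_comm h,
      Function.update_comm h]
    ring

lemma deriv_update_self (a : Fin n) (u : ℤˣ) (f : Cube n → ℝ) (x : Cube n) :
    discreteDeriv a f (Function.update x a u) = discreteDeriv a f x := by
  unfold discreteDeriv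
  simp only [Function.update_idem]

lemma deriv_self (a : Fin n) (f : Cube n → ℝ) (x : Cube n) :
    discreteDeriv a (discreteDeriv a f) x = 0 := by
  have h : discreteDeriv a (discreteDeriv a f) x
      = (discreteDeriv a f (Function.update x a 1) - discreteDeriv a f (Function.update x a (-1))) / 2
      := rfl
  rw [h, deriv_update_self, deriv_update_self]
  ring

lemma deriv_restr_self (a : Fin n) (u : ℤˣ) (f : Cube n → ℝ) (x : Cube n) :
    discreteDeriv a (fun z => f (Function.update z a u)) x = 0 := by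
  unfold discreteDeriv
  simp only [Function.update_idem]
  ring

lemma deriv_restr {a w : Fin n} (h : w ≠ a) (u : ℤˣ) (f : Cube n → ℝ) (x : Cube n) :
    discreteDeriv w (fun z => f (Function.update z a u)) x
      = discreteDeriv w f (Function.update x a u) := by
  unfold discreteDeriv
  simp only
  rw [Function.update_comm h, Function.update_comm h]

lemma sum_abs_deriv {f : Cube n → ℝ} (hf : Bdd d f) (x : Cube n) :
    ∑ w, |discreteDeriv w f x| ≤ 2 * (d : ℝ) ^ 2 := by
  have h := sum_abs_deriv_le hf.1 hf.2 x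
  linarith

lemma sum_abs_deriv2 {f : Cube n → ℝ} (hf : Bdd d f) (w : Fin n) (x : Cube n) :
    ∑ a, |discreteDeriv a (discreteDeriv w f) x| ≤ 2 * (d : ℝ) ^ 2 :=
  sum_abs_deriv (bdd_deriv hf w) x

lemma abs_block {ι : Type*} [DecidableEq ι] {f : Cube n → ℝ} (hf : Bdd d f) (s : Finset ι)
    (B : ι → Finset (Fin n)) (hB : Set.PairwiseDisjoint (s : Set ι) B) (v : Cube n) :
    ∑ i ∈ s, |f v - f (flipOn (B i) v)| ≤ 4 * (d : ℝ) ^ 2 := by
  set g : ι → ℝ := fun i => f v - f (flipOn (B i) v) with hg
  have hsplit : ∑ i ∈ s, |g i| = ∑ i ∈ s.filter (fun i => 0 ≤ g i), g i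
      - ∑ i ∈ s.filter (fun i => ¬ 0 ≤ g i), g i := by
    rw [← Finset.sum_filter_add_sum_filter_not s (fun i => 0 ≤ g i) (fun i => |g i|)]
    rw [Finset.sum_congr rfl (fun i hi => abs_of_nonneg (Finset.mem_filter.mp hi).2)]
    rw [Finset.sum_congr rfl (g := fun i => - g i)
      (fun i hi => abs_of_neg (not_le.mp (Finset.mem_filter.mp hi).2)), Finset.sum_neg_distrib]
    ring
  have hd1 : Set.PairwiseDisjoint ((s.filter (fun i => 0 ≤ g i) : Finset ι) : Set ι) B :=
    hB.subset (by intro i hi; exact (Finset.mem_filter.mp (Finset.mem_coe.mp hi)).1)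
  have hd2 : Set.PairwiseDisjoint ((s.filter (fun i => ¬ 0 ≤ g i) : Finset ι) : Set ι) B :=
    hB.subset (by intro i hi; exact (Finset.mem_filter.mp (Finset.mem_coe.mp hi)).1)
  have h1 := (abs_le.mp (block_flip_bound _ B hd1 hf.1 hf.2 v)).2
  have h2 := (abs_le.mp (block_flip_bound _ B hd2 hf.1 hf.2 v)).1
  change ∑ i ∈ s, |g i| ≤ _
  rw [hsplit]
  change ∑ i ∈ s.filter (fun i => 0 ≤ g i), g i ≤ _ at h1
  change _ ≤ ∑ i ∈ s.filter (fun i => ¬ 0 ≤ g i), g i at h2
  linarith

lemma card_big {f : Cube n → ℝ} (hf : Bdd d f) {η : ℝ} (hη : 0 < η) (x : Cube n) :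
    ((univ.filter (fun w => η < |discreteDeriv w f x|)).card : ℝ) ≤ 2 * (d : ℝ) ^ 2 / η := by
  rw [le_div_iff₀ hη]
  calc ((univ.filter (fun w => η < |discreteDeriv w f x|)).card : ℝ) * η
      = ∑ _w ∈ univ.filter (fun w => η < |discreteDeriv w f x|), η := by
        rw [Finset.sum_const, nsmul_eq_mul]
    _ ≤ ∑ w ∈ univ.filter (fun w => η < |discreteDeriv w f x|), |discreteDeriv w f x| :=
        Finset.sum_le_sum (fun w hw => (Finset.mem_filter.mp hw).2.le)
    _ ≤ ∑ w, |discreteDeriv w f x| :=
        Finset.sum_le_sum_of_subset_of_nonneg (Finset.filter_subset _ _)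
          (fun _ _ _ => abs_nonneg _)
    _ ≤ 2 * (d : ℝ) ^ 2 := sum_abs_deriv hf x

end Pool.Agent.SUB
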