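import Mathlib
import Pool.Agent.SUB.Defs

/-!
SUBEXP module EXT: tools for expectations on the cube.

* `ex_flipOn`: `flipOn A` is an involution of the cube.
* `ex_comm`: exchange of two finite sums.
* `ex_update`: `x ↦ flipOn {a} x` exchanges `update x a 1` and `update x a (-1)`, and
  `x ∈ {update x a 1, update x a (-1)}`; so
  `g (update x a 1) + g (update x a (-1)) = g x + g (flipOn {a} x)`.
* `ex_mix`: by induction, or directly: for fixed `S` the map `(y,x) ↦ (mix S y x, mix S x y)` is an
  involution of `Cube n × Cube n`, so `ex_y ex_x g(mix S y x) = ex_y ex_x g(x) = ex g`.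
* `ex_mix_mul`: same involution, with `φ (mix S x z) = φ x`.
* `ex_sg_mul`: `x_a h(x) + (flip x)_a h(flip x) = x_a (h(x) - h(flip x)) = 2 D_a h(x)`
  (`Pool.Agent.Helper11.AA.sub_flip`).
* `ex_update_one`: `h(update x a u)` summed over `x`: `= 2 * ∑_{x : x a = u} h x`, and
  `1 + u x_a` is `2` if `x a = u` and `0` otherwise.
-/

set_option linter.dupNamespace false

namespace Pool.Agent.SUB

open Finset Pool.Agent.Helper11.Cube Pool.Agent.Helper11.AA

variable {n : ℕ}

lemma flipOn_flipOn (A : Finset (Fin n)) (x : Cube n) : flipOn A (flipOn A x) = x := by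
  funext i
  unfold flipOn
  by_cases h : i ∈ A <;> simp [h]

lemma ex_flipOn (A : Finset (Fin n)) (g : Cube n → ℝ) : ex (fun x => g (flipOn A x)) = ex g := by
  unfold ex
  congr 1
  have hinv : Function.Involutive (flipOn A : Cube n → Cube n) := flipOn_flipOn A
  exact Equiv.sum_comp hinv.toPerm g

lemma ex_comm (g : Cube n → Cube n → ℝ) :
    ex (fun x => ex (fun y => g x y)) = ex (fun y => ex (fun x => g x y)) := by
  unfold ex
  rw [← Finset.sum_div, ← Finset.sum_div, Finset.sum_comm]

lemma ex_add' (g h : Cube n → ℝ) : ex (fun x => g x + h x) = ex g + ex h := by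
  unfold ex
  rw [Finset.sum_add_distrib, add_div]

lemma ex_mul_left' (c : ℝ) (g : Cube n → ℝ) : ex (fun x => c * g x) = c * ex g := by
  unfold ex
  rw [← Finset.mul_sum, mul_div_assoc]

lemma update_pair (a : Fin n) (g : Cube n → ℝ) (x : Cube n) :
    g (Function.update x a 1) + g (Function.update x a (-1)) = g x + g (flipOn {a} x) := by
  rcases Int.units_eq_one_or (x a) with h | h
  · have h1 : Function.update x a 1 = x := by rw [← h]; exact Function.update_eq_self a x
    have h2 : Function.update x a (-1) = flipOn {a} x := by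
      funext i
      by_cases hij : i = a
      · subst hij; simp [flipOn, h]
      · simp [flipOn, hij]
    rw [h1, h2]
  · have h1 : Function.update x a (-1) = x := by rw [← h]; exact Function.update_eq_self a x
    have h2 : Function.update x a 1 = flipOn {a} x := by
      funext i
      by_cases hij : i = a
      · subst hij; simp [flipOn, h]
      · simp [flipOn, hij]
    rw [h1, h2, add_comm]

lemma ex_update (a : Fin n) (g : Cube n → ℝ) :
    ex (fun x => (g (Function.update x a 1) + g (Function.update x a (-1))) / 2) = ex g := by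
  have h : (fun x => (g (Function.update x a 1) + g (Function.update x a (-1))) / 2)
      = fun x => (1 / 2 : ℝ) * (g x + g (flipOn {a} x)) := by
    funext x
    rw [update_pair]; ring
  rw [h, ex_mul_left', ex_add', ex_flipOn]
  ring

/-- The swap `(y,x) ↦ (mix S x y, mix S y x)`. -/
lemma swap_invol (S : Finset (Fin n)) :
    Function.Involutive (fun p : Cube n × Cube n => (mix S p.2 p.1, mix S p.1 p.2)) := by
  rintro ⟨y, x⟩
  ext i
  · by_cases h : i ∈ S <;> simp [mix, h]
  · by_cases h : i ∈ S <;> simp [mix, h]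

lemma card_cube' : Fintype.card (Cube n) = 2 ^ n := by
  simp [Cube]

lemma ex_const' (c : ℝ) : ex (fun _ : Cube n => c) = c := by
  unfold ex
  rw [Finset.sum_const, Finset.card_univ, card_cube', nsmul_eq_mul]
  push_cast
  field_simp

lemma ex_mix (S : Finset (Fin n)) (g : Cube n → ℝ) :
    ex (fun y => ex (fun x => g (mix S y x))) = ex g := by
  have key : ∑ y : Cube n, ∑ x : Cube n, g (mix S y x) = ∑ _y : Cube n, ∑ x : Cube n, g x := by
    rw [← Fintype.sum_prod_type', ← Fintype.sum_prod_type']
    exact Equiv.sum_comp (swap_invol S).toPerm (fun p : Cube n × Cube n => g p.2)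
  have h1 : ex (fun y => ex (fun x => g (mix S y x)))
      = (∑ y : Cube n, ∑ x : Cube n, g (mix S y x)) / 2 ^ n / 2 ^ n := by
    unfold ex
    rw [← Finset.sum_div]
  have h2 : ex (fun _y : Cube n => ex g) = (∑ _y : Cube n, ∑ x : Cube n, g x) / 2 ^ n / 2 ^ n := by
    unfold ex
    rw [← Finset.sum_div]
  rw [h1, key, ← h2, ex_const']

lemma ex_mix_mul (S : Finset (Fin n)) (h φ : Cube n → ℝ) (hφ : ∀ x z, φ (mix S x z) = φ x) :
    ex (fun x => ex (fun z => h (mix S x z)) * φ x) = ex (fun x => h x * φ x) := by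
  have h1 : (fun x => ex (fun z => h (mix S x z)) * φ x)
      = fun x => ex (fun z => (fun w => h w * φ w) (mix S x z)) := by
    funext x
    have h2 : (fun z => (fun w => h w * φ w) (mix S x z)) = fun z => φ x * h (mix S x z) := by
      funext z
      simp only [hφ]
      ring
    rw [h2, ex_mul_left', mul_comm]
  rw [h1]
  exact ex_mix S (fun w => h w * φ w)

lemma ex_sg_mul (a : Fin n) (h : Cube n → ℝ) :
    ex (fun x => ((x a : ℤ) : ℝ) * h x) = ex (discreteDeriv a h) := by
  have h1 : ex (fun x => ((x a : ℤ) : ℝ) * h x)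
      = ex (fun x => (((flipOn {a} x) a : ℤ) : ℝ) * h (flipOn {a} x)) :=
    (ex_flipOn {a} (fun x => ((x a : ℤ) : ℝ) * h x)).symm
  have h2 : ex (fun x => ((x a : ℤ) : ℝ) * h x)
      + ex (fun x => (((flipOn {a} x) a : ℤ) : ℝ) * h (flipOn {a} x))
      = 2 * ex (discreteDeriv a h) := by
    rw [← ex_add', ← ex_mul_left']
    congr 1
    funext x
    have h3 := sub_flip h a x
    have h4 : (((flipOn {a} x) a : ℤ) : ℝ) = - ((x a : ℤ) : ℝ) := by
      simp [flipOn]
    rw [h4]
    have h5 := unit_sq (x a)
    have h6 : ((x a : ℤ) : ℝ) * h x + -((x a : ℤ) : ℝ) * h (flipOn {a} x)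
        = ((x a : ℤ) : ℝ) * (h x - h (flipOn {a} x)) := by ring
    rw [h6, h3]
    calc ((x a : ℤ) : ℝ) * (2 * ((x a : ℤ) : ℝ) * discreteDeriv a h x)
        = (((x a : ℤ) : ℝ) * ((x a : ℤ) : ℝ)) * (2 * discreteDeriv a h x) := by ring
      _ = 2 * discreteDeriv a h x := by rw [h5, one_mul]
  linarith

lemma ex_update_one (a : Fin n) (u : ℤˣ) (h : Cube n → ℝ) :
    ex (fun x => h (Function.update x a u))
      = ex (fun x => (1 + ((u : ℤ) : ℝ) * ((x a : ℤ) : ℝ)) * h x) := by
  have h1 : (fun x : Cube n => (1 + ((u : ℤ) : ℝ) * ((x a : ℤ) : ℝ)) * h x)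
      = fun x => h (Function.update x a u)
        + ((u : ℤ) : ℝ) * (((x a : ℤ) : ℝ) * h (Function.update x a u)) := by
    funext x
    by_cases hx : x a = u
    · have h2 : Function.update x a u = x := by rw [← hx]; exact Function.update_eq_self a x
      rw [h2]; ring
    · have h3 : (1 : ℝ) + ((u : ℤ) : ℝ) * ((x a : ℤ) : ℝ) = 0 := by
        rcases Int.units_eq_one_or (x a) with h4 | h4 <;>
          rcases Int.units_eq_one_or u with h5 | h5 <;> simp_all
      have h6 : h (Function.update x a u)
          + ((u : ℤ) : ℝ) * (((x a : ℤ) : ℝ) * h (Function.update x a u))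
          = (1 + ((u : ℤ) : ℝ) * ((x a : ℤ) : ℝ)) * h (Function.update x a u) := by ring
      rw [h6, h3, zero_mul, zero_mul]
  rw [h1, ex_add', ex_mul_left', ex_sg_mul a (fun x => h (Function.update x a u))]
  have h7 : discreteDeriv a (fun x : Cube n => h (Function.update x a u)) = fun _ => (0 : ℝ) := by
    funext x
    unfold discreteDeriv
    simp
  rw [h7, ex_const']
  ring

lemma exists_ex_le (g : Cube n → ℝ) : ∃ x, ex g ≤ g x := by
  by_contra hcon
  push Not at hcon
  have h1 : ∑ x : Cube n, g x < ∑ _x : Cube n, ex g :=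
    Finset.sum_lt_sum_of_nonempty ⟨fun _ => 1, Finset.mem_univ _⟩ (fun x _ => hcon x)
  rw [Finset.sum_const, Finset.card_univ, card_cube', nsmul_eq_mul] at h1
  have h2 : ((2 ^ n : ℕ) : ℝ) * ex g = ∑ x : Cube n, g x := by
    unfold ex
    push_cast
    field_simp
  linarith

end Pool.Agent.SUB
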