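import Mathlib
import Pool.Agent.SUB.Defs

/-!
SUBEXP module CUT: elementary properties of the cut-off `cut η p v = min 1 ((max 0 (v/η - 1))^p)`.

Write `t = max 0 (v/η - 1)`, `t' = max 0 (v'/η - 1)`.

* `cut_lip`: `|min 1 (t^p) - min 1 (t'^p)| ≤ p |min 1 t - min 1 t'| ≤ p |t - t'| ≤ (p/η) |v - v'|`
  (for `0 ≤ t' ≤ t ≤ 1` : `t^p - t'^p ≤ p t^(p-1) (t - t') ≤ p (t - t')`; note
  `min 1 (t^p) = (min 1 t)^p`).
* `cut_diff` (`v' ≤ v`): if `t ≤ 1/4` then
  `t^p - t'^p ≤ p t^(p-1)(t-t') ≤ p (1/4)^(p-1) (t-t') = 4 p (1/4)^p (t-t')`;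
  if `1/4 ≤ t ≤ 1` then `t^(p-1) ≤ 4 t^p`, so the difference is `≤ 4 p t^p (t-t')`;
  if `t > 1` then `cut v = 1` and the difference is `≤ p (t - t')` by `cut_lip`.
  Finally `t - t' ≤ (v - v')/η`.
* `cut_le_div`: `cut = 0` for `v ≤ η`, and `cut ≤ 1 ≤ v/η` for `v ≥ η`.
-/

set_option linter.dupNamespace false

namespace Pool.Agent.SUB

open Finset

lemma cut_nonneg {η : ℝ} {p : ℕ} (v : ℝ) : 0 ≤ cut η p v :=
  le_min zero_le_one (pow_nonneg (le_max_left _ _) _)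

lemma cut_le_one {η : ℝ} {p : ℕ} (v : ℝ) : cut η p v ≤ 1 := min_le_left _ _

lemma cut_eq_zero {η : ℝ} {p : ℕ} (hη : 0 < η) (hp : 1 ≤ p) {v : ℝ} (hv : v ≤ η) :
    cut η p v = 0 := by
  have h1 : v / η ≤ 1 := (div_le_one hη).2 hv
  unfold cut
  rw [max_eq_left (by linarith), zero_pow (by omega)]
  exact min_eq_right zero_le_one

lemma cut_eq_one {η : ℝ} {p : ℕ} (hη : 0 < η) {v : ℝ} (hv : 2 * η ≤ v) : cut η p v = 1 := by
  have h1 : 2 ≤ v / η := (le_div_iff₀ hη).2 hv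
  unfold cut
  refine min_eq_left ?_
  refine one_le_pow₀ ?_
  exact le_max_of_le_right (by linarith)

private lemma t_mono {η : ℝ} (hη : 0 < η) {v v' : ℝ} (h : v' ≤ v) :
    max 0 (v' / η - 1) ≤ max 0 (v / η - 1) := by
  have h1 : v' / η ≤ v / η := by gcongr
  exact max_le_max le_rfl (by linarith)

private lemma t_diff {η : ℝ} (hη : 0 < η) {v v' : ℝ} (h : v' ≤ v) :
    max 0 (v / η - 1) - max 0 (v' / η - 1) ≤ (v - v') / η := by
  have h1 : v' / η ≤ v / η := by gcongr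
  have h2 : (v - v') / η = v / η - v' / η := sub_div _ _ _
  rw [h2]
  have h3 : v' / η - 1 ≤ max 0 (v' / η - 1) := le_max_right _ _
  have h4 : (0 : ℝ) ≤ max 0 (v' / η - 1) := le_max_left _ _
  rcases max_cases (0 : ℝ) (v / η - 1) with h5 | h5 <;> linarith [h5.1]

lemma cut_mono {η : ℝ} {p : ℕ} (hη : 0 < η) {v v' : ℝ} (h : v' ≤ v) :
    cut η p v' ≤ cut η p v := by
  unfold cut
  exact min_le_min le_rfl (pow_le_pow_left₀ (le_max_left _ _) (t_mono hη h) _)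

private lemma pow_diff {a b : ℝ} (hb : 0 ≤ b) (hab : b ≤ a) (p : ℕ) :
    a ^ p - b ^ p ≤ p * a ^ (p - 1) * (a - b) := by
  have h1 := abs_pow_sub_pow_le a b p
  have ha : 0 ≤ a := hb.trans hab
  rw [abs_of_nonneg (sub_nonneg.2 hab), abs_of_nonneg ha, abs_of_nonneg hb, max_eq_left hab] at h1
  calc a ^ p - b ^ p ≤ |a ^ p - b ^ p| := le_abs_self _
    _ ≤ (a - b) * p * a ^ (p - 1) := h1
    _ = p * a ^ (p - 1) * (a - b) := by ring

private lemma min_pow {t : ℝ} (ht : 0 ≤ t) (p : ℕ) : min 1 (t ^ p) = (min 1 t) ^ p := by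
  rcases le_total t 1 with h | h
  · rw [min_eq_right h, min_eq_right (pow_le_one₀ ht h)]
  · rw [min_eq_left h, one_pow, min_eq_left (one_le_pow₀ h)]

/-- the one-sided form of `cut_lip` -/
private lemma cut_lip_aux {η : ℝ} {p : ℕ} (hη : 0 < η) {v v' : ℝ} (h : v' ≤ v) :
    cut η p v - cut η p v' ≤ p / η * (v - v') := by
  have h0 : (0 : ℝ) ≤ max 0 (v' / η - 1) := le_max_left _ _
  have h0' : (0 : ℝ) ≤ max 0 (v / η - 1) := le_max_left _ _
  have hm := t_mono hη h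
  have hd := t_diff hη h
  unfold cut
  rw [min_pow h0', min_pow h0]
  set t := max 0 (v / η - 1) with ht
  set t' := max 0 (v' / η - 1) with ht'
  have h1 : (0 : ℝ) ≤ min 1 t' := le_min zero_le_one h0
  have h2 : min 1 t' ≤ min 1 t := min_le_min le_rfl hm
  have h3 := pow_diff h1 h2 p
  have h4 : (min 1 t) ^ (p - 1) ≤ 1 := pow_le_one₀ (h1.trans h2) (min_le_left _ _)
  have h5 : min 1 t - min 1 t' ≤ t - t' := by
    rcases le_total t' 1 with h6 | h6
    · rw [min_eq_right h6]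
      linarith [min_le_right 1 t]
    · rw [min_eq_left h6, min_eq_left (h6.trans hm)]
      linarith
  have hp : (0 : ℝ) ≤ p := Nat.cast_nonneg _
  calc (min 1 t) ^ p - (min 1 t') ^ p ≤ p * (min 1 t) ^ (p - 1) * (min 1 t - min 1 t') := h3
    _ ≤ p * 1 * ((v - v') / η) := by
        have h7 : min 1 t - min 1 t' ≤ (v - v') / η := h5.trans hd
        have h8 : (0 : ℝ) ≤ min 1 t - min 1 t' := sub_nonneg.2 h2
        have h9 : (p : ℝ) * (min 1 t) ^ (p - 1) ≤ p * 1 := mul_le_mul_of_nonneg_left h4 hp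
        exact mul_le_mul h9 h7 h8 (by positivity)
    _ = p / η * (v - v') := by ring

lemma cut_lip {η : ℝ} {p : ℕ} (hη : 0 < η) (v v' : ℝ) :
    |cut η p v - cut η p v'| ≤ p / η * |v - v'| := by
  rcases le_total v' v with h | h
  · rw [abs_of_nonneg (sub_nonneg.2 (cut_mono hη h)), abs_of_nonneg (sub_nonneg.2 h)]
    exact cut_lip_aux hη h
  · rw [abs_sub_comm, abs_sub_comm v v', abs_of_nonneg (sub_nonneg.2 (cut_mono hη h)),
      abs_of_nonneg (sub_nonneg.2 h)]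
    exact cut_lip_aux hη h

lemma cut_diff {η : ℝ} {p : ℕ} (hη : 0 < η) (hp : 1 ≤ p) {v v' : ℝ} (h : v' ≤ v) :
    cut η p v - cut η p v' ≤ 4 * p / η * (v - v') * (cut η p v + (1 / 4) ^ p) := by
  have h0 : (0 : ℝ) ≤ max 0 (v' / η - 1) := le_max_left _ _
  have h0' : (0 : ℝ) ≤ max 0 (v / η - 1) := le_max_left _ _
  have hm := t_mono hη h
  have hd := t_diff hη h
  have hpp : (0 : ℝ) ≤ p := Nat.cast_nonneg _
  have hq : (0 : ℝ) < (1 / 4 : ℝ) ^ p := by positivity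
  have hvv : 0 ≤ v - v' := sub_nonneg.2 h
  have hX : 0 ≤ p / η * (v - v') := by positivity
  rcases le_or_gt (max 0 (v / η - 1)) 1 with h1 | h1
  · -- `t ≤ 1`
    have hc : cut η p v = (max 0 (v / η - 1)) ^ p := min_eq_right (pow_le_one₀ h0' h1)
    have hc' : cut η p v' = (max 0 (v' / η - 1)) ^ p :=
      min_eq_right (pow_le_one₀ h0 (hm.trans h1))
    rw [hc, hc']
    set t := max 0 (v / η - 1) with ht
    set t' := max 0 (v' / η - 1) with ht'
    have h3 := pow_diff h0 hm p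
    obtain ⟨r, rfl⟩ : ∃ r, p = r + 1 := ⟨p - 1, by omega⟩
    have h4 : t ^ (r + 1 - 1) ≤ 4 * (t ^ (r + 1) + (1 / 4) ^ (r + 1)) := by
      rw [Nat.add_sub_cancel]
      have h6 : 0 ≤ t ^ r := pow_nonneg h0' _
      have h7 : (0 : ℝ) ≤ (1 / 4 : ℝ) ^ r := by positivity
      rcases le_total t (1 / 4) with h5 | h5
      · have h8 : t ^ r ≤ (1 / 4) ^ r := pow_le_pow_left₀ h0' h5 _
        rw [pow_succ, pow_succ]
        nlinarith [mul_nonneg h6 h0']
      · rw [pow_succ, pow_succ]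
        nlinarith [mul_nonneg h6 (sub_nonneg.2 h5)]
    have h5 : 0 ≤ t - t' := sub_nonneg.2 hm
    have h6 : 0 ≤ t ^ (r + 1) + (1 / 4 : ℝ) ^ (r + 1) :=
      add_nonneg (pow_nonneg h0' _) hq.le
    calc t ^ (r + 1) - t' ^ (r + 1)
        ≤ ((r + 1 : ℕ) : ℝ) * t ^ (r + 1 - 1) * (t - t') := h3
      _ ≤ ((r + 1 : ℕ) : ℝ) * (4 * (t ^ (r + 1) + (1 / 4) ^ (r + 1))) * ((v - v') / η) := by
          refine mul_le_mul (mul_le_mul_of_nonneg_left h4 hpp) hd h5 ?_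
          exact mul_nonneg hpp (by linarith)
      _ = 4 * ((r + 1 : ℕ) : ℝ) / η * (v - v') * (t ^ (r + 1) + (1 / 4) ^ (r + 1)) := by ring
  · -- `t > 1`
    have hc : cut η p v = 1 := min_eq_left (one_le_pow₀ h1.le)
    have h2 := cut_lip_aux (p := p) hη h
    rw [hc] at h2 ⊢
    calc 1 - cut η p v' ≤ p / η * (v - v') := h2
      _ ≤ 4 * (p / η * (v - v')) * (1 + (1 / 4) ^ p) := by nlinarith
      _ = 4 * p / η * (v - v') * (1 + (1 / 4) ^ p) := by ring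

lemma cut_le_div {η : ℝ} {p : ℕ} (hη : 0 < η) (hp : 1 ≤ p) {v : ℝ} (hv : 0 ≤ v) :
    cut η p v ≤ v / η := by
  rcases le_total v η with h | h
  · rw [cut_eq_zero hη hp h]
    positivity
  · exact (cut_le_one v).trans ((one_le_div hη).2 h)

end Pool.Agent.SUB
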