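import Mathlib
import Pool.Agent.SUB.Cut
import Pool.Agent.SUB.Drv

/-!
SUBEXP module HW: elementary facts about `hw`, `Pw`, `bias`.

* `hw_le_ind`: `hw` vanishes unless `η < |D_w f(x)|`.
* `sum_hw_le`: `hw ≤ |D_w f(x)|/η` (`cut_le_div`), and `sum_abs_deriv`.
* `sum_Pw_le`: expectation of `sum_hw_le`.
* `abs_bias_le`: `|x_a h(x)| ≤ h(x)` for `h ≥ 0` (if `ex h = 0` the bias is `0` by convention).
* `bias_hw_self`: `D_w f`, hence `hw η p f w`, does not depend on the coordinate `w`, so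
  `ex (x_w * hw) = 0` (flip the coordinate `w`; `Pool.Agent.Helper11.AA.discreteDeriv_flip`).
-/

set_option linter.dupNamespace false

namespace Pool.Agent.SUB

open Finset Pool.Agent.Helper11.Cube Pool.Agent.Helper11.AA

variable {n d p : ℕ} {η : ℝ}

lemma hw_nonneg (f : Cube n → ℝ) (w : Fin n) (x : Cube n) : 0 ≤ hw η p f w x :=
  cut_nonneg _

lemma hw_le_one (f : Cube n → ℝ) (w : Fin n) (x : Cube n) : hw η p f w x ≤ 1 :=
  cut_le_one _

private lemma hwaux_ex_mono {g h : Cube n → ℝ} (H : ∀ x, g x ≤ h x) : ex g ≤ ex h := by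
  unfold ex
  have h1 : ∑ x, g x ≤ ∑ x, h x := Finset.sum_le_sum (fun x _ => H x)
  have h2 : (0 : ℝ) < 2 ^ n := by positivity
  exact (div_le_div_iff_of_pos_right h2).2 h1

private lemma hwaux_const (c : ℝ) : ex (fun _ : Cube n => c) = c := by
  have h : Fintype.card (Cube n) = 2 ^ n := by simp [Cube]
  unfold ex
  rw [Finset.sum_const, Finset.card_univ, h, nsmul_eq_mul]
  push_cast
  field_simp

private lemma hwaux_sum {ι : Type*} (s : Finset ι) (g : ι → Cube n → ℝ) :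
    ∑ i ∈ s, ex (g i) = ex (fun x => ∑ i ∈ s, g i x) := by
  unfold ex
  rw [← Finset.sum_div, Finset.sum_comm]

lemma Pw_nonneg (f : Cube n → ℝ) (w : Fin n) : 0 ≤ Pw η p f w := by
  have h := hwaux_ex_mono (n := n) (g := fun _ => 0) (h := hw η p f w) (hw_nonneg f w)
  rw [hwaux_const] at h
  exact h

lemma Pw_le_one (f : Cube n → ℝ) (w : Fin n) : Pw η p f w ≤ 1 := by
  have h := hwaux_ex_mono (n := n) (h := fun _ => 1) (g := hw η p f w) (hw_le_one f w)
  rw [hwaux_const] at h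
  exact h

lemma hw_eq_zero (hη : 0 < η) (hp : 1 ≤ p) {f : Cube n → ℝ} {w : Fin n} {x : Cube n}
    (h : |discreteDeriv w f x| ≤ η) : hw η p f w x = 0 :=
  cut_eq_zero hη hp h

lemma sum_hw_le (hη : 0 < η) (hp : 1 ≤ p) {f : Cube n → ℝ} (hf : Bdd d f) (x : Cube n) :
    ∑ w, hw η p f w x ≤ 2 * (d : ℝ) ^ 2 / η := by
  calc ∑ w, hw η p f w x ≤ ∑ w, |discreteDeriv w f x| / η :=
        Finset.sum_le_sum (fun w _ => cut_le_div hη hp (abs_nonneg _))
    _ = (∑ w, |discreteDeriv w f x|) / η := (Finset.sum_div _ _ _).symm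
    _ ≤ 2 * (d : ℝ) ^ 2 / η := (div_le_div_iff_of_pos_right hη).2 (sum_abs_deriv hf x)

lemma sum_Pw_le (hη : 0 < η) (hp : 1 ≤ p) {f : Cube n → ℝ} (hf : Bdd d f) :
    ∑ w, Pw η p f w ≤ 2 * (d : ℝ) ^ 2 / η := by
  have h1 : ∑ w, Pw η p f w = ex (fun x => ∑ w, hw η p f w x) :=
    hwaux_sum Finset.univ (fun w => hw η p f w)
  have h2 := hwaux_ex_mono (n := n) (g := fun x => ∑ w, hw η p f w x)
    (h := fun _ => 2 * (d : ℝ) ^ 2 / η) (fun x => sum_hw_le hη hp hf x)
  rw [hwaux_const] at h2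
  rw [h1]
  exact h2

lemma abs_bias_le {h : Cube n → ℝ} (h0 : ∀ x, 0 ≤ h x) (a : Fin n) : |bias h a| ≤ 1 := by
  have hE : 0 ≤ ex h := by
    have h1 := hwaux_ex_mono (n := n) (g := fun _ => 0) (h := h) h0
    rwa [hwaux_const] at h1
  have hu : ∀ x : Cube n, |((x a : ℤ) : ℝ) * h x| ≤ h x := by
    intro x
    rw [abs_mul, abs_unit, one_mul, abs_of_nonneg (h0 x)]
  have hup : ex (fun x => ((x a : ℤ) : ℝ) * h x) ≤ ex h :=
    hwaux_ex_mono (fun x => (abs_le.1 (hu x)).2)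
  have hlo : -ex h ≤ ex (fun x => ((x a : ℤ) : ℝ) * h x) := by
    have h1 : ex (fun x => -h x) = -ex h := by
      unfold ex
      rw [Finset.sum_neg_distrib, neg_div]
    rw [← h1]
    exact hwaux_ex_mono (fun x => (abs_le.1 (hu x)).1)
  unfold bias
  rw [abs_div, abs_of_nonneg hE]
  exact div_le_one_of_le₀ (abs_le.2 ⟨hlo, hup⟩) hE

lemma bias_hw_self (f : Cube n → ℝ) (w : Fin n) : bias (hw η p f w) w = 0 := by
  have hfl : ∀ x : Cube n, flipOn {w} (flipOn {w} x) = x := by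
    intro x
    funext i
    unfold flipOn
    by_cases h : i ∈ ({w} : Finset (Fin n)) <;> simp [h]
  have hex : ∀ g : Cube n → ℝ, ex (fun x => g (flipOn {w} x)) = ex g := by
    intro g
    unfold ex
    congr 1
    have hinv : Function.Involutive (flipOn {w} : Cube n → Cube n) := hfl
    exact Equiv.sum_comp hinv.toPerm g
  have h1 : ex (fun x => ((x w : ℤ) : ℝ) * hw η p f w x)
      = ex (fun x => -(((x w : ℤ) : ℝ) * hw η p f w x)) := by
    rw [← hex (fun x => ((x w : ℤ) : ℝ) * hw η p f w x)]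
    congr 1
    funext x
    have h4 : (((flipOn {w} x) w : ℤ) : ℝ) = - ((x w : ℤ) : ℝ) := by
      simp [flipOn]
    have h5 : hw η p f w (flipOn {w} x) = hw η p f w x := by
      unfold hw
      rw [discreteDeriv_flip]
    rw [h4, h5]
    ring
  have h2 : ex (fun x => -(((x w : ℤ) : ℝ) * hw η p f w x))
      = - ex (fun x => ((x w : ℤ) : ℝ) * hw η p f w x) := by
    unfold ex
    rw [Finset.sum_neg_distrib, neg_div]
  have h3 : ex (fun x => ((x w : ℤ) : ℝ) * hw η p f w x) = 0 := by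
    rw [h2] at h1
    linarith
  unfold bias
  rw [h3, zero_div]

end Pool.Agent.SUB
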