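import Mathlib
import Pool.Agent.SUB.Hw
import Pool.Agent.SUB.KLReal
import Pool.Agent.SUB.Ex

/-!
SUBEXP module ENT: entropy bounds.

`exp_sum_KL_le`: for `h ≥ 0` with `P = ex h > 0`, a set `C` of coordinates and
`E[h | x_C](x) = ex_z h (mix C x z)`,
`exp (∑_{a ∈ C} KL (bias h a)) * P^2 ≤ ex ((E[h | x_C])^2)`.

Proof. Put `ψ x = ex_z h(mix C x z) / P` (`≥ 0`, `ex ψ = 1` by `ex_mix_mul` with `φ = 1`),
`b_a = bias h a`, `A = ex (ψ^2)`, `q x = ∏_{a ∈ C} (1 + b_a x_a)` (`≥ 0` as `|b_a| ≤ 1`,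
`ex q = 1`: expand, or `sum_prod_cube` of `Helper11.Cube`).
(a) `ex (ψ x * ∑_{a∈C} log (1 + b_a x_a)) = ∑_{a ∈ C} KL b_a`: for `a ∈ C`,
`log (1 + b_a x_a) = (log(1+b_a) + log(1-b_a))/2 + x_a (log(1+b_a) - log(1-b_a))/2` and
`ex (ψ x * x_a) = ex (h x * x_a)/P = b_a` (`ex_mix_mul` with `φ x = x_a`, `a ∈ C`).
(b) Pointwise `ψ * ∑_{a∈C} log (1 + b_a x_a) ≤ ψ log A + ψ (ψ/A - 1) + q - ψ`.
If `ψ x = 0` the left side is `0 ≤ q`. If `ψ x > 0`: all factors `1 + b_a x_a` are `> 0`
(if `1 + b_a x_a = 0` for some `a ∈ C` then `ex ((1 + x_a x'_a) h(x')) = P (1 + x_a b_a) = 0` with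
nonnegative integrand, so `h(x') = 0` whenever `x'_a = x_a`, so `ψ x = 0`), so the sum of logs is
`log q`, `log q ≤ log ψ + q/ψ - 1` and `log ψ ≤ log A + ψ/A - 1` (`Real.log_le_sub_one_of_pos`);
`A > 0` since `ex ψ = 1`.
(c) Take expectations: `∑ KL ≤ log A + (A/A - 1) + 1 - 1 = log A`. Exponentiate:
`exp(∑ KL) ≤ A = ex((E[h|x_C])^2)/P^2`.

`sum_KL_le`: for `C = univ`, `mix univ x z = x`, so `exp (∑ KL) P^2 ≤ ex (h^2) ≤ ex h = P`, i.e.
`∑ KL ≤ log (1/P)`.
-/

set_option linter.dupNamespace false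

namespace Pool.Agent.SUB

open Finset Pool.Agent.Helper11.Cube Pool.Agent.Helper11.AA

variable {n : ℕ}

private lemma ex_q (b : Fin n → ℝ) (C : Finset (Fin n)) :
    ex (fun x : Cube n => ∏ a ∈ C, (1 + b a * ((x a : ℤ) : ℝ))) = 1 := by
  have h1 : ∀ x : Cube n, ∏ a ∈ C, (1 + b a * ((x a : ℤ) : ℝ))
      = ∏ a, (if a ∈ C then (1 + b a * ((x a : ℤ) : ℝ)) else 1) := by
    intro x
    rw [Finset.prod_ite_mem, Finset.univ_inter]
  unfold ex
  have h2 : ∑ x : Cube n, ∏ a ∈ C, (1 + b a * ((x a : ℤ) : ℝ)) = (2 : ℝ) ^ n := by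
    rw [Finset.sum_congr rfl (fun x _ => h1 x),
      sum_prod_cube (fun a u => if a ∈ C then (1 + b a * ((u : ℤ) : ℝ)) else 1)]
    have h3 : ∀ a ∈ (univ : Finset (Fin n)),
        ((if a ∈ C then (1 + b a * (((1 : ℤˣ) : ℤ) : ℝ)) else 1)
          + (if a ∈ C then (1 + b a * (((-1 : ℤˣ) : ℤ) : ℝ)) else 1)) = (2 : ℝ) := by
      intro a _
      split_ifs
      · push_cast
        ring
      · norm_num
    rw [Finset.prod_congr rfl h3, Finset.prod_const, Finset.card_univ, Fintype.card_fin]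
  rw [h2]
  exact div_self (two_pow_pos n).ne'

private lemma log_one_add (b : ℝ) (u : ℤˣ) :
    Real.log (1 + b * ((u : ℤ) : ℝ))
      = (Real.log (1 + b) + Real.log (1 - b)) / 2
        + (Real.log (1 + b) - Real.log (1 - b)) / 2 * ((u : ℤ) : ℝ) := by
  rcases Int.units_eq_one_or u with rfl | rfl
  · push_cast
    rw [mul_one, mul_one]
    ring
  · push_cast
    rw [mul_neg_one, mul_neg_one, ← sub_eq_add_neg]
    ring

theorem exp_sum_KL_le {h : Cube n → ℝ} (h0 : ∀ x, 0 ≤ h x) (hP : 0 < ex h)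
    (C : Finset (Fin n)) :
    Real.exp (∑ a ∈ C, KL (bias h a)) * ex h ^ 2
      ≤ ex (fun x => ex (fun z => h (mix C x z)) ^ 2) := by
  set P := ex h with hPdef
  set E : Cube n → ℝ := fun x => ex (fun z => h (mix C x z)) with hE
  have hE0 : ∀ x, 0 ≤ E x := fun x => ex_nonneg (fun z => h0 _)
  -- `ψ`
  obtain ⟨ψ, hψx⟩ : ∃ ψ : Cube n → ℝ, ∀ x, ψ x = P⁻¹ * E x := ⟨fun x => P⁻¹ * E x, fun _ => rfl⟩
  have hψ0 : ∀ x, 0 ≤ ψ x := fun x => by
    rw [hψx]; exact mul_nonneg (inv_nonneg.2 hP.le) (hE0 x)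
  have hexψφ : ∀ φ : Cube n → ℝ, (∀ x z, φ (mix C x z) = φ x) →
      ex (fun x => ψ x * φ x) = P⁻¹ * ex (fun x => h x * φ x) := by
    intro φ hφ
    rw [← ex_mix_mul C h φ hφ, ← ex_const_mul]
    congr 1
    funext x
    simp only [hψx, hE]
    ring
  have hexψ : ex ψ = 1 := by
    have h1 := hexψφ (fun _ => 1) (fun _ _ => rfl)
    simp only [mul_one] at h1
    rw [show ex ψ = ex (fun x => ψ x) from rfl, h1]
    exact inv_mul_cancel₀ hP.ne'
  have hexψa : ∀ a ∈ C, ex (fun x => ψ x * ((x a : ℤ) : ℝ)) = bias h a := by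
    intro a ha
    rw [hexψφ (fun x => ((x a : ℤ) : ℝ)) (fun x z => by simp [mix, ha])]
    unfold bias
    rw [div_eq_inv_mul]
    congr 2
    funext x
    ring
  set A := ex (fun x => ψ x ^ 2) with hA
  have hA1 : 1 ≤ A := by
    have h1 : 0 ≤ ex (fun x => (ψ x - 1) ^ 2) := ex_nonneg (fun x => sq_nonneg _)
    have h2 : ex (fun x => (ψ x - 1) ^ 2) = A - 2 * ex ψ + 1 := by
      have h3 : (fun x => (ψ x - 1) ^ 2) = (fun x => (ψ x ^ 2 - 2 * ψ x) + 1) := by
        funext x; ring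
      rw [h3, ex_add, ex_sub, ex_const_mul, ex_const]
    rw [h2, hexψ] at h1
    linarith
  have hA0 : 0 < A := lt_of_lt_of_le one_pos hA1
  -- (a)
  have ha : ex (fun x => ψ x * ∑ a ∈ C, Real.log (1 + bias h a * ((x a : ℤ) : ℝ)))
      = ∑ a ∈ C, KL (bias h a) := by
    have h1 : (fun x : Cube n => ψ x * ∑ a ∈ C, Real.log (1 + bias h a * ((x a : ℤ) : ℝ)))
        = (fun x => ∑ a ∈ C, ψ x * Real.log (1 + bias h a * ((x a : ℤ) : ℝ))) := by
      funext x
      rw [Finset.mul_sum]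
    rw [h1, ex_sum]
    refine Finset.sum_congr rfl (fun a haC => ?_)
    set b := bias h a with hb
    have h2 : (fun x : Cube n => ψ x * Real.log (1 + b * ((x a : ℤ) : ℝ)))
        = (fun x => (Real.log (1 + b) + Real.log (1 - b)) / 2 * ψ x
          + (Real.log (1 + b) - Real.log (1 - b)) / 2 * (ψ x * ((x a : ℤ) : ℝ))) := by
      funext x
      rw [log_one_add]
      ring
    rw [h2, ex_add, ex_const_mul, ex_const_mul, hexψa a haC, show ex (fun x => ψ x) = ex ψ from rfl,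
      hexψ, ← hb]
    unfold KL
    ring
  -- (b)
  have hb : ∀ x : Cube n, ψ x * ∑ a ∈ C, Real.log (1 + bias h a * ((x a : ℤ) : ℝ))
      ≤ (Real.log A * ψ x + (A⁻¹ * ψ x ^ 2 - ψ x))
        + (∏ a ∈ C, (1 + bias h a * ((x a : ℤ) : ℝ)) - ψ x) := by
    intro x
    have hfac0 : ∀ a, 0 ≤ 1 + bias h a * ((x a : ℤ) : ℝ) := by
      intro a
      have h1 := abs_le.1 (abs_bias_le h0 a)
      rcases Int.units_eq_one_or (x a) with h2 | h2
      · rw [h2]; push_cast; linarith [h1.1]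
      · rw [h2]; push_cast; linarith [h1.2]
    have hq0 : 0 ≤ ∏ a ∈ C, (1 + bias h a * ((x a : ℤ) : ℝ)) :=
      Finset.prod_nonneg (fun a _ => hfac0 a)
    rcases (hψ0 x).eq_or_lt with hz | hpos
    · rw [← hz]
      simp only [zero_mul, mul_zero, zero_pow (two_ne_zero), sub_zero, add_zero, zero_add]
      exact hq0
    · have hfac : ∀ a ∈ C, 0 < 1 + bias h a * ((x a : ℤ) : ℝ) := by
        intro a haC
        refine lt_of_le_of_ne (hfac0 a) (fun hzero => ?_)
        -- `ex ((1 + x_a x'_a) h x') = 0`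
        have h1 : ex (fun y : Cube n => (1 + ((x a : ℤ) : ℝ) * ((y a : ℤ) : ℝ)) * h y) = 0 := by
          have h2 : (fun y : Cube n => (1 + ((x a : ℤ) : ℝ) * ((y a : ℤ) : ℝ)) * h y)
              = (fun y => h y + ((x a : ℤ) : ℝ) * (((y a : ℤ) : ℝ) * h y)) := by
            funext y; ring
          rw [h2, ex_add, ex_const_mul]
          have h3 : ex (fun y : Cube n => ((y a : ℤ) : ℝ) * h y) = bias h a * P := by
            unfold bias
            rw [div_mul_cancel₀ _ hP.ne']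
          rw [h3]
          have h4 : ex (fun y => h y) + ((x a : ℤ) : ℝ) * (bias h a * P)
              = P * (1 + bias h a * ((x a : ℤ) : ℝ)) := by
            rw [show ex (fun y => h y) = P from rfl]
            ring
          rw [h4, ← hzero, mul_zero]
        have h5 : ∀ y : Cube n, 0 ≤ (1 + ((x a : ℤ) : ℝ) * ((y a : ℤ) : ℝ)) * h y := by
          intro y
          refine mul_nonneg ?_ (h0 y)
          rcases Int.units_eq_one_or (x a) with h2 | h2 <;>
            rcases Int.units_eq_one_or (y a) with h3 | h3 <;> rw [h2, h3] <;> push_cast <;>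
            norm_num
        have h6 : ∀ y : Cube n, (1 + ((x a : ℤ) : ℝ) * ((y a : ℤ) : ℝ)) * h y = 0 := by
          have h7 : ∑ y : Cube n, (1 + ((x a : ℤ) : ℝ) * ((y a : ℤ) : ℝ)) * h y = 0 := by
            have h8 := h1
            unfold ex at h8
            rcases div_eq_zero_iff.1 h8 with h9 | h9
            · exact h9
            · exact absurd h9 (two_pow_pos n).ne'
          intro y
          exact (Finset.sum_eq_zero_iff_of_nonneg (fun y _ => h5 y)).1 h7 y (Finset.mem_univ y)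
        have h10 : ∀ z : Cube n, h (mix C x z) = 0 := by
          intro z
          have h11 := h6 (mix C x z)
          have h12 : mix C x z a = x a := by simp [mix, haC]
          rw [h12, unit_sq] at h11
          have h13 : (1 + 1 : ℝ) ≠ 0 := by norm_num
          exact (mul_eq_zero.1 h11).resolve_left h13
        have h14 : E x = 0 := by
          simp only [hE, h10]
          exact ex_const 0
        rw [hψx, h14, mul_zero] at hpos
        exact lt_irrefl _ hpos
      have hqpos : 0 < ∏ a ∈ C, (1 + bias h a * ((x a : ℤ) : ℝ)) :=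
        Finset.prod_pos hfac
      have hlog : ∑ a ∈ C, Real.log (1 + bias h a * ((x a : ℤ) : ℝ))
          = Real.log (∏ a ∈ C, (1 + bias h a * ((x a : ℤ) : ℝ))) := by
        rw [Real.log_prod (fun a ha => (hfac a ha).ne')]
      rw [hlog]
      set q := ∏ a ∈ C, (1 + bias h a * ((x a : ℤ) : ℝ)) with hq
      have e1 : Real.log q - Real.log (ψ x) ≤ q / ψ x - 1 := by
        rw [← Real.log_div hqpos.ne' hpos.ne']
        exact Real.log_le_sub_one_of_pos (div_pos hqpos hpos)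
      have e2 : Real.log (ψ x) - Real.log A ≤ ψ x / A - 1 := by
        rw [← Real.log_div hpos.ne' hA0.ne']
        exact Real.log_le_sub_one_of_pos (div_pos hpos hA0)
      have e3 : ψ x * (Real.log q - Real.log (ψ x)) ≤ q - ψ x := by
        calc ψ x * (Real.log q - Real.log (ψ x)) ≤ ψ x * (q / ψ x - 1) :=
              mul_le_mul_of_nonneg_left e1 hpos.le
          _ = q - ψ x := by
              rw [mul_sub, mul_div_cancel₀ _ hpos.ne', mul_one]
      have e4 : ψ x * (Real.log (ψ x) - Real.log A) ≤ A⁻¹ * ψ x ^ 2 - ψ x := by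
        calc ψ x * (Real.log (ψ x) - Real.log A) ≤ ψ x * (ψ x / A - 1) :=
              mul_le_mul_of_nonneg_left e2 hpos.le
          _ = A⁻¹ * ψ x ^ 2 - ψ x := by
              rw [div_eq_mul_inv]; ring
      have e5 : ψ x * Real.log q = ψ x * (Real.log q - Real.log (ψ x))
          + ψ x * (Real.log (ψ x) - Real.log A) + Real.log A * ψ x := by ring
      rw [e5]
      linarith
  -- (c)
  have hc : ∑ a ∈ C, KL (bias h a) ≤ Real.log A := by
    rw [← ha]
    refine (ex_mono hb).trans (le_of_eq ?_)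
    rw [ex_add, ex_add, ex_sub, ex_sub, ex_const_mul, ex_const_mul, ex_q,
      show ex (fun x => ψ x) = ex ψ from rfl, hexψ, ← hA, inv_mul_cancel₀ hA0.ne']
    ring
  have hd : Real.exp (∑ a ∈ C, KL (bias h a)) ≤ A := by
    calc Real.exp (∑ a ∈ C, KL (bias h a)) ≤ Real.exp (Real.log A) := Real.exp_le_exp.2 hc
      _ = A := Real.exp_log hA0
  have he : A * P ^ 2 = ex (fun x => E x ^ 2) := by
    have h1 : (fun x => ψ x ^ 2) = (fun x => (P⁻¹) ^ 2 * E x ^ 2) := by
      funext x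
      rw [hψx, mul_pow]
    rw [hA, h1, ex_const_mul]
    field_simp
  rw [← he]
  exact mul_le_mul_of_nonneg_right hd (sq_nonneg P)

theorem sum_KL_le {h : Cube n → ℝ} (h0 : ∀ x, 0 ≤ h x) (h1 : ∀ x, h x ≤ 1) (hP : 0 < ex h) :
    ∑ a, KL (bias h a) ≤ - Real.log (ex h) := by
  have hmain := exp_sum_KL_le h0 hP Finset.univ
  have h2 : (fun x : Cube n => ex (fun z => h (mix Finset.univ x z)) ^ 2) = (fun x => h x ^ 2) := by
    funext x
    have h3 : ∀ z, mix Finset.univ x z = x := by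
      intro z
      funext i
      simp [mix]
    simp only [h3, ex_const]
  rw [h2] at hmain
  have h4 : ex (fun x => h x ^ 2) ≤ ex h := by
    refine ex_mono (fun x => ?_)
    have := h0 x
    have := h1 x
    nlinarith
  have h5 : Real.exp (∑ a, KL (bias h a)) * ex h ≤ 1 := by
    have h6 : Real.exp (∑ a, KL (bias h a)) * ex h * ex h ≤ 1 * ex h := by
      calc Real.exp (∑ a, KL (bias h a)) * ex h * ex h
          = Real.exp (∑ a, KL (bias h a)) * ex h ^ 2 := by ring
        _ ≤ ex (fun x => h x ^ 2) := hmain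
        _ ≤ ex h := h4
        _ = 1 * ex h := (one_mul _).symm
    exact le_of_mul_le_mul_right h6 hP
  have h7 : Real.exp (∑ a, KL (bias h a)) ≤ (ex h)⁻¹ := by
    rw [← one_div]
    exact (le_div_iff₀ hP).2 h5
  rw [← Real.log_inv]
  exact (Real.le_log_iff_exp_le (inv_pos.2 hP)).2 h7

end Pool.Agent.SUB
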