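import Mathlib
import Pool.Agent.SUB.Defs

/-!
SUBEXP module AVB: `avg s` is an expectation for `0 ≤ s ≤ 1`.

`∑_S s^|S| (1-s)^(n-|S|) = 1` (`Fintype.sum_pow_mul_eq_add_pow`), weights are nonnegative.
`avg_zero`: for `s = 0` only `S = ∅` has nonzero weight and `mix ∅ y x = x`.
-/

set_option linter.dupNamespace false

namespace Pool.Agent.SUB

open Finset Pool.Agent.Helper11.Cube Pool.Agent.Helper11.AA

variable {n : ℕ}

lemma wt_nonneg {s : ℝ} (h0 : 0 ≤ s) (h1 : s ≤ 1) (S : Finset (Fin n)) : 0 ≤ wt s S := by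
  have : 0 ≤ 1 - s := by linarith
  unfold wt
  positivity

lemma sum_wt (s : ℝ) : ∑ S : Finset (Fin n), wt s S = 1 := by
  have h := Fintype.sum_pow_mul_eq_add_pow (Fin n) s (1 - s)
  rw [show s + (1 - s) = 1 by ring, one_pow] at h
  rw [← h]
  refine sum_congr rfl fun S _ => ?_
  rw [wt, card_compl]

lemma avg_const (s c : ℝ) (f : Cube n → ℝ) : avg s (fun _ => c) f = c := by
  unfold avg
  simp_rw [ex_const]
  rw [← sum_mul, sum_wt, one_mul]

lemma avg_add (s : ℝ) (F G : (Cube n → ℝ) → ℝ) (f : Cube n → ℝ) :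
    avg s (fun g => F g + G g) f = avg s F f + avg s G f := by
  unfold avg
  rw [← sum_add_distrib]
  refine sum_congr rfl fun S _ => ?_
  rw [ex_add, mul_add]

lemma avg_const_mul (s c : ℝ) (F : (Cube n → ℝ) → ℝ) (f : Cube n → ℝ) :
    avg s (fun g => c * F g) f = c * avg s F f := by
  unfold avg
  rw [mul_sum]
  refine sum_congr rfl fun S _ => ?_
  rw [ex_const_mul]
  ring

lemma avg_mono {s : ℝ} (h0 : 0 ≤ s) (h1 : s ≤ 1) {F G : (Cube n → ℝ) → ℝ} {f : Cube n → ℝ}
    (h : ∀ S y, F (fun x => f (mix S y x)) ≤ G (fun x => f (mix S y x))) :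
    avg s F f ≤ avg s G f := by
  unfold avg
  refine sum_le_sum fun S _ => ?_
  exact mul_le_mul_of_nonneg_left (ex_mono fun y => h S y) (wt_nonneg h0 h1 S)

lemma avg_zero (F : (Cube n → ℝ) → ℝ) (f : Cube n → ℝ) : avg 0 F f = F f := by
  unfold avg
  rw [sum_eq_single (∅ : Finset (Fin n))]
  · have h1 : wt 0 (∅ : Finset (Fin n)) = 1 := by simp [wt]
    have h2 : ∀ y : Cube n, F (fun x => f (mix ∅ y x)) = F f := by
      intro y
      congr 1
    simp_rw [h2]
    rw [ex_const, h1, one_mul]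
  · intro S _ hS
    have : wt 0 S = 0 := by
      unfold wt
      rw [zero_pow (card_ne_zero.mpr (nonempty_iff_ne_empty.mpr hS)), zero_mul]
    rw [this, zero_mul]
  · intro h
    exact absurd (mem_univ _) h

end Pool.Agent.SUB
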