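import Mathlib
import Pool.Agent.SUB.AvgBasic
import Pool.Agent.SUB.Ex

/-!
SUBEXP module AVD: the derivative of the random restriction average in the density.

Write `A S = ex_y F(x ↦ f (mix S y x))`, so `avg s F f = ∑_S wt s S * A S`.

`avg_lap`: `avg s (lap F) f = ∑_S wt s S * ∑_{a ∉ S} (A (insert a S) - A S)`. For `a ∈ S`,
`mix S y (update x a u) = mix S y x`, so the `a`-th term of `lap F` vanishes. For `a ∉ S`,
`mix S y (update x a u) = mix (insert a S) (update y a u) x`, so averaging over `u` and `y`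
(`ex_update` for the function `y ↦ F (x ↦ f (mix (insert a S) y x))`) gives `A (insert a S)`.

`hasDerivAt_avg`: `d/ds s^|S| (1-s)^|Sᶜ| = |S| s^(|S|-1) (1-s)^|Sᶜ| - |Sᶜ| s^|S| (1-s)^(|Sᶜ|-1)`;
`∑_S ∑_{a∈S} s^(|S|-1)(1-s)^|Sᶜ| A S = ∑_S ∑_{a∉S} s^|S| (1-s)^(|Sᶜ|-1) A (insert a S)` (bijection
`(S, a ∈ S) ↔ (S.erase a, a)`), so the derivative is
`∑_S ∑_{a ∉ S} s^|S| (1-s)^(|Sᶜ|-1) (A (insert a S) - A S)`, which is `avg_lap / (1 - s)`
(`(1-s)^(|Sᶜ|-1) (1-s) = (1-s)^|Sᶜ|` when `Sᶜ ≠ ∅`).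
-/

set_option linter.dupNamespace false

namespace Pool.Agent.SUB

open Finset Pool.Agent.Helper11.Cube Pool.Agent.Helper11.AA

variable {n : ℕ}

lemma avd_ex_sum {ι : Type*} (T : Finset ι) (g : ι → Cube n → ℝ) :
    ex (fun y => ∑ a ∈ T, g a y) = ∑ a ∈ T, ex (g a) := by
  unfold ex
  rw [sum_comm, sum_div]

lemma avd_ex_sub (f g : Cube n → ℝ) : ex (fun x => f x - g x) = ex f - ex g := by
  unfold ex
  rw [sum_sub_distrib, sub_div]

lemma avd_mix_mem (S : Finset (Fin n)) (y x : Cube n) {a : Fin n} (ha : a ∈ S) (u : ℤˣ) :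
    mix S y (Function.update x a u) = mix S y x := by
  funext i
  unfold mix
  by_cases hi : i ∈ S
  · simp [hi]
  · have : i ≠ a := fun h => hi (h ▸ ha)
    simp [hi, Function.update_of_ne this]

lemma avd_mix_notMem (S : Finset (Fin n)) (y x : Cube n) {a : Fin n} (ha : a ∉ S) (u : ℤˣ) :
    mix S y (Function.update x a u) = mix (insert a S) (Function.update y a u) x := by
  funext i
  unfold mix
  by_cases hia : i = a
  · subst hia
    simp [ha]
  · by_cases hi : i ∈ S
    · simp [hi, Function.update_of_ne hia]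
    · simp [hi, hia, Function.update_of_ne hia]

lemma avg_lap (s : ℝ) (F : (Cube n → ℝ) → ℝ) (f : Cube n → ℝ) :
    avg s (lap F) f = ∑ S : Finset (Fin n), wt s S * ∑ a ∈ Sᶜ,
      (ex (fun y => F (fun x => f (mix (insert a S) y x))) - ex (fun y => F (fun x => f (mix S y x)))) := by
  unfold avg lap
  refine sum_congr rfl fun S _ => ?_
  congr 1
  rw [avd_ex_sum]
  rw [← sum_add_sum_compl S]
  have h1 : ∑ a ∈ S, ex (fun y : Cube n => (F (fun x => f (mix S y (Function.update x a 1)))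
      + F (fun x => f (mix S y (Function.update x a (-1))))) / 2 - F (fun x => f (mix S y x))) = 0 := by
    refine sum_eq_zero fun a ha => ?_
    simp_rw [avd_mix_mem S _ _ ha]
    unfold ex
    have : ∀ y : Cube n, (F (fun x => f (mix S y x)) + F (fun x => f (mix S y x))) / 2
        - F (fun x => f (mix S y x)) = 0 := fun y => by ring
    simp_rw [this]
    simp
  rw [h1, zero_add]
  refine sum_congr rfl fun a ha => ?_
  have ha' : a ∉ S := by simpa using ha
  rw [avd_ex_sub]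
  congr 1
  simp_rw [avd_mix_notMem S _ _ ha']
  exact ex_update a (fun y => F (fun x => f (mix (insert a S) y x)))

/-- Reindexing `(S, a ∉ S) ↔ (T, a ∈ T)`. -/
lemma avd_reindex (c A : Finset (Fin n) → ℝ) :
    ∑ S : Finset (Fin n), ∑ a ∈ Sᶜ, c S * A (insert a S) =
      ∑ T : Finset (Fin n), ∑ a ∈ T, c (T.erase a) * A T := by
  rw [sum_sigma', sum_sigma']
  refine sum_nbij' (fun p => ⟨insert p.2 p.1, p.2⟩) (fun p => ⟨p.1.erase p.2, p.2⟩) ?_ ?_ ?_ ?_ ?_
  · rintro ⟨S, a⟩ h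
    simp
  · rintro ⟨S, a⟩ h
    simp
  · rintro ⟨S, a⟩ h
    have ha : a ∉ S := by simpa using h
    simp [erase_insert ha]
  · rintro ⟨S, a⟩ h
    have ha : a ∈ S := by simpa using h
    simp [insert_erase ha]
  · rintro ⟨S, a⟩ h
    have ha : a ∉ S := by simpa using h
    simp [erase_insert ha]

theorem hasDerivAt_avg (F : (Cube n → ℝ) → ℝ) (f : Cube n → ℝ) {s : ℝ} (hs : s ≠ 1) :
    HasDerivAt (fun s => avg s F f) (avg s (lap F) f / (1 - s)) s := by
  set A : Finset (Fin n) → ℝ := fun S => ex (fun y => F (fun x => f (mix S y x))) with hA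
  have hs' : (1 - s) ≠ 0 := sub_ne_zero.mpr hs.symm
  have hwt : ∀ S : Finset (Fin n), HasDerivAt (fun s => wt s S)
      ((S.card : ℝ) * s ^ (S.card - 1) * (1 - s) ^ (Sᶜ).card
        - ((Sᶜ).card : ℝ) * (s ^ S.card * (1 - s) ^ ((Sᶜ).card - 1))) s := by
    intro S
    have h1 : HasDerivAt (fun s : ℝ => s ^ S.card) ((S.card : ℝ) * s ^ (S.card - 1)) s :=
      hasDerivAt_pow S.card s
    have h2 : HasDerivAt (fun s : ℝ => (1 - s) ^ (Sᶜ).card)
        (((Sᶜ).card : ℝ) * (1 - s) ^ ((Sᶜ).card - 1) * (-1)) s := by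
      have := HasDerivAt.fun_pow ((hasDerivAt_id s).const_sub 1) (Sᶜ).card
      simpa using this
    have h3 := h1.mul h2
    unfold wt
    convert! h3 using 1
    ring
  have hmain : HasDerivAt (fun s => avg s F f)
      (∑ S : Finset (Fin n), ((S.card : ℝ) * s ^ (S.card - 1) * (1 - s) ^ (Sᶜ).card
        - ((Sᶜ).card : ℝ) * (s ^ S.card * (1 - s) ^ ((Sᶜ).card - 1))) * A S) s := by
    unfold avg
    refine HasDerivAt.fun_sum fun S _ => ?_
    exact (hwt S).mul_const (A S)
  convert! hmain using 1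
  rw [avg_lap, sum_div]
  set c : Finset (Fin n) → ℝ := fun S => s ^ S.card * (1 - s) ^ ((Sᶜ).card - 1) with hc
  have e1 : ∀ S : Finset (Fin n), (wt s S * ∑ a ∈ Sᶜ, (A (insert a S) - A S)) / (1 - s) =
      ∑ a ∈ Sᶜ, c S * A (insert a S) - ((Sᶜ).card : ℝ) * c S * A S := by
    intro S
    have e2 : ∀ a ∈ Sᶜ, wt s S / (1 - s) = c S := by
      intro a ha
      have hpos : 0 < (Sᶜ).card := card_pos.mpr ⟨a, ha⟩
      obtain ⟨k, hk⟩ : ∃ k, (Sᶜ).card = k + 1 := ⟨(Sᶜ).card - 1, by omega⟩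
      simp only [wt, hc, hk, Nat.add_sub_cancel]
      rw [pow_succ]
      field_simp
    have e3 : (wt s S * ∑ a ∈ Sᶜ, (A (insert a S) - A S)) / (1 - s) =
        ∑ a ∈ Sᶜ, (c S * A (insert a S) - c S * A S) := by
      rw [mul_div_right_comm, mul_sum]
      refine sum_congr rfl fun a ha => ?_
      rw [e2 a ha]
      ring
    rw [e3, sum_sub_distrib, sum_const, nsmul_eq_mul]
    ring
  have e4 : ∀ T : Finset (Fin n), ∑ a ∈ T, c (T.erase a) * A T =
      (T.card : ℝ) * s ^ (T.card - 1) * (1 - s) ^ (Tᶜ).card * A T := by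
    intro T
    have : ∀ a ∈ T, c (T.erase a) * A T = s ^ (T.card - 1) * (1 - s) ^ (Tᶜ).card * A T := by
      intro a ha
      have h1 : (T.erase a).card = T.card - 1 := card_erase_of_mem ha
      have h2 : ((T.erase a)ᶜ).card = (Tᶜ).card + 1 := by
        rw [card_compl, card_compl, h1]
        have := card_pos.mpr ⟨a, ha⟩
        have := card_le_univ T
        omega
      simp only [hc, h1, h2, Nat.add_sub_cancel]
    rw [sum_congr rfl this, sum_const, nsmul_eq_mul]
    ring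
  calc ∑ S : Finset (Fin n), (wt s S * ∑ a ∈ Sᶜ, (A (insert a S) - A S)) / (1 - s)
      = ∑ S : Finset (Fin n), ∑ a ∈ Sᶜ, c S * A (insert a S)
        - ∑ S : Finset (Fin n), ((Sᶜ).card : ℝ) * c S * A S := by
        rw [← sum_sub_distrib]
        exact sum_congr rfl fun S _ => e1 S
    _ = ∑ T : Finset (Fin n), (T.card : ℝ) * s ^ (T.card - 1) * (1 - s) ^ (Tᶜ).card * A T
        - ∑ S : Finset (Fin n), ((Sᶜ).card : ℝ) * c S * A S := by
        rw [avd_reindex]
        congr 1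
        exact sum_congr rfl fun T _ => e4 T
    _ = _ := by
        rw [← sum_sub_distrib]
        refine sum_congr rfl fun S _ => ?_
        simp only [hc]
        ring

end Pool.Agent.SUB
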