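import Mathlib
import Pool.Agent.SUB.AvgDeriv

/-!
SUBEXP module AVT: time derivative of the average of a time dependent functional.

`avg s F f = ∑_S wt s S * ex_y F(f_{S,y})`; by the product rule the derivative of
`t ↦ ∑_S wt (1 - exp(-t)) S * ex_y (F t (f_{S,y}))` is
`∑_S (d/dt wt (1-exp(-t)) S) * ex_y (F u (f_{S,y})) + ∑_S wt * ex_y (F' (f_{S,y}))`. The first sum is
the derivative of `t ↦ avg (1-exp(-t)) (F u) f` at `u`, i.e. (chain rule, `hasDerivAt_avg`,
`d/dt (1 - exp(-t)) = exp(-t) = 1 - s`, `s ≠ 1`) equal to `avg (1-exp(-u)) (lap (F u)) f`.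
-/

set_option linter.dupNamespace false

namespace Pool.Agent.SUB

open Finset Pool.Agent.Helper11.Cube Pool.Agent.Helper11.AA

variable {n : ℕ}

theorem hasDerivAt_avg_time {F : ℝ → (Cube n → ℝ) → ℝ} {F' : (Cube n → ℝ) → ℝ} {u : ℝ}
    (f : Cube n → ℝ)
    (hF : ∀ S y, HasDerivAt (fun t => F t (fun x => f (mix S y x)))
      (F' (fun x => f (mix S y x))) u) :
    HasDerivAt (fun t => avg (1 - Real.exp (-t)) (F t) f)
      (avg (1 - Real.exp (-u)) (fun g => lap (F u) g + F' g) f) u := by
  -- the density as a function of time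
  have hs : HasDerivAt (fun t : ℝ => 1 - Real.exp (-t)) (Real.exp (-u)) u := by
    have h1 : HasDerivAt (fun t : ℝ => Real.exp (-t)) (Real.exp (-u) * (-1)) u :=
      (hasDerivAt_neg u).exp
    have h2 := h1.const_sub 1
    have h3 : -(Real.exp (-u) * (-1)) = Real.exp (-u) := by ring
    rw [h3] at h2
    exact h2
  -- the weights are differentiable in time
  have hw : ∀ S : Finset (Fin n), ∃ w' : ℝ,
      HasDerivAt (fun t => wt (1 - Real.exp (-t)) S) w' u := by
    intro S
    have h1 : DifferentiableAt ℝ (fun t : ℝ => 1 - Real.exp (-t)) u := hs.differentiableAt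
    have h2 : DifferentiableAt ℝ (fun t : ℝ => wt (1 - Real.exp (-t)) S) u := by
      unfold wt
      exact (h1.pow _).mul (((differentiableAt_const (1 : ℝ)).sub h1).pow _)
    exact ⟨_, h2.hasDerivAt⟩
  choose w' hw' using hw
  -- the averages are differentiable in time
  have hA : ∀ S : Finset (Fin n), HasDerivAt (fun t => ex (fun y => F t (fun x => f (mix S y x))))
      (ex (fun y => F' (fun x => f (mix S y x)))) u := by
    intro S
    unfold ex
    have h1 := HasDerivAt.fun_sum (u := (univ : Finset (Cube n)))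
      (A := fun y t => F t (fun x => f (mix S y x)))
      (A' := fun y => F' (fun x => f (mix S y x))) (x := u) (fun y _ => hF S y)
    exact h1.div_const _
  have hmain : HasDerivAt (fun t => avg (1 - Real.exp (-t)) (F t) f)
      (∑ S : Finset (Fin n), (w' S * ex (fun y => F u (fun x => f (mix S y x)))
        + wt (1 - Real.exp (-u)) S * ex (fun y => F' (fun x => f (mix S y x))))) u := by
    unfold avg
    exact HasDerivAt.fun_sum (fun S _ => (hw' S).mul (hA S))
  have hfix : HasDerivAt (fun t => avg (1 - Real.exp (-t)) (F u) f)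
      (∑ S : Finset (Fin n), w' S * ex (fun y => F u (fun x => f (mix S y x)))) u := by
    unfold avg
    exact HasDerivAt.fun_sum (fun S _ => (hw' S).mul_const _)
  have hne : (1 - Real.exp (-u)) ≠ 1 := by
    have h1 := Real.exp_pos (-u)
    intro h2
    linarith
  have hlap : HasDerivAt (fun t => avg (1 - Real.exp (-t)) (F u) f)
      (avg (1 - Real.exp (-u)) (lap (F u)) f) u := by
    have h1 := (hasDerivAt_avg (F u) f hne).comp u hs
    have h2 : avg (1 - Real.exp (-u)) (lap (F u)) f / (1 - (1 - Real.exp (-u))) * Real.exp (-u)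
        = avg (1 - Real.exp (-u)) (lap (F u)) f := by
      have := Real.exp_ne_zero (-u)
      rw [show (1 : ℝ) - (1 - Real.exp (-u)) = Real.exp (-u) by ring]
      field_simp
    rw [h2] at h1
    exact h1
  have huniq := hfix.unique hlap
  convert hmain using 1
  rw [avg_add, ← huniq]
  unfold avg
  rw [← sum_add_distrib]

end Pool.Agent.SUB
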