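import Mathlib
import Pool.Agent.SUB.AvgBasic
import Pool.Agent.SUB.Ex
import Pool.Agent.Helper11.Degree

/-!
SUBEXP module FL1: the average of the sum of squares of the degree one coefficients of the random
restriction.

For `a ∉ S`: `ex_x D_a(f_{S,y}) = coef (f_{S,y}) {a} = ∑_{B ⊆ S} coef f (insert a B) * chi B y`
(by `inversion`, `f (mix S y x) = ∑_A coef f A * chi (A ∩ S) y * chi (A \ S) x`, and the coefficient
at `{a}` picks the `A` with `A \ S = {a}`); for `a ∈ S` it is `0`. By `parseval` in `y`,
`ex_y (..)^2 = ∑_{B ⊆ S} coef f (insert a B)^2`. So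
`avg s (∑_a (ex D_a)^2) f = ∑_A ∑_{a ∈ A} coef f A ^2 * ∑_{S ⊇ A.erase a, a ∉ S} wt s S
  = ∑_A |A| s^(|A|-1) (1-s) coef f A ^2` (the probability that `a ∉ S` and `A.erase a ⊆ S` is
`s^(|A|-1)(1-s)`). For `1 ≤ |A| ≤ d` and `0 ≤ s ≤ 1` the factor is `≥ s^(d-1) (1-s)`; use
`variance_eq_sum`.
-/

set_option linter.dupNamespace false

namespace Pool.Agent.SUB

open Finset Pool.Agent.Helper11.Cube Pool.Agent.Helper11.AA

variable {n d : ℕ}

lemma fl1_ex_deriv (a : Fin n) (g : Cube n → ℝ) : ex (discreteDeriv a g) = coef g {a} := by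
  rw [← ex_sg_mul]
  unfold coef
  congr 1
  funext x
  simp [chi, mul_comm]

lemma fl1_chi_mix (A S : Finset (Fin n)) (y x : Cube n) :
    chi A (mix S y x) = chi (A ∩ S) y * chi (A \ S) x := by
  simp_rw [chi_eq_univ]
  rw [← Finset.prod_mul_distrib]
  apply Finset.prod_congr rfl
  intro i _
  by_cases h1 : i ∈ A <;> by_cases h2 : i ∈ S <;> simp [h1, h2, mix]

lemma fl1_coef_mix (f : Cube n → ℝ) (S : Finset (Fin n)) (y : Cube n) (a : Fin n) :
    coef (fun x => f (mix S y x)) {a}
      = ∑ T : Finset (Fin n), (if T ⊆ S ∧ a ∉ S then coef f (insert a T) else 0) * chi T y := by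
  have h1 : (fun x => f (mix S y x))
      = fun x => ∑ A ∈ (Finset.univ : Finset (Finset (Fin n))),
          (coef f A * chi (A ∩ S) y) * chi (A \ S) x := by
    funext x
    rw [inversion f (mix S y x)]
    apply Finset.sum_congr rfl
    intro A _
    rw [fl1_chi_mix]
    ring
  rw [h1, coef_sum]
  have h2 : ∀ A ∈ (Finset.univ : Finset (Finset (Fin n))),
      coef (fun x => (coef f A * chi (A ∩ S) y) * chi (A \ S) x) {a}
        = if A \ S = {a} then coef f A * chi (A ∩ S) y else 0 := by
    intro A _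
    rw [coef_const_mul, coef_chi]
    split_ifs <;> simp
  rw [Finset.sum_congr rfl h2, ← Finset.sum_filter]
  simp_rw [ite_mul, zero_mul]
  rw [← Finset.sum_filter]
  apply Finset.sum_nbij' (fun A => A.erase a) (fun T => insert a T)
  · intro A hA
    simp only [Finset.mem_filter, Finset.mem_univ, true_and] at hA ⊢
    have haA : a ∈ A \ S := by rw [hA]; simp
    rw [Finset.mem_sdiff] at haA
    refine ⟨?_, haA.2⟩
    intro i hi
    rw [Finset.mem_erase] at hi
    by_contra hiS
    have : i ∈ A \ S := Finset.mem_sdiff.mpr ⟨hi.2, hiS⟩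
    rw [hA, Finset.mem_singleton] at this
    exact hi.1 this
  · intro T hT
    simp only [Finset.mem_filter, Finset.mem_univ, true_and] at hT ⊢
    ext i
    simp only [Finset.mem_sdiff, Finset.mem_insert, Finset.mem_singleton]
    constructor
    · rintro ⟨h | h, h'⟩
      · exact h
      · exact absurd (hT.1 h) h'
    · rintro rfl
      exact ⟨Or.inl rfl, hT.2⟩
  · intro A hA
    simp only [Finset.mem_filter, Finset.mem_univ, true_and] at hA
    have haA : a ∈ A \ S := by rw [hA]; simp
    rw [Finset.mem_sdiff] at haA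
    exact Finset.insert_erase haA.1
  · intro T hT
    simp only [Finset.mem_filter, Finset.mem_univ, true_and] at hT
    exact Finset.erase_insert (fun h => hT.2 (hT.1 h))
  · intro A hA
    simp only [Finset.mem_filter, Finset.mem_univ, true_and] at hA
    have haA : a ∈ A \ S := by rw [hA]; simp
    rw [Finset.mem_sdiff] at haA
    have h3 : A ∩ S = A.erase a := by
      ext i
      simp only [Finset.mem_inter, Finset.mem_erase]
      constructor
      · rintro ⟨h, h'⟩
        refine ⟨?_, h⟩
        rintro rfl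
        exact haA.2 h'
      · rintro ⟨h, h'⟩
        refine ⟨h', ?_⟩
        by_contra hiS
        have : i ∈ A \ S := Finset.mem_sdiff.mpr ⟨h', hiS⟩
        rw [hA, Finset.mem_singleton] at this
        exact h this
    rw [Finset.insert_erase haA.1, h3]

lemma fl1_ex_sq (f : Cube n → ℝ) (S : Finset (Fin n)) (a : Fin n) :
    ex (fun y => coef (fun x => f (mix S y x)) {a} ^ 2)
      = ∑ T : Finset (Fin n), if T ⊆ S ∧ a ∉ S then coef f (insert a T) ^ 2 else 0 := by
  simp_rw [fl1_coef_mix]
  rw [parseval]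
  simp_rw [coef_poly]
  apply Finset.sum_congr rfl
  intro T _
  split_ifs <;> simp

lemma fl1_sum_wt (s : ℝ) (T : Finset (Fin n)) (a : Fin n) (ha : a ∉ T) :
    ∑ S : Finset (Fin n), (if T ⊆ S ∧ a ∉ S then wt s S else 0) = s ^ T.card * (1 - s) := by
  have h := Finset.prod_add (fun i : Fin n => if i = a then (0 : ℝ) else s)
    (fun i => if i ∈ T then (0 : ℝ) else 1 - s) (Finset.univ : Finset (Fin n))
  have hl : ∏ i : Fin n, ((if i = a then (0 : ℝ) else s) + (if i ∈ T then (0 : ℝ) else 1 - s))
      = s ^ T.card * (1 - s) := by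
    have h1 : ∀ i : Fin n, ((if i = a then (0 : ℝ) else s) + (if i ∈ T then (0 : ℝ) else 1 - s))
        = (if i ∈ T then s else 1) * (if i = a then 1 - s else 1) := by
      intro i
      by_cases h1 : i = a
      · subst h1; simp [ha]
      · by_cases h2 : i ∈ T <;> simp [h1, h2]
    simp_rw [h1]
    rw [Finset.prod_mul_distrib, Finset.prod_ite_mem, Finset.univ_inter, Finset.prod_const]
    congr 1
    rw [Finset.prod_ite_eq' Finset.univ a (fun _ => 1 - s)]
    simp
  rw [← hl, h, Finset.powerset_univ]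
  apply Finset.sum_congr rfl
  intro S _
  split_ifs with hS
  · unfold wt
    have e1 : ∏ i ∈ S, (if i = a then (0 : ℝ) else s) = s ^ S.card := by
      rw [← Finset.prod_const]
      apply Finset.prod_congr rfl
      intro i hi
      rw [if_neg]
      rintro rfl
      exact hS.2 hi
    have e2 : ∏ i ∈ Finset.univ \ S, (if i ∈ T then (0 : ℝ) else 1 - s) = (1 - s) ^ (Sᶜ).card := by
      rw [← Finset.prod_const, ← Finset.compl_eq_univ_sdiff]
      apply Finset.prod_congr rfl
      intro i hi
      rw [if_neg]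
      intro hiT
      exact (Finset.mem_compl.mp hi) (hS.1 hiT)
    rw [e1, e2]
  · rw [not_and_or, not_not] at hS
    rcases hS with hS | hS
    · obtain ⟨i, hiT, hiS⟩ := Finset.not_subset.mp hS
      have : ∏ i ∈ Finset.univ \ S, (if i ∈ T then (0 : ℝ) else 1 - s) = 0 :=
        Finset.prod_eq_zero (Finset.mem_sdiff.mpr ⟨Finset.mem_univ i, hiS⟩) (by simp [hiT])
      rw [this, mul_zero]
    · have : ∏ i ∈ S, (if i = a then (0 : ℝ) else s) = 0 :=
        Finset.prod_eq_zero hS (by simp)
      rw [this, zero_mul]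

lemma fl1_avg_eq (f : Cube n → ℝ) (s : ℝ) :
    avg s (fun g => ∑ a, ex (discreteDeriv a g) ^ 2) f
      = ∑ a, ∑ T : Finset (Fin n), coef f (insert a T) ^ 2
          * ∑ S : Finset (Fin n), (if T ⊆ S ∧ a ∉ S then wt s S else 0) := by
  unfold avg
  simp_rw [fl1_ex_deriv, ex_sum, fl1_ex_sq, Finset.mul_sum]
  rw [Finset.sum_comm]
  apply Finset.sum_congr rfl
  intro a _
  rw [Finset.sum_comm]
  apply Finset.sum_congr rfl
  intro T _
  apply Finset.sum_congr rfl
  intro S _
  split_ifs <;> ring

theorem avg_sq_ge {f : Cube n → ℝ} (hf : DegLE f d) {s : ℝ} (h0 : 0 ≤ s) (h1 : s ≤ 1) :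
    (1 - s) * s ^ (d - 1) * variance f
      ≤ avg s (fun g => ∑ a, ex (discreteDeriv a g) ^ 2) f := by
  rw [fl1_avg_eq, variance_eq_sum, Finset.mul_sum]
  have hnn : ∀ (a : Fin n) (T : Finset (Fin n)),
      0 ≤ coef f (insert a T) ^ 2
          * ∑ S : Finset (Fin n), (if T ⊆ S ∧ a ∉ S then wt s S else 0) := by
    intro a T
    apply mul_nonneg (sq_nonneg _)
    apply Finset.sum_nonneg
    intro S _
    split_ifs
    · exact wt_nonneg h0 h1 S
    · exact le_rfl
  rw [← Finset.sum_product']
  have hch : ∀ A : Finset (Fin n), A ≠ ∅ → ∃ a, a ∈ A := fun A hA =>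
    Finset.nonempty_iff_ne_empty.mpr hA
  classical
  rcases isEmpty_or_nonempty (Fin n) with hE | hE
  · have hem : (Finset.univ : Finset (Finset (Fin n))).erase ∅ = ∅ := by
      apply Finset.eq_empty_of_forall_notMem
      intro A hA
      exact (Finset.ne_of_mem_erase hA) (Finset.eq_empty_of_isEmpty A)
    rw [hem, Finset.sum_empty]
    exact Finset.sum_nonneg (fun q _ => hnn q.1 q.2)
  choose! c hc using hch
  have hinj : Set.InjOn (fun A : Finset (Fin n) => (c A, A.erase (c A)))
      ((Finset.univ : Finset (Finset (Fin n))).erase ∅ : Finset (Finset (Fin n))) := by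
    intro A hA B hB hAB
    simp only [Finset.coe_erase, Set.mem_sdiff, Finset.mem_coe, Finset.mem_univ, true_and,
      Set.mem_singleton_iff] at hA hB
    simp only [Prod.mk.injEq] at hAB
    rw [← Finset.insert_erase (hc A hA), ← Finset.insert_erase (hc B hB), hAB.2, hAB.1]
  calc ∑ A ∈ (Finset.univ : Finset (Finset (Fin n))).erase ∅,
          (1 - s) * s ^ (d - 1) * coef f A ^ 2
      ≤ ∑ A ∈ (Finset.univ : Finset (Finset (Fin n))).erase ∅,
          coef f (insert (c A) (A.erase (c A))) ^ 2
          * ∑ S : Finset (Fin n), (if A.erase (c A) ⊆ S ∧ (c A) ∉ S then wt s S else 0) := by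
        apply Finset.sum_le_sum
        intro A hA
        have hA' : A ≠ ∅ := Finset.ne_of_mem_erase hA
        rw [Finset.insert_erase (hc A hA'), fl1_sum_wt s _ _ (Finset.notMem_erase _ _),
          Finset.card_erase_of_mem (hc A hA')]
        by_cases hd : d < A.card
        · rw [hf A hd]; simp
        · push Not at hd
          have h2 : s ^ (d - 1) ≤ s ^ (A.card - 1) :=
            pow_le_pow_of_le_one h0 h1 (Nat.sub_le_sub_right hd 1)
          have h3 : 0 ≤ coef f A ^ 2 := sq_nonneg _
          have h4 : 0 ≤ 1 - s := by linarith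
          calc (1 - s) * s ^ (d - 1) * coef f A ^ 2
              ≤ (1 - s) * s ^ (A.card - 1) * coef f A ^ 2 := by gcongr
            _ = coef f A ^ 2 * (s ^ (A.card - 1) * (1 - s)) := by ring
    _ = ∑ q ∈ (((Finset.univ : Finset (Finset (Fin n))).erase ∅).image
          (fun A : Finset (Fin n) => (c A, A.erase (c A)))),
          coef f (insert q.1 q.2) ^ 2
          * ∑ S : Finset (Fin n), (if q.2 ⊆ S ∧ q.1 ∉ S then wt s S else 0) := by
        rw [Finset.sum_image hinj]
    _ ≤ _ := by
        apply Finset.sum_le_sum_of_subset_of_nonneg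
        · intro q _
          simp
        · intro q _ _
          exact hnn q.1 q.2

end Pool.Agent.SUB
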