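import Mathlib
import Pool.Agent.SUB.AvgBasic
import Pool.Agent.SUB.Hw

/-!
SUBEXP module INI: trivial upper bounds for `Psi`.
-/

set_option linter.dupNamespace false

namespace Pool.Agent.SUB

open Finset Pool.Agent.Helper11.Cube Pool.Agent.Helper11.AA

variable {n d p : ℕ} {η : ℝ}

lemma variance_le_one {f : Cube n → ℝ} (hf : ∀ x, |f x| ≤ 1) : variance f ≤ 1 := by
  rw [variance_eq]
  have h1 : ex (fun x => f x ^ 2) ≤ 1 := by
    calc ex (fun x => f x ^ 2) ≤ ex (fun _ : Cube n => (1 : ℝ)) := by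
          apply ex_mono
          intro x
          rw [← sq_abs]
          exact pow_le_one₀ (abs_nonneg _) (hf x)
      _ = 1 := ex_const 1
  have h2 := sq_nonneg (ex f)
  linarith

lemma Fg_le (hη : 0 < η) (hp : 1 ≤ p) {f : Cube n → ℝ} (hf : Bdd d f) {γ : ℝ} (hγ : 0 ≤ γ) :
    Fg η p γ f ≤ 2 * (d : ℝ) ^ 2 / η := by
  refine le_trans ?_ (sum_Pw_le hη hp hf)
  unfold Fg
  refine sum_le_sum fun w _ => ?_
  have h := Real.rpow_le_rpow_of_exponent_ge' (Pw_nonneg (η := η) (p := p) f w)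
    (Pw_le_one f w) zero_le_one (by linarith : (1 : ℝ) ≤ 1 + γ)
  rwa [Real.rpow_one] at h

lemma Fg_nonneg (f : Cube n → ℝ) (γ : ℝ) : 0 ≤ Fg η p γ f := by
  unfold Fg
  exact sum_nonneg fun w _ => Real.rpow_nonneg (Pw_nonneg f w) _

private lemma ini_s {u : ℝ} (hu : 0 ≤ u) : 0 ≤ 1 - Real.exp (-u) ∧ 1 - Real.exp (-u) ≤ 1 := by
  have h1 : Real.exp (-u) ≤ 1 := by rw [Real.exp_le_one_iff]; linarith
  have h2 := Real.exp_pos (-u)
  constructor <;> linarith

lemma psi_nonneg (f : Cube n → ℝ) {γ u : ℝ} (hu : 0 ≤ u) : 0 ≤ Psi η p γ u f := by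
  unfold Psi
  obtain ⟨h0, h1⟩ := ini_s hu
  refine mul_nonneg (Real.exp_pos u).le ?_
  calc (0 : ℝ) = avg (1 - Real.exp (-u)) (fun _ => 0) f := (avg_const _ 0 f).symm
    _ ≤ _ := avg_mono h0 h1 fun S y => Fg_nonneg _ γ

lemma psi_le (hη : 0 < η) (hp : 1 ≤ p) {f : Cube n → ℝ} (hf : Bdd d f) {γ u : ℝ} (hγ : 0 ≤ γ)
    (hu : 0 ≤ u) : Psi η p γ u f ≤ Real.exp u * (2 * (d : ℝ) ^ 2 / η) := by
  unfold Psi
  obtain ⟨h0, h1⟩ := ini_s hu
  refine mul_le_mul_of_nonneg_left ?_ (Real.exp_pos u).le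
  calc avg (1 - Real.exp (-u)) (Fg η p γ) f
      ≤ avg (1 - Real.exp (-u)) (fun _ => 2 * (d : ℝ) ^ 2 / η) f :=
        avg_mono h0 h1 fun S y => Fg_le hη hp (bdd_mix hf S y) hγ
    _ = _ := avg_const _ _ f

private lemma ini_Pw (hη : 0 < η) (hp : 1 ≤ p) (f : Cube n → ℝ) (w : Fin n) :
    Pw η p f w ≤ maxDerivNorm f ^ 2 / η ^ 2 := by
  have h1 : Pw η p f w ≤ derivNorm w f ^ 2 / η ^ 2 := by
    unfold Pw
    calc ex (hw η p f w) ≤ ex (fun x => (1 / η ^ 2) * discreteDeriv w f x ^ 2) := by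
          apply ex_mono
          intro x
          rcases le_total |discreteDeriv w f x| η with h | h
          · rw [hw_eq_zero hη hp h]
            positivity
          · refine (hw_le_one f w x).trans ?_
            rw [one_div, ← div_eq_inv_mul, le_div_iff₀ (by positivity), one_mul,
              ← sq_abs (discreteDeriv w f x)]
            exact pow_le_pow_left₀ hη.le h 2
      _ = derivNorm w f ^ 2 / η ^ 2 := by
          rw [ex_const_mul, derivNorm_sq]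
          ring
  refine h1.trans ?_
  exact div_le_div_of_nonneg_right
    (pow_le_pow_left₀ (derivNorm_nonneg f w) (derivNorm_le f w) 2) (by positivity)

theorem init_upper (hη : 0 < η) (hp : 1 ≤ p) {f : Cube n → ℝ} (hf : Bdd d f) {γ : ℝ}
    (hγ : 0 ≤ γ) :
    Psi η p γ 0 f ≤ 2 * (d : ℝ) ^ 2 / η * (maxDerivNorm f ^ 2 / η ^ 2) ^ γ := by
  unfold Psi
  rw [neg_zero, Real.exp_zero, sub_self, avg_zero, one_mul]
  unfold Fg
  calc ∑ w, Pw η p f w ^ (1 + γ)
      ≤ ∑ w, Pw η p f w * (maxDerivNorm f ^ 2 / η ^ 2) ^ γ := by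
        refine sum_le_sum fun w _ => ?_
        rw [Real.rpow_add_of_nonneg (Pw_nonneg f w) zero_le_one hγ, Real.rpow_one]
        exact mul_le_mul_of_nonneg_left
          (Real.rpow_le_rpow (Pw_nonneg f w) (ini_Pw hη hp f w) hγ) (Pw_nonneg f w)
    _ = (∑ w, Pw η p f w) * (maxDerivNorm f ^ 2 / η ^ 2) ^ γ := by rw [sum_mul]
    _ ≤ 2 * (d : ℝ) ^ 2 / η * (maxDerivNorm f ^ 2 / η ^ 2) ^ γ :=
        mul_le_mul_of_nonneg_right (sum_Pw_le hη hp hf) (Real.rpow_nonneg (by positivity) _)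

end Pool.Agent.SUB
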