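import Mathlib
import Pool.Agent.SUB.Hw
import Pool.Agent.SUB.Ex

/-!
SUBEXP module BSUM: the sum of all biases of a (smoothed) pivotality event is polynomial.

Write `g = D_w f`, `h = hw η p f w = cut η p |g|`.

`abs_deriv_hw_le`: let `x^± = update x a (±1)`; with `v = max(|g x^+|,|g x^-|)`, `v'` the min,
`|h x^+ - h x^-| = cut v - cut v' ≤ (4p/η)(v - v')(cut v + 4^{-p})` (`cut_diff`),
`v - v' ≤ |g x^+ - g x^-| = 2 |D_a g x|`, `cut v ≤ h x^+ + h x^-`.

`bias_sum`: `|bias h a| * P = |ex (x_a h)| = |ex (D_a h)| ≤ ex |D_a h|` (`ex_sg_mul`). Since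
`|D_a g x|` does not depend on `x_a` (`deriv_update_self`), `ex_update` gives
`ex (|D_a g x| (h x^+ + h x^-)) = 2 ex (|D_a g x| h x)`. Sum over `a`, use
`∑_a |D_a g x| ≤ 2 d^2` (`sum_abs_deriv2`):
`∑_a |bias| P ≤ (4p/η)(2 * 2 d^2 P + 4^{-p} 2 d^2) ≤ (4p/η) * 6 d^2 P = 24 p d^2 P/η`.
-/

set_option linter.dupNamespace false

namespace Pool.Agent.SUB

open Finset Pool.Agent.Helper11.Cube Pool.Agent.Helper11.AA

variable {n d p : ℕ} {η : ℝ}

lemma abs_deriv_hw_le (hη : 0 < η) (hp : 1 ≤ p) (f : Cube n → ℝ) (w a : Fin n) (x : Cube n) :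
    |discreteDeriv a (hw η p f w) x| ≤ 4 * p / η * |discreteDeriv a (discreteDeriv w f) x|
      * (hw η p f w (Function.update x a 1) + hw η p f w (Function.update x a (-1))
        + (1 / 4) ^ p) := by
  have key : ∀ g₁ g₂ : ℝ, |g₂| ≤ |g₁| →
      |(cut η p |g₁| - cut η p |g₂|) / 2| ≤ 4 * p / η * |(g₁ - g₂) / 2|
        * (cut η p |g₁| + cut η p |g₂| + (1 / 4) ^ p) := by
    intro g₁ g₂ h
    have h1 := cut_diff (η := η) (p := p) hη hp h
    have h2 : cut η p |g₂| ≤ cut η p |g₁| := cut_mono hη h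
    have h3 : |g₁| - |g₂| ≤ |g₁ - g₂| := abs_sub_abs_le_abs_sub _ _
    have h4 : (0 : ℝ) ≤ 4 * p / η := by positivity
    have h5 : (0 : ℝ) ≤ cut η p |g₂| := cut_nonneg _
    have h6 : (0 : ℝ) ≤ cut η p |g₁| := cut_nonneg _
    have h7 : (0 : ℝ) ≤ (1 / 4 : ℝ) ^ p := by positivity
    rw [abs_div, abs_div, abs_of_nonneg (sub_nonneg.2 h2), abs_two]
    have h8 : 4 * p / η * (|g₁| - |g₂|) * (cut η p |g₁| + (1 / 4) ^ p)
        ≤ 4 * p / η * |g₁ - g₂| * (cut η p |g₁| + cut η p |g₂| + (1 / 4) ^ p) := by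
      refine mul_le_mul (mul_le_mul_of_nonneg_left h3 h4) (by linarith) (by linarith) ?_
      exact mul_nonneg h4 (abs_nonneg _)
    calc (cut η p |g₁| - cut η p |g₂|) / 2
        ≤ (4 * p / η * |g₁ - g₂| * (cut η p |g₁| + cut η p |g₂| + (1 / 4) ^ p)) / 2 := by
          linarith
      _ = 4 * p / η * (|g₁ - g₂| / 2) * (cut η p |g₁| + cut η p |g₂| + (1 / 4) ^ p) := by ring
  set g₁ := discreteDeriv w f (Function.update x a 1) with hg₁
  set g₂ := discreteDeriv w f (Function.update x a (-1)) with hg₂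
  have e1 : discreteDeriv a (hw η p f w) x = (cut η p |g₁| - cut η p |g₂|) / 2 := rfl
  have e2 : discreteDeriv a (discreteDeriv w f) x = (g₁ - g₂) / 2 := rfl
  have e3 : hw η p f w (Function.update x a 1) = cut η p |g₁| := rfl
  have e4 : hw η p f w (Function.update x a (-1)) = cut η p |g₂| := rfl
  rw [e1, e2, e3, e4]
  rcases le_total |g₂| |g₁| with h | h
  · exact key g₁ g₂ h
  · have h1 := key g₂ g₁ h
    rw [abs_div, abs_sub_comm, ← abs_div, abs_div (g₂ - g₁), abs_sub_comm g₂, ← abs_div] at h1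
    linarith

theorem bias_sum (hη : 0 < η) (hp : 1 ≤ p) {f : Cube n → ℝ} (hf : Bdd d f) (w : Fin n)
    (hP : (1 / 4) ^ p ≤ Pw η p f w) :
    ∑ a, |bias (hw η p f w) a| ≤ 24 * p * (d : ℝ) ^ 2 / η := by
  have hq : (0 : ℝ) < (1 / 4 : ℝ) ^ p := by positivity
  have hP0 : 0 < Pw η p f w := hq.trans_le hP
  set h := hw η p f w with hh
  set P := Pw η p f w with hPdef
  have hPex : ex h = P := rfl
  have hc : (0 : ℝ) ≤ 4 * p / η := by positivity
  -- each term
  have h1 : ∀ a : Fin n, |bias h a| * P ≤ 4 * p / η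
      * (2 * ex (fun x => |discreteDeriv a (discreteDeriv w f) x| * h x)
        + (1 / 4) ^ p * ex (fun x => |discreteDeriv a (discreteDeriv w f) x|)) := by
    intro a
    have e1 : |bias h a| * P = |ex (discreteDeriv a h)| := by
      unfold bias
      rw [hPex, abs_div, abs_of_pos hP0, div_mul_cancel₀ _ hP0.ne', ex_sg_mul]
    rw [e1]
    have e2 : ex (fun x => |discreteDeriv a (discreteDeriv w f) x| * h x)
        = ex (fun x => (|discreteDeriv a (discreteDeriv w f) x| * h (Function.update x a 1)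
          + |discreteDeriv a (discreteDeriv w f) x| * h (Function.update x a (-1))) / 2) := by
      rw [← ex_update a (fun x => |discreteDeriv a (discreteDeriv w f) x| * h x)]
      congr 1
      funext x
      rw [deriv_update_self, deriv_update_self]
    rw [e2]
    refine (abs_ex_le _).trans ?_
    have e3 : 4 * p / η
        * (2 * ex (fun x => (|discreteDeriv a (discreteDeriv w f) x| * h (Function.update x a 1)
          + |discreteDeriv a (discreteDeriv w f) x| * h (Function.update x a (-1))) / 2)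
        + (1 / 4) ^ p * ex (fun x => |discreteDeriv a (discreteDeriv w f) x|))
        = ex (fun x => 4 * p / η * (2 * ((|discreteDeriv a (discreteDeriv w f) x|
            * h (Function.update x a 1)
          + |discreteDeriv a (discreteDeriv w f) x| * h (Function.update x a (-1))) / 2)
        + (1 / 4) ^ p * |discreteDeriv a (discreteDeriv w f) x|)) := by
      rw [ex_const_mul, ex_add, ex_const_mul, ex_const_mul]
    rw [e3]
    refine ex_mono fun x => ?_
    refine (abs_deriv_hw_le hη hp f w a x).trans (le_of_eq ?_)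
    ring
  have h2 : ∑ a, ex (fun x => |discreteDeriv a (discreteDeriv w f) x| * h x)
      ≤ 2 * (d : ℝ) ^ 2 * P := by
    rw [← ex_sum, ← hPex, ← ex_const_mul]
    refine ex_mono fun x => ?_
    rw [← Finset.sum_mul]
    exact mul_le_mul_of_nonneg_right (sum_abs_deriv2 hf w x) (hw_nonneg f w x)
  have h3 : ∑ a, ex (fun x => |discreteDeriv a (discreteDeriv w f) x|) ≤ 2 * (d : ℝ) ^ 2 := by
    rw [← ex_sum, ← ex_const (n := n) (2 * (d : ℝ) ^ 2)]
    exact ex_mono fun x => sum_abs_deriv2 hf w x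
  have h4 : (∑ a, |bias h a|) * P ≤ 24 * p * (d : ℝ) ^ 2 / η * P := by
    calc (∑ a, |bias h a|) * P = ∑ a, |bias h a| * P := Finset.sum_mul _ _ _
      _ ≤ ∑ a, 4 * p / η
          * (2 * ex (fun x => |discreteDeriv a (discreteDeriv w f) x| * h x)
          + (1 / 4) ^ p * ex (fun x => |discreteDeriv a (discreteDeriv w f) x|)) :=
          Finset.sum_le_sum fun a _ => h1 a
      _ = 4 * p / η * (2 * ∑ a, ex (fun x => |discreteDeriv a (discreteDeriv w f) x| * h x)
          + (1 / 4) ^ p * ∑ a, ex (fun x => |discreteDeriv a (discreteDeriv w f) x|)) := by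
          rw [← Finset.mul_sum, Finset.sum_add_distrib, ← Finset.mul_sum, ← Finset.mul_sum]
      _ ≤ 4 * p / η * (2 * (2 * (d : ℝ) ^ 2 * P) + P * (2 * (d : ℝ) ^ 2)) := by
          refine mul_le_mul_of_nonneg_left ?_ hc
          have h5 : (1 / 4 : ℝ) ^ p
              * ∑ a, ex (fun x => |discreteDeriv a (discreteDeriv w f) x|)
              ≤ P * (2 * (d : ℝ) ^ 2) := by
            refine mul_le_mul hP h3 ?_ hP0.le
            exact Finset.sum_nonneg fun a _ => ex_nonneg fun x => abs_nonneg _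
          linarith
      _ = 24 * p * (d : ℝ) ^ 2 / η * P := by ring
  exact le_of_mul_le_mul_right h4 hP0

end Pool.Agent.SUB
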