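import Mathlib
import Pool.Agent.SUB.BiasSum

/-!
SUBEXP module POP: a coordinate `a` which biases the pivotality of many `w` is itself pivotal (at a
smaller threshold) with comparable probability.

Write `g = D_w f`, `h = hw η p f w`, `η₂ = β η/(24 p)`.

`pop1`: `β P ≤ |bias h a| P = |ex (x_a h)| = |ex (D_a h)| ≤ ex |D_a h|` (`ex_sg_mul`). Pointwise
`|D_a h x| ≤ 1/2 * 1[η₂ < |D_a g x|] + (4p/η) η₂ (h x^+ + h x^- + 4^{-p})`: if `η₂ < |D_a g x|` use
`|D_a h| ≤ 1/2` (`h ∈ [0,1]`), else `abs_deriv_hw_le`. `ex (h x^+ + h x^-) = 2 P` (`ex_update`),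
`4^{-p} ≤ P`, so `β P ≤ 1/2 ex(1[..]) + (4p/η) η₂ * 3 P = 1/2 ex (1[..]) + β P/2`.

`pop2`: for `g` bounded of degree `≤ d` and every `W`:
`∑_{w ∈ W} ex 1[η₂ < |D_w g|] ≤ (4 d^2/η₂) ex 1[η₂ < |g|]`. If `|D_w g x| > η₂` then
`|g x| > η₂` or `|g (flipOn {w} x)| > η₂` (`abs_sub_flip`: `|g x - g(flip)| = 2|D_w g x|`), and
`|D_w g|` is invariant under `flipOn {w}` (`discreteDeriv_flip`), so by `ex_flipOn`
`ex 1[η₂ < |D_w g|] ≤ 2 ex (1[η₂ < |D_w g|] 1[η₂ < |g|])`; sum over `w`, `card_big`.

`pop`: sum `pop1` over `w ∈ W`, `D_a D_w f = D_w D_a f` (`deriv_comm`), `pop2` for `g = D_a f`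
(`bdd_deriv`) and `1[η₂ < |D_a f x|] ≤ hw (η₂/2) p f a x` (`cut_eq_one`).
-/

set_option linter.dupNamespace false

namespace Pool.Agent.SUB

open Finset Pool.Agent.Helper11.Cube Pool.Agent.Helper11.AA

variable {n d p : ℕ} {η : ℝ}

lemma pop1 (hη : 0 < η) (hp : 1 ≤ p) {β : ℝ} (hβ : 0 < β) (f : Cube n → ℝ) (w a : Fin n)
    (hP : (1 / 4) ^ p ≤ Pw η p f w) (hb : β ≤ |bias (hw η p f w) a|) :
    β * Pw η p f w
      ≤ ex (fun x => if β * η / (24 * p) < |discreteDeriv a (discreteDeriv w f) x| then 1 else 0) := by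
  have hp0 : (0 : ℝ) < p := by exact_mod_cast hp
  have hq : (0 : ℝ) < (1 / 4 : ℝ) ^ p := by positivity
  have hP0 : 0 < Pw η p f w := hq.trans_le hP
  set h := hw η p f w with hh
  set P := Pw η p f w with hPdef
  have hPex : ex h = P := rfl
  set η₂ := β * η / (24 * p) with hη₂
  have hη₂0 : 0 < η₂ := by positivity
  set I : Cube n → ℝ := fun x => if η₂ < |discreteDeriv a (discreteDeriv w f) x| then 1 else 0
    with hI
  have h1 : β * P ≤ |ex (discreteDeriv a h)| := by
    have e1 : |bias h a| * P = |ex (discreteDeriv a h)| := by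
      unfold bias
      rw [hPex, abs_div, abs_of_pos hP0, div_mul_cancel₀ _ hP0.ne', ex_sg_mul]
    rw [← e1]
    exact mul_le_mul_of_nonneg_right hb hP0.le
  have h2 : ∀ x, |discreteDeriv a h x| ≤ 1 / 2 * I x + 4 * p / η * η₂
      * ((h (Function.update x a 1) + h (Function.update x a (-1))) + (1 / 4) ^ p) := by
    intro x
    have hn1 := hw_nonneg (η := η) (p := p) f w (Function.update x a 1)
    have hn2 := hw_nonneg (η := η) (p := p) f w (Function.update x a (-1))
    have ho1 := hw_le_one (η := η) (p := p) f w (Function.update x a 1)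
    have ho2 := hw_le_one (η := η) (p := p) f w (Function.update x a (-1))
    have hc : (0 : ℝ) ≤ 4 * p / η * η₂ := by positivity
    have hs : (0 : ℝ) ≤ (h (Function.update x a 1) + h (Function.update x a (-1))) + (1 / 4) ^ p :=
      add_nonneg (add_nonneg hn1 hn2) hq.le
    by_cases hx : η₂ < |discreteDeriv a (discreteDeriv w f) x|
    · have hIx : I x = 1 := by simp only [hI]; exact if_pos hx
      rw [hIx]
      have h3 : |discreteDeriv a h x| ≤ 1 / 2 := by
        unfold discreteDeriv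
        rw [abs_div, abs_two]
        have : |h (Function.update x a 1) - h (Function.update x a (-1))| ≤ 1 := by
          rw [abs_le]
          constructor <;> linarith
        linarith
      have h4 := mul_nonneg hc hs
      linarith
    · have hIx : I x = 0 := by simp only [hI]; exact if_neg hx
      rw [hIx]
      push Not at hx
      refine (abs_deriv_hw_le hη hp f w a x).trans ?_
      rw [mul_zero, zero_add]
      refine mul_le_mul_of_nonneg_right ?_ hs
      exact mul_le_mul_of_nonneg_left hx (by positivity)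
  have h3 : ex (fun x => |discreteDeriv a h x|) ≤ 1 / 2 * ex I + 4 * p / η * η₂
      * (2 * P + (1 / 4) ^ p) := by
    refine (ex_mono h2).trans (le_of_eq ?_)
    rw [ex_add, ex_const_mul, ex_const_mul, ex_add, ex_const]
    have e2 : ex (fun x => h (Function.update x a 1) + h (Function.update x a (-1))) = 2 * P := by
      have e3 := ex_update a h
      have e4 : (fun x => h (Function.update x a 1) + h (Function.update x a (-1)))
          = fun x => 2 * ((h (Function.update x a 1) + h (Function.update x a (-1))) / 2) := by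
        funext x; ring
      rw [e4, ex_const_mul, e3, hPex]
    rw [e2]
  have h4 : 4 * p / η * η₂ * (2 * P + (1 / 4) ^ p) ≤ β * P / 2 := by
    have e5 : 4 * p / η * η₂ = β / 6 := by
      rw [hη₂]; field_simp; norm_num
    rw [e5]
    have : 2 * P + (1 / 4) ^ p ≤ 3 * P := by linarith
    calc β / 6 * (2 * P + (1 / 4) ^ p) ≤ β / 6 * (3 * P) :=
          mul_le_mul_of_nonneg_left this (by positivity)
      _ = β * P / 2 := by ring
  have h5 := abs_ex_le (discreteDeriv a h)
  linarith

lemma pop2 {η₂ : ℝ} (hη : 0 < η₂) {g : Cube n → ℝ} (hg : Bdd d g) (W : Finset (Fin n)) :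
    ∑ w ∈ W, ex (fun x => if η₂ < |discreteDeriv w g x| then (1 : ℝ) else 0)
      ≤ 4 * (d : ℝ) ^ 2 / η₂ * ex (fun x => if η₂ < |g x| then (1 : ℝ) else 0) := by
  set G : Cube n → ℝ := fun x => if η₂ < |g x| then (1 : ℝ) else 0 with hG
  have hG0 : ∀ x, 0 ≤ G x := fun x => by simp only [hG]; split_ifs <;> norm_num
  have h1 : ∀ w : Fin n, ex (fun x => if η₂ < |discreteDeriv w g x| then (1 : ℝ) else 0)
      ≤ 2 * ex (fun x => (if η₂ < |discreteDeriv w g x| then (1 : ℝ) else 0) * G x) := by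
    intro w
    set D : Cube n → ℝ := fun x => if η₂ < |discreteDeriv w g x| then (1 : ℝ) else 0 with hD
    have hD0 : ∀ x, 0 ≤ D x := fun x => by simp only [hD]; split_ifs <;> norm_num
    have h2 : ∀ x, D x ≤ D x * G x + D (flipOn {w} x) * G (flipOn {w} x) := by
      intro x
      have e1 : D (flipOn {w} x) = D x := by
        simp only [hD]; rw [discreteDeriv_flip]
      rw [e1]
      by_cases hx : η₂ < |discreteDeriv w g x|
      · have hDx : D x = 1 := by simp only [hD]; exact if_pos hx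
        rw [hDx, one_mul, one_mul]
        have e2 := abs_sub_flip g w x
        have e3 : |g x - g (flipOn {w} x)| ≤ |g x| + |g (flipOn {w} x)| := abs_sub _ _
        rcases lt_or_ge η₂ |g x| with h | h
        · have : G x = 1 := by simp only [hG]; exact if_pos h
          linarith [hG0 (flipOn {w} x)]
        · have h' : η₂ < |g (flipOn {w} x)| := by linarith
          have : G (flipOn {w} x) = 1 := by simp only [hG]; exact if_pos h'
          linarith [hG0 x]
      · have hDx : D x = 0 := by simp only [hD]; exact if_neg hx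
        rw [hDx]; simp
    refine (ex_mono h2).trans (le_of_eq ?_)
    rw [ex_add, ex_flipOn {w} (fun x => D x * G x)]
    ring
  refine (Finset.sum_le_sum fun w _ => h1 w).trans ?_
  rw [← Finset.mul_sum, ← ex_sum]
  have h3 : ex (fun x => ∑ w ∈ W, (if η₂ < |discreteDeriv w g x| then (1 : ℝ) else 0) * G x)
      ≤ 2 * (d : ℝ) ^ 2 / η₂ * ex G := by
    rw [← ex_const_mul]
    refine ex_mono fun x => ?_
    rw [← Finset.sum_mul]
    refine mul_le_mul_of_nonneg_right ?_ (hG0 x)
    refine le_trans ?_ (card_big hg hη x)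
    rw [Finset.sum_boole]
    exact_mod_cast Finset.card_le_card (Finset.filter_subset_filter _ (Finset.subset_univ W))
  calc 2 * ex (fun x => ∑ w ∈ W, (if η₂ < |discreteDeriv w g x| then (1 : ℝ) else 0) * G x)
      ≤ 2 * (2 * (d : ℝ) ^ 2 / η₂ * ex G) := by linarith
    _ = 4 * (d : ℝ) ^ 2 / η₂ * ex G := by ring

theorem pop (hη : 0 < η) (hp : 1 ≤ p) {β : ℝ} (hβ : 0 < β) {f : Cube n → ℝ} (hf : Bdd d f)
    (W : Finset (Fin n)) (a : Fin n)
    (hW : ∀ w ∈ W, (1 / 4) ^ p ≤ Pw η p f w ∧ β ≤ |bias (hw η p f w) a|) :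
    ∑ w ∈ W, Pw η p f w
      ≤ 4 * (d : ℝ) ^ 2 / (β * (β * η / (24 * p))) * Pw (β * η / (48 * p)) p f a := by
  have hp0 : (0 : ℝ) < p := by exact_mod_cast hp
  set η₂ := β * η / (24 * p) with hη₂
  have hη₂0 : 0 < η₂ := by positivity
  have h1 : β * ∑ w ∈ W, Pw η p f w
      ≤ 4 * (d : ℝ) ^ 2 / η₂ * ex (fun x => if η₂ < |discreteDeriv a f x| then (1 : ℝ) else 0) := by
    rw [Finset.mul_sum]
    refine (Finset.sum_le_sum fun w hw' => pop1 hη hp hβ f w a (hW w hw').1 (hW w hw').2).trans ?_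
    rw [← hη₂]
    have e1 : ∀ w ∈ W, ex (fun x => if η₂ < |discreteDeriv a (discreteDeriv w f) x|
        then (1 : ℝ) else 0)
        = ex (fun x => if η₂ < |discreteDeriv w (discreteDeriv a f) x| then (1 : ℝ) else 0) := by
      intro w _
      congr 1
      funext x
      rw [deriv_comm]
    rw [Finset.sum_congr rfl e1]
    exact pop2 hη₂0 (bdd_deriv hf a) W
  have h2 : ex (fun x => if η₂ < |discreteDeriv a f x| then (1 : ℝ) else 0)
      ≤ Pw (β * η / (48 * p)) p f a := by
    unfold Pw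
    refine ex_mono fun x => ?_
    have e2 : 2 * (β * η / (48 * p)) = η₂ := by
      rw [hη₂]; field_simp; norm_num
    split_ifs with h
    · unfold hw
      rw [cut_eq_one (by positivity) (by rw [e2]; exact h.le)]
    · exact hw_nonneg _ _ _
  have h3 : β * ∑ w ∈ W, Pw η p f w ≤ 4 * (d : ℝ) ^ 2 / η₂ * Pw (β * η / (48 * p)) p f a :=
    h1.trans (mul_le_mul_of_nonneg_left h2 (by positivity))
  calc ∑ w ∈ W, Pw η p f w = (β * ∑ w ∈ W, Pw η p f w) / β := by field_simp
    _ ≤ (4 * (d : ℝ) ^ 2 / η₂ * Pw (β * η / (48 * p)) p f a) / β :=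
        div_le_div_of_nonneg_right h3 hβ.le
    _ = 4 * (d : ℝ) ^ 2 / (β * η₂) * Pw (β * η / (48 * p)) p f a := by
        field_simp

end Pool.Agent.SUB
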