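import Mathlib
import Pool.Agent.SUB.Drv

/-!
SUBEXP module INS: worst case insensitivity of bounded low degree polynomials to random plantings
without popular coordinates.

Proof (greedy selection). `Δ ω = |g (mix (C ω) (y ω) v) - g v| ∈ [0,2]`. Note
`mix (C ω) (y ω) v = flipOn (B ω) v` with `B ω = (C ω).filter (fun i => y ω i ≠ v i)`
(`Int.units_eq_one_or`). Suppose the sum is `> ξ`; then `ξ < 2`. Put `N = ⌊8 d^2/ξ⌋₊ + 1`, so
`8 d^2/ξ < N ≤ 16 d^2/ξ`. Claim: for every `j ≤ N` there is `s : Finset Ω` with `s.card = j`, `C`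
pairwise disjoint on `s`, and `0 < μ ω`, `ξ/2 ≤ Δ ω` for `ω ∈ s`. Induction step (`j < N`): let
`U = s.biUnion C`, `|U| ≤ j K`; the `μ`-mass of `{ω : C ω ∩ U ≠ ∅}` is at most
`∑_{a ∈ U} μ(a ∈ C ω) ≤ j K π ≤ N K π`; so
`∑_{ω : C ω ∩ U = ∅} μ ω Δ ω ≥ ∑ μ Δ - 2 N K π > ξ - 32 d^2 K π/ξ ≥ ξ/2` and some `ω` with
`μ ω > 0`, `C ω ∩ U = ∅`, `Δ ω ≥ ξ/2 > 0` exists (total mass `1`); `Δ ω > 0` forces `C ω ≠ ∅`, so
`ω ∉ s`; insert it. For `j = N`, `abs_block` gives `N ξ/2 ≤ ∑_{ω ∈ s} Δ ω ≤ 4 d^2`, contradicting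
`N > 8 d^2/ξ`.
-/

set_option linter.dupNamespace false

namespace Pool.Agent.SUB

open Finset Pool.Agent.Helper11.Cube Pool.Agent.Helper11.AA

variable {n d : ℕ}

lemma mix_eq_flipOn (S : Finset (Fin n)) (y v : Cube n) :
    mix S y v = flipOn (S.filter (fun i => y i ≠ v i)) v := by
  funext i
  unfold mix flipOn
  by_cases hi : i ∈ S
  · by_cases hy : y i = v i
    · simp [hi, hy]
    · have hm : i ∈ S.filter (fun i => y i ≠ v i) := by simp [hi, hy]
      simp only [hi, if_true, hm]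
      rcases Int.units_eq_one_or (y i) with h1 | h1 <;>
        rcases Int.units_eq_one_or (v i) with h2 | h2 <;> simp_all
  · simp [hi]

lemma sum_biUnion_le_aux {α Ω : Type*} [DecidableEq Ω] [DecidableEq α] (U : Finset α)
    (F : α → Finset Ω) (μ : Ω → ℝ) (hμ : ∀ ω, 0 ≤ μ ω) :
    ∑ ω ∈ U.biUnion F, μ ω ≤ ∑ a ∈ U, ∑ ω ∈ F a, μ ω := by
  induction U using Finset.induction_on with
  | empty => simp
  | insert a s ha ih =>
    rw [Finset.biUnion_insert, Finset.sum_insert ha]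
    have h := Finset.sum_union_inter (s₁ := F a) (s₂ := s.biUnion F) (f := μ)
    have h2 : 0 ≤ ∑ ω ∈ F a ∩ s.biUnion F, μ ω := Finset.sum_nonneg (fun ω _ => hμ ω)
    linarith

theorem insens {Ω : Type*} [Fintype Ω] [DecidableEq Ω] (μ : Ω → ℝ) (hμ : ∀ ω, 0 ≤ μ ω)
    (hμ1 : ∑ ω, μ ω = 1) (C : Ω → Finset (Fin n)) (y : Ω → Cube n) {K π ξ : ℝ} (hK0 : 0 ≤ K)
    (hπ0 : 0 ≤ π) (hK : ∀ ω, 0 < μ ω → ((C ω).card : ℝ) ≤ K)
    (hπ : ∀ a, ∑ ω ∈ univ.filter (fun ω => a ∈ C ω), μ ω ≤ π) (hξ : 0 < ξ)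
    (hKξ : 64 * (d : ℝ) ^ 2 * K * π ≤ ξ ^ 2) (hd : 1 ≤ d) {g : Cube n → ℝ} (hg : Bdd d g)
    (v : Cube n) :
    ∑ ω, μ ω * |g (mix (C ω) (y ω) v) - g v| ≤ ξ := by
  by_contra hcon
  push Not at hcon
  set Δ : Ω → ℝ := fun ω => |g (mix (C ω) (y ω) v) - g v| with hΔ
  have hΔ0 : ∀ ω, 0 ≤ Δ ω := fun ω => abs_nonneg _
  have hΔ2 : ∀ ω, Δ ω ≤ 2 := by
    intro ω
    have h1 := hg.2 (mix (C ω) (y ω) v)
    have h2 := hg.2 v
    rw [abs_le] at h1 h2
    simp only [hΔ]
    rw [abs_le]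
    constructor <;> linarith [h1.1, h1.2, h2.1, h2.2]
  have hcon' : ξ < ∑ ω, μ ω * Δ ω := hcon
  have hξ2 : ξ < 2 := by
    have : ∑ ω, μ ω * Δ ω ≤ ∑ ω, μ ω * 2 :=
      Finset.sum_le_sum (fun ω _ => mul_le_mul_of_nonneg_left (hΔ2 ω) (hμ ω))
    rw [← Finset.sum_mul, hμ1] at this
    linarith
  have hdR : (1 : ℝ) ≤ (d : ℝ) ^ 2 := by
    have : (1 : ℝ) ≤ d := by exact_mod_cast hd
    nlinarith
  set N : ℕ := ⌊8 * (d : ℝ) ^ 2 / ξ⌋₊ + 1 with hN
  have hN1 : 8 * (d : ℝ) ^ 2 / ξ < N := by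
    rw [hN]; push_cast; exact Nat.lt_floor_add_one _
  have hN2 : (N : ℝ) ≤ 16 * (d : ℝ) ^ 2 / ξ := by
    have h0 : 0 ≤ 8 * (d : ℝ) ^ 2 / ξ := by positivity
    have h1 : (⌊8 * (d : ℝ) ^ 2 / ξ⌋₊ : ℝ) ≤ 8 * (d : ℝ) ^ 2 / ξ := Nat.floor_le h0
    have h2 : (1 : ℝ) ≤ 8 * (d : ℝ) ^ 2 / ξ := by
      rw [le_div_iff₀ hξ]; linarith
    have h3 : 16 * (d : ℝ) ^ 2 / ξ = 8 * (d : ℝ) ^ 2 / ξ + 8 * (d : ℝ) ^ 2 / ξ := by ring
    rw [hN]; push_cast; rw [h3]; linarith
  have claim : ∀ j : ℕ, j ≤ N → ∃ s : Finset Ω, s.card = j ∧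
      Set.PairwiseDisjoint (s : Set Ω) C ∧ ∀ ω ∈ s, 0 < μ ω ∧ ξ / 2 ≤ Δ ω := by
    intro j
    induction j with
    | zero => intro _; exact ⟨∅, rfl, by simp, by simp⟩
    | succ j ih =>
      intro hj
      obtain ⟨s, hs, hdis, hω⟩ := ih (by omega)
      set U := s.biUnion C with hU
      have hUc : (U.card : ℝ) ≤ j * K := by
        have h1 : (U.card : ℝ) ≤ ∑ ω ∈ s, ((C ω).card : ℝ) := by
          exact_mod_cast Finset.card_biUnion_le
        refine h1.trans ?_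
        have h2 : ∑ ω ∈ s, ((C ω).card : ℝ) ≤ ∑ _ω ∈ s, K :=
          Finset.sum_le_sum (fun ω hw => hK ω (hω ω hw).1)
        rw [Finset.sum_const, hs, nsmul_eq_mul] at h2
        exact h2
      have hbad : ∑ ω ∈ univ.filter (fun ω => ¬ Disjoint (C ω) U), μ ω ≤ j * K * π := by
        have h1 : ∑ ω ∈ univ.filter (fun ω => ¬ Disjoint (C ω) U), μ ω
            ≤ ∑ a ∈ U, ∑ ω ∈ univ.filter (fun ω => a ∈ C ω), μ ω := by
          have h2 : univ.filter (fun ω => ¬ Disjoint (C ω) U)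
              ⊆ U.biUnion (fun a => univ.filter (fun ω => a ∈ C ω)) := by
            intro ω hw
            rw [Finset.mem_filter] at hw
            rw [Finset.not_disjoint_iff] at hw
            obtain ⟨-, a, ha, haU⟩ := hw
            rw [Finset.mem_biUnion]
            exact ⟨a, haU, by simp [ha]⟩
          refine (Finset.sum_le_sum_of_subset_of_nonneg h2 (fun ω _ _ => hμ ω)).trans ?_
          exact sum_biUnion_le_aux U _ μ hμ
        refine h1.trans ?_
        refine (Finset.sum_le_sum (fun a _ => hπ a)).trans ?_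
        rw [Finset.sum_const, nsmul_eq_mul]
        exact mul_le_mul_of_nonneg_right hUc hπ0
      have hjN : (j : ℝ) ≤ N := by exact_mod_cast (by omega : j ≤ N)
      have hsum : ξ / 2 < ∑ ω ∈ univ.filter (fun ω => Disjoint (C ω) U), μ ω * Δ ω := by
        have hsplit := Finset.sum_filter_add_sum_filter_not univ
          (fun ω => Disjoint (C ω) U) (fun ω => μ ω * Δ ω)
        have h1 : ∑ ω ∈ univ.filter (fun ω => ¬ Disjoint (C ω) U), μ ω * Δ ω ≤ j * K * π * 2 := by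
          have : ∑ ω ∈ univ.filter (fun ω => ¬ Disjoint (C ω) U), μ ω * Δ ω
              ≤ ∑ ω ∈ univ.filter (fun ω => ¬ Disjoint (C ω) U), μ ω * 2 :=
            Finset.sum_le_sum (fun ω _ => mul_le_mul_of_nonneg_left (hΔ2 ω) (hμ ω))
          rw [← Finset.sum_mul] at this
          linarith
        have h2 : (j : ℝ) * K * π * 2 ≤ ξ / 2 := by
          have h3 : (j : ℝ) * K * π * 2 ≤ (16 * (d : ℝ) ^ 2 / ξ) * (K * π) * 2 := by
            have : (j : ℝ) * (K * π) ≤ (16 * (d : ℝ) ^ 2 / ξ) * (K * π) :=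
              mul_le_mul_of_nonneg_right (hjN.trans hN2) (mul_nonneg hK0 hπ0)
            nlinarith
          refine h3.trans ?_
          have h4 : (16 * (d : ℝ) ^ 2 / ξ) * (K * π) * 2 = (64 * (d : ℝ) ^ 2 * K * π) / (2 * ξ) := by
            field_simp; ring
          rw [h4, div_le_iff₀ (by positivity)]
          nlinarith
        linarith
      obtain ⟨ω, hωm, hωμ, hωΔ⟩ : ∃ ω ∈ univ.filter (fun ω => Disjoint (C ω) U),
          0 < μ ω ∧ ξ / 2 ≤ Δ ω := by
        by_contra hno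
        push Not at hno
        have h1 : ∑ ω ∈ univ.filter (fun ω => Disjoint (C ω) U), μ ω * Δ ω
            ≤ ∑ ω ∈ univ.filter (fun ω => Disjoint (C ω) U), μ ω * (ξ / 2) := by
          apply Finset.sum_le_sum
          intro ω hw
          rcases (hμ ω).lt_or_eq with h | h
          · exact mul_le_mul_of_nonneg_left (hno ω hw h).le (hμ ω)
          · rw [← h]; simp
        rw [← Finset.sum_mul] at h1
        have h2 : ∑ ω ∈ univ.filter (fun ω => Disjoint (C ω) U), μ ω ≤ 1 := by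
          rw [← hμ1]
          exact Finset.sum_le_sum_of_subset_of_nonneg (Finset.filter_subset _ _)
            (fun ω _ _ => hμ ω)
        nlinarith
      have hdisU : Disjoint (C ω) U := (Finset.mem_filter.mp hωm).2
      have hCne : C ω ≠ ∅ := by
        intro h0
        have : mix (C ω) (y ω) v = v := by
          funext i; unfold mix; simp [h0]
        have h1 : Δ ω = 0 := by simp [hΔ, this]
        rw [h1] at hωΔ
        linarith
      have hωs : ω ∉ s := by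
        intro hmem
        have hsub : C ω ⊆ U := Finset.subset_biUnion_of_mem C hmem
        have : C ω = ∅ := by
          have := hdisU.mono_right hsub
          rwa [disjoint_self] at this
        exact hCne this
      refine ⟨insert ω s, ?_, ?_, ?_⟩
      · rw [Finset.card_insert_of_notMem hωs, hs]
      · rw [Finset.coe_insert]
        apply Set.PairwiseDisjoint.insert hdis
        intro b hb _
        exact hdisU.mono_right (Finset.subset_biUnion_of_mem C (by exact_mod_cast hb))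
      · intro b hb
        rcases Finset.mem_insert.mp hb with rfl | hb
        · exact ⟨hωμ, hωΔ⟩
        · exact hω b hb
  obtain ⟨s, hs, hdis, hω⟩ := claim N le_rfl
  have hB : Set.PairwiseDisjoint (s : Set Ω) (fun ω => (C ω).filter (fun i => y ω i ≠ v i)) := by
    intro a ha b hb hab
    exact (hdis ha hb hab).mono (Finset.filter_subset _ _) (Finset.filter_subset _ _)
  have hblk := abs_block hg s (fun ω => (C ω).filter (fun i => y ω i ≠ v i)) hB v
  have hlow : (N : ℝ) * (ξ / 2) ≤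
      ∑ i ∈ s, |g v - g (flipOn ((C i).filter (fun j => y i j ≠ v j)) v)| := by
    have h1 : ∑ _i ∈ s, ξ / 2 ≤
        ∑ i ∈ s, |g v - g (flipOn ((C i).filter (fun j => y i j ≠ v j)) v)| := by
      apply Finset.sum_le_sum
      intro ω hw
      rw [← mix_eq_flipOn, abs_sub_comm]
      exact (hω ω hw).2
    rw [Finset.sum_const, hs, nsmul_eq_mul] at h1
    exact h1
  have h8 : 8 * (d : ℝ) ^ 2 < N * ξ := by
    rw [div_lt_iff₀ hξ] at hN1
    exact hN1
  nlinarith

end Pool.Agent.SUB
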