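import Mathlib
import Pool.Agent.SUB.Hw
import Pool.Agent.SUB.Insens

/-!
SUBEXP module PLD: the planting measure. `ω = (w, x)` is drawn with `w ∈ W`, weight
`hw η p f w x / (2^n m)`, `m = ∑_{w ∈ W} Pw w`.

* `EW_*`: `EW` is an expectation (`m > 0`): finite sums with nonnegative weights of total mass `1`.
* `EW_insens`: apply `insens` to `Ω = Fin n × Cube n`,
  `μ (w,x) = if w ∈ W then hw η p f w x / (2^n m) else 0`, `C (w,x) = C w`, `y (w,x) = x`.
* `EW_meet`: the probability that `C w'` meets a set `U` is at most `|U| π` (union bound).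
-/

set_option linter.dupNamespace false

namespace Pool.Agent.SUB

open Finset Pool.Agent.Helper11.Cube Pool.Agent.Helper11.AA

variable {n d p : ℕ} {η : ℝ} {f : Cube n → ℝ} {W : Finset (Fin n)} {C : Fin n → Finset (Fin n)}
  {K π ξ : ℝ}

/-- Expectation over the planting measure. -/
noncomputable def EW (η : ℝ) (p : ℕ) (f : Cube n → ℝ) (W : Finset (Fin n))
    (G : Fin n → Cube n → ℝ) : ℝ :=
  (∑ w ∈ W, ex (fun x => hw η p f w x * G w x)) / ∑ w ∈ W, Pw η p f w

/-- the weight of one planting -/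
noncomputable def PLDq (η : ℝ) (p : ℕ) (f : Cube n → ℝ) (W : Finset (Fin n))
    (z : Fin n × Cube n) : ℝ :=
  hw η p f z.1 z.2 / ((2 : ℝ) ^ n * ∑ w ∈ W, Pw η p f w)

lemma PLD_eq (G : Fin n → Cube n → ℝ) : EW η p f W G =
    ∑ z ∈ W ×ˢ (univ : Finset (Cube n)), PLDq η p f W z * G z.1 z.2 := by
  unfold EW ex PLDq
  rw [Finset.sum_product, Finset.sum_div]
  refine Finset.sum_congr rfl fun w _ => ?_
  rw [div_div, Finset.sum_div]
  refine Finset.sum_congr rfl fun x _ => ?_
  ring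

lemma PLD_row (w : Fin n) : ∑ x, PLDq η p f W (w, x) = Pw η p f w / ∑ w ∈ W, Pw η p f w := by
  unfold PLDq
  rw [← Finset.sum_div]
  unfold Pw ex
  rw [div_div]

lemma PLD_tot (hm : 0 < ∑ w ∈ W, Pw η p f w) :
    ∑ z ∈ W ×ˢ (univ : Finset (Cube n)), PLDq η p f W z = 1 := by
  rw [Finset.sum_product, Finset.sum_congr rfl (fun w _ => PLD_row w), ← Finset.sum_div]
  exact div_self hm.ne'

lemma PLDq_nonneg (z : Fin n × Cube n) : 0 ≤ PLDq η p f W z := by
  unfold PLDq
  have h1 : 0 ≤ ∑ w ∈ W, Pw η p f w := Finset.sum_nonneg fun w _ => Pw_nonneg f w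
  have h2 := hw_nonneg (η := η) (p := p) f z.1 z.2
  positivity

/-- Hypotheses of the planting lemma: the planted sets `C w`, `w ∈ W`, have at most `K` elements and
no coordinate lies in them with probability more than `π`. -/
structure PH (d p : ℕ) (η : ℝ) (f : Cube n → ℝ) (W : Finset (Fin n))
    (C : Fin n → Finset (Fin n)) (K π ξ : ℝ) : Prop where
  hd : 1 ≤ d
  hp : 1 ≤ p
  hη : 0 < η
  hf : Bdd d f
  hm : 0 < ∑ w ∈ W, Pw η p f w
  hK0 : 0 ≤ K
  hπ0 : 0 ≤ π
  hK : ∀ w ∈ W, ((C w).card : ℝ) ≤ K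
  hπ : ∀ a, ∑ w ∈ W.filter (fun w => a ∈ C w), Pw η p f w ≤ π * ∑ w ∈ W, Pw η p f w
  hξ : 0 < ξ
  hKξ : 64 * (d : ℝ) ^ 2 * K * π ≤ ξ ^ 2

lemma EW_mono (hm : 0 < ∑ w ∈ W, Pw η p f w) {G G' : Fin n → Cube n → ℝ}
    (h : ∀ w ∈ W, ∀ x, G w x ≤ G' w x) : EW η p f W G ≤ EW η p f W G' := by
  rw [PLD_eq, PLD_eq]
  refine Finset.sum_le_sum fun z hz => ?_
  exact mul_le_mul_of_nonneg_left (h z.1 (Finset.mem_product.1 hz).1 z.2) (PLDq_nonneg z)

lemma EW_const (hm : 0 < ∑ w ∈ W, Pw η p f w) (c : ℝ) : EW η p f W (fun _ _ => c) = c := by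
  rw [PLD_eq, ← Finset.sum_mul, PLD_tot hm, one_mul]

lemma EW_add (G G' : Fin n → Cube n → ℝ) :
    EW η p f W (fun w x => G w x + G' w x) = EW η p f W G + EW η p f W G' := by
  rw [PLD_eq, PLD_eq, PLD_eq, ← Finset.sum_add_distrib]
  refine Finset.sum_congr rfl fun z _ => ?_
  ring

lemma EW_sub (G G' : Fin n → Cube n → ℝ) :
    EW η p f W (fun w x => G w x - G' w x) = EW η p f W G - EW η p f W G' := by
  rw [PLD_eq, PLD_eq, PLD_eq, ← Finset.sum_sub_distrib]
  refine Finset.sum_congr rfl fun z _ => ?_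
  ring

lemma EW_const_mul (c : ℝ) (G : Fin n → Cube n → ℝ) :
    EW η p f W (fun w x => c * G w x) = c * EW η p f W G := by
  rw [PLD_eq, PLD_eq, Finset.mul_sum]
  refine Finset.sum_congr rfl fun z _ => ?_
  ring

lemma EW_sum {ι : Type*} (s : Finset ι) (G : ι → Fin n → Cube n → ℝ) :
    EW η p f W (fun w x => ∑ i ∈ s, G i w x) = ∑ i ∈ s, EW η p f W (G i) := by
  rw [PLD_eq, Finset.sum_congr rfl (fun i _ => PLD_eq (G i)), Finset.sum_comm]
  refine Finset.sum_congr rfl fun z _ => ?_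
  rw [Finset.mul_sum]

lemma EW_comm (G : Fin n → Cube n → Fin n → Cube n → ℝ) :
    EW η p f W (fun w x => EW η p f W (fun w' x' => G w x w' x'))
      = EW η p f W (fun w' x' => EW η p f W (fun w x => G w x w' x')) := by
  rw [PLD_eq, PLD_eq]
  simp only [PLD_eq, Finset.mul_sum]
  rw [Finset.sum_comm]
  refine Finset.sum_congr rfl fun z _ => Finset.sum_congr rfl fun z' _ => ?_
  ring

lemma exists_EW_le (hm : 0 < ∑ w ∈ W, Pw η p f w) (G : Fin n → Cube n → ℝ) :
    ∃ w ∈ W, ∃ x, EW η p f W G ≤ G w x := by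
  have hW : W.Nonempty := by
    by_contra h
    rw [Finset.not_nonempty_iff_eq_empty] at h
    rw [h, Finset.sum_empty] at hm
    exact lt_irrefl _ hm
  obtain ⟨z, hz, hmax⟩ := Finset.exists_max_image (W ×ˢ (univ : Finset (Cube n)))
    (fun z => G z.1 z.2) (hW.product Finset.univ_nonempty)
  refine ⟨z.1, (Finset.mem_product.1 hz).1, z.2, ?_⟩
  have h1 : EW η p f W G ≤ EW η p f W (fun _ _ => G z.1 z.2) :=
    EW_mono hm fun w hw x => hmax (w, x) (Finset.mem_product.2 ⟨hw, Finset.mem_univ _⟩)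
  rwa [EW_const hm] at h1

lemma EW_insens (h : PH d p η f W C K π ξ) {g : Cube n → ℝ} (hg : Bdd d g) (v : Cube n) :
    EW η p f W (fun w x => |g (mix (C w) x v) - g v|) ≤ ξ := by
  classical
  have hsum : ∀ F : Fin n × Cube n → ℝ,
      ∑ z, (if z.1 ∈ W then PLDq η p f W z else 0) * F z =
        ∑ z ∈ W ×ˢ (univ : Finset (Cube n)), PLDq η p f W z * F z := by
    intro F
    have h1 : W ×ˢ (univ : Finset (Cube n)) = univ.filter fun z : Fin n × Cube n => z.1 ∈ W := by
      ext z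
      simp
    rw [h1, Finset.sum_filter]
    refine Finset.sum_congr rfl fun z _ => ?_
    split_ifs <;> simp
  have hI := insens (Ω := Fin n × Cube n) (fun z => if z.1 ∈ W then PLDq η p f W z else 0)
    (fun z => by
      split_ifs
      · exact PLDq_nonneg z
      · exact le_refl _)
    (by
      have h1 := hsum fun _ => 1
      simp only [mul_one] at h1
      rw [h1, PLD_tot h.hm])
    (fun z => C z.1) (fun z => z.2) h.hK0 h.hπ0
    (fun z hz => by
      by_cases hzW : z.1 ∈ W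
      · exact h.hK _ hzW
      · rw [if_neg hzW] at hz
        exact absurd hz (lt_irrefl _))
    (fun a => by
      have h1 := hsum fun z => if a ∈ C z.1 then 1 else 0
      rw [Finset.sum_filter]
      have h2 : ∑ z : Fin n × Cube n, (if a ∈ C z.1 then
          (if z.1 ∈ W then PLDq η p f W z else 0) else 0) =
          ∑ z, (if z.1 ∈ W then PLDq η p f W z else 0) * (if a ∈ C z.1 then 1 else 0) := by
        refine Finset.sum_congr rfl fun z _ => ?_
        split_ifs <;> simp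
      rw [h2, h1, Finset.sum_product]
      have h3 : ∀ w ∈ W, ∑ x, PLDq η p f W (w, x) * (if a ∈ C w then (1 : ℝ) else 0) =
          (if a ∈ C w then Pw η p f w else 0) / ∑ w ∈ W, Pw η p f w := by
        intro w _
        rw [← Finset.sum_mul, PLD_row]
        split_ifs <;> simp
      rw [Finset.sum_congr rfl h3, ← Finset.sum_div, ← Finset.sum_filter, div_le_iff₀ h.hm]
      exact h.hπ a)
    h.hξ h.hKξ h.hd hg v
  rw [PLD_eq, ← hsum fun z => |g (mix (C z.1) z.2 v) - g v|]
  exact hI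

lemma EW_meet (h : PH d p η f W C K π ξ) (U : Finset (Fin n)) :
    EW η p f W (fun w _ => if Disjoint (C w) U then 0 else 1) ≤ (U.card : ℝ) * π := by
  classical
  have h1 : EW η p f W (fun w _ => if Disjoint (C w) U then 0 else 1) ≤
      EW η p f W (fun w _ => ∑ a ∈ U, if a ∈ C w then (1 : ℝ) else 0) := by
    refine EW_mono h.hm fun w _ x => ?_
    by_cases hd : Disjoint (C w) U
    · rw [if_pos hd]
      exact Finset.sum_nonneg fun a _ => by split_ifs <;> norm_num
    · rw [if_neg hd]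
      obtain ⟨a, ha, haU⟩ := Finset.not_disjoint_iff.1 hd
      have h2 := Finset.single_le_sum (f := fun a => if a ∈ C w then (1 : ℝ) else 0)
        (fun a _ => by split_ifs <;> norm_num) haU
      simp only [if_pos ha] at h2
      exact h2
  refine h1.trans ?_
  rw [EW_sum U (fun a w _ => if a ∈ C w then (1 : ℝ) else 0)]
  have h2 : ∀ a ∈ U, EW η p f W (fun w _ => if a ∈ C w then (1 : ℝ) else 0) ≤ π := by
    intro a _
    unfold EW
    rw [div_le_iff₀ h.hm]
    refine le_trans (le_of_eq ?_) (h.hπ a)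
    rw [Finset.sum_filter]
    refine Finset.sum_congr rfl fun w _ => ?_
    by_cases haw : a ∈ C w
    · simp only [if_pos haw, mul_one]
      rfl
    · simp only [if_neg haw, mul_zero]
      rw [ex_const]
  have h3 := Finset.sum_le_sum h2
  rwa [Finset.sum_const, nsmul_eq_mul] at h3

end Pool.Agent.SUB
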