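import Mathlib
import Pool.Agent.SUB.PlantDefs
import Pool.Agent.SUB.Ex

/-!
SUBEXP module PL1: a point where the planting probability is large.

`RW v = EW (fun w x => hw w (mix (C w) x v))`: the probability that, after planting `x` (drawn from
the density `hw w`) on `C w` into `v`, the coordinate `w` is pivotal.

`exists_RW`: `ex_z RW z = (∑_{w∈W} ex_x (hw w x * ex_z (hw w (mix (C w) x z)))) / m`. By
`ex_mix_mul` (with `φ x = ex_z (hw w (mix (C w) x z))`, which depends only on `x` on `C w`),
`ex_x (hw w x * φ x) = ex (φ^2) ≥ G Pw w`. So `ex RW ≥ G`, and some `v` has `RW v ≥ ex RW`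
(`exists_ex_le`).
-/

set_option linter.dupNamespace false

namespace Pool.Agent.SUB

open Finset Pool.Agent.Helper11.Cube Pool.Agent.Helper11.AA

variable {n d p : ℕ} {η : ℝ} {f : Cube n → ℝ} {W : Finset (Fin n)} {C : Fin n → Finset (Fin n)}
  {K π ξ : ℝ}

/-- Probability that the planted pivot is pivotal after planting into `v`. -/
noncomputable def RW (η : ℝ) (p : ℕ) (f : Cube n → ℝ) (W : Finset (Fin n))
    (C : Fin n → Finset (Fin n)) (v : Cube n) : ℝ :=
  EW η p f W (fun w x => hw η p f w (mix (C w) x v))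

private lemma ex_RW : ex (RW η p f W C) = (∑ w ∈ W, ex (fun x => hw η p f w x *
      ex (fun z => hw η p f w (mix (C w) x z)))) / ∑ w ∈ W, Pw η p f w := by
  have h1 : ex (RW η p f W C)
      = (∑ w ∈ W, ex (fun v => ex (fun x => hw η p f w x * hw η p f w (mix (C w) x v))))
        / ∑ w ∈ W, Pw η p f w := by
    unfold RW EW
    rw [ex, ← Finset.sum_div, div_div, mul_comm _ ((2 : ℝ) ^ n), ← div_div, Finset.sum_comm]
    congr 1
    rw [Finset.sum_div]
    rfl
  rw [h1]
  congr 1
  refine Finset.sum_congr rfl fun w _ => ?_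
  rw [ex_comm]
  congr 1
  funext x
  rw [ex_mul_left']

lemma exists_RW (hm : 0 < ∑ w ∈ W, Pw η p f w) {G : ℝ}
    (hG : ∀ w ∈ W, G * Pw η p f w ≤ ex (fun x => ex (fun z => hw η p f w (mix (C w) x z)) ^ 2)) :
    ∃ v, G ≤ RW η p f W C v := by
  obtain ⟨v, hv⟩ := exists_ex_le (RW η p f W C)
  refine ⟨v, le_trans ?_ hv⟩
  rw [ex_RW, le_div_iff₀ hm, Finset.mul_sum]
  refine Finset.sum_le_sum fun w hw' => le_trans (hG w hw') (le_of_eq ?_)
  have hφ : ∀ x z, (fun x => ex (fun z => hw η p f w (mix (C w) x z))) (mix (C w) x z)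
      = (fun x => ex (fun z => hw η p f w (mix (C w) x z))) x := by
    intro x z
    have : ∀ z', mix (C w) (mix (C w) x z) z' = mix (C w) x z' := by
      intro z'
      funext i
      by_cases h : i ∈ C w <;> simp [mix, h]
    simp only [this]
  have h2 := ex_mix_mul (C w) (hw η p f w)
    (fun x => ex (fun z => hw η p f w (mix (C w) x z))) hφ
  rw [← h2]
  congr 1
  funext x
  rw [sq]

end Pool.Agent.SUB
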