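import Mathlib
import Pool.Agent.SUB.PlantDefs
import Pool.Agent.SUB.Plant1

/-!
SUBEXP module PL3: one planting step does not decrease `RW` much on average.

`EW_{(w,x)} RW (mix (C w) x v) = EW_{(w,x)} EW_{(w',x')} hw w' (mix (C w') x' (mix (C w) x v))`.
Pointwise: if `C w`, `C w'` are disjoint then
`mix (C w') x' (mix (C w) x v) = mix (C w) x (mix (C w') x' v)`, so (as `0 ≤ hw ≤ 1`) with
`z = mix (C w') x' v`
`hw w' (mix (C w') x' (mix (C w) x v)) ≥ hw w' (mix (C w) x z) - 1[C w ∩ C w' ≠ ∅]`
`  ≥ hw w' z - (p/η) |D_{w'} f (mix (C w) x z) - D_{w'} f z| - 1[C w ∩ C w' ≠ ∅]` (`cut_lip`).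
Exchange the two expectations (`EW_comm`) and integrate over `(w,x)` first for fixed `(w',x')`:
the middle term is `≤ (p/η) ξ` (`EW_insens` for `g = D_{w'} f` at the base point `z`), the last one
`≤ |C w'| π ≤ K π` (`EW_meet`, `hK`).
-/

set_option linter.dupNamespace false

namespace Pool.Agent.SUB

open Finset Pool.Agent.Helper11.Cube Pool.Agent.Helper11.AA

variable {n d p : ℕ} {η : ℝ} {f : Cube n → ℝ} {W : Finset (Fin n)} {C : Fin n → Finset (Fin n)}
  {K π ξ : ℝ}

private lemma pl3_mix_comm {S T : Finset (Fin n)} (h : Disjoint S T) (x y v : Cube n) :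
    mix T y (mix S x v) = mix S x (mix T y v) := by
  funext i
  unfold mix
  by_cases h1 : i ∈ S
  · have h2 : i ∉ T := Finset.disjoint_left.1 h h1
    simp [h1, h2]
  · simp [h1]

private lemma pl3_point (hη : 0 < η) (w w' : Fin n) (x x' v : Cube n) :
    hw η p f w' (mix (C w') x' v)
        - p / η * |discreteDeriv w' f (mix (C w) x (mix (C w') x' v))
            - discreteDeriv w' f (mix (C w') x' v)|
        - (if Disjoint (C w) (C w') then 0 else 1)
      ≤ hw η p f w' (mix (C w') x' (mix (C w) x v)) := by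
  set z := mix (C w') x' v with hz
  have hp0 : 0 ≤ (p : ℝ) / η * |discreteDeriv w' f (mix (C w) x z) - discreteDeriv w' f z| := by
    positivity
  by_cases hd : Disjoint (C w) (C w')
  · rw [if_pos hd, sub_zero, pl3_mix_comm hd, ← hz]
    unfold hw
    have h1 := cut_lip (p := p) hη |discreteDeriv w' f z| |discreteDeriv w' f (mix (C w) x z)|
    have h2 : |(|discreteDeriv w' f z| - |discreteDeriv w' f (mix (C w) x z)|)|
        ≤ |discreteDeriv w' f (mix (C w) x z) - discreteDeriv w' f z| := by
      rw [abs_sub_comm (discreteDeriv w' f (mix (C w) x z))]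
      exact abs_abs_sub_abs_le_abs_sub _ _
    have h3 : (p : ℝ) / η * |(|discreteDeriv w' f z| - |discreteDeriv w' f (mix (C w) x z)|)|
        ≤ p / η * |discreteDeriv w' f (mix (C w) x z) - discreteDeriv w' f z| :=
      mul_le_mul_of_nonneg_left h2 (by positivity)
    have h4 := le_abs_self (cut η p |discreteDeriv w' f z|
      - cut η p |discreteDeriv w' f (mix (C w) x z)|)
    linarith
  · rw [if_neg hd]
    have h1 := hw_le_one (η := η) (p := p) f w' z
    have h2 := hw_nonneg (η := η) (p := p) f w' (mix (C w') x' (mix (C w) x v))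
    linarith

theorem step_R (h : PH d p η f W C K π ξ) (v : Cube n) :
    RW η p f W C v - (p / η * ξ + K * π)
      ≤ EW η p f W (fun w x => RW η p f W C (mix (C w) x v)) := by
  have hpη : 0 ≤ (p : ℝ) / η := div_nonneg (Nat.cast_nonneg p) h.hη.le
  have e1 : EW η p f W (fun w x => RW η p f W C (mix (C w) x v)) =
      EW η p f W (fun w' x' => EW η p f W (fun w x =>
        hw η p f w' (mix (C w') x' (mix (C w) x v)))) := by
    unfold RW
    exact EW_comm (fun w x w' x' => hw η p f w' (mix (C w') x' (mix (C w) x v)))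
  have e2 : RW η p f W C v - (p / η * ξ + K * π) =
      EW η p f W (fun w' x' => hw η p f w' (mix (C w') x' v) - (p / η * ξ + K * π)) := by
    rw [EW_sub, EW_const h.hm]
    rfl
  rw [e1, e2]
  refine EW_mono h.hm fun w' hw' x' => ?_
  set z := mix (C w') x' v with hz
  have h1 : EW η p f W (fun w x => hw η p f w' z
        - p / η * |discreteDeriv w' f (mix (C w) x z) - discreteDeriv w' f z|
        - (if Disjoint (C w) (C w') then 0 else 1))
      ≤ EW η p f W (fun w x => hw η p f w' (mix (C w') x' (mix (C w) x v))) :=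
    EW_mono h.hm fun w _ x => pl3_point h.hη w w' x x' v
  refine le_trans ?_ h1
  have h2 : EW η p f W (fun w x => hw η p f w' z
        - p / η * |discreteDeriv w' f (mix (C w) x z) - discreteDeriv w' f z|
        - (if Disjoint (C w) (C w') then 0 else 1)) =
      hw η p f w' z
        - p / η * EW η p f W (fun w x =>
            |discreteDeriv w' f (mix (C w) x z) - discreteDeriv w' f z|)
        - EW η p f W (fun w _ => if Disjoint (C w) (C w') then 0 else 1) := by
    rw [EW_sub (fun w x => hw η p f w' z
        - p / η * |discreteDeriv w' f (mix (C w) x z) - discreteDeriv w' f z|)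
        (fun w _ => if Disjoint (C w) (C w') then 0 else 1),
      EW_sub (fun _ _ => hw η p f w' z)
        (fun w x => p / η * |discreteDeriv w' f (mix (C w) x z) - discreteDeriv w' f z|),
      EW_const h.hm, EW_const_mul]
  rw [h2]
  have h3 := EW_insens h (bdd_deriv h.hf w') z
  have h4 := EW_meet h (C w')
  have h5 := h.hK w' hw'
  have h6 : ((C w').card : ℝ) * π ≤ K * π := mul_le_mul_of_nonneg_right h5 h.hπ0
  have h7 := mul_le_mul_of_nonneg_left h3 hpη
  linarith

end Pool.Agent.SUB
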