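import Mathlib
import Pool.Agent.SUB.Plant2
import Pool.Agent.SUB.Plant3

/-!
SUBEXP module PL4: the planting lemma.

`δ₁ = 2d^2/η * (p/η ξ) + 2 d^2/η * Pm / m`, `δ₂ = p/η ξ + K π`. Start from `v_0` with
`RW v_0 ≥ G` (`exists_RW`). Claim: for `k ≤ N` there is `v_k` with
`H v_k + (N - k) RW v_k ≥ N G - k (δ₁ + N δ₂)` (`H v = ∑_w hw w v ≥ 0`). Step: by `step_H`, `step_R`
the `EW`-average of `H (v_k ⊕ ω) + (N-k-1) RW (v_k ⊕ ω)` is
`≥ H v_k + RW v_k - δ₁ + (N-k-1)(RW v_k - δ₂) ≥ (N G - k(δ₁+Nδ₂)) - δ₁ - N δ₂`;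
take `ω` with value at least the average (`exists_EW_le`). For `k = N`:
`N (G - δ₁ - N δ₂) ≤ H v_N ≤ 2 d^2/η` (`sum_hw_le`).
-/

set_option linter.dupNamespace false

namespace Pool.Agent.SUB

open Finset Pool.Agent.Helper11.Cube Pool.Agent.Helper11.AA

variable {n d p : ℕ} {η : ℝ} {f : Cube n → ℝ} {W : Finset (Fin n)} {C : Fin n → Finset (Fin n)}
  {K π ξ : ℝ}

private lemma plant_iter (h : PH d p η f W C K π ξ) {Pm : ℝ} (hPm : ∀ w ∈ W, Pw η p f w ≤ Pm)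
    {G : ℝ}
    (hG : ∀ w ∈ W, G * Pw η p f w ≤ ex (fun x => ex (fun z => hw η p f w (mix (C w) x z)) ^ 2))
    (N : ℕ) : ∀ k : ℕ, k ≤ N → ∃ v : Cube n,
      (N : ℝ) * G - k * ((2 * (d : ℝ) ^ 2 / η * (p / η * ξ)
          + 2 * (d : ℝ) ^ 2 / η * Pm / ∑ w ∈ W, Pw η p f w) + N * (p / η * ξ + K * π))
        ≤ (∑ w, hw η p f w v) + ((N : ℝ) - k) * RW η p f W C v := by
  intro k
  have hη := h.hη
  have hδ2 : 0 ≤ p / η * ξ + K * π :=
    add_nonneg (mul_nonneg (by positivity) h.hξ.le) (mul_nonneg h.hK0 h.hπ0)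
  induction k with
  | zero =>
    intro _
    obtain ⟨v, hv⟩ := exists_RW h.hm hG
    refine ⟨v, ?_⟩
    have h1 : 0 ≤ ∑ w, hw η p f w v := Finset.sum_nonneg (fun w _ => hw_nonneg f w v)
    have h2 : (N : ℝ) * G ≤ N * RW η p f W C v := mul_le_mul_of_nonneg_left hv (Nat.cast_nonneg N)
    simp only [Nat.cast_zero, zero_mul, sub_zero]
    linarith
  | succ k ih =>
    intro hk
    obtain ⟨v, hv⟩ := ih (by omega)
    have hH := step_H h hPm v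
    have hR := step_R h v
    obtain ⟨w, _, x, hwx⟩ := exists_EW_le (η := η) (p := p) (f := f) (W := W) h.hm
      (fun w x => (∑ w', hw η p f w' (mix (C w) x v))
        + ((N : ℝ) - (k + 1 : ℕ)) * RW η p f W C (mix (C w) x v))
    refine ⟨mix (C w) x v, le_trans ?_ hwx⟩
    rw [EW_add (fun w x => ∑ w', hw η p f w' (mix (C w) x v))
      (fun w x => ((N : ℝ) - (k + 1 : ℕ)) * RW η p f W C (mix (C w) x v)),
      EW_const_mul ((N : ℝ) - (k + 1 : ℕ)) (fun w x => RW η p f W C (mix (C w) x v))]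
    have hNk : (0 : ℝ) ≤ (N : ℝ) - (k + 1 : ℕ) := by
      have : ((k + 1 : ℕ) : ℝ) ≤ N := by exact_mod_cast hk
      linarith
    have hmul := mul_le_mul_of_nonneg_left hR hNk
    have hNk2 : ((N : ℝ) - (k + 1 : ℕ)) * (p / η * ξ + K * π) ≤ N * (p / η * ξ + K * π) := by
      refine mul_le_mul_of_nonneg_right ?_ hδ2
      have : (0 : ℝ) ≤ ((k + 1 : ℕ) : ℝ) := Nat.cast_nonneg _
      linarith
    push_cast at hv hmul hNk2 ⊢
    nlinarith [hv, hH, hmul, hNk2]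

theorem plant (h : PH d p η f W C K π ξ) {Pm : ℝ} (hPm : ∀ w ∈ W, Pw η p f w ≤ Pm) {G : ℝ}
    (hG : ∀ w ∈ W, G * Pw η p f w ≤ ex (fun x => ex (fun z => hw η p f w (mix (C w) x z)) ^ 2))
    (N : ℕ) :
    (N : ℝ) * (G - (2 * (d : ℝ) ^ 2 / η * (p / η * ξ)
          + 2 * (d : ℝ) ^ 2 / η * Pm / ∑ w ∈ W, Pw η p f w)
        - N * (p / η * ξ + K * π)) ≤ 2 * (d : ℝ) ^ 2 / η := by
  obtain ⟨v, hv⟩ := plant_iter h hPm hG N N le_rfl
  have h1 := sum_hw_le h.hη h.hp h.hf v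
  rw [sub_self, zero_mul, add_zero] at hv
  refine le_trans (le_of_eq ?_) (hv.trans h1)
  ring

end Pool.Agent.SUB
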