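import Mathlib
import Pool.Agent.SUB.Plant4
import Pool.Agent.SUB.Ent
import Pool.Agent.SUB.BiasSum

/-!
SUBEXP module SHU: a shell of nearly product pivots without popular coordinates has tiny mass.

Notation `L w = -log (Pw w) ∈ [Λ, 2Λ]`, `Q = QQ d p η = 10^5 p d^2/η`, `β = bet d p η
= η/(64000 p d^2)`, `b = bias (hw η p f w)`, `C w = {a | β ≤ |b a|}`, `m = ∑_{w ∈ W} Pw w`.
Suppose `m > exp(-Λ/200)`. Note `exp(-p) ≤ Pw w` gives `(1/4)^p ≤ Pw w`, so `bias_sum` applies: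
`∑_a |b a| ≤ 24 p d^2/η`. Hence `|C w| β ≤ 24 p d^2/η`, `|C w| ≤ Q^2 =: K`, and
`∑_{a ∉ C w} KL (b a) ≤ ∑_{a ∉ C w} (b a)^2 ≤ β ∑ |b a| ≤ 24/64000 ≤ 1/2000` (`KL_le_sq`), so
`∑_{a ∈ C w} KL (b a) ≥ (1 - 1/2000) L w - 1/2000` and by `exp_sum_KL_le`
`ex ((E[hw | x_C])^2) ≥ exp(∑_{C w} KL) Pw^2 ≥ exp(-(L w + 1)/2000) Pw ≥ exp(-Λ/500) Pw`
(`1 ≤ L w ≤ 2Λ`). Put `G = exp(-Λ/500)`.
`PH` holds with `K = Q^2`, `π = exp(-Λ/50)` (`exp(-Λ/40) = exp(-Λ/50) exp(-Λ/200) ≤ π m`),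
`ξ = 8 d Q exp(-Λ/100)` (`ξ^2 = 64 d^2 K π`). `Pm = exp(-Λ)`.
`N = ⌊(4d^2/η)/G⌋₊ + 1`: `N G/2 > 2 d^2/η` and `N ≤ (5 d^2/η)/G ≤ Q/G`.
`2d^2/η, p/η, 8d ≤ Q`, so `δ₁ ≤ Q^4 exp(-Λ/100) + Q exp(-Λ + Λ/200) ≤ 2 Q^4 exp(-Λ/100)`,
`δ₂ ≤ Q^3 exp(-Λ/100) + Q^2 exp(-Λ/50) ≤ 2 Q^3 exp(-Λ/100)`, `N δ₂ ≤ 2 Q^4 exp(-Λ/125)`, and
`δ₁ + N δ₂ ≤ 4 Q^4 exp(-Λ/125) ≤ G/2` because `8 Q^4 ≤ Q^5 ≤ exp(5Λ/1000) ≤ exp(3Λ/500)`.
So `plant` gives `2d^2/η < N G/2 ≤ N (G - δ₁ - N δ₂) ≤ 2 d^2/η`, a contradiction.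
-/

set_option linter.dupNamespace false

namespace Pool.Agent.SUB

open Finset Pool.Agent.Helper11.Cube Pool.Agent.Helper11.AA

variable {n d p : ℕ} {η : ℝ}

/-- A polynomial quantity which bounds all the others. -/
noncomputable def QQ (d p : ℕ) (η : ℝ) : ℝ := 100000 * (p : ℝ) * (d : ℝ) ^ 2 / η

/-- The threshold for the biases. -/
noncomputable def bet (d p : ℕ) (η : ℝ) : ℝ := η / (64000 * (p : ℝ) * (d : ℝ) ^ 2)

private lemma shu_arith {Q e a1 a2 a3 m Pm N : ℝ} (hQ : 8 ≤ Q) (he : 0 < e) (hQe : Q * e ≤ 1)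
    (h1 : 0 ≤ a1) (h1' : a1 ≤ Q) (h2 : 0 ≤ a2) (h2' : a2 ≤ Q) (h3 : 0 ≤ a3) (h3' : a3 ≤ Q)
    (hm : e ^ 5 < m) (hPm : Pm ≤ e ^ 20) (hN : 0 ≤ N) (hN' : N * e ^ 2 ≤ Q) :
    (a1 * (a2 * (a3 * Q * e ^ 10)) + a1 * Pm / m) + N * (a2 * (a3 * Q * e ^ 10) + Q ^ 2 * e ^ 20)
      ≤ e ^ 2 / 2 := by
  have hQ0 : 0 < Q := by linarith
  have he1 : e ≤ 1 / 8 := by
    by_contra h
    push Not at h
    have : 1 < Q * e := by
      calc (1 : ℝ) = 8 * (1 / 8) := by norm_num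
        _ < 8 * e := by linarith
        _ ≤ Q * e := mul_le_mul_of_nonneg_right hQ he.le
    linarith
  have hpow : ∀ k : ℕ, (Q * e) ^ k ≤ 1 := fun k => pow_le_one₀ (by positivity) hQe
  have hek : ∀ k : ℕ, e ^ (4 + k) ≤ e ^ 4 := fun k =>
    pow_le_pow_of_le_one he.le (by linarith) (by omega)
  have hm0 : 0 < m := lt_trans (by positivity) hm
  have t1 : a1 * (a2 * (a3 * Q * e ^ 10)) ≤ e ^ 4 := by
    calc a1 * (a2 * (a3 * Q * e ^ 10)) ≤ Q * (Q * (Q * Q * e ^ 10)) := by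
          gcongr
      _ = (Q * e) ^ 4 * e ^ 6 := by ring
      _ ≤ 1 * e ^ 6 := mul_le_mul_of_nonneg_right (hpow 4) (by positivity)
      _ ≤ e ^ 4 := by rw [one_mul]; exact hek 2
  have t2 : a1 * Pm / m ≤ e ^ 4 := by
    rw [div_le_iff₀ hm0]
    calc a1 * Pm ≤ a1 * e ^ 20 := mul_le_mul_of_nonneg_left hPm h1
      _ ≤ Q * e ^ 20 := mul_le_mul_of_nonneg_right h1' (by positivity)
      _ = (Q * e) ^ 1 * e ^ 19 := by ring
      _ ≤ 1 * e ^ 19 := mul_le_mul_of_nonneg_right (hpow 1) (by positivity)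
      _ = e ^ 4 * e ^ 5 * e ^ 10 := by ring
      _ ≤ e ^ 4 * e ^ 5 * 1 := by
          refine mul_le_mul_of_nonneg_left ?_ (by positivity)
          exact pow_le_one₀ he.le (by linarith)
      _ ≤ e ^ 4 * m := by
          rw [mul_one]
          exact mul_le_mul_of_nonneg_left hm.le (by positivity)
  have t3 : N * (a2 * (a3 * Q * e ^ 10)) ≤ e ^ 4 := by
    calc N * (a2 * (a3 * Q * e ^ 10)) ≤ N * (Q * (Q * Q * e ^ 10)) := by gcongr
      _ = (N * e ^ 2) * (Q ^ 3 * e ^ 8) := by ring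
      _ ≤ Q * (Q ^ 3 * e ^ 8) := mul_le_mul_of_nonneg_right hN' (by positivity)
      _ = (Q * e) ^ 4 * e ^ 4 := by ring
      _ ≤ 1 * e ^ 4 := mul_le_mul_of_nonneg_right (hpow 4) (by positivity)
      _ = e ^ 4 := one_mul _
  have t4 : N * (Q ^ 2 * e ^ 20) ≤ e ^ 4 := by
    calc N * (Q ^ 2 * e ^ 20) = (N * e ^ 2) * (Q ^ 2 * e ^ 18) := by ring
      _ ≤ Q * (Q ^ 2 * e ^ 18) := mul_le_mul_of_nonneg_right hN' (by positivity)
      _ = (Q * e) ^ 3 * e ^ 15 := by ring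
      _ ≤ 1 * e ^ 15 := mul_le_mul_of_nonneg_right (hpow 3) (by positivity)
      _ ≤ e ^ 4 := by rw [one_mul]; exact hek 11
  have t5 : 4 * e ^ 4 ≤ e ^ 2 / 2 := by
    have : e ^ 2 ≤ (1 / 8) ^ 2 := pow_le_pow_left₀ he.le he1 2
    have h5 : e ^ 4 = e ^ 2 * e ^ 2 := by ring
    rw [h5]
    have h6 : e ^ 2 * e ^ 2 ≤ (1 / 8) ^ 2 * e ^ 2 :=
      mul_le_mul_of_nonneg_right this (by positivity)
    have h7 : 0 < e ^ 2 := by positivity
    nlinarith
  rw [mul_add]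
  linarith

theorem shell_unpop (hd : 1 ≤ d) (hp : 1 ≤ p) (hη : 0 < η) (hη1 : η ≤ 1) {f : Cube n → ℝ}
    (hf : Bdd d f) {Λ : ℝ} (hΛ : 1000 * Real.log (QQ d p η) ≤ Λ) (W : Finset (Fin n))
    (hW1 : ∀ w ∈ W, Real.exp (-(2 * Λ)) ≤ Pw η p f w ∧ Pw η p f w ≤ Real.exp (-Λ))
    (hW2 : ∀ w ∈ W, Real.exp (-(p : ℝ)) ≤ Pw η p f w)
    (hW3 : ∀ w ∈ W, (1 - 1 / 2000) * (- Real.log (Pw η p f w)) ≤ ∑ a, KL (bias (hw η p f w) a))
    (hpop : ∀ a, ∑ w ∈ W.filter (fun w => bet d p η ≤ |bias (hw η p f w) a|), Pw η p f w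
      ≤ Real.exp (-(Λ / 40))) :
    ∑ w ∈ W, Pw η p f w ≤ Real.exp (-(Λ / 200)) := by
  classical
  by_contra hcon
  push Not at hcon
  have hd' : (1 : ℝ) ≤ d := by exact_mod_cast hd
  have hp' : (1 : ℝ) ≤ p := by exact_mod_cast hp
  have hd0 : (0 : ℝ) < d := by linarith
  have hp0 : (0 : ℝ) < p := by linarith
  -- the basic quantity `D = d^2/η ≥ 1`
  obtain ⟨D, hD⟩ : ∃ D : ℝ, D = (d : ℝ) ^ 2 / η := ⟨_, rfl⟩
  have hdD : (d : ℝ) ≤ D := by
    rw [hD, le_div_iff₀ hη]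
    nlinarith
  have hD1 : 1 ≤ D := le_trans hd' hdD
  obtain ⟨E, hE⟩ : ∃ E : ℝ, E = (p : ℝ) / η := ⟨_, rfl⟩
  have hE0 : 0 < E := by rw [hE]; positivity
  have hpD : (p : ℝ) ≤ p * D := by nlinarith
  have hDp : D ≤ p * D := by nlinarith
  have hEpD : E ≤ p * D := by
    rw [hE, hD, div_le_iff₀ hη]
    have : (p : ℝ) * ((d : ℝ) ^ 2 / η) * η = p * (d : ℝ) ^ 2 := by field_simp
    rw [this]
    nlinarith [one_le_pow₀ hd' (n := 2)]
  have hQe : QQ d p η = 100000 * (p * D) := by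
    rw [QQ, hD]; ring
  obtain ⟨Q, hQ⟩ : ∃ Q : ℝ, Q = QQ d p η := ⟨_, rfl⟩
  have hQpD : Q = 100000 * (p * D) := by rw [hQ, hQe]
  have hpD1 : 1 ≤ (p : ℝ) * D := le_trans hD1 hDp
  have hQ1 : 100000 ≤ Q := by rw [hQpD]; linarith
  have hQ0 : 0 < Q := by linarith
  -- `e = exp (-Λ/1000)`
  obtain ⟨e, he⟩ : ∃ e : ℝ, e = Real.exp (-(Λ / 1000)) := ⟨_, rfl⟩
  have he0 : 0 < e := by rw [he]; exact Real.exp_pos _
  have hepow : ∀ k : ℕ, e ^ k = Real.exp (-(k * (Λ / 1000))) := by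
    intro k
    rw [he, ← Real.exp_nat_mul]
    congr 1
    ring
  have hQe1 : Q * e ≤ 1 := by
    have h1 : Q = Real.exp (Real.log Q) := (Real.exp_log hQ0).symm
    rw [h1, he, ← Real.exp_add]
    refine Real.exp_le_one_iff.2 ?_
    rw [← hQ] at hΛ
    linarith
  have hlogQ : 0 < Real.log Q := Real.log_pos (by linarith)
  have hΛ0 : 1 ≤ Λ := by
    have h1 : 1 ≤ Real.log Q := by
      rw [Real.le_log_iff_exp_le hQ0]
      have := Real.exp_one_lt_d9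
      linarith
    rw [← hQ] at hΛ
    linarith
  have hm : e ^ 5 < ∑ w ∈ W, Pw η p f w := by
    rw [hepow]
    refine lt_of_le_of_lt (le_of_eq ?_) hcon
    congr 1
    push_cast
    ring
  obtain ⟨m, hmd⟩ : ∃ m : ℝ, m = ∑ w ∈ W, Pw η p f w := ⟨_, rfl⟩
  rw [← hmd] at hm
  have hm0 : 0 < m := lt_trans (by positivity) hm
  have hβ0 : 0 < bet d p η := by unfold bet; positivity
  -- the sets `C w`
  let C : Fin n → Finset (Fin n) := fun w =>
    univ.filter (fun a => bet d p η ≤ |bias (hw η p f w) a|)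
  have hPpos : ∀ w ∈ W, 0 < Pw η p f w := fun w hw' =>
    lt_of_lt_of_le (Real.exp_pos _) (hW1 w hw').1
  have hquart : ∀ w ∈ W, (1 / 4 : ℝ) ^ p ≤ Pw η p f w := by
    intro w hw'
    have h : (1 / 4 : ℝ) ≤ Real.exp (-1) := by
      rw [Real.exp_neg, one_div]
      refine inv_anti₀ (Real.exp_pos 1) ?_
      have := Real.exp_one_lt_d9
      linarith
    calc ((1 / 4 : ℝ)) ^ p ≤ Real.exp (-1) ^ p := pow_le_pow_left₀ (by norm_num) h p
      _ = Real.exp (-(p : ℝ)) := by rw [← Real.exp_nat_mul]; congr 1; ring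
      _ ≤ _ := hW2 w hw'
  have hbs : ∀ w ∈ W, ∑ a, |bias (hw η p f w) a| ≤ 24 * (p * D) := by
    intro w hw'
    refine (bias_sum hη hp hf w (hquart w hw')).trans (le_of_eq ?_)
    rw [hD]; ring
  have hbet : bet d p η = 1 / (64000 * (p * D)) := by
    rw [bet, hD]
    field_simp
  have hKcard : ∀ w ∈ W, ((C w).card : ℝ) ≤ Q ^ 2 := by
    intro w hw'
    have h1 : ((C w).card : ℝ) * bet d p η ≤ 24 * (p * D) := by
      calc ((C w).card : ℝ) * bet d p η = ∑ a ∈ C w, bet d p η := by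
            rw [Finset.sum_const, nsmul_eq_mul]
        _ ≤ ∑ a ∈ C w, |bias (hw η p f w) a| :=
            Finset.sum_le_sum (fun a ha => (Finset.mem_filter.1 ha).2)
        _ ≤ ∑ a, |bias (hw η p f w) a| :=
            Finset.sum_le_sum_of_subset_of_nonneg (Finset.subset_univ _)
              (fun _ _ _ => abs_nonneg _)
        _ ≤ _ := hbs w hw'
    rw [hbet, mul_one_div, div_le_iff₀ (by positivity)] at h1
    refine h1.trans ?_
    rw [hQpD]
    nlinarith [mul_self_nonneg ((p : ℝ) * D)]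
  -- the entropy bound
  have hG : ∀ w ∈ W, e ^ 2 * Pw η p f w ≤
      ex (fun x => ex (fun z => hw η p f w (mix (C w) x z)) ^ 2) := by
    intro w hw'
    have hP := hPpos w hw'
    have h0 : ∀ x, 0 ≤ hw η p f w x := fun x => hw_nonneg f w x
    have h1 := exp_sum_KL_le h0 (show 0 < ex (hw η p f w) from hP) (C w)
    refine le_trans ?_ h1
    show e ^ 2 * Pw η p f w ≤ Real.exp (∑ a ∈ C w, KL (bias (hw η p f w) a)) * Pw η p f w ^ 2
    have h2 : ∑ a ∈ (C w)ᶜ, KL (bias (hw η p f w) a) ≤ 1 / 2000 := by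
      calc ∑ a ∈ (C w)ᶜ, KL (bias (hw η p f w) a)
          ≤ ∑ a ∈ (C w)ᶜ, bet d p η * |bias (hw η p f w) a| := by
            refine Finset.sum_le_sum (fun a ha => ?_)
            refine (KL_le_sq (abs_bias_le h0 a)).trans ?_
            rw [Finset.mem_compl, Finset.mem_filter] at ha
            push Not at ha
            have h3 := ha (Finset.mem_univ a)
            rw [← sq_abs, sq]
            exact mul_le_mul_of_nonneg_right h3.le (abs_nonneg _)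
        _ ≤ ∑ a, bet d p η * |bias (hw η p f w) a| :=
            Finset.sum_le_sum_of_subset_of_nonneg (Finset.subset_univ _)
              (fun _ _ _ => mul_nonneg hβ0.le (abs_nonneg _))
        _ = bet d p η * ∑ a, |bias (hw η p f w) a| := by rw [Finset.mul_sum]
        _ ≤ bet d p η * (24 * (p * D)) := mul_le_mul_of_nonneg_left (hbs w hw') hβ0.le
        _ ≤ 1 / 2000 := by
            rw [hbet]
            have : 1 / (64000 * ((p : ℝ) * D)) * (24 * (p * D)) = 24 / 64000 := by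
              field_simp
            rw [this]
            norm_num
    have h4 := hW3 w hw'
    have h5 : ∑ a ∈ C w, KL (bias (hw η p f w) a) + ∑ a ∈ (C w)ᶜ, KL (bias (hw η p f w) a) =
        ∑ a, KL (bias (hw η p f w) a) := Finset.sum_add_sum_compl _ _
    have h6 : -Real.log (Pw η p f w) ≤ 2 * Λ := by
      have := Real.log_le_log (Real.exp_pos _) (hW1 w hw').1
      rw [Real.log_exp] at this
      linarith
    have h7 : -(Λ / 500) ≤ ∑ a ∈ C w, KL (bias (hw η p f w) a) + Real.log (Pw η p f w) := by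
      linarith
    have h8 : e ^ 2 ≤ Real.exp (∑ a ∈ C w, KL (bias (hw η p f w) a)) * Pw η p f w := by
      have h8' : Real.exp (∑ a ∈ C w, KL (bias (hw η p f w) a)) * Pw η p f w =
          Real.exp (∑ a ∈ C w, KL (bias (hw η p f w) a) + Real.log (Pw η p f w)) := by
        rw [Real.exp_add, Real.exp_log hP]
      rw [h8', hepow]
      refine Real.exp_le_exp.2 (le_trans (le_of_eq ?_) h7)
      push_cast
      ring
    calc e ^ 2 * Pw η p f w
        ≤ Real.exp (∑ a ∈ C w, KL (bias (hw η p f w) a)) * Pw η p f w * Pw η p f w :=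
          mul_le_mul_of_nonneg_right h8 hP.le
      _ = _ := by ring
  -- the hypotheses of the planting lemma
  have hPH : PH d p η f W C (Q ^ 2) (e ^ 20) (8 * d * Q * e ^ 10) :=
    { hd := hd
      hp := hp
      hη := hη
      hf := hf
      hm := by rw [← hmd]; exact hm0
      hK0 := by positivity
      hπ0 := by positivity
      hK := hKcard
      hπ := by
        intro a
        have h1 : W.filter (fun w => a ∈ C w) =
            W.filter (fun w => bet d p η ≤ |bias (hw η p f w) a|) := by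
          refine Finset.filter_congr (fun w _ => ?_)
          show a ∈ univ.filter (fun a => bet d p η ≤ |bias (hw η p f w) a|) ↔ _
          rw [Finset.mem_filter]
          exact ⟨fun h => h.2, fun h => ⟨Finset.mem_univ _, h⟩⟩
        rw [h1, ← hmd]
        refine (hpop a).trans ?_
        have h2 : Real.exp (-(Λ / 40)) = e ^ 20 * e ^ 5 := by
          rw [← pow_add, hepow]
          congr 1
          push_cast
          ring
        rw [h2]
        exact mul_le_mul_of_nonneg_left hm.le (by positivity)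
      hξ := by positivity
      hKξ := le_of_eq (by ring) }
  -- `N`
  obtain ⟨N, hN⟩ : ∃ N : ℕ, N = ⌊4 * D / e ^ 2⌋₊ + 1 := ⟨_, rfl⟩
  have hN1 : 4 * D / e ^ 2 < N := by
    rw [hN]
    push_cast
    exact Nat.lt_floor_add_one _
  have hN2 : (N : ℝ) ≤ 4 * D / e ^ 2 + 1 := by
    rw [hN]
    push_cast
    have := Nat.floor_le (show 0 ≤ 4 * D / e ^ 2 by positivity)
    linarith
  have he1 : e ≤ 1 := by
    by_contra h
    push Not at h
    nlinarith
  have hN3 : (N : ℝ) * e ^ 2 ≤ Q := by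
    have h1 : (N : ℝ) * e ^ 2 ≤ (4 * D / e ^ 2 + 1) * e ^ 2 :=
      mul_le_mul_of_nonneg_right hN2 (by positivity)
    have h2 : (4 * D / e ^ 2 + 1) * e ^ 2 = 4 * D + e ^ 2 := by field_simp
    have h3 : e ^ 2 ≤ 1 := pow_le_one₀ he0.le he1
    rw [h2] at h1
    rw [hQpD]
    linarith
  have hPm : ∀ w ∈ W, Pw η p f w ≤ e ^ 20 := by
    intro w hw'
    refine (hW1 w hw').2.trans ?_
    rw [hepow]
    refine Real.exp_le_exp.2 ?_
    push_cast
    linarith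
  have hmain := plant hPH hPm hG N
  rw [← hmd, ← hE] at hmain
  have hD2 : 2 * (d : ℝ) ^ 2 / η = 2 * D := by rw [hD]; ring
  rw [hD2] at hmain
  have har := shu_arith (Q := Q) (e := e) (a1 := 2 * D) (a2 := E) (a3 := 8 * d) (m := m)
    (Pm := e ^ 20) (N := N) (by linarith) he0 hQe1 (by linarith) (by rw [hQpD]; linarith)
    hE0.le (by rw [hQpD]; linarith) (by positivity) (by rw [hQpD]; linarith) hm le_rfl
    (by positivity) hN3
  have hN0 : (0 : ℝ) < N := lt_trans (by positivity) hN1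
  have h9 : e ^ 2 / 2 ≤ e ^ 2 - (2 * D * (E * (8 * d * Q * e ^ 10)) + 2 * D * e ^ 20 / m)
      - N * (E * (8 * d * Q * e ^ 10) + Q ^ 2 * e ^ 20) := by
    linarith
  have h10 : (N : ℝ) * (e ^ 2 / 2) ≤ 2 * D :=
    (mul_le_mul_of_nonneg_left h9 hN0.le).trans hmain
  rw [div_lt_iff₀ (by positivity)] at hN1
  linarith

end Pool.Agent.SUB
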