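import Mathlib
import Pool.Agent.SUB.ShellU
import Pool.Agent.SUB.Pop

/-!
SUBEXP module SH: the shell lemma.

Let `β = bet d p η`, `A a = ∑_{w ∈ W, β ≤ |bias (hw w) a|} Pw w`, `P' a = Pw (nxt d p η) p f a`.
By `pop` (for `W.filter ..`), `A a ≤ K₀ P' a` with `K₀ = 4 d^2/(β (β η/(24 p)))
= (96 p d^2/η) (64000 p d^2/η)^2 ≤ QQ^3`; note `β η/(48 p) = nxt d p η`, and
`exp(-p) ≤ Pw w` gives `(1/4)^p ≤ Pw w`. Let `Pop = {a | exp(-Λ/40) < A a}`; for `a ∈ Pop`,
`P' a ≥ A a/QQ^3 ≥ exp(-Λ/40)/QQ^3 ≥ exp(-Λ/20)` as `QQ^3 ≤ exp(Λ/40)` (`Λ ≥ 1000 log QQ`).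
`W₁ = {w ∈ W | ∃ a ∈ Pop, β ≤ |bias (hw w) a|}` has mass `≤ ∑_{a ∈ Pop} A a ≤ QQ^3 ∑_{a∈Pop} P' a`.
`W' = W \ W₁` satisfies the hypothesis `hpop` of `shell_unpop`: if `a ∉ Pop` its sum is `≤ A a ≤
exp(-Λ/40)`, if `a ∈ Pop` it is an empty sum. So the mass of `W'` is `≤ exp(-Λ/200)`.
-/

set_option linter.dupNamespace false

namespace Pool.Agent.SUB

open Finset Pool.Agent.Helper11.Cube Pool.Agent.Helper11.AA

variable {n d p : ℕ} {η : ℝ}

lemma quarter_pow_le (p : ℕ) : ((1 / 4 : ℝ)) ^ p ≤ Real.exp (-(p : ℝ)) := by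
  have h : (1 / 4 : ℝ) ≤ Real.exp (-1) := by
    rw [Real.exp_neg, one_div]
    refine inv_anti₀ (Real.exp_pos 1) ?_
    have := Real.exp_one_lt_d9
    linarith
  calc ((1 / 4 : ℝ)) ^ p ≤ Real.exp (-1) ^ p := pow_le_pow_left₀ (by norm_num) h p
    _ = Real.exp (-(p : ℝ)) := by rw [← Real.exp_nat_mul]; congr 1; ring

lemma QQ_ge (hd : 1 ≤ d) (hp : 1 ≤ p) (hη : 0 < η) (hη1 : η ≤ 1) : 1 ≤ QQ d p η := by
  have hd' : (1 : ℝ) ≤ d := by exact_mod_cast hd
  have hp' : (1 : ℝ) ≤ p := by exact_mod_cast hp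
  unfold QQ
  rw [le_div_iff₀ hη]
  have h1 : (1 : ℝ) ≤ (d : ℝ) ^ 2 := one_le_pow₀ hd'
  have h2 : (1 : ℝ) ≤ (p : ℝ) * (d : ℝ) ^ 2 := by
    calc (1 : ℝ) = 1 * 1 := by ring
      _ ≤ (p : ℝ) * (d : ℝ) ^ 2 := mul_le_mul hp' h1 (by norm_num) (by linarith)
  nlinarith

lemma popK (hd : 1 ≤ d) (hp : 1 ≤ p) (hη : 0 < η) :
    4 * (d : ℝ) ^ 2 / (bet d p η * (bet d p η * η / (24 * p))) ≤ QQ d p η ^ 3 := by
  have hd' : (0 : ℝ) < d := by exact_mod_cast hd
  have hp' : (0 : ℝ) < p := by exact_mod_cast hp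
  unfold bet QQ
  have hX : 0 < ((p : ℝ) * (d : ℝ) ^ 2 / η) ^ 3 := by positivity
  have e1 : 4 * (d : ℝ) ^ 2 / (η / (64000 * (p : ℝ) * (d : ℝ) ^ 2) *
      (η / (64000 * (p : ℝ) * (d : ℝ) ^ 2) * η / (24 * p))) =
      393216000000 * ((p : ℝ) * (d : ℝ) ^ 2 / η) ^ 3 := by
    field_simp
    ring
  have e2 : (100000 * (p : ℝ) * (d : ℝ) ^ 2 / η) ^ 3 =
      1000000000000000 * ((p : ℝ) * (d : ℝ) ^ 2 / η) ^ 3 := by
    field_simp
    ring
  rw [e1, e2]
  nlinarith

lemma bet_nxt (hp : 1 ≤ p) (hd : 1 ≤ d) : bet d p η * η / (48 * p) = nxt d p η := by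
  have hd' : (0 : ℝ) < d := by exact_mod_cast hd
  have hp' : (0 : ℝ) < p := by exact_mod_cast hp
  unfold bet nxt
  field_simp
  ring

theorem shell (hd : 1 ≤ d) (hp : 1 ≤ p) (hη : 0 < η) (hη1 : η ≤ 1) {f : Cube n → ℝ}
    (hf : Bdd d f) {Λ : ℝ} (hΛ : 1000 * Real.log (QQ d p η) ≤ Λ) (W : Finset (Fin n))
    (hW1 : ∀ w ∈ W, Real.exp (-(2 * Λ)) ≤ Pw η p f w ∧ Pw η p f w ≤ Real.exp (-Λ))
    (hW2 : ∀ w ∈ W, Real.exp (-(p : ℝ)) ≤ Pw η p f w)
    (hW3 : ∀ w ∈ W, (1 - 1 / 2000) * (- Real.log (Pw η p f w)) ≤ ∑ a, KL (bias (hw η p f w) a)) :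
    ∑ w ∈ W, Pw η p f w
      ≤ QQ d p η ^ 3 * ∑ a ∈ univ.filter (fun a => Real.exp (-(Λ / 20)) ≤ Pw (nxt d p η) p f a),
          Pw (nxt d p η) p f a + Real.exp (-(Λ / 200)) := by
  classical
  have hQ := QQ_ge hd hp hη hη1
  have hlog : 0 ≤ Real.log (QQ d p η) := Real.log_nonneg hQ
  have hΛ0 : 0 ≤ Λ := by linarith
  have hβ : 0 < bet d p η := by
    have hd' : (0 : ℝ) < d := by exact_mod_cast hd
    have hp' : (0 : ℝ) < p := by exact_mod_cast hp
    unfold bet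
    positivity
  set A : Fin n → ℝ := fun a =>
    ∑ w ∈ W.filter (fun w => bet d p η ≤ |bias (hw η p f w) a|), Pw η p f w with hAdef
  have hA : ∀ a, A a ≤ QQ d p η ^ 3 * Pw (nxt d p η) p f a := by
    intro a
    have h1 := pop hη hp hβ hf (W.filter (fun w => bet d p η ≤ |bias (hw η p f w) a|)) a
      (by
        intro w hw'
        rw [mem_filter] at hw'
        exact ⟨(quarter_pow_le p).trans (hW2 w hw'.1), hw'.2⟩)
    rw [bet_nxt hp hd] at h1
    exact h1.trans (mul_le_mul_of_nonneg_right (popK hd hp hη) (Pw_nonneg _ _))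
  set Po : Finset (Fin n) := univ.filter (fun a => Real.exp (-(Λ / 40)) < A a) with hPo
  have hPop : ∀ a ∈ Po, Real.exp (-(Λ / 20)) ≤ Pw (nxt d p η) p f a := by
    intro a ha
    rw [hPo, mem_filter] at ha
    have h1 : Real.exp (-(Λ / 40)) ≤ QQ d p η ^ 3 * Pw (nxt d p η) p f a := ha.2.le.trans (hA a)
    have h2 : QQ d p η ^ 3 ≤ Real.exp (Λ / 40) := by
      have h3 : QQ d p η = Real.exp (Real.log (QQ d p η)) :=
        (Real.exp_log (lt_of_lt_of_le one_pos hQ)).symm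
      rw [h3, ← Real.exp_nat_mul]
      refine Real.exp_le_exp.2 ?_
      push_cast
      linarith
    have h4 : Real.exp (-(Λ / 40)) ≤ Real.exp (Λ / 40) * Pw (nxt d p η) p f a :=
      h1.trans (mul_le_mul_of_nonneg_right h2 (Pw_nonneg _ _))
    have h5 : Real.exp (-(Λ / 20)) = Real.exp (-(Λ / 40)) * Real.exp (-(Λ / 40)) := by
      rw [← Real.exp_add]
      congr 1
      ring
    have h6 : Real.exp (-(Λ / 40)) * Real.exp (Λ / 40) = 1 := by
      rw [← Real.exp_add]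
      simp
    calc Real.exp (-(Λ / 20)) = Real.exp (-(Λ / 40)) * Real.exp (-(Λ / 40)) := h5
      _ ≤ Real.exp (-(Λ / 40)) * (Real.exp (Λ / 40) * Pw (nxt d p η) p f a) :=
        mul_le_mul_of_nonneg_left h4 (Real.exp_pos _).le
      _ = Pw (nxt d p η) p f a := by rw [← mul_assoc, h6, one_mul]
  -- the two parts
  have hsplit := Finset.sum_filter_add_sum_filter_not W
    (fun w => ∃ a ∈ Po, bet d p η ≤ |bias (hw η p f w) a|) (fun w => Pw η p f w)
  rw [← hsplit]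
  refine add_le_add ?_ ?_
  · have h1 : ∑ w ∈ W.filter (fun w => ∃ a ∈ Po, bet d p η ≤ |bias (hw η p f w) a|),
        Pw η p f w ≤ ∑ a ∈ Po, A a := by
      have h2 : ∑ a ∈ Po, A a = ∑ w ∈ W, ∑ a ∈ Po,
          if bet d p η ≤ |bias (hw η p f w) a| then Pw η p f w else 0 := by
        rw [Finset.sum_comm]
        refine Finset.sum_congr rfl fun a _ => ?_
        simp only [hAdef]
        rw [Finset.sum_filter]
      rw [h2, Finset.sum_filter]
      refine Finset.sum_le_sum fun w _ => ?_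
      split_ifs with hex
      · obtain ⟨a, ha, hb⟩ := hex
        have h3 := Finset.single_le_sum (s := Po)
          (f := fun a => if bet d p η ≤ |bias (hw η p f w) a| then Pw η p f w else 0)
          (fun a _ => by
            split_ifs
            · exact Pw_nonneg _ _
            · exact le_rfl) ha
        simpa [hb] using h3
      · exact Finset.sum_nonneg fun a _ => by
          split_ifs
          · exact Pw_nonneg _ _
          · exact le_rfl
    refine h1.trans ?_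
    rw [Finset.mul_sum]
    refine (Finset.sum_le_sum fun a _ => hA a).trans ?_
    refine Finset.sum_le_sum_of_subset_of_nonneg ?_ ?_
    · intro a ha
      rw [mem_filter]
      exact ⟨mem_univ a, hPop a ha⟩
    · intro a _ _
      exact mul_nonneg (pow_nonneg (by linarith) 3) (Pw_nonneg _ _)
  · refine shell_unpop hd hp hη hη1 hf hΛ _ ?_ ?_ ?_ ?_
    · intro w hw'
      exact hW1 w (mem_filter.1 hw').1
    · intro w hw'
      exact hW2 w (mem_filter.1 hw').1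
    · intro w hw'
      exact hW3 w (mem_filter.1 hw').1
    · intro a
      by_cases ha : a ∈ Po
      · rw [Finset.sum_eq_zero]
        · exact (Real.exp_pos _).le
        · intro w hw'
          rw [mem_filter, mem_filter] at hw'
          exact absurd ⟨a, ha, hw'.2⟩ hw'.1.2
      · have h1 : A a ≤ Real.exp (-(Λ / 40)) := by
          by_contra hcon
          exact ha (by rw [hPo, mem_filter]; exact ⟨mem_univ a, not_le.1 hcon⟩)
        refine le_trans ?_ h1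
        refine Finset.sum_le_sum_of_subset_of_nonneg ?_ ?_
        · intro w hw'
          rw [mem_filter, mem_filter] at hw'
          rw [mem_filter]
          exact ⟨hw'.1.1, hw'.2⟩
        · intro w _ _
          exact Pw_nonneg _ _

end Pool.Agent.SUB
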