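import Mathlib
import Pool.Agent.SUB.Shell

/-!
SUBEXP module LOC: the local inequality.

Notation: `P = Pw η p f w`, `L = -log P`, `P' a = Pw (nxt d p η) p f a`, `Q = QQ d p η`,
`S w = ∑_a phi γ (bias (hw w) a)`, `E w = ∑_a KL (bias (hw w) a) ≤ L` (`sum_KL_le`).

`loc_term` (`0 < P`): `S w ≤ γ(1+γ) E w` (`phi_le`, `abs_bias_le`). If `E w < (1 - 1/2000) L` then
(`E w ≥ 0`, so `L > 0`) `S w - (1-ε)γ L ≤ γ L ((1+γ)(1-1/2000) - (1-ε)) ≤ γ L (γ + ε - 1/2000) ≤ 0`.
Otherwise `S w - (1-ε)γ L ≤ γ L (γ + ε)`.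

`loc_shell` (one dyadic shell, `X ≥ J`, `X = γ Λ`): for a set `W` as in `shell` with `Λ = X/γ`
(`Λ ≥ J ≥ 1000 log Q` as `γ ≤ 1`): for `w ∈ W`, `γ L P^γ ≤ 2 X exp(-X)` (`γ L ≤ 2X`,
`P^γ = exp(-γ L) ≤ exp(-X)`). So
`∑_{w∈W} γ L P^(1+γ) ≤ 2 X exp(-X) ∑_W P ≤ 2X exp(-X) (Q^3 ∑_{a : P' a ≥ exp(-Λ/20)} P' a + exp(-Λ/200))`
and `1 ≤ (P' a)^γ exp(X/20)` there, so this is
`≤ Q^3 * 2 X exp(-(19/20) X) * Fg (nxt) + 2 X exp(-X) exp(-X/(200 γ))
 ≤ Q^3 exp(-(9/10) J) Fg (nxt) + exp(-J/(200 γ))`, using `2X ≤ exp(X/20)`, `2X ≤ exp X` for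
`X ≥ 240` (`J ≥ 1000 log (10^5)`; e.g. `exp y ≥ y^3/6`).

`local_ineq`: only `w` with `P > 0` and `(1 - 1/2000) L ≤ E w` contribute, each at most
`(ε+γ) γ L P^(1+γ)` (`loc_term`). If `γ L ≤ J` this is `≤ (ε+γ) J P^(1+γ)`. If `L > p`:
`γ L P^(1+γ) = P γ L exp(-γ L) ≤ P exp(-γ L/2) ≤ P exp(-γ p/2)` (`x exp(-x) ≤ exp(-x/2)`), and
`∑ P ≤ 2d^2/η` (`sum_Pw_le`). Otherwise `J < γ L`, `L ≤ p`; there is `i < p` with
`2^i J/γ < L ≤ 2^(i+1) J/γ` (`2^i ≤ 2^i J/γ < p`), and the `i`-th shell is bounded by `loc_shell`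
with `X = 2^i J`; there are `p` shells.
-/

set_option linter.dupNamespace false

namespace Pool.Agent.SUB

open Finset Pool.Agent.Helper11.Cube Pool.Agent.Helper11.AA

variable {n d p : ℕ} {η : ℝ}

private lemma loc_gamma {γ ε : ℝ} (hε : 0 ≤ ε) (hεγ : ε + γ ≤ 1 / 2000) : γ ≤ 1 := by
  linarith

lemma loc_term {f : Cube n → ℝ} (w : Fin n) (hP : 0 < Pw η p f w) {γ ε : ℝ} (hγ : 0 < γ)
    (hε : 0 ≤ ε) (hεγ : ε + γ ≤ 1 / 2000) :
    (∑ a, phi γ (bias (hw η p f w) a)) + (1 - ε) * γ * Real.log (Pw η p f w)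
      ≤ if (1 - 1 / 2000) * (- Real.log (Pw η p f w)) ≤ ∑ a, KL (bias (hw η p f w) a)
        then (ε + γ) * (γ * (- Real.log (Pw η p f w))) else 0 := by
  have hγ1 : γ ≤ 1 := loc_gamma hε hεγ
  set L : ℝ := - Real.log (Pw η p f w) with hL
  have hlog : Real.log (Pw η p f w) = - L := by rw [hL]; ring
  have hL0 : 0 ≤ L := by
    have := Real.log_nonpos (Pw_nonneg (η := η) (p := p) f w) (Pw_le_one f w)
    rw [hL]
    linarith
  set E : ℝ := ∑ a, KL (bias (hw η p f w) a) with hE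
  have hEL : E ≤ L := by
    have := sum_KL_le (h := hw η p f w) (hw_nonneg f w) (hw_le_one f w) hP
    exact this
  have hS : (∑ a, phi γ (bias (hw η p f w) a)) ≤ γ * (1 + γ) * E := by
    rw [hE, Finset.mul_sum]
    refine Finset.sum_le_sum fun a _ => ?_
    exact phi_le hγ.le hγ1 (abs_bias_le (hw_nonneg f w) a)
  have hg : 0 ≤ γ * (1 + γ) := by positivity
  rw [hlog]
  split_ifs with h
  · have h1 : γ * (1 + γ) * E ≤ γ * (1 + γ) * L := mul_le_mul_of_nonneg_left hEL hg
    nlinarith [h1, hS]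
  · push Not at h
    have h1 : γ * (1 + γ) * E ≤ γ * (1 + γ) * ((1 - 1 / 2000) * L) :=
      mul_le_mul_of_nonneg_left h.le hg
    have h2 : γ * (1 + γ) * ((1 - 1 / 2000) * L) + (1 - ε) * γ * (-L)
        = (γ * L) * ((ε + γ) - (1 + γ) / 2000) := by ring
    have h3 : (ε + γ) - (1 + γ) / 2000 ≤ 0 := by linarith
    have h4 : (γ * L) * ((ε + γ) - (1 + γ) / 2000) ≤ 0 :=
      mul_nonpos_of_nonneg_of_nonpos (by positivity) h3
    linarith

private lemma loc_QQ (hd : 1 ≤ d) (hp : 1 ≤ p) (hη : 0 < η) (hη1 : η ≤ 1) :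
    100000 ≤ QQ d p η := by
  unfold QQ
  rw [le_div_iff₀ hη]
  have h1 : (1 : ℝ) ≤ (p : ℝ) := by exact_mod_cast hp
  have h2 : (1 : ℝ) ≤ (d : ℝ) := by exact_mod_cast hd
  have h3 : (1 : ℝ) ≤ (p : ℝ) * (d : ℝ) ^ 2 := by
    have : (1 : ℝ) ≤ (d : ℝ) ^ 2 := one_le_pow₀ h2
    nlinarith
  nlinarith

private lemma loc_J (hd : 1 ≤ d) (hp : 1 ≤ p) (hη : 0 < η) (hη1 : η ≤ 1) {J : ℝ}
    (hJ : 1000 * Real.log (QQ d p η) ≤ J) : 2000 ≤ J := by
  have h1 := loc_QQ hd hp hη hη1
  have h2 : (2 : ℝ) ≤ Real.log (QQ d p η) := by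
    rw [Real.le_log_iff_exp_le (by linarith)]
    have h3 : Real.exp 2 = Real.exp 1 * Real.exp 1 := by
      rw [← Real.exp_add]; norm_num
    have h4 := Real.exp_one_lt_d9
    have h5 := Real.exp_pos 1
    nlinarith
  linarith

lemma loc_shell (hd : 1 ≤ d) (hp : 1 ≤ p) (hη : 0 < η) (hη1 : η ≤ 1) {f : Cube n → ℝ}
    (hf : Bdd d f) {γ J X : ℝ} (hγ : 0 < γ) (hγ1 : γ ≤ 1)
    (hJ : 1000 * Real.log (QQ d p η) ≤ J) (hX : J ≤ X) (W : Finset (Fin n))
    (hW1 : ∀ w ∈ W, Real.exp (-(2 * (X / γ))) ≤ Pw η p f w ∧ Pw η p f w ≤ Real.exp (-(X / γ)))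
    (hW2 : ∀ w ∈ W, Real.exp (-(p : ℝ)) ≤ Pw η p f w)
    (hW3 : ∀ w ∈ W, (1 - 1 / 2000) * (- Real.log (Pw η p f w)) ≤ ∑ a, KL (bias (hw η p f w) a)) :
    ∑ w ∈ W, γ * (- Real.log (Pw η p f w)) * Pw η p f w ^ (1 + γ)
      ≤ QQ d p η ^ 3 * Real.exp (-(9 / 10 * J)) * Fg (nxt d p η) p γ f
        + Real.exp (-(J / (200 * γ))) := by
  have hJ2 : 2000 ≤ J := loc_J hd hp hη hη1 hJ
  have hX2 : 2000 ≤ X := hJ2.trans hX
  have hX0 : 0 < X := by linarith
  have hQ := loc_QQ hd hp hη hη1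
  have hΛ0 : X ≤ X / γ := by
    rw [le_div_iff₀ hγ]
    nlinarith
  have hsh := shell hd hp hη hη1 hf (Λ := X / γ) (by linarith) W hW1 hW2 hW3
  -- each term
  have hterm : ∀ w ∈ W, γ * (- Real.log (Pw η p f w)) * Pw η p f w ^ (1 + γ)
      ≤ 2 * X * Real.exp (-X) * Pw η p f w := by
    intro w hw
    obtain ⟨h1, h2⟩ := hW1 w hw
    have hP : 0 < Pw η p f w := lt_of_lt_of_le (Real.exp_pos _) h1
    have h3 : -(2 * (X / γ)) ≤ Real.log (Pw η p f w) := by
      rw [Real.le_log_iff_exp_le hP]; exact h1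
    have h4 : Real.log (Pw η p f w) ≤ -(X / γ) := by
      rw [Real.log_le_iff_le_exp hP]; exact h2
    have h5 : γ * (- Real.log (Pw η p f w)) ≤ 2 * X := by
      have : γ * (- Real.log (Pw η p f w)) ≤ γ * (2 * (X / γ)) :=
        mul_le_mul_of_nonneg_left (by linarith) hγ.le
      have e : γ * (2 * (X / γ)) = 2 * X := by field_simp
      linarith
    have h6 : X ≤ γ * (- Real.log (Pw η p f w)) := by
      have : γ * (X / γ) ≤ γ * (- Real.log (Pw η p f w)) :=
        mul_le_mul_of_nonneg_left (by linarith) hγ.le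
      have e : γ * (X / γ) = X := by field_simp
      linarith
    have h7 : Pw η p f w ^ (1 + γ) ≤ Real.exp (-X) * Pw η p f w := by
      rw [Real.rpow_add hP, Real.rpow_one, mul_comm]
      refine mul_le_mul_of_nonneg_right ?_ hP.le
      rw [Real.rpow_def_of_pos hP]
      exact Real.exp_le_exp.mpr (by linarith)
    have h8 : 0 ≤ Pw η p f w ^ (1 + γ) := Real.rpow_nonneg hP.le _
    calc γ * (- Real.log (Pw η p f w)) * Pw η p f w ^ (1 + γ)
        ≤ 2 * X * Pw η p f w ^ (1 + γ) := mul_le_mul_of_nonneg_right h5 h8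
      _ ≤ 2 * X * (Real.exp (-X) * Pw η p f w) :=
          mul_le_mul_of_nonneg_left h7 (by linarith)
      _ = 2 * X * Real.exp (-X) * Pw η p f w := by ring
  -- the popular coordinates
  have hpop : ∑ a ∈ univ.filter (fun a => Real.exp (-(X / γ / 20)) ≤ Pw (nxt d p η) p f a),
      Pw (nxt d p η) p f a ≤ Real.exp (X / 20) * Fg (nxt d p η) p γ f := by
    rw [Fg, Finset.mul_sum]
    have h1 : ∑ a ∈ univ.filter (fun a => Real.exp (-(X / γ / 20)) ≤ Pw (nxt d p η) p f a),
        Pw (nxt d p η) p f a ≤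
        ∑ a ∈ univ.filter (fun a => Real.exp (-(X / γ / 20)) ≤ Pw (nxt d p η) p f a),
          Real.exp (X / 20) * Pw (nxt d p η) p f a ^ (1 + γ) := by
      refine Finset.sum_le_sum fun a ha => ?_
      rw [Finset.mem_filter] at ha
      have hP : 0 < Pw (nxt d p η) p f a := lt_of_lt_of_le (Real.exp_pos _) ha.2
      have h2 : -(X / γ / 20) ≤ Real.log (Pw (nxt d p η) p f a) := by
        rw [Real.le_log_iff_exp_le hP]; exact ha.2
      have h3 : Real.exp (-(X / 20)) ≤ Pw (nxt d p η) p f a ^ γ := by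
        rw [Real.rpow_def_of_pos hP]
        refine Real.exp_le_exp.mpr ?_
        have : γ * (-(X / γ / 20)) ≤ γ * Real.log (Pw (nxt d p η) p f a) :=
          mul_le_mul_of_nonneg_left h2 hγ.le
        have e : γ * (-(X / γ / 20)) = -(X / 20) := by field_simp
        linarith
      rw [Real.rpow_add hP, Real.rpow_one]
      have h4 : 1 ≤ Real.exp (X / 20) * Pw (nxt d p η) p f a ^ γ := by
        have h5 := mul_le_mul_of_nonneg_left h3 (Real.exp_pos (X / 20)).le
        rw [← Real.exp_add] at h5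
        have e : X / 20 + -(X / 20) = 0 := by ring
        rw [e, Real.exp_zero] at h5
        exact h5
      nlinarith
    refine h1.trans ?_
    refine Finset.sum_le_sum_of_subset_of_nonneg (Finset.filter_subset _ _) fun a _ _ => ?_
    exact mul_nonneg (Real.exp_pos _).le (Real.rpow_nonneg (Pw_nonneg f a) _)
  have hFg : 0 ≤ Fg (nxt d p η) p γ f :=
    Finset.sum_nonneg fun a _ => Real.rpow_nonneg (Pw_nonneg f a) _
  have hQ3 : 0 ≤ QQ d p η ^ 3 := by positivity
  -- numerical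
  have hn1 : 2 * X ≤ Real.exp (X / 20) := by
    have := Real.quadratic_le_exp_of_nonneg (x := X / 20) (by linarith)
    nlinarith
  have hn2 : 2 * X ≤ Real.exp X := hn1.trans (Real.exp_le_exp.mpr (by linarith))
  have hc0 : 0 ≤ 2 * X * Real.exp (-X) := by positivity
  have e1 : 2 * X * Real.exp (-X) * Real.exp (X / 20) ≤ Real.exp (-(9 / 10 * J)) := by
    calc 2 * X * Real.exp (-X) * Real.exp (X / 20)
        ≤ Real.exp (X / 20) * Real.exp (-X) * Real.exp (X / 20) := by
          refine mul_le_mul_of_nonneg_right ?_ (Real.exp_pos _).le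
          exact mul_le_mul_of_nonneg_right hn1 (Real.exp_pos _).le
      _ = Real.exp (-(9 / 10 * X)) := by
          rw [← Real.exp_add, ← Real.exp_add]
          congr 1
          ring
      _ ≤ Real.exp (-(9 / 10 * J)) := Real.exp_le_exp.mpr (by linarith)
  have e2 : 2 * X * Real.exp (-X) * Real.exp (-(X / γ / 200)) ≤ Real.exp (-(J / (200 * γ))) := by
    have h1 : 2 * X * Real.exp (-X) ≤ 1 := by
      calc 2 * X * Real.exp (-X) ≤ Real.exp X * Real.exp (-X) :=
            mul_le_mul_of_nonneg_right hn2 (Real.exp_pos _).le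
        _ = 1 := by rw [← Real.exp_add, add_neg_cancel, Real.exp_zero]
    calc 2 * X * Real.exp (-X) * Real.exp (-(X / γ / 200))
        ≤ 1 * Real.exp (-(X / γ / 200)) := mul_le_mul_of_nonneg_right h1 (Real.exp_pos _).le
      _ = Real.exp (-(X / γ / 200)) := one_mul _
      _ ≤ Real.exp (-(J / (200 * γ))) := by
          refine Real.exp_le_exp.mpr ?_
          have : J / (200 * γ) ≤ X / γ / 200 := by
            rw [div_div, mul_comm γ 200]
            exact div_le_div_of_nonneg_right hX (by positivity)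
          linarith
  calc ∑ w ∈ W, γ * (- Real.log (Pw η p f w)) * Pw η p f w ^ (1 + γ)
      ≤ ∑ w ∈ W, 2 * X * Real.exp (-X) * Pw η p f w := Finset.sum_le_sum hterm
    _ = 2 * X * Real.exp (-X) * ∑ w ∈ W, Pw η p f w := by rw [Finset.mul_sum]
    _ ≤ 2 * X * Real.exp (-X) * (QQ d p η ^ 3 * (Real.exp (X / 20) * Fg (nxt d p η) p γ f)
          + Real.exp (-(X / γ / 200))) := by
        refine mul_le_mul_of_nonneg_left (hsh.trans ?_) hc0
        have := mul_le_mul_of_nonneg_left hpop hQ3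
        linarith
    _ = QQ d p η ^ 3 * (2 * X * Real.exp (-X) * Real.exp (X / 20)) * Fg (nxt d p η) p γ f
          + 2 * X * Real.exp (-X) * Real.exp (-(X / γ / 200)) := by ring
    _ ≤ QQ d p η ^ 3 * Real.exp (-(9 / 10 * J)) * Fg (nxt d p η) p γ f
          + Real.exp (-(J / (200 * γ))) := by
        refine add_le_add ?_ e2
        refine mul_le_mul_of_nonneg_right ?_ hFg
        exact mul_le_mul_of_nonneg_left e1 hQ3

theorem local_ineq (hd : 1 ≤ d) (hp : 1 ≤ p) (hη : 0 < η) (hη1 : η ≤ 1) {f : Cube n → ℝ}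
    (hf : Bdd d f) {γ ε J : ℝ} (hγ : 0 < γ) (hε : 0 ≤ ε) (hεγ : ε + γ ≤ 1 / 2000)
    (hJ : 1000 * Real.log (QQ d p η) ≤ J) :
    ∑ w, Pw η p f w ^ (1 + γ) * ((∑ a, phi γ (bias (hw η p f w) a))
        + (1 - ε) * γ * Real.log (Pw η p f w))
      ≤ (ε + γ) * (J * Fg η p γ f
        + p * QQ d p η ^ 3 * Real.exp (-(9 / 10 * J)) * Fg (nxt d p η) p γ f
        + p * Real.exp (-(J / (200 * γ)))
        + 2 * (d : ℝ) ^ 2 / η * Real.exp (-(γ * p / 2))) := by
  classical
  have hγ1 : γ ≤ 1 := loc_gamma hε hεγ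
  have hJ2 : 2000 ≤ J := loc_J hd hp hη hη1 hJ
  have hJ0 : 0 < J := by linarith
  have hεγ0 : 0 ≤ ε + γ := by linarith
  -- notation
  set L : Fin n → ℝ := fun w => - Real.log (Pw η p f w) with hL
  set t : Fin n → ℝ := fun w => γ * L w * Pw η p f w ^ (1 + γ) with ht
  have hL0 : ∀ w, 0 ≤ L w := by
    intro w
    have := Real.log_nonpos (Pw_nonneg (η := η) (p := p) f w) (Pw_le_one f w)
    simp only [hL]
    linarith
  have hpw0 : ∀ w, 0 ≤ Pw η p f w ^ (1 + γ) := fun w => Real.rpow_nonneg (Pw_nonneg f w) _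
  have ht0 : ∀ w, 0 ≤ t w := fun w => by
    simp only [ht]
    exact mul_nonneg (mul_nonneg hγ.le (hL0 w)) (hpw0 w)
  set G : Finset (Fin n) := univ.filter (fun w => 0 < Pw η p f w ∧
    (1 - 1 / 2000) * L w ≤ ∑ a, KL (bias (hw η p f w) a)) with hG
  have hmain : ∑ w, Pw η p f w ^ (1 + γ) * ((∑ a, phi γ (bias (hw η p f w) a))
      + (1 - ε) * γ * Real.log (Pw η p f w)) ≤ (ε + γ) * ∑ w ∈ G, t w := by
    rw [Finset.mul_sum, hG, Finset.sum_filter]
    refine Finset.sum_le_sum fun w _ => ?_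
    rcases (Pw_nonneg (η := η) (p := p) f w).eq_or_lt with h0 | h0
    · rw [if_neg (by rw [← h0]; exact fun h => lt_irrefl _ h.1), ← h0,
        Real.zero_rpow (by linarith), zero_mul]
    · have h1 := loc_term w h0 hγ hε hεγ
      by_cases h2 : (1 - 1 / 2000) * (- Real.log (Pw η p f w)) ≤
          ∑ a, KL (bias (hw η p f w) a)
      · rw [if_pos h2] at h1
        rw [if_pos ⟨h0, h2⟩]
        calc Pw η p f w ^ (1 + γ) * ((∑ a, phi γ (bias (hw η p f w) a))
              + (1 - ε) * γ * Real.log (Pw η p f w))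
            ≤ Pw η p f w ^ (1 + γ) * ((ε + γ) * (γ * (- Real.log (Pw η p f w)))) :=
              mul_le_mul_of_nonneg_left h1 (hpw0 w)
          _ = (ε + γ) * t w := by simp only [ht, hL]; ring
      · rw [if_neg h2] at h1
        rw [if_neg (fun h => h2 h.2)]
        exact mul_nonpos_of_nonneg_of_nonpos (hpw0 w) h1
  refine hmain.trans (mul_le_mul_of_nonneg_left ?_ hεγ0)
  -- the shells
  set W : ℕ → Finset (Fin n) := fun i => G.filter (fun w => 2 ^ i * J ≤ γ * L w ∧
    γ * L w ≤ 2 ^ (i + 1) * J ∧ L w ≤ p) with hW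
  have hshell : ∀ i, ∑ w ∈ W i, t w ≤ QQ d p η ^ 3 * Real.exp (-(9 / 10 * J)) *
      Fg (nxt d p η) p γ f + Real.exp (-(J / (200 * γ))) := by
    intro i
    have hmem : ∀ w ∈ W i, (0 < Pw η p f w ∧
        (1 - 1 / 2000) * L w ≤ ∑ a, KL (bias (hw η p f w) a)) ∧
        (2 ^ i * J ≤ γ * L w ∧ γ * L w ≤ 2 ^ (i + 1) * J ∧ L w ≤ p) := by
      intro w hw
      simp only [hW, hG, Finset.mem_filter, Finset.mem_univ, true_and] at hw
      exact hw
    have h2i : (1 : ℝ) ≤ 2 ^ i := one_le_pow₀ (by norm_num)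
    refine loc_shell hd hp hη hη1 hf hγ hγ1 hJ (X := 2 ^ i * J) (by nlinarith) (W i) ?_ ?_ ?_
    · intro w hw
      obtain ⟨⟨h1, -⟩, h3, h4, -⟩ := hmem w hw
      constructor
      · rw [← Real.le_log_iff_exp_le h1]
        have : L w ≤ 2 * (2 ^ i * J / γ) := by
          rw [← mul_div_assoc, le_div_iff₀ hγ]
          have e : (2 : ℝ) ^ (i + 1) * J = 2 * (2 ^ i * J) := by ring
          nlinarith
        simp only [hL] at this
        linarith
      · rw [← Real.log_le_iff_le_exp h1]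
        have : 2 ^ i * J / γ ≤ L w := by
          rw [div_le_iff₀ hγ]
          nlinarith
        simp only [hL] at this
        linarith
    · intro w hw
      obtain ⟨⟨h1, -⟩, -, -, h5⟩ := hmem w hw
      rw [← Real.le_log_iff_exp_le h1]
      simp only [hL] at h5
      linarith
    · intro w hw
      exact (hmem w hw).1.2
  -- pointwise splitting
  have hpoint : ∀ w ∈ G, t w ≤ J * Pw η p f w ^ (1 + γ) +
      Real.exp (-(γ * p / 2)) * Pw η p f w +
      ∑ i ∈ Finset.range p, (if w ∈ W i then t w else 0) := by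
    intro w hw
    have hwG := hw
    rw [hG, Finset.mem_filter] at hw
    obtain ⟨-, hP, hE⟩ := hw
    have hs0 : 0 ≤ ∑ i ∈ Finset.range p, (if w ∈ W i then t w else 0) :=
      Finset.sum_nonneg fun i _ => by
        split_ifs
        · exact ht0 w
        · exact le_rfl
    have hb0 : 0 ≤ Real.exp (-(γ * p / 2)) * Pw η p f w :=
      mul_nonneg (Real.exp_pos _).le hP.le
    have ha0 : 0 ≤ J * Pw η p f w ^ (1 + γ) := mul_nonneg hJ0.le (hpw0 w)
    by_cases h1 : γ * L w ≤ J
    · have : t w ≤ J * Pw η p f w ^ (1 + γ) := by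
        simp only [ht]
        exact mul_le_mul_of_nonneg_right h1 (hpw0 w)
      linarith
    · push Not at h1
      by_cases h2 : (p : ℝ) < L w
      · have h3 : t w ≤ Real.exp (-(γ * p / 2)) * Pw η p f w := by
          have e1 : Pw η p f w ^ (1 + γ) = Pw η p f w * Real.exp (-(γ * L w)) := by
            rw [Real.rpow_add hP, Real.rpow_one, Real.rpow_def_of_pos hP]
            congr 2
            simp only [hL]
            ring
          have e2 : γ * L w ≤ Real.exp (γ * L w / 2) := by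
            have h4 : 0 ≤ γ * L w := mul_nonneg hγ.le (hL0 w)
            have h5 := Real.quadratic_le_exp_of_nonneg (x := γ * L w / 2) (by linarith)
            nlinarith [sq_nonneg (γ * L w - 2)]
          have e3 : γ * L w * Real.exp (-(γ * L w)) ≤ Real.exp (-(γ * p / 2)) := by
            calc γ * L w * Real.exp (-(γ * L w))
                ≤ Real.exp (γ * L w / 2) * Real.exp (-(γ * L w)) :=
                  mul_le_mul_of_nonneg_right e2 (Real.exp_pos _).le
              _ = Real.exp (-(γ * L w / 2)) := by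
                  rw [← Real.exp_add]
                  congr 1
                  ring
              _ ≤ Real.exp (-(γ * p / 2)) := by
                  refine Real.exp_le_exp.mpr ?_
                  have := mul_le_mul_of_nonneg_left h2.le hγ.le
                  linarith
          simp only [ht]
          rw [e1]
          calc γ * L w * (Pw η p f w * Real.exp (-(γ * L w)))
              = (γ * L w * Real.exp (-(γ * L w))) * Pw η p f w := by ring
            _ ≤ Real.exp (-(γ * p / 2)) * Pw η p f w := mul_le_mul_of_nonneg_right e3 hP.le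
        linarith
      · push Not at h2
        -- a shell
        have hy1 : 1 ≤ γ * L w / J := by
          rw [le_div_iff₀ hJ0]
          linarith
        obtain ⟨i, hi1, hi2⟩ := exists_nat_pow_near hy1 (one_lt_two (α := ℝ))
        have hi1' : 2 ^ i * J ≤ γ * L w := by
          rwa [le_div_iff₀ hJ0] at hi1
        have hi2' : γ * L w ≤ 2 ^ (i + 1) * J := by
          rw [div_lt_iff₀ hJ0] at hi2
          exact hi2.le
        have hip : i < p := by
          by_contra hcon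
          push Not at hcon
          have h3 : (2 : ℝ) ^ p ≤ 2 ^ i := pow_le_pow_right₀ (by norm_num) hcon
          have h4 : (p : ℝ) < 2 ^ p := by exact_mod_cast Nat.lt_two_pow_self
          have h5 : γ * L w ≤ p := by
            have := mul_le_mul hγ1 h2 (hL0 w) zero_le_one
            linarith
          have h6 : (p : ℝ) * J < 2 ^ i * J := mul_lt_mul_of_pos_right (by linarith) hJ0
          have h7 : (1 : ℝ) ≤ (p : ℝ) := by exact_mod_cast hp
          nlinarith
        have hwW : w ∈ W i := by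
          simp only [hW, Finset.mem_filter]
          exact ⟨hwG, hi1', hi2', h2⟩
        have h3 : t w ≤ ∑ i ∈ Finset.range p, (if w ∈ W i then t w else 0) := by
          have := Finset.single_le_sum (f := fun i => if w ∈ W i then t w else 0)
            (s := Finset.range p) (fun j _ => by
              split_ifs
              · exact ht0 w
              · exact le_rfl) (Finset.mem_range.mpr hip)
          simpa only [hwW, if_true] using this
        linarith
  have hsum := Finset.sum_le_sum hpoint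
  rw [Finset.sum_add_distrib, Finset.sum_add_distrib] at hsum
  have s1 : ∑ w ∈ G, J * Pw η p f w ^ (1 + γ) ≤ J * Fg η p γ f := by
    rw [Fg, Finset.mul_sum]
    exact Finset.sum_le_sum_of_subset_of_nonneg (Finset.filter_subset _ _)
      fun w _ _ => mul_nonneg hJ0.le (hpw0 w)
  have s2 : ∑ w ∈ G, Real.exp (-(γ * p / 2)) * Pw η p f w ≤
      2 * (d : ℝ) ^ 2 / η * Real.exp (-(γ * p / 2)) := by
    have h1 := sum_Pw_le (p := p) hη hp hf
    have h2 : ∑ w ∈ G, Pw η p f w ≤ ∑ w, Pw η p f w :=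
      Finset.sum_le_sum_of_subset_of_nonneg (Finset.filter_subset _ _)
        fun w _ _ => Pw_nonneg f w
    rw [← Finset.mul_sum, mul_comm]
    exact mul_le_mul_of_nonneg_right (h2.trans h1) (Real.exp_pos _).le
  have s3 : ∑ w ∈ G, ∑ i ∈ Finset.range p, (if w ∈ W i then t w else 0) ≤
      p * QQ d p η ^ 3 * Real.exp (-(9 / 10 * J)) * Fg (nxt d p η) p γ f
        + p * Real.exp (-(J / (200 * γ))) := by
    rw [Finset.sum_comm]
    have h1 : ∀ i ∈ Finset.range p, ∑ w ∈ G, (if w ∈ W i then t w else 0) ≤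
        QQ d p η ^ 3 * Real.exp (-(9 / 10 * J)) * Fg (nxt d p η) p γ f
          + Real.exp (-(J / (200 * γ))) := by
      intro i _
      rw [← Finset.sum_filter]
      have h2 : G.filter (fun w => w ∈ W i) = W i := by
        ext w
        simp only [Finset.mem_filter, hW]
        tauto
      rw [h2]
      exact hshell i
    refine (Finset.sum_le_sum h1).trans ?_
    rw [Finset.sum_const, Finset.card_range, nsmul_eq_mul]
    linarith
  linarith

end Pool.Agent.SUB
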