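import Mathlib
import Pool.Agent.SUB.Hw
import Pool.Agent.SUB.Ex

/-!
SUBEXP module LAP: the generator applied to `F_γ = ∑_w Pw^(1+γ)`.

`Pw_restr_self`: `D_a (f|_{x_a=u}) = 0` (`deriv_restr_self`), so `hw = cut 0 = 0`.
`Pw_restr` (`w ≠ a`): `hw (f|_{x_a=u}) w x = hw f w (update x a u)` (`deriv_restr`), and
`ex (h (update x a u)) = ex ((1 + u x_a) h) = P (1 + u b)` (`ex_update_one`; if `P = 0` then `h = 0`
everywhere as `h ≥ 0`, and both sides vanish).
`lap_Fg`: the `(a,w)` term with `w ≠ a` is `P^(1+γ) (((1+b)^(1+γ) + (1-b)^(1+γ))/2 - 1)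
= P^(1+γ) phi γ b` (`Real.mul_rpow`, `P ≥ 0`, `1 ± b ≥ 0`), the `(a,a)` term is
`0 - Pw a^(1+γ)` (`0^(1+γ) = 0`) while `phi γ (bias (hw a) a) = phi γ 0 = 0` (`bias_hw_self`). So
the sum over `a` and `w` is `∑_w P^(1+γ) ∑_a phi γ b - ∑_a Pw a^(1+γ)`.
-/

set_option linter.dupNamespace false

namespace Pool.Agent.SUB

open Finset Pool.Agent.Helper11.Cube Pool.Agent.Helper11.AA

variable {n p : ℕ} {η : ℝ}

lemma ex_nonneg_lap {h : Cube n → ℝ} (h0 : ∀ x, 0 ≤ h x) : 0 ≤ ex h :=
  div_nonneg (Finset.sum_nonneg (fun x _ => h0 x)) (by positivity)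

lemma eq_zero_of_ex_eq_zero {h : Cube n → ℝ} (h0 : ∀ x, 0 ≤ h x) (he : ex h = 0) (x : Cube n) :
    h x = 0 := by
  unfold ex at he
  rw [div_eq_zero_iff] at he
  rcases he with he | he
  · exact (Finset.sum_eq_zero_iff_of_nonneg (fun x _ => h0 x)).1 he x (Finset.mem_univ x)
  · exact absurd he (by positivity)

lemma Pw_restr_self (hη : 0 < η) (hp : 1 ≤ p) (f : Cube n → ℝ) (a : Fin n) (u : ℤˣ) :
    Pw η p (fun x => f (Function.update x a u)) a = 0 := by
  have h1 : hw η p (fun x => f (Function.update x a u)) a = fun _ => (0 : ℝ) := by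
    funext x
    apply hw_eq_zero hη hp
    rw [deriv_restr_self, abs_zero]
    exact hη.le
  unfold Pw
  rw [h1, ex_const']

lemma Pw_restr (f : Cube n → ℝ) {a w : Fin n} (h : w ≠ a) (u : ℤˣ) :
    Pw η p (fun x => f (Function.update x a u)) w
      = Pw η p f w * (1 + ((u : ℤ) : ℝ) * bias (hw η p f w) a) := by
  have h1 : hw η p (fun x => f (Function.update x a u)) w
      = fun x => hw η p f w (Function.update x a u) := by
    funext x
    unfold hw
    rw [deriv_restr h]
  have h2 : Pw η p (fun x => f (Function.update x a u)) w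
      = Pw η p f w + ((u : ℤ) : ℝ) * ex (fun x => ((x a : ℤ) : ℝ) * hw η p f w x) := by
    unfold Pw
    rw [h1, ex_update_one, ← ex_mul_left', ← ex_add']
    congr 1
    funext x
    ring
  rw [h2]
  by_cases hP : Pw η p f w = 0
  · have h3 : ∀ x, hw η p f w x = 0 :=
      eq_zero_of_ex_eq_zero (fun x => hw_nonneg f w x) hP
    have h4 : (fun x => ((x a : ℤ) : ℝ) * hw η p f w x) = fun _ => (0 : ℝ) := by
      funext x
      rw [h3 x, mul_zero]
    rw [h4, ex_const', hP]
    ring
  · have h5 : bias (hw η p f w) a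
        = ex (fun x => ((x a : ℤ) : ℝ) * hw η p f w x) / Pw η p f w := rfl
    rw [h5]
    field_simp

lemma phi_zero (γ : ℝ) : phi γ 0 = 0 := by
  unfold phi
  simp

theorem lap_Fg (hη : 0 < η) (hp : 1 ≤ p) {γ : ℝ} (hγ : 0 ≤ γ) (f : Cube n → ℝ) :
    lap (Fg η p γ) f
      = (∑ w, Pw η p f w ^ (1 + γ) * ∑ a, phi γ (bias (hw η p f w) a)) - Fg η p γ f := by
  have hγ1 : 1 + γ ≠ 0 := by linarith
  have key : ∀ a w : Fin n,
      (Pw η p (fun x => f (Function.update x a 1)) w ^ (1 + γ)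
        + Pw η p (fun x => f (Function.update x a (-1))) w ^ (1 + γ)) / 2
        - Pw η p f w ^ (1 + γ)
      = Pw η p f w ^ (1 + γ) * phi γ (bias (hw η p f w) a)
        - if w = a then Pw η p f w ^ (1 + γ) else 0 := by
    intro a w
    by_cases h : w = a
    · subst h
      rw [Pw_restr_self hη hp, Pw_restr_self hη hp, Real.zero_rpow hγ1, bias_hw_self, phi_zero,
        if_pos rfl]
      ring
    · rw [Pw_restr f h, Pw_restr f h, if_neg h]
      have hb := abs_le.1 (abs_bias_le (fun x => hw_nonneg (η := η) (p := p) f w x) a)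
      have hP := Pw_nonneg (η := η) (p := p) f w
      rw [Real.mul_rpow hP (by push_cast; linarith), Real.mul_rpow hP (by push_cast; linarith)]
      unfold phi
      push_cast
      rw [show (1 : ℝ) + 1 * bias (hw η p f w) a = 1 + bias (hw η p f w) a by ring,
        show (1 : ℝ) + -1 * bias (hw η p f w) a = 1 - bias (hw η p f w) a by ring]
      ring
  unfold lap Fg
  have h1 : ∀ a : Fin n,
      ((∑ w, Pw η p (fun x => f (Function.update x a 1)) w ^ (1 + γ))
        + ∑ w, Pw η p (fun x => f (Function.update x a (-1))) w ^ (1 + γ)) / 2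
        - ∑ w, Pw η p f w ^ (1 + γ)
      = ∑ w, (Pw η p f w ^ (1 + γ) * phi γ (bias (hw η p f w) a)
        - if w = a then Pw η p f w ^ (1 + γ) else 0) := by
    intro a
    rw [← Finset.sum_congr rfl (fun w _ => key a w), Finset.sum_sub_distrib, ← Finset.sum_div,
      Finset.sum_add_distrib]
  rw [Finset.sum_congr rfl (fun a _ => h1 a)]
  rw [Finset.sum_comm]
  simp only [Finset.sum_sub_distrib, Finset.mul_sum]
  simp

end Pool.Agent.SUB
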