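import Mathlib
import Pool.Agent.SUB.AvgTime
import Pool.Agent.SUB.LapF

/-!
SUBEXP module PSD: the time derivative of `Psi` along a curve `γ(t)`.

`hasDerivAt_Fg`: for `P ≥ 0`, `γ u ≥ 0`: `t ↦ P^(1+γ t)` has derivative
`P^(1+γ u) * (γ' * log P)` at `u` (`P > 0`: `Real.rpow_def_of_pos` / `HasDerivAt.const_rpow`;
`P = 0`: `0^(1+γ t) = 0` for `t` near `u`, since `1 + γ t ≠ 0` near `u`). Sum over `w`.

`hasDerivAt_Psi`: product rule for `exp t * avg (1-exp(-t)) (Fg η p (γ t)) f`,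
`hasDerivAt_avg_time` with `F t = Fg η p (γ t)`, `F' g = ∑_w Pw g w^(1+γ u) * (γ' * log (Pw g w))`,
and `lap_Fg`: `Fg + lap Fg = ∑_w Pw^(1+γ) ∑_a phi γ (bias)`.
-/

set_option linter.dupNamespace false

namespace Pool.Agent.SUB

open Finset Pool.Agent.Helper11.Cube Pool.Agent.Helper11.AA

variable {n p : ℕ} {η : ℝ}

lemma hasDerivAt_rpow_curve {γ : ℝ → ℝ} {γ' u P : ℝ} (hγ : HasDerivAt γ γ' u) (hγ0 : 0 ≤ γ u)
    (hP : 0 ≤ P) :
    HasDerivAt (fun t => P ^ (1 + γ t)) (P ^ (1 + γ u) * (γ' * Real.log P)) u := by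
  rcases hP.eq_or_lt with h | h
  · subst h
    have h1 : ∀ᶠ t in nhds u, (1 : ℝ) + γ t ≠ 0 := by
      have hc : ContinuousAt (fun t => 1 + γ t) u := continuousAt_const.add hγ.continuousAt
      exact hc.eventually_ne (by linarith)
    have h2 : (fun t => (0 : ℝ) ^ (1 + γ t)) =ᶠ[nhds u] fun _ => (0 : ℝ) := by
      filter_upwards [h1] with t ht
      exact Real.zero_rpow ht
    have h3 : (0 : ℝ) ^ (1 + γ u) * (γ' * Real.log 0) = 0 := by
      rw [Real.log_zero, mul_zero, mul_zero]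
    rw [h3]
    exact (hasDerivAt_const u (0 : ℝ)).congr_of_eventuallyEq h2
  · have h1 := (hγ.const_add 1).const_rpow h
    convert h1 using 1
    ring

lemma hasDerivAt_Fg {γ : ℝ → ℝ} {γ' u : ℝ} (hγ : HasDerivAt γ γ' u) (hγ0 : 0 ≤ γ u)
    (g : Cube n → ℝ) :
    HasDerivAt (fun t => Fg η p (γ t) g)
      (∑ w, Pw η p g w ^ (1 + γ u) * (γ' * Real.log (Pw η p g w))) u := by
  unfold Fg
  exact HasDerivAt.fun_sum (fun w _ => hasDerivAt_rpow_curve hγ hγ0 (Pw_nonneg g w))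

theorem hasDerivAt_Psi (hη : 0 < η) (hp : 1 ≤ p) {γ : ℝ → ℝ} {γ' u : ℝ}
    (hγ : HasDerivAt γ γ' u) (hγ0 : 0 ≤ γ u) (f : Cube n → ℝ) :
    HasDerivAt (fun t => Psi η p (γ t) t f)
      (Real.exp u * avg (1 - Real.exp (-u)) (fun g => ∑ w, Pw η p g w ^ (1 + γ u)
        * ((∑ a, phi (γ u) (bias (hw η p g w) a)) + γ' * Real.log (Pw η p g w))) f) u := by
  have h1 : HasDerivAt (fun t => avg (1 - Real.exp (-t)) (Fg η p (γ t)) f)
      (avg (1 - Real.exp (-u)) (fun g => lap (Fg η p (γ u)) g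
        + ∑ w, Pw η p g w ^ (1 + γ u) * (γ' * Real.log (Pw η p g w))) f) u :=
    hasDerivAt_avg_time (F := fun t => Fg η p (γ t))
      (F' := fun g => ∑ w, Pw η p g w ^ (1 + γ u) * (γ' * Real.log (Pw η p g w))) f
      (fun S y => hasDerivAt_Fg hγ hγ0 _)
  have h2 := (Real.hasDerivAt_exp u).mul h1
  have h3 : Real.exp u * avg (1 - Real.exp (-u)) (Fg η p (γ u)) f
      + Real.exp u * avg (1 - Real.exp (-u)) (fun g => lap (Fg η p (γ u)) g
        + ∑ w, Pw η p g w ^ (1 + γ u) * (γ' * Real.log (Pw η p g w))) f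
      = Real.exp u * avg (1 - Real.exp (-u)) (fun g => ∑ w, Pw η p g w ^ (1 + γ u)
        * ((∑ a, phi (γ u) (bias (hw η p g w) a)) + γ' * Real.log (Pw η p g w))) f := by
    rw [← mul_add, ← avg_add]
    congr 2
    funext g
    rw [lap_Fg hη hp hγ0]
    rw [show ∀ A B C : ℝ, A + (B - A + C) = B + C by intro A B C; ring]
    rw [← Finset.sum_add_distrib]
    exact Finset.sum_congr rfl (fun w _ => by ring)
  rw [h3] at h2
  exact h2

end Pool.Agent.SUB
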