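import Mathlib
import Pool.Agent.SUB.PsiDeriv
import Pool.Agent.SUB.Local
import Pool.Agent.SUB.Init

/-!
SUBEXP module EAR: the averaged local inequality along the slow curve `γ' = (1-ε) γ`.

Apply `local_ineq` to all restrictions `f_{S,y}` (`bdd_mix`), average (`avg_mono`, `avg_add`,
`avg_const_mul`, `avg_const`; `s = 1 - exp(-u) ∈ [0,1]`) and multiply by `exp u`.
-/

set_option linter.dupNamespace false

namespace Pool.Agent.SUB

open Finset Pool.Agent.Helper11.Cube Pool.Agent.Helper11.AA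

variable {n d p : ℕ} {η : ℝ}

theorem early (hd : 1 ≤ d) (hp : 1 ≤ p) (hη : 0 < η) (hη1 : η ≤ 1) {f : Cube n → ℝ}
    (hf : Bdd d f) {γ ε J u : ℝ} (hγ : 0 < γ) (hε : 0 ≤ ε) (hεγ : ε + γ ≤ 1 / 2000)
    (hJ : 1000 * Real.log (QQ d p η) ≤ J) (hu : 0 ≤ u) :
    Real.exp u * avg (1 - Real.exp (-u)) (fun g => ∑ w, Pw η p g w ^ (1 + γ)
        * ((∑ a, phi γ (bias (hw η p g w) a)) + ((1 - ε) * γ) * Real.log (Pw η p g w))) f
      ≤ (ε + γ) * (J * Psi η p γ u f
        + p * QQ d p η ^ 3 * Real.exp (-(9 / 10 * J)) * Psi (nxt d p η) p γ u f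
        + Real.exp u * (p * Real.exp (-(J / (200 * γ)))
          + 2 * (d : ℝ) ^ 2 / η * Real.exp (-(γ * p / 2)))) := by
  set s : ℝ := 1 - Real.exp (-u) with hs
  have hs0 : 0 ≤ s := by
    have : Real.exp (-u) ≤ 1 := Real.exp_le_one_iff.2 (by linarith)
    rw [hs]; linarith
  have hs1 : s ≤ 1 := by
    have : 0 < Real.exp (-u) := Real.exp_pos _
    rw [hs]; linarith
  set c1 : ℝ := p * QQ d p η ^ 3 * Real.exp (-(9 / 10 * J)) with hc1
  set c2 : ℝ := p * Real.exp (-(J / (200 * γ))) with hc2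
  set c3 : ℝ := 2 * (d : ℝ) ^ 2 / η * Real.exp (-(γ * p / 2)) with hc3
  have h1 : avg s (fun g => ∑ w, Pw η p g w ^ (1 + γ)
        * ((∑ a, phi γ (bias (hw η p g w) a)) + ((1 - ε) * γ) * Real.log (Pw η p g w))) f
      ≤ avg s (fun g => (ε + γ) * ((J * Fg η p γ g + c1 * Fg (nxt d p η) p γ g)
          + (c2 + c3))) f := by
    refine avg_mono hs0 hs1 fun S y => ?_
    have h2 := local_ineq hd hp hη hη1 (bdd_mix hf S y) hγ hε hεγ hJ
    refine h2.trans (le_of_eq ?_)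
    simp only [hc1, hc2, hc3]
    ring
  have h3 : avg s (fun g => (ε + γ) * ((J * Fg η p γ g + c1 * Fg (nxt d p η) p γ g)
          + (c2 + c3))) f
      = (ε + γ) * ((J * avg s (Fg η p γ) f + c1 * avg s (Fg (nxt d p η) p γ) f) + (c2 + c3)) := by
    rw [avg_const_mul s (ε + γ) (fun g => (J * Fg η p γ g + c1 * Fg (nxt d p η) p γ g) + (c2 + c3)),
      avg_add s (fun g => J * Fg η p γ g + c1 * Fg (nxt d p η) p γ g) (fun _ => c2 + c3),
      avg_add s (fun g => J * Fg η p γ g) (fun g => c1 * Fg (nxt d p η) p γ g),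
      avg_const_mul s J (Fg η p γ), avg_const_mul s c1 (Fg (nxt d p η) p γ), avg_const]
  rw [h3] at h1
  have h4 := mul_le_mul_of_nonneg_left h1 (Real.exp_pos u).le
  refine h4.trans (le_of_eq ?_)
  unfold Psi
  rw [← hs]
  ring

end Pool.Agent.SUB
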