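import Mathlib
import Pool.Agent.SUB.Early

/-!
SUBEXP module BAR: the barrier argument for the early part (downward induction on the level).
-/

set_option linter.dupNamespace false

namespace Pool.Agent.SUB

open Finset Pool.Agent.Helper11.Cube Pool.Agent.Helper11.AA

variable {n d p : ℕ}

/-- The thresholds of the levels. -/
noncomputable def thr (d p : ℕ) (η₀ : ℝ) : ℕ → ℝ
  | 0 => η₀
  | r + 1 => nxt d p (thr d p η₀ r)

/-- The exponent on the early curve ending with `g` at time `U`. -/
noncomputable def earlyγ (g U t : ℝ) : ℝ := g * Real.exp ((1 - 1 / 4000) * (t - U))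

/-- The barrier. -/
noncomputable def bar (T : ℝ) (R r : ℕ) (t : ℝ) : ℝ :=
  -T + 2 * T * Real.exp (3 / 100000 * t - ((R : ℝ) - r) / 10)

lemma nxt_pos (hd : 1 ≤ d) (hp : 1 ≤ p) {η : ℝ} (hη : 0 < η) : 0 < nxt d p η := by
  unfold nxt
  have : (0 : ℝ) < d := by exact_mod_cast hd
  have : (0 : ℝ) < p := by exact_mod_cast hp
  positivity

lemma nxt_le (hd : 1 ≤ d) (hp : 1 ≤ p) {η : ℝ} (hη : 0 < η) (h1 : η ≤ 1) : nxt d p η ≤ 1 := by
  unfold nxt
  have h2 : (1 : ℝ) ≤ d := by exact_mod_cast hd
  have h3 : (1 : ℝ) ≤ p := by exact_mod_cast hp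
  rw [div_le_one (by positivity)]
  have h4 : η ^ 2 ≤ 1 := by nlinarith
  have h5 : (1 : ℝ) ≤ (p : ℝ) ^ 2 := by nlinarith
  have h6 : (1 : ℝ) ≤ (d : ℝ) ^ 2 := by nlinarith
  nlinarith

lemma thr_pos (hd : 1 ≤ d) (hp : 1 ≤ p) {η₀ : ℝ} (hη : 0 < η₀) (r : ℕ) : 0 < thr d p η₀ r := by
  induction r with
  | zero => simpa [thr] using hη
  | succ r ih => simpa [thr] using nxt_pos hd hp ih

lemma thr_le (hd : 1 ≤ d) (hp : 1 ≤ p) {η₀ : ℝ} (hη : 0 < η₀) (h1 : η₀ ≤ 1) (r : ℕ) :
    thr d p η₀ r ≤ 1 := by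
  induction r with
  | zero => simpa [thr] using h1
  | succ r ih => simpa [thr] using nxt_le hd hp (thr_pos hd hp hη r) ih

lemma exp_tenth : Real.exp (1 / 10) ≤ 1.1052 := by
  have h1 : Real.exp (1 / 10) ^ 10 = Real.exp 1 := by
    rw [← Real.exp_nat_mul]; norm_num
  have h2 := Real.exp_one_lt_d9
  by_contra h
  push Not at h
  have h3 : (1.1052 : ℝ) ^ 10 ≤ Real.exp (1 / 10) ^ 10 := by
    apply pow_le_pow_left₀ (by norm_num) h.le
  rw [h1] at h3
  norm_num at h3 h2
  linarith

lemma exp_le_two_pow (k : ℕ) : Real.exp ((k : ℝ) / 10) ≤ 2 ^ k := by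
  have h : Real.exp ((k : ℝ) / 10) = Real.exp (1 / 10) ^ k := by
    rw [← Real.exp_nat_mul]; congr 1; ring
  rw [h]
  apply pow_le_pow_left₀ (Real.exp_pos _).le
  have := exp_tenth
  norm_num at this ⊢
  linarith

lemma QQ_ge_p (hd : 1 ≤ d) (hp : 1 ≤ p) {η : ℝ} (hη : 0 < η) (h1 : η ≤ 1) :
    100000 * (p : ℝ) ≤ QQ d p η := by
  unfold QQ
  have h2 : (1 : ℝ) ≤ d := by exact_mod_cast hd
  have h3 : (1 : ℝ) ≤ p := by exact_mod_cast hp
  rw [le_div_iff₀ hη]
  have h6 : (1 : ℝ) ≤ (d : ℝ) ^ 2 := by nlinarith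
  have h7 : 100000 * (p : ℝ) * η ≤ 100000 * (p : ℝ) * 1 := by
    apply mul_le_mul_of_nonneg_left h1 (by positivity)
  have h8 : 100000 * (p : ℝ) * 1 ≤ 100000 * (p : ℝ) * (d : ℝ) ^ 2 := by
    apply mul_le_mul_of_nonneg_left h6 (by positivity)
  linarith

lemma earlyγ_pos {g U t : ℝ} (hg : 0 < g) : 0 < earlyγ g U t := by
  unfold earlyγ; positivity

lemma earlyγ_le {g U t : ℝ} (hg : 0 < g) (ht : t ≤ U) : earlyγ g U t ≤ g := by
  unfold earlyγ
  have : Real.exp ((1 - 1 / 4000) * (t - U)) ≤ 1 := by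
    apply Real.exp_le_one_iff.mpr
    nlinarith
  nlinarith

lemma earlyγ_ge {g U t : ℝ} (hg : 0 < g) (ht : 0 ≤ t) : earlyγ g U 0 ≤ earlyγ g U t := by
  unfold earlyγ
  apply mul_le_mul_of_nonneg_left _ hg.le
  apply Real.exp_le_exp.mpr
  nlinarith

lemma earlyγ_self (g U : ℝ) : earlyγ g U U = g := by
  unfold earlyγ; simp

lemma hasDerivAt_earlyγ (g U t : ℝ) :
    HasDerivAt (earlyγ g U) ((1 - 1 / 4000) * earlyγ g U t) t := by
  have h1 : HasDerivAt (fun t : ℝ => (1 - 1 / 4000) * (t - U)) (1 - 1 / 4000) t := by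
    have := ((hasDerivAt_id t).sub_const U).const_mul (1 - 1 / 4000 : ℝ)
    simpa using this
  have h2 := (h1.exp).const_mul g
  have h3 : (1 - 1 / 4000) * earlyγ g U t
      = g * (Real.exp ((1 - 1 / 4000) * (t - U)) * (1 - 1 / 4000)) := by
    unfold earlyγ; ring
  rw [h3]
  exact h2

lemma hasDerivAt_bar (T : ℝ) (R r : ℕ) (t : ℝ) :
    HasDerivAt (fun t => Real.exp (bar T R r t))
      (Real.exp (bar T R r t) * (3 / 100000 * (2 * T *
        Real.exp (3 / 100000 * t - ((R : ℝ) - r) / 10)))) t := by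
  have h1 : HasDerivAt (fun t : ℝ => 3 / 100000 * t - ((R : ℝ) - r) / 10) (3 / 100000) t := by
    have := ((hasDerivAt_id t).const_mul (3 / 100000 : ℝ)).sub_const (((R : ℝ) - r) / 10)
    simpa using this
  have h2 : HasDerivAt (fun t => bar T R r t) (2 * T *
      (Real.exp (3 / 100000 * t - ((R : ℝ) - r) / 10) * (3 / 100000))) t := by
    unfold bar
    exact ((h1.exp).const_mul (2 * T)).const_add (-T)
  have h3 := h2.exp
  convert h3 using 1
  simp only [mul_eq_mul_left_iff]
  left
  ring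

/-- The numeric inequality at the boundary. -/
lemma bar_numeric {e γ J X B : ℝ} (he : e = 1 / 4000) (hγ0 : 0 < γ) (hγ : γ ≤ 1 / 400000)
    (hJ : J = 10 / 9 * ((Real.exp (1 / 10) - 1) * X + B)) (hX : 600 * B ≤ X) (hB : 1000 ≤ B) :
    (e + γ) * (J + 2) < 3 / 100000 * X := by
  have h1 := exp_tenth
  have hX0 : 0 < X := by linarith
  have h2 : (Real.exp (1 / 10) - 1) * X ≤ 0.1052 * X := by
    apply mul_le_mul_of_nonneg_right _ hX0.le
    norm_num at h1 ⊢
    linarith
  have h3 : J + 2 ≤ 10 / 9 * (0.1052 * X + B) + 2 := by rw [hJ]; linarith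
  have h4 : e + γ ≤ 1.01 / 4000 := by rw [he]; norm_num; linarith
  have h5 : 0 ≤ 10 / 9 * (0.1052 * X + B) + 2 := by positivity
  calc (e + γ) * (J + 2) ≤ (e + γ) * (10 / 9 * (0.1052 * X + B) + 2) := by
        apply mul_le_mul_of_nonneg_left h3; rw [he]; positivity
    _ ≤ 1.01 / 4000 * (10 / 9 * (0.1052 * X + B) + 2) :=
        mul_le_mul_of_nonneg_right h4 h5
    _ < 3 / 100000 * X := by
        norm_num
        linarith

theorem barrier (hd : 1 ≤ d) (hp : 1 ≤ p) {f : Cube n → ℝ} (hf : Bdd d f) {η₀ g U T B₀ : ℝ}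
    (R : ℕ) (hη : 0 < η₀) (hη1 : η₀ ≤ 1) (hg : 0 < g) (hg1 : g ≤ 1 / 400000)
    (hB0 : 1000 ≤ B₀) (hT : T = 300 * 2 ^ R * B₀)
    (hQ : ∀ r < R, 1000 * Real.log (QQ d p (thr d p η₀ r)) ≤ 2 ^ r * B₀)
    (hs1 : Real.exp (U + T) * (p * Real.exp (-(B₀ / (200 * g)))) ≤ 1 / 2)
    (hs2 : ∀ r < R, Real.exp (U + T) * (2 * (d : ℝ) ^ 2 / thr d p η₀ r
      * Real.exp (-(earlyγ g U 0 * p / 2))) ≤ 1 / 2)
    (htop : Real.exp U * (2 * (d : ℝ) ^ 2 / thr d p η₀ R) ≤ Real.exp T)
    (hinit : ∀ r < R, Psi (thr d p η₀ r) p (earlyγ g U 0) 0 f ≤ Real.exp (-T)) :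
    ∀ k, k ≤ R → ∀ t ∈ Set.Icc 0 U,
      Psi (thr d p η₀ (R - k)) p (earlyγ g U t) t f ≤ Real.exp (bar T R (R - k) t) := by
  have hT0 : 0 < T := by rw [hT]; positivity
  intro k
  induction k with
  | zero =>
    intro _ t ht
    have hη' := thr_pos hd hp hη R
    simp only [Nat.sub_zero]
    refine (psi_le hη' hp hf (earlyγ_pos hg).le ht.1).trans ?_
    calc Real.exp t * (2 * (d : ℝ) ^ 2 / thr d p η₀ R)
        ≤ Real.exp U * (2 * (d : ℝ) ^ 2 / thr d p η₀ R) := by
          apply mul_le_mul_of_nonneg_right (Real.exp_le_exp.mpr ht.2) (by positivity)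
      _ ≤ Real.exp T := htop
      _ ≤ Real.exp (bar T R R t) := by
          apply Real.exp_le_exp.mpr
          unfold bar
          have : (1 : ℝ) ≤ Real.exp (3 / 100000 * t - ((R : ℝ) - R) / 10) := by
            apply Real.one_le_exp
            have := ht.1
            simp only [sub_self, zero_div, sub_zero]
            positivity
          nlinarith
  | succ k ih =>
    intro hk
    have hk' : k ≤ R := by omega
    have ihk := ih hk'
    set r := R - (k + 1) with hr
    have hrR : r < R := by omega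
    have hr1 : R - k = r + 1 := by omega
    rw [hr1] at ihk
    have hη' := thr_pos hd hp hη r
    have hη1' := thr_le hd hp hη hη1 r
    -- derivative of Psi
    have hderiv : ∀ t, HasDerivAt (fun t => Psi (thr d p η₀ r) p (earlyγ g U t) t f) _ t :=
      fun t => hasDerivAt_Psi hη' hp (hasDerivAt_earlyγ g U t) (earlyγ_pos hg).le f
    apply image_le_of_deriv_right_lt_deriv_boundary (a := 0) (b := U)
      (fun t _ => (hderiv t).continuousAt.continuousWithinAt)
      (fun t _ => (hderiv t).hasDerivWithinAt)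
    · refine (hinit r hrR).trans (Real.exp_le_exp.mpr ?_)
      unfold bar
      have : 0 < 2 * T * Real.exp (3 / 100000 * (0 : ℝ) - ((R : ℝ) - r) / 10) := by positivity
      linarith
    · exact fun t => hasDerivAt_bar T R r t
    · intro t ht heq
      have ht' : t ∈ Set.Icc 0 U := ⟨ht.1, ht.2.le⟩
      set X := 2 * T * Real.exp (3 / 100000 * t - ((R : ℝ) - r) / 10) with hX
      set B := (2 : ℝ) ^ r * B₀ with hB
      set J := 10 / 9 * ((Real.exp (1 / 10) - 1) * X + B) with hJ
      set γ := earlyγ g U t with hγ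
      have hγ0 : 0 < γ := earlyγ_pos hg
      have hγg : γ ≤ g := earlyγ_le hg ht'.2
      have hX0 : 0 < X := by positivity
      have hB1 : B₀ ≤ B := by
        rw [hB]
        have : (1 : ℝ) ≤ 2 ^ r := one_le_pow₀ (by norm_num)
        nlinarith
      have hB1000 : 1000 ≤ B := hB0.trans hB1
      have he1 : 1 ≤ Real.exp (1 / 10) := Real.one_le_exp (by norm_num)
      have hJB : B ≤ J := by
        rw [hJ]
        have : 0 ≤ (Real.exp (1 / 10) - 1) * X := mul_nonneg (by linarith) hX0.le
        linarith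
      have hJQ : 1000 * Real.log (QQ d p (thr d p η₀ r)) ≤ J := (hQ r hrR).trans hJB
      have hXB : 600 * B ≤ X := by
        rw [hX, hT, hB]
        have h1 : Real.exp (-(((R - r : ℕ) : ℝ) / 10)) * 2 ^ R ≥ 2 ^ r := by
          have h2 := exp_le_two_pow (R - r)
          have h3 : (2 : ℝ) ^ R = 2 ^ (R - r) * 2 ^ r := by
            rw [← pow_add]; congr 1; omega
          rw [h3]
          have h4 : 1 ≤ Real.exp (-(((R - r : ℕ) : ℝ) / 10)) * 2 ^ (R - r) := by
            rw [Real.exp_neg, ← div_eq_inv_mul, le_div_iff₀ (Real.exp_pos _)]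
            linarith
          have h5 : (0 : ℝ) < 2 ^ r := by positivity
          nlinarith
        have h6 : Real.exp (3 / 100000 * t - ((R : ℝ) - r) / 10)
            ≥ Real.exp (-(((R - r : ℕ) : ℝ) / 10)) := by
          apply Real.exp_le_exp.mpr
          rw [Nat.cast_sub hrR.le]
          have := ht'.1
          linarith
        have h7 : (0 : ℝ) < 2 ^ R := by positivity
        have h8 : Real.exp (3 / 100000 * t - ((R : ℝ) - r) / 10) * 2 ^ R ≥ 2 ^ r := by
          refine le_trans h1 ?_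
          exact mul_le_mul_of_nonneg_right h6 h7.le
        have h9 : (0 : ℝ) < B₀ := by linarith
        calc 600 * (2 ^ r * B₀) ≤ 600 * ((Real.exp (3 / 100000 * t - ((R : ℝ) - r) / 10) * 2 ^ R) * B₀) := by
              apply mul_le_mul_of_nonneg_left _ (by norm_num)
              exact mul_le_mul_of_nonneg_right h8 h9.le
          _ = _ := by ring
      have hnum := bar_numeric (e := 1 / 4000) rfl hγ0 (hγg.trans hg1) hJ hXB hB1000
      -- the value of the early inequality
      have hearly := early hd hp hη' hη1' hf (γ := γ) (ε := 1 / 4000) (J := J) (u := t) hγ0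
        (by norm_num) (by linarith) hJQ ht'.1
      refine lt_of_le_of_lt hearly ?_
      -- rewrite
      set E := Real.exp (bar T R r t) with hE
      have hE0 : 0 < E := Real.exp_pos _
      have hPsi1 : Psi (thr d p η₀ r) p γ t f = E := heq
      have hPsi2 : Psi (nxt d p (thr d p η₀ r)) p γ t f ≤ Real.exp (bar T R (r + 1) t) := by
        have := ihk t ht'
        simpa [thr] using this
      have hbar : bar T R (r + 1) t = bar T R r t + (Real.exp (1 / 10) - 1) * X := by
        rw [hX]
        unfold bar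
        have h1 : Real.exp (3 / 100000 * t - ((R : ℝ) - ((r + 1 : ℕ) : ℝ)) / 10)
            = Real.exp (1 / 10) * Real.exp (3 / 100000 * t - ((R : ℝ) - r) / 10) := by
          rw [← Real.exp_add]; congr 1; push_cast; ring
        rw [h1]; ring
      have hQpos : 0 < QQ d p (thr d p η₀ r) := by
        have := QQ_ge_p hd hp hη' hη1'
        have h3 : (1 : ℝ) ≤ p := by exact_mod_cast hp
        linarith
      -- second term
      have ht2 : p * QQ d p (thr d p η₀ r) ^ 3 * Real.exp (-(9 / 10 * J))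
          * Psi (nxt d p (thr d p η₀ r)) p γ t f ≤ 1 * E := by
        have h1 : (p : ℝ) * QQ d p (thr d p η₀ r) ^ 3 ≤ Real.exp B := by
          have h2 := QQ_ge_p hd hp hη' hη1'
          have h3 : (1 : ℝ) ≤ p := by exact_mod_cast hp
          have h4 : (p : ℝ) ≤ QQ d p (thr d p η₀ r) := by linarith
          have h5 : (p : ℝ) * QQ d p (thr d p η₀ r) ^ 3 ≤ QQ d p (thr d p η₀ r) ^ 4 := by
            rw [pow_succ' _ 3]
            apply mul_le_mul_of_nonneg_right h4 (by positivity)
          refine h5.trans ?_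
          have h6 : QQ d p (thr d p η₀ r) ≤ Real.exp (B / 4) := by
            rw [← Real.log_le_iff_le_exp hQpos]
            have := hQ r hrR
            have h7 : 0 ≤ Real.log (QQ d p (thr d p η₀ r)) := Real.log_nonneg (by linarith)
            linarith
          calc QQ d p (thr d p η₀ r) ^ 4 ≤ Real.exp (B / 4) ^ 4 :=
                pow_le_pow_left₀ hQpos.le h6 4
            _ = Real.exp B := by rw [← Real.exp_nat_mul]; congr 1; push_cast; ring
        calc p * QQ d p (thr d p η₀ r) ^ 3 * Real.exp (-(9 / 10 * J))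
              * Psi (nxt d p (thr d p η₀ r)) p γ t f
            ≤ Real.exp B * Real.exp (-(9 / 10 * J)) * Real.exp (bar T R (r + 1) t) := by
              apply mul_le_mul _ hPsi2 (psi_nonneg f ht'.1) (by positivity)
              apply mul_le_mul_of_nonneg_right h1 (Real.exp_pos _).le
          _ = 1 * E := by
              rw [hE, one_mul, ← Real.exp_add, ← Real.exp_add, hbar]
              congr 1
              rw [hJ]; ring
      -- third term
      have hyT : -T ≤ bar T R r t := by
        unfold bar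
        have : 0 < 2 * T * Real.exp (3 / 100000 * t - ((R : ℝ) - r) / 10) := by positivity
        linarith
      have hET : Real.exp t ≤ Real.exp (U + T) * E := by
        rw [hE, ← Real.exp_add]
        apply Real.exp_le_exp.mpr
        have := ht'.2
        linarith
      have ht3 : Real.exp t * (p * Real.exp (-(J / (200 * γ)))
          + 2 * (d : ℝ) ^ 2 / thr d p η₀ r * Real.exp (-(γ * p / 2))) ≤ 1 * E := by
        have h1 : (p : ℝ) * Real.exp (-(J / (200 * γ))) ≤ p * Real.exp (-(B₀ / (200 * g))) := by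
          apply mul_le_mul_of_nonneg_left _ (by positivity)
          apply Real.exp_le_exp.mpr
          apply neg_le_neg
          apply div_le_div₀ (by linarith) (by linarith) (by positivity) (by linarith)
        have h2 : 2 * (d : ℝ) ^ 2 / thr d p η₀ r * Real.exp (-(γ * p / 2))
            ≤ 2 * (d : ℝ) ^ 2 / thr d p η₀ r * Real.exp (-(earlyγ g U 0 * p / 2)) := by
          apply mul_le_mul_of_nonneg_left _ (by positivity)
          apply Real.exp_le_exp.mpr
          apply neg_le_neg
          have h3 := earlyγ_ge (U := U) hg ht'.1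
          have h4 : (0 : ℝ) ≤ p := by positivity
          have := mul_le_mul_of_nonneg_right h3 h4
          linarith
        have h5 : 0 ≤ (p : ℝ) * Real.exp (-(B₀ / (200 * g)))
            + 2 * (d : ℝ) ^ 2 / thr d p η₀ r * Real.exp (-(earlyγ g U 0 * p / 2)) := by
          positivity
        calc Real.exp t * (p * Real.exp (-(J / (200 * γ)))
              + 2 * (d : ℝ) ^ 2 / thr d p η₀ r * Real.exp (-(γ * p / 2)))
            ≤ Real.exp t * (p * Real.exp (-(B₀ / (200 * g)))
              + 2 * (d : ℝ) ^ 2 / thr d p η₀ r * Real.exp (-(earlyγ g U 0 * p / 2))) := by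
              apply mul_le_mul_of_nonneg_left _ (Real.exp_pos _).le
              linarith
          _ ≤ (Real.exp (U + T) * E) * (p * Real.exp (-(B₀ / (200 * g)))
              + 2 * (d : ℝ) ^ 2 / thr d p η₀ r * Real.exp (-(earlyγ g U 0 * p / 2))) :=
              mul_le_mul_of_nonneg_right hET h5
          _ = E * (Real.exp (U + T) * (p * Real.exp (-(B₀ / (200 * g))))
              + Real.exp (U + T) * (2 * (d : ℝ) ^ 2 / thr d p η₀ r
                * Real.exp (-(earlyγ g U 0 * p / 2)))) := by ring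
          _ ≤ E * (1 / 2 + 1 / 2) := by
              apply mul_le_mul_of_nonneg_left _ hE0.le
              linarith [hs2 r hrR]
          _ = 1 * E := by ring
      have hsum : J * Psi (thr d p η₀ r) p γ t f
        + p * QQ d p (thr d p η₀ r) ^ 3 * Real.exp (-(9 / 10 * J))
          * Psi (nxt d p (thr d p η₀ r)) p γ t f
        + Real.exp t * (p * Real.exp (-(J / (200 * γ)))
          + 2 * (d : ℝ) ^ 2 / thr d p η₀ r * Real.exp (-(γ * p / 2))) ≤ (J + 2) * E := by
        rw [hPsi1]
        linarith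
      calc (1 / 4000 + γ) * (J * Psi (thr d p η₀ r) p γ t f
            + p * QQ d p (thr d p η₀ r) ^ 3 * Real.exp (-(9 / 10 * J))
              * Psi (nxt d p (thr d p η₀ r)) p γ t f
            + Real.exp t * (p * Real.exp (-(J / (200 * γ)))
              + 2 * (d : ℝ) ^ 2 / thr d p η₀ r * Real.exp (-(γ * p / 2))))
          ≤ (1 / 4000 + γ) * ((J + 2) * E) := by
            apply mul_le_mul_of_nonneg_left hsum (by positivity)
        _ = ((1 / 4000 + γ) * (J + 2)) * E := by ring
        _ < (3 / 100000 * X) * E := mul_lt_mul_of_pos_right hnum hE0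
        _ = E * (3 / 100000 * X) := by ring

end Pool.Agent.SUB
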