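import Mathlib
import Pool.Agent.SUB.FinLow1
import Pool.Agent.SUB.Hw

/-!
SUBEXP module FL2: the lower bound at the final time `u = log (2d)`.

`sq_le` (`g` bounded of degree `≤ d`): with `N_a = ex (D_a g)`, `P_a = Pw η p g a`:
`|D_a g x| ≤ 2η + hw η p g a x` (if `|D_a g x| ≥ 2η` then `hw = 1 ≥ |D_a g x|`, `cut_eq_one`), so
`|N_a| ≤ 2η + P_a`, `N_a^2 ≤ |N_a| (2η + P_a) ≤ 2η |N_a| + N_a^2/2 + P_a^2/2`, i.e.
`N_a^2 ≤ 4η |N_a| + P_a^2`; sum, `∑_a |N_a| ≤ ex ∑ |D_a g| ≤ 2 d^2`, `Fg η p 1 g = ∑ P_a^2`.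

`final_lower`: `s = 1 - exp(-log(2d)) = 1 - 1/(2d)`, `s^(d-1) ≥ 1 - (d-1)/(2d) ≥ 1/2` (Bernoulli
`one_add_mul_le_pow`). `avg_sq_ge`, `sq_le` with `η = V/(64 d^3)` for all restrictions (`bdd_mix`),
`avg_mono`, `avg_add`, `avg_const`:
`V/(4d) ≤ 8 d^2 V/(64 d^3) + avg s (Fg η p 1) f = V/(8d) + avg`, so `Psi = 2d * avg ≥ V/4`.
-/

set_option linter.dupNamespace false

namespace Pool.Agent.SUB

open Finset Pool.Agent.Helper11.Cube Pool.Agent.Helper11.AA

variable {n d p : ℕ}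

lemma sum_sq_le {η : ℝ} (hη : 0 < η) (hp : 1 ≤ p) {g : Cube n → ℝ} (hg : Bdd d g) :
    ∑ a, ex (discreteDeriv a g) ^ 2 ≤ 8 * (d : ℝ) ^ 2 * η + Fg η p 1 g := by
  have hpt : ∀ (a : Fin n) (x : Cube n), |discreteDeriv a g x| ≤ 2 * η + hw η p g a x := by
    intro a x
    rcases le_or_gt (2 * η) |discreteDeriv a g x| with h | h
    · have h1 : hw η p g a x = 1 := cut_eq_one hη h
      have h2 : |discreteDeriv a g x| ≤ 1 := (bdd_deriv hg a).2 x
      rw [h1]
      linarith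
    · have h1 : 0 ≤ hw η p g a x := hw_nonneg g a x
      linarith
  have hN : ∀ a : Fin n, |ex (discreteDeriv a g)| ≤ 2 * η + Pw η p g a := by
    intro a
    calc |ex (discreteDeriv a g)| ≤ ex (fun x => |discreteDeriv a g x|) := abs_ex_le _
      _ ≤ ex (fun x => 2 * η + hw η p g a x) := ex_mono (hpt a)
      _ = 2 * η + Pw η p g a := by
        rw [ex_add, ex_const]
        rfl
  have hsq : ∀ a : Fin n, ex (discreteDeriv a g) ^ 2
      ≤ 4 * η * ex (fun x => |discreteDeriv a g x|) + Pw η p g a ^ 2 := by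
    intro a
    have h1 := hN a
    have h2 : |ex (discreteDeriv a g)| ≤ ex (fun x => |discreteDeriv a g x|) := abs_ex_le _
    have h3 : ex (discreteDeriv a g) ^ 2 = |ex (discreteDeriv a g)| ^ 2 := (sq_abs _).symm
    rw [h3]
    set N := |ex (discreteDeriv a g)| with hNdef
    have hN0 : 0 ≤ N := abs_nonneg _
    have h4 : N ^ 2 ≤ N * (2 * η + Pw η p g a) := by nlinarith
    have h5 : N ^ 2 ≤ 4 * η * N + Pw η p g a ^ 2 := by
      nlinarith [sq_nonneg (N - Pw η p g a)]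
    have h6 : 4 * η * N ≤ 4 * η * ex (fun x => |discreteDeriv a g x|) := by
      apply mul_le_mul_of_nonneg_left h2
      linarith
    linarith
  have hsum : ∑ a, ex (fun x => |discreteDeriv a g x|) ≤ 2 * (d : ℝ) ^ 2 := by
    rw [← ex_sum]
    calc ex (fun x => ∑ a, |discreteDeriv a g x|) ≤ ex (fun _ : Cube n => 2 * (d : ℝ) ^ 2) :=
          ex_mono (fun x => sum_abs_deriv hg x)
      _ = 2 * (d : ℝ) ^ 2 := ex_const _
  have hF : Fg η p 1 g = ∑ a, Pw η p g a ^ 2 := by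
    unfold Fg
    apply Finset.sum_congr rfl
    intro a _
    have : (1 : ℝ) + 1 = ((2 : ℕ) : ℝ) := by norm_num
    rw [this, Real.rpow_natCast]
  calc ∑ a, ex (discreteDeriv a g) ^ 2
      ≤ ∑ a, (4 * η * ex (fun x => |discreteDeriv a g x|) + Pw η p g a ^ 2) :=
        Finset.sum_le_sum (fun a _ => hsq a)
    _ = 4 * η * ∑ a, ex (fun x => |discreteDeriv a g x|) + Fg η p 1 g := by
        rw [Finset.sum_add_distrib, ← Finset.mul_sum, hF]
    _ ≤ 4 * η * (2 * (d : ℝ) ^ 2) + Fg η p 1 g := by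
        have : 4 * η * ∑ a, ex (fun x => |discreteDeriv a g x|) ≤ 4 * η * (2 * (d : ℝ) ^ 2) := by
          apply mul_le_mul_of_nonneg_left hsum
          linarith
        linarith
    _ = 8 * (d : ℝ) ^ 2 * η + Fg η p 1 g := by ring

theorem final_lower (hd : 1 ≤ d) (hp : 1 ≤ p) {f : Cube n → ℝ} (hf : Bdd d f)
    (hV : 0 < variance f) :
    variance f / 4 ≤ Psi (variance f / (64 * (d : ℝ) ^ 3)) p 1 (Real.log (2 * d)) f := by
  have hd0 : (0 : ℝ) < d := by exact_mod_cast hd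
  have hd1 : (1 : ℝ) ≤ d := by exact_mod_cast hd
  set V := variance f with hVdef
  set η : ℝ := V / (64 * (d : ℝ) ^ 3) with hη
  have hη0 : 0 < η := by positivity
  have h2d : (0 : ℝ) < 2 * d := by positivity
  have hexp : Real.exp (Real.log (2 * d)) = 2 * d := Real.exp_log h2d
  have hexpn : Real.exp (-Real.log (2 * d)) = 1 / (2 * d) := by
    rw [Real.exp_neg, hexp, one_div]
  unfold Psi
  rw [hexp, hexpn]
  set s : ℝ := 1 - 1 / (2 * d) with hs
  have hinv1 : 1 / (2 * (d : ℝ)) ≤ 1 / 2 := by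
    apply one_div_le_one_div_of_le (by norm_num)
    linarith
  have hinv0 : 0 < 1 / (2 * (d : ℝ)) := by positivity
  have h0 : 0 ≤ s := by rw [hs]; linarith
  have h1 : s ≤ 1 := by rw [hs]; linarith
  have hA := avg_sq_ge hf.1 h0 h1
  have hB : avg s (fun g => ∑ a, ex (discreteDeriv a g) ^ 2) f
      ≤ 8 * (d : ℝ) ^ 2 * η + avg s (Fg η p 1) f := by
    calc avg s (fun g => ∑ a, ex (discreteDeriv a g) ^ 2) f
        ≤ avg s (fun g => 8 * (d : ℝ) ^ 2 * η + Fg η p 1 g) f :=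
          avg_mono h0 h1 (fun S y => sum_sq_le hη0 hp (bdd_mix hf S y))
      _ = avg s (fun _ => 8 * (d : ℝ) ^ 2 * η) f + avg s (Fg η p 1) f := by
          rw [avg_add s (fun _ => 8 * (d : ℝ) ^ 2 * η) (Fg η p 1) f]
      _ = 8 * (d : ℝ) ^ 2 * η + avg s (Fg η p 1) f := by rw [avg_const]
  have hpow : (1 : ℝ) / 2 ≤ s ^ (d - 1) := by
    have hb := one_add_mul_le_pow (a := s - 1) (by linarith) (d - 1)
    have e1 : (1 : ℝ) + (s - 1) = s := by ring
    rw [e1] at hb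
    have e2 : ((d - 1 : ℕ) : ℝ) = (d : ℝ) - 1 := by
      rw [Nat.cast_sub hd]; simp
    rw [e2] at hb
    have e3 : (d - 1 : ℝ) * (s - 1) = -(1 / 2) + 1 / (2 * d) := by
      rw [hs]
      field_simp
      ring
    rw [e3] at hb
    linarith
  have hVs : V / (4 * d) ≤ (1 - s) * s ^ (d - 1) * V := by
    have e1 : 1 - s = 1 / (2 * d) := by rw [hs]; ring
    rw [e1]
    calc V / (4 * d) = 1 / (2 * d) * (1 / 2) * V := by
          field_simp
          ring
      _ ≤ 1 / (2 * d) * s ^ (d - 1) * V := by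
          have hV' : 0 ≤ V := hV.le
          gcongr
  have h8 : 8 * (d : ℝ) ^ 2 * η = V / (8 * d) := by
    rw [hη]
    field_simp
    ring
  rw [h8] at hB
  have hfin : V / (4 * d) ≤ V / (8 * d) + avg s (Fg η p 1) f := by linarith
  have e4 : V / (4 * d) - V / (8 * d) = V / (8 * d) := by
    field_simp
    ring
  have hfin2 : V / (8 * d) ≤ avg s (Fg η p 1) f := by linarith
  calc V / 4 = 2 * d * (V / (8 * d)) := by
        field_simp
        ring
    _ ≤ 2 * d * avg s (Fg η p 1) f := by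
        apply mul_le_mul_of_nonneg_left hfin2 h2d.le

end Pool.Agent.SUB
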