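import Mathlib
import Pool.Agent.SUB.PsiDeriv
import Pool.Agent.SUB.Ent

/-!
SUBEXP module LATE: along the curve `γ = g/(1-g)`, `g(t) = exp(t - u₁)/2`, `Psi` is nonincreasing on
`[0, u₁]`.

`γ' = g/(1-g)^2 = γ (1+γ)` (`g' = g`, `1 + γ = 1/(1-g)`), `0 < γ ≤ 1` since `0 < g ≤ 1/2`. By
`hasDerivAt_Psi` the derivative of `t ↦ Psi η p (lateγ u₁ t) t f` is `exp t * avg s (...)` and each
integrand is `∑_w P^(1+γ) (∑_a phi γ (bias) + γ(1+γ) log P) ≤ 0`: for `P > 0`,
`phi γ b ≤ γ(1+γ) KL b` (`phi_le`, `abs_bias_le`) and `∑ KL ≤ -log P` (`sum_KL_le` with `hw`); for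
`P = 0` the factor `P^(1+γ)` vanishes. `s = 1 - exp(-t) ∈ [0,1]`: `avg_mono` (against `0`).
Then `antitoneOn_of_deriv_nonpos` (or the mean value theorem).
-/

set_option linter.dupNamespace false

namespace Pool.Agent.SUB

open Finset Pool.Agent.Helper11.Cube Pool.Agent.Helper11.AA

variable {n p : ℕ} {η : ℝ}

/-- The exponent on the late curve ending with `γ = 1` at the time `u₁`. -/
noncomputable def lateγ (u₁ t : ℝ) : ℝ := (Real.exp (t - u₁) / 2) / (1 - Real.exp (t - u₁) / 2)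

lemma late_exp_le {u₁ t : ℝ} (h : t ≤ u₁) : Real.exp (t - u₁) ≤ 1 := by
  rw [Real.exp_le_one_iff]
  linarith

lemma lateγ_pos {u₁ t : ℝ} (h : t ≤ u₁) : 0 < lateγ u₁ t := by
  have h1 := late_exp_le h
  have h2 := Real.exp_pos (t - u₁)
  unfold lateγ
  exact div_pos (by positivity) (by linarith)

lemma lateγ_self (u₁ : ℝ) : lateγ u₁ u₁ = 1 := by
  unfold lateγ
  rw [sub_self, Real.exp_zero]
  norm_num

lemma lateγ_le_one {u₁ t : ℝ} (h : t ≤ u₁) : lateγ u₁ t ≤ 1 := by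
  have h1 := late_exp_le h
  have h2 := Real.exp_pos (t - u₁)
  unfold lateγ
  rw [div_le_one (by linarith)]
  linarith

lemma lateγ_hasDerivAt {u₁ t : ℝ} (h : t ≤ u₁) :
    HasDerivAt (lateγ u₁) (lateγ u₁ t * (1 + lateγ u₁ t)) t := by
  have h1 := late_exp_le h
  have h2 := Real.exp_pos (t - u₁)
  have h3 : 1 - Real.exp (t - u₁) / 2 ≠ 0 := by
    have : 0 < 1 - Real.exp (t - u₁) / 2 := by linarith
    exact this.ne'
  have e1 : HasDerivAt (fun t => Real.exp (t - u₁) / 2) (Real.exp (t - u₁) / 2) t := by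
    have := ((hasDerivAt_id t).sub_const u₁).exp.div_const 2
    simpa using this
  have e2 : HasDerivAt (fun t => 1 - Real.exp (t - u₁) / 2) (-(Real.exp (t - u₁) / 2)) t := by
    exact e1.const_sub 1
  have e3 := e1.fun_div e2 h3
  have e5 : lateγ u₁ t * (1 + lateγ u₁ t) = (Real.exp (t - u₁) / 2 *
      (1 - Real.exp (t - u₁) / 2) - Real.exp (t - u₁) / 2 * -(Real.exp (t - u₁) / 2)) /
      (1 - Real.exp (t - u₁) / 2) ^ 2 := by
    unfold lateγ
    generalize Real.exp (t - u₁) / 2 = y at h3 ⊢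
    generalize 1 - y = D at h3 ⊢
    field_simp
    ring
  rw [e5]
  exact e3

/-- the integrand is nonpositive. -/
lemma late_term (g : Cube n → ℝ) {γ : ℝ} (h0 : 0 < γ) (h1 : γ ≤ 1) :
    ∑ w, Pw η p g w ^ (1 + γ) * ((∑ a, phi γ (bias (hw η p g w) a)) +
      γ * (1 + γ) * Real.log (Pw η p g w)) ≤ 0 := by
  refine Finset.sum_nonpos fun w _ => ?_
  rcases (Pw_nonneg (η := η) (p := p) g w).eq_or_lt with h | h
  · rw [← h, Real.zero_rpow (by linarith), zero_mul]
  · refine mul_nonpos_of_nonneg_of_nonpos (Real.rpow_nonneg h.le _) ?_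
    have h2 : ∑ a, phi γ (bias (hw η p g w) a) ≤
        ∑ a, γ * (1 + γ) * KL (bias (hw η p g w) a) :=
      Finset.sum_le_sum fun a _ => phi_le h0.le h1 (abs_bias_le (hw_nonneg g w) a)
    rw [← Finset.mul_sum] at h2
    have h3 := sum_KL_le (h := hw η p g w) (hw_nonneg g w) (hw_le_one g w) h
    have h4 : γ * (1 + γ) * ∑ a, KL (bias (hw η p g w) a) ≤
        γ * (1 + γ) * (- Real.log (Pw η p g w)) :=
      mul_le_mul_of_nonneg_left h3 (by positivity)
    linarith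

theorem late (hη : 0 < η) (hp : 1 ≤ p) (f : Cube n → ℝ) {u₁ s t : ℝ} (hs : 0 ≤ s) (hst : s ≤ t)
    (ht : t ≤ u₁) :
    Psi η p (lateγ u₁ t) t f ≤ Psi η p (lateγ u₁ s) s f := by
  have hder : ∀ u ∈ Set.Icc (0 : ℝ) u₁, HasDerivAt (fun t => Psi η p (lateγ u₁ t) t f)
      (Real.exp u * avg (1 - Real.exp (-u)) (fun g => ∑ w, Pw η p g w ^ (1 + lateγ u₁ u)
        * ((∑ a, phi (lateγ u₁ u) (bias (hw η p g w) a)) +
          lateγ u₁ u * (1 + lateγ u₁ u) * Real.log (Pw η p g w))) f) u := fun u hu =>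
    hasDerivAt_Psi hη hp (lateγ_hasDerivAt hu.2) (lateγ_pos hu.2).le f
  have hanti : AntitoneOn (fun t => Psi η p (lateγ u₁ t) t f) (Set.Icc 0 u₁) := by
    refine antitoneOn_of_deriv_nonpos (convex_Icc 0 u₁)
      (fun u hu => (hder u hu).continuousAt.continuousWithinAt)
      (fun u hu => ((hder u (interior_subset hu)).differentiableAt).differentiableWithinAt) ?_
    intro u hu
    have hu' := interior_subset hu
    rw [(hder u hu').deriv]
    refine mul_nonpos_of_nonneg_of_nonpos (Real.exp_pos u).le ?_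
    have hs0 : 0 ≤ 1 - Real.exp (-u) := by
      have : Real.exp (-u) ≤ 1 := by
        rw [Real.exp_le_one_iff]
        linarith [hu'.1]
      linarith
    have hs1 : 1 - Real.exp (-u) ≤ 1 := by
      linarith [Real.exp_pos (-u)]
    have h5 := avg_mono hs0 hs1 (f := f)
      (F := fun g => ∑ w, Pw η p g w ^ (1 + lateγ u₁ u)
        * ((∑ a, phi (lateγ u₁ u) (bias (hw η p g w) a)) +
          lateγ u₁ u * (1 + lateγ u₁ u) * Real.log (Pw η p g w))) (G := fun _ => 0)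
      (fun S y => late_term _ (lateγ_pos hu'.2) (lateγ_le_one hu'.2))
    rw [avg_const] at h5
    exact h5
  exact hanti ⟨hs, hst.trans ht⟩ ⟨hs.trans hst, ht⟩ hst

end Pool.Agent.SUB
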