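import Mathlib
import Pool.Agent.SUB.Late
import Pool.Agent.SUB.FinLow
import Pool.Agent.SUB.Init

/-!
SUBEXP module BAS: the basic bound (exponential in `d`), used for small `d`.

Let `V = variance f ≤ 1`, `z = V/(2d) ≤ 1/2`, `η = V/(64 d^3)`, `u₁ = log (2d)`, `p = 1`,
`γ₀ = lateγ u₁ 0 = 1/(4d-1)`, `M = maxDerivNorm f`. `final_lower`, `late` (from `0` to `u₁`),
`init_upper`: `V/4 ≤ (2d^2/η) (M^2/η^2)^γ₀`, so `M^2/η^2 ≥ (V η/(8 d^2))^(4d-1)`,
`M^2 ≥ η^2 (V^2/(512 d^5))^(4d-1)`. `d ≤ 1/(2z)`, hence `η = z/(32 d^2) ≥ z^3/8 ≥ z^6`,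
`V^2/(512 d^5) = z^2/(128 d^3) ≥ z^5/16 ≥ z^9`, so `M^2 ≥ z^(12 + 9(4d-1)) ≥ z^(52 d)`,
`M ≥ z^(26 d)`.
-/

set_option linter.dupNamespace false

namespace Pool.Agent.SUB

open Finset Pool.Agent.Helper11.Cube Pool.Agent.Helper11.AA

variable {n d : ℕ}

theorem basic_bound (hd : 1 ≤ d) {f : Cube n → ℝ} (hf : Bdd d f) (hV : 0 < variance f) :
    (variance f / (2 * d)) ^ (26 * (d : ℝ)) ≤ maxDerivNorm f := by
  have hd0 : (0 : ℝ) < d := by exact_mod_cast hd
  have hd1 : (1 : ℝ) ≤ d := by exact_mod_cast hd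
  have hV1 : variance f ≤ 1 := variance_le_one hf.2
  have h1 := final_lower (p := 1) hd le_rfl hf hV
  have hM0 : 0 ≤ maxDerivNorm f := maxDerivNorm_nonneg f
  have hη0 : 0 < variance f / (64 * (d : ℝ) ^ 3) := by positivity
  have hu0 : 0 ≤ Real.log (2 * (d : ℝ)) := Real.log_nonneg (by linarith)
  have h2 := late (p := 1) hη0 le_rfl f (u₁ := Real.log (2 * (d : ℝ))) (s := 0)
    (t := Real.log (2 * (d : ℝ))) le_rfl hu0 le_rfl
  rw [lateγ_self] at h2
  have hγ : lateγ (Real.log (2 * (d : ℝ))) 0 = 1 / (4 * (d : ℝ) - 1) := by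
    unfold lateγ
    have e : Real.exp (0 - Real.log (2 * (d : ℝ))) = 1 / (2 * d) := by
      rw [zero_sub, Real.exp_neg, Real.exp_log (by positivity), one_div]
    have h4 : (4 * (d : ℝ) - 1) ≠ 0 := by
      have : 0 < 4 * (d : ℝ) - 1 := by linarith
      exact this.ne'
    have e2 : 1 - 1 / (2 * (d : ℝ)) / 2 = (4 * (d : ℝ) - 1) / (4 * d) := by
      field_simp
      ring
    rw [e, e2]
    field_simp
    ring
  rw [hγ] at h2
  have hγ0 : 0 ≤ 1 / (4 * (d : ℝ) - 1) := by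
    apply div_nonneg zero_le_one
    linarith
  have h3 := init_upper (p := 1) hη0 le_rfl hf hγ0
  have h4 := h1.trans (h2.trans h3)
  clear h1 h2 h3
  generalize variance f = V at *
  generalize maxDerivNorm f = M at *
  set η : ℝ := V / (64 * (d : ℝ) ^ 3) with hη
  set X : ℝ := M ^ 2 / η ^ 2 with hX
  have hX0 : 0 ≤ X := by positivity
  set Y : ℝ := V * η / (8 * (d : ℝ) ^ 2) with hY
  have hY0 : 0 < Y := by positivity
  -- `Y ≤ X ^ γ₀`
  have h5 : Y ≤ X ^ (1 / (4 * (d : ℝ) - 1)) := by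
    have e : Y = V / 4 / (2 * (d : ℝ) ^ 2 / η) := by
      rw [hY]
      field_simp
      ring
    rw [e, div_le_iff₀ (by positivity), mul_comm]
    exact h4
  -- `Y ^ (4d - 1) ≤ X`
  have hc : ((4 * d - 1 : ℕ) : ℝ) = 4 * (d : ℝ) - 1 := by
    rw [Nat.cast_sub (by omega)]
    push_cast
    ring
  have h6 : Y ^ (4 * d - 1) ≤ X := by
    have h7 := pow_le_pow_left₀ hY0.le h5 (4 * d - 1)
    rw [← Real.rpow_natCast (X ^ (1 / (4 * (d : ℝ) - 1))), ← Real.rpow_mul hX0, hc,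
      one_div_mul_cancel (by linarith), Real.rpow_one] at h7
    exact h7
  have h7 : η ^ 2 * Y ^ (4 * d - 1) ≤ M ^ 2 := by
    have e : M ^ 2 = η ^ 2 * X := by
      rw [hX]
      field_simp
    rw [e]
    exact mul_le_mul_of_nonneg_left h6 (by positivity)
  -- in terms of `z`
  set z : ℝ := V / (2 * d) with hz
  have hz0 : 0 < z := by positivity
  have hVz : V = 2 * d * z := by
    rw [hz]
    field_simp
  have hz1 : z ≤ 1 / 2 := by
    rw [hz, div_le_iff₀ (by positivity)]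
    linarith
  have hzd : 2 * z ≤ 1 / d := by
    rw [le_div_iff₀ hd0]
    linarith
  have hη6 : z ^ 6 ≤ η := by
    have e : η = z / 32 * (1 / d) ^ 2 := by
      rw [hη, hVz]
      field_simp
      ring
    rw [e]
    have h8 : (2 * z) ^ 2 ≤ (1 / (d : ℝ)) ^ 2 := pow_le_pow_left₀ (by positivity) hzd 2
    calc z ^ 6 = z ^ 3 * z ^ 3 := by ring
      _ ≤ z ^ 3 * (1 / 2) ^ 3 := by
        apply mul_le_mul_of_nonneg_left (pow_le_pow_left₀ hz0.le hz1 3) (by positivity)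
      _ = z / 32 * (2 * z) ^ 2 := by ring
      _ ≤ z / 32 * (1 / d) ^ 2 := mul_le_mul_of_nonneg_left h8 (by positivity)
  have hY9 : z ^ 9 ≤ Y := by
    have e : Y = z ^ 2 / 128 * (1 / d) ^ 3 := by
      rw [hY, hη, hVz]
      field_simp
      ring
    rw [e]
    have h8 : (2 * z) ^ 3 ≤ (1 / (d : ℝ)) ^ 3 := pow_le_pow_left₀ (by positivity) hzd 3
    calc z ^ 9 = z ^ 5 * z ^ 4 := by ring
      _ ≤ z ^ 5 * (1 / 2) ^ 4 := by
        apply mul_le_mul_of_nonneg_left (pow_le_pow_left₀ hz0.le hz1 4) (by positivity)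
      _ = z ^ 2 / 128 * (2 * z) ^ 3 := by ring
      _ ≤ z ^ 2 / 128 * (1 / d) ^ 3 := mul_le_mul_of_nonneg_left h8 (by positivity)
  have h8 : (z ^ (26 * d)) ^ 2 ≤ M ^ 2 := by
    refine le_trans ?_ h7
    calc (z ^ (26 * d)) ^ 2 = z ^ (52 * d) := by
          rw [← pow_mul]
          congr 1
          ring
      _ ≤ z ^ (6 * 2 + 9 * (4 * d - 1)) :=
          pow_le_pow_of_le_one hz0.le (by linarith) (by omega)
      _ = (z ^ 6) ^ 2 * (z ^ 9) ^ (4 * d - 1) := by rw [pow_add, pow_mul, pow_mul]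
      _ ≤ η ^ 2 * Y ^ (4 * d - 1) := by
          apply mul_le_mul (pow_le_pow_left₀ (by positivity) hη6 2)
            (pow_le_pow_left₀ (by positivity) hY9 _) (by positivity) (by positivity)
  have h9 : z ^ (26 * d) ≤ M :=
    (pow_le_pow_iff_left₀ (by positivity) hM0 (by norm_num)).1 h8
  have e : (26 * (d : ℝ)) = ((26 * d : ℕ) : ℝ) := by push_cast; ring
  rw [e, Real.rpow_natCast]
  exact h9

end Pool.Agent.SUB
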