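import Mathlib
import Pool.Agent.SUB.Barrier
import Pool.Agent.SUB.Late

/-!
SUBEXP module PAR: the choice of the parameters.
-/

set_option linter.dupNamespace false

namespace Pool.Agent.SUB

open Finset Pool.Agent.Helper11.Cube Pool.Agent.Helper11.AA

lemma log_two_lo : 0.6931 ≤ Real.log 2 := by
  have := Real.log_two_gt_d9; linarith

lemma log_two_hi : Real.log 2 ≤ 0.6932 := by
  have := Real.log_two_lt_d9; linarith

lemma log_le_of_le_two_pow {x : ℝ} {k : ℕ} (hx : 0 < x) (h : x ≤ 2 ^ k) :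
    Real.log x ≤ k * Real.log 2 := by
  calc Real.log x ≤ Real.log (2 ^ k) := Real.log_le_log hx h
    _ = k * Real.log 2 := by rw [Real.log_pow]

/-- Growth of the thresholds. -/
lemma log_QQ_thr {d p : ℕ} (hd : 1 ≤ d) (hp : 1 ≤ p) {η₀ : ℝ} (hη : 0 < η₀) (hη1 : η₀ ≤ 1)
    (r : ℕ) :
    Real.log (QQ d p (thr d p η₀ r)) ≤ 2 ^ r *
      (2 * Real.log (100000 * (p : ℝ) * (d : ℝ) ^ 2) - Real.log η₀) := by
  have h2 : (1 : ℝ) ≤ d := by exact_mod_cast hd
  have h3 : (1 : ℝ) ≤ p := by exact_mod_cast hp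
  set A := 100000 * (p : ℝ) * (d : ℝ) ^ 2 with hA
  have hA1 : 1 ≤ A := by
    rw [hA]
    have h6 : (1 : ℝ) ≤ (d : ℝ) ^ 2 := by nlinarith
    nlinarith
  have hA0 : 0 < A := by linarith
  have hQ : ∀ r, QQ d p (thr d p η₀ r) = A / thr d p η₀ r := fun r => rfl
  have key : ∀ r, 2 * Real.log A - Real.log (thr d p η₀ r)
      ≤ 2 ^ r * (2 * Real.log A - Real.log η₀) := by
    intro r
    induction r with
    | zero => simp [thr]
    | succ r ih =>
      have hpos := thr_pos hd hp hη (r := r)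
      have h4 : Real.log (thr d p η₀ (r + 1)) ≥ 2 * Real.log (thr d p η₀ r) - 2 * Real.log A := by
        have h5 : thr d p η₀ (r + 1) = thr d p η₀ r ^ 2 / (3072000 * (p : ℝ) ^ 2 * (d : ℝ) ^ 2) := rfl
        rw [h5, Real.log_div (by positivity) (by positivity), Real.log_pow]
        have h6 : Real.log (3072000 * (p : ℝ) ^ 2 * (d : ℝ) ^ 2) ≤ 2 * Real.log A := by
          have h7 : 2 * Real.log A = Real.log (A ^ 2) := by rw [Real.log_pow]; norm_num
          rw [h7]
          apply Real.log_le_log (by positivity)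
          rw [hA]
          have h8 : (1 : ℝ) ≤ (d : ℝ) ^ 2 := by nlinarith
          have h9 : (0 : ℝ) < (p : ℝ) ^ 2 := by positivity
          have h10 : (d : ℝ) ^ 2 ≤ (d : ℝ) ^ 2 * (d : ℝ) ^ 2 := by nlinarith
          calc 3072000 * (p : ℝ) ^ 2 * (d : ℝ) ^ 2
              ≤ 10000000000 * (p : ℝ) ^ 2 * ((d : ℝ) ^ 2 * (d : ℝ) ^ 2) := by
                apply mul_le_mul _ h10 (by positivity) (by positivity)
                nlinarith
            _ = (100000 * (p : ℝ) * (d : ℝ) ^ 2) ^ 2 := by ring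
        push_cast
        linarith
      calc 2 * Real.log A - Real.log (thr d p η₀ (r + 1))
          ≤ 2 * (2 * Real.log A - Real.log (thr d p η₀ r)) := by linarith
        _ ≤ 2 * (2 ^ r * (2 * Real.log A - Real.log η₀)) := by linarith
        _ = 2 ^ (r + 1) * (2 * Real.log A - Real.log η₀) := by ring
  rw [hQ, Real.log_div hA0.ne' (thr_pos hd hp hη r).ne']
  have := key r
  have hlA := Real.log_nonneg hA1
  linarith

/-- The number of levels. -/
noncomputable def lev (D : ℝ) : ℕ := ⌈3 / 20000 * D⌉₊ + 14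

lemma two_pow_lev {D : ℝ} (hD : 0 ≤ D) : (2 : ℝ) ^ lev D ≤ 32768 * Real.exp (21 / 200000 * D) := by
  have h1 : ((lev D : ℕ) : ℝ) ≤ 3 / 20000 * D + 15 := by
    unfold lev
    push_cast
    have := Nat.ceil_lt_add_one (a := 3 / 20000 * D) (by positivity)
    linarith
  have h2 : (2 : ℝ) ^ lev D = Real.exp (lev D * Real.log 2) := by
    rw [mul_comm, Real.exp_mul, Real.exp_log (by norm_num), Real.rpow_natCast]
  have h3 : (32768 : ℝ) = Real.exp (15 * Real.log 2) := by
    have : (15 : ℝ) * Real.log 2 = Real.log (2 ^ 15) := by rw [Real.log_pow]; norm_num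
    rw [this, Real.exp_log (by norm_num)]; norm_num
  rw [h2, h3, ← Real.exp_add]
  apply Real.exp_le_exp.mpr
  have h4 := log_two_hi
  have h5 := log_two_lo
  have h6 : (lev D : ℝ) * Real.log 2 ≤ (3 / 20000 * D + 15) * Real.log 2 :=
    mul_le_mul_of_nonneg_right h1 (by linarith)
  have h7 : D * Real.log 2 ≤ D * 0.6932 := mul_le_mul_of_nonneg_left h4 hD
  nlinarith

lemma lev_ge {D : ℝ} : 3 / 20000 * D + 14 ≤ lev D := by
  unfold lev
  push_cast
  have := Nat.le_ceil (3 / 20000 * D)
  linarith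

/-- Bound of the logarithmic quantities: `p = ⌈16 d T⌉`, `T = 6·10^6 2^R ℓ`. -/
lemma log_p_le {d : ℕ} (hd : 1 ≤ d) {l T : ℝ} (hl : Real.log d ≤ l) (hl1 : 40 ≤ l)
    (hT : T = 6000000 * 2 ^ lev (Real.log d) * l) :
    Real.log ((⌈16 * (d : ℝ) * T⌉₊ : ℕ) : ℝ) ≤ 31 + Real.log 2 + Real.log d
      + 21 / 200000 * Real.log d + l / 10 + 2 := by
  have h2 : (1 : ℝ) ≤ d := by exact_mod_cast hd
  have hD : 0 ≤ Real.log d := Real.log_nonneg h2
  have hpow : (1 : ℝ) ≤ 2 ^ lev (Real.log d) := one_le_pow₀ (by norm_num)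
  have hT1 : 1 ≤ T := by rw [hT]; nlinarith
  have hdT : 1 ≤ (d : ℝ) * T := by nlinarith
  have h3 : ((⌈16 * (d : ℝ) * T⌉₊ : ℕ) : ℝ) ≤ 32 * (d * T) := by
    have := Nat.ceil_lt_add_one (a := 16 * (d : ℝ) * T) (by positivity)
    linarith
  have hpos : (0 : ℝ) < ((⌈16 * (d : ℝ) * T⌉₊ : ℕ) : ℝ) := by
    have := Nat.le_ceil (16 * (d : ℝ) * T)
    linarith
  have hlog := log_two_hi
  have hlog' := log_two_lo
  have hll : Real.log l ≤ l / 10 + 1.8 := by
    have h4 : Real.log l = Real.log (l / 10) + Real.log 10 := by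
      rw [← Real.log_mul (by positivity) (by norm_num)]; congr 1; ring
    have h5 := Real.log_le_sub_one_of_pos (show 0 < l / 10 by linarith)
    have h6 : Real.log 10 ≤ 4 * Real.log 2 := by
      have := log_le_of_le_two_pow (x := 10) (k := 4) (by norm_num) (by norm_num)
      exact_mod_cast this
    linarith
  have hTlog : Real.log T ≤ 23 * Real.log 2 + (15 * Real.log 2 + 21 / 200000 * Real.log d)
      + (l / 10 + 1.8) := by
    rw [hT, Real.log_mul (by positivity) (by positivity), Real.log_mul (by norm_num) (by positivity)]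
    have h6 : Real.log 6000000 ≤ 23 * Real.log 2 := by
      have := log_le_of_le_two_pow (x := 6000000) (k := 23) (by norm_num) (by norm_num)
      exact_mod_cast this
    have h7 : Real.log (2 ^ lev (Real.log d)) ≤ 15 * Real.log 2 + 21 / 200000 * Real.log d := by
      have h8 := Real.log_le_log (by positivity) (two_pow_lev hD)
      rw [Real.log_mul (by norm_num) (by positivity), Real.log_exp] at h8
      have h9 : Real.log 32768 = 15 * Real.log 2 := by
        rw [show (32768 : ℝ) = 2 ^ 15 by norm_num, Real.log_pow]; norm_num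
      linarith
    linarith
  calc Real.log ((⌈16 * (d : ℝ) * T⌉₊ : ℕ) : ℝ) ≤ Real.log (32 * (d * T)) :=
        Real.log_le_log hpos h3
    _ = 5 * Real.log 2 + (Real.log d + Real.log T) := by
        rw [Real.log_mul (by norm_num) (by positivity), Real.log_mul (by positivity) (by positivity),
          show (32 : ℝ) = 2 ^ 5 by norm_num, Real.log_pow]
        norm_num
    _ ≤ _ := by nlinarith

end Pool.Agent.SUB
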