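import Mathlib
import Pool.Agent.SUB.Param
import Pool.Agent.SUB.BasicBound

/-!
SUBEXP: the main theorem.
-/

set_option linter.dupNamespace false

namespace Pool.Agent.SUB

open Finset Pool.Agent.Helper11.Cube Pool.Agent.Helper11.AA

variable {n d : ℕ}

theorem main_large {f : Cube n → ℝ} (hf : Bdd d f) (hV : 0 < variance f)
    (hd80 : (2 : ℝ) ^ 80 ≤ d) :
    Real.exp (-(1200000000000 * Real.exp (49999 / 50000 * Real.log d)
      * Real.log (2 * d / variance f))) ≤ maxDerivNorm f := by
  by_contra hM
  push Not at hM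
  have hV1 : variance f ≤ 1 := variance_le_one hf.2
  set V := variance f with hVdef
  have hd2 : (2 : ℝ) ≤ d := le_trans (by norm_num) hd80
  have hd0 : (0 : ℝ) < d := by linarith
  have hd : 1 ≤ d := by
    have : (1 : ℝ) ≤ d := by linarith
    exact_mod_cast this
  have hlo := log_two_lo
  have hhi := log_two_hi
  set D := Real.log d with hD
  have hD55 : 55 ≤ D := by
    have h1 : Real.log (2 ^ 80) ≤ D := Real.log_le_log (by positivity) hd80
    rw [Real.log_pow] at h1
    push_cast at h1
    nlinarith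
  have hD80 : 80 * Real.log 2 ≤ D := by
    have h1 : Real.log (2 ^ 80) ≤ D := Real.log_le_log (by positivity) hd80
    rw [Real.log_pow] at h1
    exact_mod_cast h1
  set l := Real.log (2 * d / V) with hl
  have hl_eq : l = Real.log 2 + D - Real.log V := by
    rw [hl, Real.log_div (by positivity) hV.ne', Real.log_mul (by norm_num) hd0.ne']
  have hlogV : Real.log V ≤ 0 := Real.log_nonpos hV.le hV1
  have hDl : D ≤ l := by rw [hl_eq]; linarith
  have hl55 : 55 ≤ l := hD55.trans hDl
  set R := lev D with hR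
  have hR2 := two_pow_lev (D := D) (by linarith)
  rw [← hR] at hR2
  have hRge := lev_ge (D := D)
  rw [← hR] at hRge
  have hpow1 : (1 : ℝ) ≤ 2 ^ R := one_le_pow₀ (by norm_num)
  set T := 6000000 * 2 ^ R * l with hT
  have hTl : 6000000 * l ≤ T := by rw [hT]; nlinarith
  have hT0 : 0 < T := by linarith
  set p := ⌈16 * (d : ℝ) * T⌉₊ with hp_def
  have hp_ge : 16 * (d : ℝ) * T ≤ p := Nat.le_ceil _
  have hp1 : (1 : ℝ) ≤ p := by nlinarith
  have hp : 1 ≤ p := by exact_mod_cast hp1
  have hp0 : (0 : ℝ) < p := by linarith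
  have hlogp : Real.log p ≤ 31 + Real.log 2 + D + 21 / 200000 * D + l / 10 + 2 :=
    log_p_le hd hDl (by linarith) rfl
  set η₀ := V / (64 * (d : ℝ) ^ 3) with hη₀
  have hη : 0 < η₀ := by positivity
  have hη1 : η₀ ≤ 1 := by
    rw [hη₀, div_le_one (by positivity)]
    have : (1 : ℝ) ≤ (d : ℝ) ^ 3 := one_le_pow₀ (by linarith)
    linarith
  have hlogη : Real.log η₀ = Real.log V - (6 * Real.log 2 + 3 * D) := by
    rw [hη₀, Real.log_div hV.ne' (by positivity), Real.log_mul (by norm_num) (by positivity),
      Real.log_pow, show (64 : ℝ) = 2 ^ 6 by norm_num, Real.log_pow]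
    push_cast; ring
  -- bound for QQ
  have hA : 2 * Real.log (100000 * (p : ℝ) * (d : ℝ) ^ 2) - Real.log η₀ ≤ 20 * l := by
    have h1 : Real.log (100000 * (p : ℝ) * (d : ℝ) ^ 2) = Real.log 100000 + Real.log p + 2 * D := by
      rw [Real.log_mul (by positivity) (by positivity), Real.log_mul (by norm_num) hp0.ne',
        Real.log_pow]
      push_cast; ring
    have h2 : Real.log 100000 ≤ 17 * Real.log 2 := by
      have := log_le_of_le_two_pow (x := 100000) (k := 17) (by norm_num) (by norm_num)
      exact_mod_cast this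
    rw [h1, hlogη]
    nlinarith
  have hQQ : ∀ r, r ≤ R → Real.log (QQ d p (thr d p η₀ r)) ≤ 2 ^ r * (20 * l) := by
    intro r _
    refine (log_QQ_thr hd hp hη hη1 r).trans ?_
    exact mul_le_mul_of_nonneg_left hA (by positivity)
  have hQQT : ∀ r, r ≤ R → Real.log (QQ d p (thr d p η₀ r)) ≤ T / 300000 := by
    intro r hr
    refine (hQQ r hr).trans ?_
    have h1 : (2 : ℝ) ^ r ≤ 2 ^ R := pow_le_pow_right₀ (by norm_num) hr
    rw [hT]
    nlinarith
  have hthr_pos : ∀ r, 0 < thr d p η₀ r := fun r => thr_pos hd hp hη r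
  have hthr_le : ∀ r, thr d p η₀ r ≤ 1 := fun r => thr_le hd hp hη hη1 r
  have hQpos : ∀ r, 0 < QQ d p (thr d p η₀ r) := by
    intro r
    have := QQ_ge_p hd hp (hthr_pos r) (hthr_le r)
    linarith
  have hd1 : (1 : ℝ) ≤ (d : ℝ) ^ 2 := one_le_pow₀ (by linarith)
  have h2d : ∀ r, r ≤ R → 2 * (d : ℝ) ^ 2 / thr d p η₀ r ≤ Real.exp (T / 300000) := by
    intro r hr
    have h1 : 2 * (d : ℝ) ^ 2 / thr d p η₀ r ≤ QQ d p (thr d p η₀ r) := by
      unfold QQ
      apply div_le_div_of_nonneg_right _ (hthr_pos r).le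
      nlinarith
    refine h1.trans ?_
    rw [← Real.log_le_iff_le_exp (hQpos r)]
    exact hQQT r hr
  have hlogthr : ∀ r, r ≤ R → - Real.log (thr d p η₀ r) ≤ T / 300000 := by
    intro r hr
    refine le_trans ?_ (hQQT r hr)
    unfold QQ
    rw [Real.log_div (by positivity) (hthr_pos r).ne']
    have : 0 ≤ Real.log (100000 * (p : ℝ) * (d : ℝ) ^ 2) := by
      apply Real.log_nonneg
      nlinarith
    linarith
  -- the curve
  set U := D / 2 with hU
  have hU0 : 0 ≤ U := by rw [hU]; linarith
  set q := Real.exp U with hq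
  have hq0 : 0 < q := Real.exp_pos _
  have hqd : q * q = d := by
    rw [hq, ← Real.exp_add, hU, show D / 2 + D / 2 = D by ring, hD, Real.exp_log hd0]
  have hqbig : 1000000000 ≤ q := by
    by_contra h
    push Not at h
    have h1 : q * q < 1000000000 * 1000000000 := by nlinarith
    rw [hqd] at h1
    norm_num at hd80 h1
    linarith
  set g := lateγ (Real.log (2 * d)) U with hg_def
  have hg_eq : g = 1 / (4 * q - 1) := by
    rw [hg_def]
    unfold lateγ
    have h1 : Real.exp (U - Real.log (2 * d)) = 1 / (2 * q) := by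
      rw [Real.exp_sub, Real.exp_log (by positivity), ← hq, ← hqd]
      field_simp
    rw [h1]
    have h2 : (4 * q - 1) ≠ 0 := by nlinarith
    have h3 : (1 - 1 / (2 * q) / 2) ≠ 0 := by
      have : 1 / (2 * q) / 2 < 1 := by
        rw [div_div, div_lt_one (by positivity)]; nlinarith
      linarith
    rw [div_eq_div_iff h3 h2]
    field_simp
    ring
  have hq41 : 0 < 4 * q - 1 := by linarith
  have hg0 : 0 < g := by rw [hg_eq]; positivity
  have hg1 : g ≤ 1 / 400000 := by
    rw [hg_eq]
    apply one_div_le_one_div_of_le (by norm_num)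
    linarith
  have hglo : 1 / (4 * q) ≤ g := by
    rw [hg_eq]
    apply one_div_le_one_div_of_le hq41
    linarith
  have hghi : g ≤ 1 / (3 * q) := by
    rw [hg_eq]
    apply one_div_le_one_div_of_le (by positivity)
    linarith
  set γ0 := earlyγ g U 0 with hγ0_def
  have hγ0 : 0 < γ0 := earlyγ_pos hg0
  have hγ0_lo : Real.exp (-(7999 / 8000 * D)) / 4 ≤ γ0 := by
    rw [hγ0_def]
    unfold earlyγ
    have h1 : Real.exp (-(7999 / 8000 * D)) / 4
        = 1 / (4 * q) * Real.exp ((1 - 1 / 4000) * (0 - U)) := by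
      have h2 : Real.exp (-(7999 / 8000 * D)) = Real.exp (-U) * Real.exp ((1 - 1 / 4000) * (0 - U)) := by
        rw [← Real.exp_add]; congr 1; rw [hU]; ring
      rw [h2, Real.exp_neg, ← hq]
      field_simp
    rw [h1]
    exact mul_le_mul_of_nonneg_right hglo (Real.exp_pos _).le
  have hγ0_d : 1 / (4 * (d : ℝ)) ≤ γ0 := by
    refine le_trans ?_ hγ0_lo
    have h1 : (1 : ℝ) / (4 * d) = Real.exp (-D) / 4 := by
      rw [Real.exp_neg, hD, Real.exp_log hd0]; field_simp
    rw [h1]
    apply div_le_div_of_nonneg_right _ (by norm_num)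
    apply Real.exp_le_exp.mpr
    linarith
  have hγ0_1 : γ0 ≤ 1 := by
    have := earlyγ_le (t := 0) hg0 hU0
    linarith
  have hUl : U ≤ l := by rw [hU]; linarith
  -- apply the barrier
  have hbar := barrier (d := d) (p := p) hd hp hf (η₀ := η₀) (g := g) (U := U) (T := T)
    (B₀ := 20000 * l) R hη hη1 hg0 hg1 (by linarith) (by rw [hT]; ring) ?_ ?_ ?_ ?_ ?_ R le_rfl
    U ⟨hU0, le_rfl⟩
  rotate_left
  · -- hQ
    intro r hr
    have := hQQ r hr.le
    linarith
  · -- hs1
    have h1 : 60000 * l * q ≤ 20000 * l / g * 1 := by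
      rw [mul_one, le_div_iff₀ hg0]
      calc 60000 * l * q * g ≤ 60000 * l * q * (1 / (3 * q)) := by
            apply mul_le_mul_of_nonneg_left hghi (by positivity)
        _ = 20000 * l := by field_simp; norm_num
    have h2 : 300 * l * q ≤ 20000 * l / (200 * g) := by
      have h3 : 20000 * l / (200 * g) = (20000 * l / g * 1) / 200 := by
        field_simp
      rw [h3]
      linarith
    -- 2^R is small compared with q
    have h4 : 40000 * 2 ^ R ≤ q := by
      have h5 : q = Real.exp (21 / 200000 * D) * Real.exp ((1 / 2 - 21 / 200000) * D) := by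
        rw [← Real.exp_add, hq, hU]; congr 1; ring
      have h6 : (2 : ℝ) ^ 39 ≤ Real.exp ((1 / 2 - 21 / 200000) * D) := by
        have h7 : (2 : ℝ) ^ 39 = Real.exp (39 * Real.log 2) := by
          have : (39 : ℝ) * Real.log 2 = Real.log (2 ^ 39) := by rw [Real.log_pow]; norm_num
          rw [this, Real.exp_log (by positivity)]
        rw [h7]
        apply Real.exp_le_exp.mpr
        nlinarith
      rw [h5]
      calc 40000 * 2 ^ R ≤ 40000 * (32768 * Real.exp (21 / 200000 * D)) := by linarith
        _ = Real.exp (21 / 200000 * D) * (40000 * 32768) := by ring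
        _ ≤ Real.exp (21 / 200000 * D) * Real.exp ((1 / 2 - 21 / 200000) * D) := by
            apply mul_le_mul_of_nonneg_left _ (Real.exp_pos _).le
            refine le_trans ?_ h6
            norm_num
    have h8 : 2 * T ≤ 300 * l * q := by
      rw [hT]
      have := mul_le_mul_of_nonneg_left h4 (show 0 ≤ 300 * l by linarith)
      linarith
    have h9 : (p : ℝ) = Real.exp (Real.log p) := (Real.exp_log hp0).symm
    rw [h9, ← Real.exp_add, ← Real.exp_add]
    have h10 : (1 : ℝ) / 2 = Real.exp (-Real.log 2) := by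
      rw [Real.exp_neg, Real.exp_log (by norm_num)]; norm_num
    rw [h10]
    apply Real.exp_le_exp.mpr
    linarith
  · -- hs2
    intro r hr
    have h1 := h2d r hr.le
    have h2 : 2 * T ≤ γ0 * p / 2 := by
      have h3 : 1 / (4 * (d : ℝ)) * (16 * (d : ℝ) * T) ≤ γ0 * p :=
        mul_le_mul hγ0_d hp_ge (by positivity) hγ0.le
      have h4 : 1 / (4 * (d : ℝ)) * (16 * (d : ℝ) * T) = 4 * T := by field_simp; norm_num
      linarith
    calc Real.exp (U + T) * (2 * (d : ℝ) ^ 2 / thr d p η₀ r * Real.exp (-(γ0 * p / 2)))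
        ≤ Real.exp (U + T) * (Real.exp (T / 300000) * Real.exp (-(2 * T))) := by
          apply mul_le_mul_of_nonneg_left _ (Real.exp_pos _).le
          apply mul_le_mul h1 _ (Real.exp_pos _).le (Real.exp_pos _).le
          apply Real.exp_le_exp.mpr
          linarith
      _ = Real.exp (U + T + (T / 300000 + -(2 * T))) := by
          rw [← Real.exp_add, ← Real.exp_add]
      _ ≤ Real.exp (-Real.log 2) := by
          apply Real.exp_le_exp.mpr
          linarith
      _ = 1 / 2 := by rw [Real.exp_neg, Real.exp_log (by norm_num)]; norm_num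
  · -- htop
    have h1 := h2d R le_rfl
    calc Real.exp U * (2 * (d : ℝ) ^ 2 / thr d p η₀ R)
        ≤ Real.exp U * Real.exp (T / 300000) := mul_le_mul_of_nonneg_left h1 (Real.exp_pos _).le
      _ = Real.exp (U + T / 300000) := by rw [← Real.exp_add]
      _ ≤ Real.exp T := by
          apply Real.exp_le_exp.mpr
          linarith
  · -- hinit
    intro r hr
    refine (init_upper (hthr_pos r) hp hf hγ0.le).trans ?_
    set lam := 1200000000000 * Real.exp (49999 / 50000 * D) * l with hlam
    have hM0 : 0 ≤ maxDerivNorm f := maxDerivNorm_nonneg f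
    have h1 : maxDerivNorm f ^ 2 / thr d p η₀ r ^ 2
        ≤ Real.exp (-(2 * lam) - 2 * Real.log (thr d p η₀ r)) := by
      have h2 : maxDerivNorm f ^ 2 ≤ Real.exp (-(2 * lam)) := by
        have h3 : maxDerivNorm f ^ 2 ≤ Real.exp (-lam) ^ 2 := pow_le_pow_left₀ hM0 hM.le 2
        refine h3.trans (le_of_eq ?_)
        rw [← Real.exp_nat_mul]; congr 1; push_cast; ring
      have h4 : Real.exp (-(2 * lam) - 2 * Real.log (thr d p η₀ r))
          = Real.exp (-(2 * lam)) / thr d p η₀ r ^ 2 := by
        rw [Real.exp_sub]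
        congr 1
        have : 2 * Real.log (thr d p η₀ r) = Real.log (thr d p η₀ r ^ 2) := by
          rw [Real.log_pow]; norm_num
        rw [this, Real.exp_log (by have := hthr_pos r; positivity)]
      rw [h4]
      exact div_le_div_of_nonneg_right h2 (by positivity)
    have h5 : (maxDerivNorm f ^ 2 / thr d p η₀ r ^ 2) ^ γ0
        ≤ Real.exp ((-(2 * lam) - 2 * Real.log (thr d p η₀ r)) * γ0) := by
      rw [Real.exp_mul]
      exact Real.rpow_le_rpow (by positivity) h1 hγ0.le
    have h6 := h2d r hr.le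
    calc 2 * (d : ℝ) ^ 2 / thr d p η₀ r * (maxDerivNorm f ^ 2 / thr d p η₀ r ^ 2) ^ γ0
        ≤ Real.exp (T / 300000) * Real.exp ((-(2 * lam) - 2 * Real.log (thr d p η₀ r)) * γ0) := by
          apply mul_le_mul h6 h5 (by positivity) (Real.exp_pos _).le
      _ = Real.exp (T / 300000 + (-(2 * lam) - 2 * Real.log (thr d p η₀ r)) * γ0) := by
          rw [← Real.exp_add]
      _ ≤ Real.exp (-T) := by
          apply Real.exp_le_exp.mpr
          have h7 := hlogthr r hr.le
          have h8 : (-(2 * Real.log (thr d p η₀ r))) * γ0 ≤ 2 * (T / 300000) := by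
            have h9 : (-(2 * Real.log (thr d p η₀ r))) * γ0 ≤ (2 * (T / 300000)) * γ0 := by
              apply mul_le_mul_of_nonneg_right _ hγ0.le
              linarith
            have h10 : (2 * (T / 300000)) * γ0 ≤ (2 * (T / 300000)) * 1 :=
              mul_le_mul_of_nonneg_left hγ0_1 (by positivity)
            linarith
          have h11 : 3 * T ≤ 2 * lam * γ0 := by
            have h12 : 600000000000 * Real.exp (21 / 200000 * D) * l ≤ 2 * lam * γ0 := by
              calc 600000000000 * Real.exp (21 / 200000 * D) * l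
                  = 2 * lam * (Real.exp (-(7999 / 8000 * D)) / 4) := by
                    rw [hlam]
                    have : Real.exp (21 / 200000 * D) = Real.exp (49999 / 50000 * D)
                        * Real.exp (-(7999 / 8000 * D)) := by
                      rw [← Real.exp_add]; congr 1; ring
                    rw [this]; ring
                _ ≤ 2 * lam * γ0 := by
                    apply mul_le_mul_of_nonneg_left hγ0_lo
                    rw [hlam]; positivity
            have h13 : 3 * T ≤ 600000000000 * Real.exp (21 / 200000 * D) * l := by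
              rw [hT]
              have h14 : 3 * (6000000 * 2 ^ R) ≤ 600000000000 * Real.exp (21 / 200000 * D) := by
                have := Real.exp_pos (21 / 200000 * D)
                linarith
              have := mul_le_mul_of_nonneg_right h14 (show 0 ≤ l by linarith)
              linarith
            linarith
          have h15 : (-(2 * lam) - 2 * Real.log (thr d p η₀ r)) * γ0
              = -(2 * lam * γ0) + (-(2 * Real.log (thr d p η₀ r))) * γ0 := by ring
          rw [h15]
          linarith
  -- conclusion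
  simp only [Nat.sub_self] at hbar
  rw [earlyγ_self] at hbar
  have hthr0 : thr d p η₀ 0 = η₀ := rfl
  rw [hthr0] at hbar
  have hfin := final_lower hd hp hf hV
  rw [← hVdef, ← hη₀] at hfin
  have hu1 : U ≤ Real.log (2 * d) := by
    rw [Real.log_mul (by norm_num) hd0.ne', ← hD, hU]
    linarith
  have hlate := late (η := η₀) (p := p) hη hp f (u₁ := Real.log (2 * d)) (s := U)
    (t := Real.log (2 * d)) hU0 hu1 le_rfl
  rw [lateγ_self, ← hg_def] at hlate
  have h1 : V / 4 ≤ Real.exp (bar T R 0 U) := hfin.trans (hlate.trans hbar)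
  have h2 : bar T R 0 U ≤ -(T / 2) := by
    unfold bar
    have h3 : Real.exp (3 / 100000 * U - ((R : ℝ) - ((0 : ℕ) : ℝ)) / 10) ≤ 1 / 4 := by
      have h4 : (1 : ℝ) / 4 = Real.exp (-(2 * Real.log 2)) := by
        rw [Real.exp_neg, show (2 : ℝ) * Real.log 2 = Real.log (2 ^ 2) by rw [Real.log_pow]; norm_num,
          Real.exp_log (by norm_num)]
        norm_num
      rw [h4]
      apply Real.exp_le_exp.mpr
      push_cast
      rw [hU]
      linarith
    nlinarith
  have h5 : Real.exp (bar T R 0 U) ≤ Real.exp (-(T / 2)) := Real.exp_le_exp.mpr h2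
  have h6 : Real.exp (-(T / 2)) < V / 4 := by
    have h7 : V / 4 = Real.exp (Real.log (V / 4)) := (Real.exp_log (by positivity)).symm
    rw [h7]
    apply Real.exp_lt_exp.mpr
    rw [Real.log_div hV.ne' (by norm_num)]
    have h8 : Real.log 4 = 2 * Real.log 2 := by
      rw [show (4 : ℝ) = 2 ^ 2 by norm_num, Real.log_pow]; norm_num
    rw [h8]
    have h9 : -Real.log V ≤ l := by rw [hl_eq]; linarith
    linarith
  linarith

/-- **Sub-exponential Aaronson-Ambainis bound.** -/
theorem subexp (hd : 1 ≤ d) {f : Cube n → ℝ} (hf : Bdd d f) (hV : 0 < variance f) :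
    (variance f / (2 * d)) ^ (1200000000000 * (d : ℝ) ^ (49999 / 50000 : ℝ)) ≤ maxDerivNorm f := by
  have hd1 : (1 : ℝ) ≤ d := by exact_mod_cast hd
  have hd0 : (0 : ℝ) < d := by linarith
  have hV1 : variance f ≤ 1 := variance_le_one hf.2
  have hz : 0 < variance f / (2 * d) := by positivity
  by_cases h80 : (2 : ℝ) ^ 80 ≤ d
  · have h := main_large hf hV h80
    refine le_trans (le_of_eq ?_) h
    rw [Real.rpow_def_of_pos hz]
    congr 1
    have h1 : (d : ℝ) ^ (49999 / 50000 : ℝ) = Real.exp (49999 / 50000 * Real.log d) := by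
      rw [Real.rpow_def_of_pos hd0]; congr 1; ring
    have h2 : Real.log (variance f / (2 * d)) = - Real.log (2 * d / variance f) := by
      rw [← Real.log_inv, inv_div]
    rw [h1, h2]; ring
  · push Not at h80
    refine le_trans ?_ (basic_bound hd hf hV)
    apply Real.rpow_le_rpow_of_exponent_ge hz
    · rw [div_le_one (by positivity)]; linarith
    · -- 26 d ≤ C d^(1-c)
      have h1 : (d : ℝ) = (d : ℝ) ^ (49999 / 50000 : ℝ) * (d : ℝ) ^ (1 / 50000 : ℝ) := by
        rw [← Real.rpow_add hd0]; norm_num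
      have h2 : (d : ℝ) ^ (1 / 50000 : ℝ) ≤ 2 := by
        calc (d : ℝ) ^ (1 / 50000 : ℝ) ≤ ((2 : ℝ) ^ 80) ^ (1 / 50000 : ℝ) :=
              Real.rpow_le_rpow hd0.le h80.le (by norm_num)
          _ = (2 : ℝ) ^ (80 * (1 / 50000) : ℝ) := by
              rw [← Real.rpow_natCast, ← Real.rpow_mul (by norm_num)]; norm_num
          _ ≤ (2 : ℝ) ^ (1 : ℝ) := by
              apply Real.rpow_le_rpow_of_exponent_le (by norm_num); norm_num
          _ = 2 := by norm_num
      have h3 : 0 < (d : ℝ) ^ (49999 / 50000 : ℝ) := by positivity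
      calc 26 * (d : ℝ) = 26 * ((d : ℝ) ^ (49999 / 50000 : ℝ) * (d : ℝ) ^ (1 / 50000 : ℝ)) := by
            rw [← h1]
        _ ≤ 26 * ((d : ℝ) ^ (49999 / 50000 : ℝ) * 2) := by
            apply mul_le_mul_of_nonneg_left _ (by norm_num)
            exact mul_le_mul_of_nonneg_left h2 h3.le
        _ ≤ 1200000000000 * (d : ℝ) ^ (49999 / 50000 : ℝ) := by linarith

end Pool.Agent.SUB
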