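import Mathlib
import Pool.Agent.SUB.Hw
import Pool.Agent.SUB.KLReal
import Pool.Agent.SUB.Ent

/-!
QP module QKL.

* `sq_le_two_KL`: even in `b`; on `[0,1)` the function `KL b - b^2/2` vanishes at `0` and has
  derivative `(log (1+b) - log (1-b))/2 - b ≥ 0` (this vanishes at `0` and its derivative is
  `1/(1-b^2) - 1 ≥ 0`); at `b = 1`: `log 2 ≥ 1/2`.
* `card_bias_le`: `|C| β^2/2 ≤ ∑_{a ∈ C} (bias)^2/2 ≤ ∑_a KL (bias) ≤ -log (ex h)`
  (`sum_KL_le`, `KL_nonneg`, `abs_bias_le`).
* `Pw_anti`: `cut η p v` is antitone in `η` for `v ≥ 0`.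
-/

set_option linter.dupNamespace false

namespace Pool.Agent.SUB

open Finset Pool.Agent.Helper11.Cube Pool.Agent.Helper11.AA

variable {n : ℕ}

private lemma hasDeriv_KL {b : ℝ} (h0 : 0 ≤ b) (h1 : b < 1) :
    HasDerivAt KL ((Real.log (1 + b) - Real.log (1 - b)) / 2) b := by
  have hp : HasDerivAt (fun b : ℝ => 1 + b) 1 b := by
    simpa using (hasDerivAt_id b).const_add 1
  have hm : HasDerivAt (fun b : ℝ => 1 - b) (-1) b := by
    simpa using (hasDerivAt_id b).const_sub 1
  have hp0 : (1 + b) ≠ 0 := by linarith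
  have hm0 : (1 - b) ≠ 0 := by linarith
  have := ((hp.mul (hp.log hp0)).add (hm.mul (hm.log hm0))).div_const 2
  refine (this.congr_of_eventuallyEq ?_).congr_deriv ?_
  · exact Filter.Eventually.of_forall (fun x => by simp [KL])
  · field_simp
    ring

private lemma two_mul_le_log {b : ℝ} (h0 : 0 ≤ b) (h1 : b < 1) :
    2 * b ≤ Real.log (1 + b) - Real.log (1 - b) := by
  have hd : ∀ x : ℝ, 0 ≤ x → x < 1 →
      HasDerivAt (fun x : ℝ => Real.log (1 + x) - Real.log (1 - x) - 2 * x)
        ((1 + x)⁻¹ + (1 - x)⁻¹ - 2) x := by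
    intro x hx0 hx1
    have hp : HasDerivAt (fun b : ℝ => 1 + b) 1 x := by
      simpa using (hasDerivAt_id x).const_add 1
    have hm : HasDerivAt (fun b : ℝ => 1 - b) (-1) x := by
      simpa using (hasDerivAt_id x).const_sub 1
    have l1 := hp.log (by linarith)
    have l2 := hm.log (by linarith)
    have l3 : HasDerivAt (fun x : ℝ => 2 * x) 2 x := by
      simpa using (hasDerivAt_id x).const_mul 2
    refine ((l1.sub l2).sub l3).congr_deriv ?_
    ring
  have hmono : MonotoneOn (fun x : ℝ => Real.log (1 + x) - Real.log (1 - x) - 2 * x)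
      (Set.Ico 0 1) := by
    apply monotoneOn_of_deriv_nonneg (convex_Ico 0 1)
    · intro x hx
      exact (hd x hx.1 hx.2).continuousAt.continuousWithinAt
    · intro x hx
      rw [interior_Ico] at hx
      exact (hd x hx.1.le hx.2).differentiableAt.differentiableWithinAt
    · intro x hx
      rw [interior_Ico] at hx
      rw [(hd x hx.1.le hx.2).deriv]
      have hp0 : 0 < 1 + x := by linarith [hx.1]
      have hm0 : 0 < 1 - x := by linarith [hx.2]
      have : (1 + x)⁻¹ + (1 - x)⁻¹ = 2 / (1 - x ^ 2) := by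
        have : (1 - x ^ 2) = (1 + x) * (1 - x) := by ring
        rw [this]
        field_simp
        ring
      rw [this, sub_nonneg, le_div_iff₀ (by nlinarith)]
      nlinarith [sq_nonneg x]
  have h := hmono (Set.left_mem_Ico.mpr one_pos) ⟨h0, h1⟩ h0
  simp only [add_zero, sub_zero, Real.log_one, mul_zero] at h
  linarith

private lemma sq_le_two_KL_aux {b : ℝ} (h0 : 0 ≤ b) (h1 : b < 1) : b ^ 2 / 2 ≤ KL b := by
  have hd : ∀ x : ℝ, 0 ≤ x → x < 1 → HasDerivAt (fun x : ℝ => KL x - x ^ 2 / 2)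
      ((Real.log (1 + x) - Real.log (1 - x)) / 2 - x) x := by
    intro x hx0 hx1
    have l3 : HasDerivAt (fun x : ℝ => x ^ 2 / 2) x x := by
      have := (hasDerivAt_pow 2 x).div_const 2
      refine this.congr_deriv ?_
      simp
    exact (hasDeriv_KL hx0 hx1).sub l3
  have hmono : MonotoneOn (fun x : ℝ => KL x - x ^ 2 / 2) (Set.Ico 0 1) := by
    apply monotoneOn_of_deriv_nonneg (convex_Ico 0 1)
    · intro x hx
      exact (hd x hx.1 hx.2).continuousAt.continuousWithinAt
    · intro x hx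
      rw [interior_Ico] at hx
      exact (hd x hx.1.le hx.2).differentiableAt.differentiableWithinAt
    · intro x hx
      rw [interior_Ico] at hx
      rw [(hd x hx.1.le hx.2).deriv]
      have := two_mul_le_log hx.1.le hx.2
      linarith
  have h := hmono (Set.left_mem_Ico.mpr one_pos) ⟨h0, h1⟩ h0
  simp only [KL_zero] at h
  norm_num at h
  linarith

lemma sq_le_two_KL {b : ℝ} (hb : |b| ≤ 1) : b ^ 2 / 2 ≤ KL b := by
  have e : KL |b| = KL b := by
    rcases abs_cases b with h | h
    · rw [h.1]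
    · rw [h.1]
      simp only [KL, sub_neg_eq_add, ← sub_eq_add_neg]
      ring
  rw [← e, ← sq_abs]
  rcases hb.lt_or_eq with h | h
  · exact sq_le_two_KL_aux (abs_nonneg b) h
  · rw [h]
    have := Real.log_two_gt_d9
    simp only [KL]
    norm_num
    linarith

lemma card_bias_le {h : Cube n → ℝ} (h0 : ∀ x, 0 ≤ h x) (h1 : ∀ x, h x ≤ 1) (hP : 0 < ex h)
    {β : ℝ} (hβ : 0 < β) :
    ((univ.filter (fun a => β ≤ |bias h a|)).card : ℝ) ≤ 2 * (- Real.log (ex h)) / β ^ 2 := by
  have hk := sum_KL_le h0 h1 hP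
  have hb2 : 0 < β ^ 2 := by positivity
  rw [le_div_iff₀ hb2]
  have h3 : ∑ a ∈ univ.filter (fun a => β ≤ |bias h a|), β ^ 2 / 2 ≤ ∑ a, KL (bias h a) := by
    calc ∑ a ∈ univ.filter (fun a => β ≤ |bias h a|), β ^ 2 / 2
        ≤ ∑ a ∈ univ.filter (fun a => β ≤ |bias h a|), KL (bias h a) := by
          apply Finset.sum_le_sum
          intro a ha
          rw [Finset.mem_filter] at ha
          have h4 := sq_le_two_KL (abs_bias_le h0 a)
          have h5 : β ^ 2 ≤ bias h a ^ 2 := by
            rw [← sq_abs (bias h a)]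
            exact pow_le_pow_left₀ hβ.le ha.2 2
          linarith
      _ ≤ ∑ a, KL (bias h a) := by
          apply Finset.sum_le_sum_of_subset_of_nonneg (Finset.filter_subset _ _)
          intro a _ _
          exact KL_nonneg (abs_bias_le h0 a)
  rw [Finset.sum_const, nsmul_eq_mul] at h3
  linarith

lemma Pw_anti {η η' : ℝ} {p : ℕ} (hη : 0 < η') (h : η' ≤ η) (f : Cube n → ℝ) (w : Fin n) :
    Pw η p f w ≤ Pw η' p f w := by
  unfold Pw
  apply ex_mono
  intro x
  unfold hw cut
  refine min_le_min le_rfl (pow_le_pow_left₀ (le_max_left _ _) ?_ _)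
  refine max_le_max le_rfl ?_
  have : |discreteDeriv w f x| / η ≤ |discreteDeriv w f x| / η' :=
    div_le_div_of_nonneg_left (abs_nonneg _) hη h
  linarith

end Pool.Agent.SUB
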