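import Mathlib
import Pool.Agent.SUB.Drv
import Pool.Agent.SUB.Insens

/-!
QP module QINS: insensitivity with a linear dependence on the popularity `π`.

Let `Δ ω = |g (mix (C ω) (y ω) v) - g v| ∈ [0,2]`;
`mix (C ω) (y ω) v = flipOn (B ω) v`, `B ω = (C ω).filter (fun i => y ω i ≠ v i)`. For `j ≤ J` let
`E_j = {ω | (1/2)^j < Δ ω ≤ 2 (1/2)^j}`, `q_j = μ(E_j)`. Then
`∑ μ Δ ≤ ∑_{j ≤ J} 2 (1/2)^j q_j + (1/2)^J`, and the claim is `q_j ≤ 8 d^2 2^j K π`.
Suppose `q_j > 8 d^2 2^j K π`. Put `N = 4 d^2 2^j + 1 ≤ 8 d^2 2^j` (natural numbers, `d ≥ 1`). By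
induction on `i ≤ N` there is `s : Finset Ω` with `s.card = i`, `s ⊆ E_j`, `μ > 0` on `s` and `C`
pairwise disjoint on `s`: the mass of `{ω : C ω ∩ U ≠ ∅}`, `U = s.biUnion C`, is at most
`|U| π ≤ i K π ≤ N K π < q_j`, so some `ω ∈ E_j` with `μ ω > 0` and `C ω ∩ U = ∅` exists; `Δ ω > 0`
forces `C ω ≠ ∅`, so `ω ∉ s`. For `i = N`: `4 d^2 < N (1/2)^j ≤ ∑_{ω∈s} Δ ω ≤ 4 d^2` by
`abs_block`, a contradiction. (The file `Insens.lean` contains a similar greedy argument.)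
-/

set_option linter.dupNamespace false

namespace Pool.Agent.SUB

open Finset Pool.Agent.Helper11.Cube Pool.Agent.Helper11.AA

variable {n d : ℕ}

/-- The mass of the level set `{Δ > (1/2)^j}`. -/
lemma insens2_level {Ω : Type*} [Fintype Ω] [DecidableEq Ω] (μ : Ω → ℝ) (hμ : ∀ ω, 0 ≤ μ ω)
    (C : Ω → Finset (Fin n)) (y : Ω → Cube n) {K π : ℝ} (hK0 : 0 ≤ K)
    (hπ0 : 0 ≤ π) (hK : ∀ ω, 0 < μ ω → ((C ω).card : ℝ) ≤ K)
    (hπ : ∀ a, ∑ ω ∈ univ.filter (fun ω => a ∈ C ω), μ ω ≤ π) (j : ℕ) (hd : 1 ≤ d)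
    {g : Cube n → ℝ} (hg : Bdd d g) (v : Cube n) :
    ∑ ω ∈ univ.filter (fun ω => (1 / 2 : ℝ) ^ j < |g (mix (C ω) (y ω) v) - g v|), μ ω
      ≤ 8 * (d : ℝ) ^ 2 * 2 ^ j * K * π := by
  by_contra hcon
  push Not at hcon
  set Δ : Ω → ℝ := fun ω => |g (mix (C ω) (y ω) v) - g v| with hΔ
  set E : Finset Ω := univ.filter (fun ω => (1 / 2 : ℝ) ^ j < Δ ω) with hE
  have hcon' : 8 * (d : ℝ) ^ 2 * 2 ^ j * K * π < ∑ ω ∈ E, μ ω := hcon
  have hpow : (0 : ℝ) < (1 / 2 : ℝ) ^ j := by positivity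
  have hpow2 : (1 / 2 : ℝ) ^ j * 2 ^ j = 1 := by
    rw [← mul_pow]; norm_num
  have h2j : (1 : ℝ) ≤ 2 ^ j := one_le_pow₀ (by norm_num)
  have hdR : (1 : ℝ) ≤ (d : ℝ) ^ 2 := by
    have : (1 : ℝ) ≤ d := by exact_mod_cast hd
    nlinarith
  set N : ℕ := 4 * d ^ 2 * 2 ^ j + 1 with hN
  have hNR : (N : ℝ) = 4 * (d : ℝ) ^ 2 * 2 ^ j + 1 := by rw [hN]; push_cast; ring
  have hN2 : (N : ℝ) ≤ 8 * (d : ℝ) ^ 2 * 2 ^ j := by
    rw [hNR]
    have : (1 : ℝ) ≤ (d : ℝ) ^ 2 * 2 ^ j := by nlinarith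
    linarith
  have claim : ∀ i : ℕ, i ≤ N → ∃ s : Finset Ω, s.card = i ∧
      Set.PairwiseDisjoint (s : Set Ω) C ∧ ∀ ω ∈ s, 0 < μ ω ∧ (1 / 2 : ℝ) ^ j < Δ ω := by
    intro i
    induction i with
    | zero => intro _; exact ⟨∅, rfl, by simp, by simp⟩
    | succ i ih =>
      intro hi
      obtain ⟨s, hs, hdis, hω⟩ := ih (by omega)
      set U := s.biUnion C with hU
      have hUc : (U.card : ℝ) ≤ i * K := by
        have h1 : (U.card : ℝ) ≤ ∑ ω ∈ s, ((C ω).card : ℝ) := by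
          exact_mod_cast Finset.card_biUnion_le
        refine h1.trans ?_
        have h2 : ∑ ω ∈ s, ((C ω).card : ℝ) ≤ ∑ _ω ∈ s, K :=
          Finset.sum_le_sum (fun ω hw => hK ω (hω ω hw).1)
        rw [Finset.sum_const, hs, nsmul_eq_mul] at h2
        exact h2
      have hbad : ∑ ω ∈ univ.filter (fun ω => ¬ Disjoint (C ω) U), μ ω ≤ i * K * π := by
        have h1 : ∑ ω ∈ univ.filter (fun ω => ¬ Disjoint (C ω) U), μ ω
            ≤ ∑ a ∈ U, ∑ ω ∈ univ.filter (fun ω => a ∈ C ω), μ ω := by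
          have h2 : univ.filter (fun ω => ¬ Disjoint (C ω) U)
              ⊆ U.biUnion (fun a => univ.filter (fun ω => a ∈ C ω)) := by
            intro ω hw
            rw [Finset.mem_filter] at hw
            rw [Finset.not_disjoint_iff] at hw
            obtain ⟨-, a, ha, haU⟩ := hw
            rw [Finset.mem_biUnion]
            exact ⟨a, haU, by simp [ha]⟩
          refine (Finset.sum_le_sum_of_subset_of_nonneg h2 (fun ω _ _ => hμ ω)).trans ?_
          exact sum_biUnion_le_aux U _ μ hμ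
        refine h1.trans ?_
        refine (Finset.sum_le_sum (fun a _ => hπ a)).trans ?_
        rw [Finset.sum_const, nsmul_eq_mul]
        exact mul_le_mul_of_nonneg_right hUc hπ0
      have hiN : (i : ℝ) ≤ N := by exact_mod_cast (by omega : i ≤ N)
      have hbad2 : ∑ ω ∈ univ.filter (fun ω => ¬ Disjoint (C ω) U), μ ω < ∑ ω ∈ E, μ ω := by
        refine (hbad.trans ?_).trans_lt hcon'
        have h3 : (i : ℝ) * (K * π) ≤ 8 * (d : ℝ) ^ 2 * 2 ^ j * (K * π) :=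
          mul_le_mul_of_nonneg_right (hiN.trans hN2) (mul_nonneg hK0 hπ0)
        linarith
      obtain ⟨ω, hωE, hωμ, hdisU⟩ : ∃ ω ∈ E, 0 < μ ω ∧ Disjoint (C ω) U := by
        by_contra hno
        push Not at hno
        have h1 : ∑ ω ∈ E, μ ω ≤ ∑ ω ∈ univ.filter (fun ω => ¬ Disjoint (C ω) U), μ ω := by
          have h4 : ∑ ω ∈ E, μ ω = ∑ ω ∈ E.filter (fun ω => ¬ Disjoint (C ω) U), μ ω := by
            symm
            apply Finset.sum_filter_of_ne
            intro ω hw hne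
            exact hno ω hw (lt_of_le_of_ne (hμ ω) (Ne.symm hne))
          rw [h4]
          apply Finset.sum_le_sum_of_subset_of_nonneg _ (fun ω _ _ => hμ ω)
          intro ω hw
          rw [Finset.mem_filter] at hw ⊢
          exact ⟨Finset.mem_univ _, hw.2⟩
        linarith
      have hωΔ : (1 / 2 : ℝ) ^ j < Δ ω := (Finset.mem_filter.mp hωE).2
      have hCne : C ω ≠ ∅ := by
        intro h0
        have : mix (C ω) (y ω) v = v := by
          funext i; unfold mix; simp [h0]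
        have h1 : Δ ω = 0 := by simp [hΔ, this]
        rw [h1] at hωΔ
        linarith
      have hωs : ω ∉ s := by
        intro hmem
        have hsub : C ω ⊆ U := Finset.subset_biUnion_of_mem C hmem
        have : C ω = ∅ := by
          have := hdisU.mono_right hsub
          rwa [disjoint_self] at this
        exact hCne this
      refine ⟨insert ω s, ?_, ?_, ?_⟩
      · rw [Finset.card_insert_of_notMem hωs, hs]
      · rw [Finset.coe_insert]
        apply Set.PairwiseDisjoint.insert hdis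
        intro b hb _
        exact hdisU.mono_right (Finset.subset_biUnion_of_mem C (by exact_mod_cast hb))
      · intro b hb
        rcases Finset.mem_insert.mp hb with rfl | hb
        · exact ⟨hωμ, hωΔ⟩
        · exact hω b hb
  obtain ⟨s, hs, hdis, hω⟩ := claim N le_rfl
  have hB : Set.PairwiseDisjoint (s : Set Ω) (fun ω => (C ω).filter (fun i => y ω i ≠ v i)) := by
    intro a ha b hb hab
    exact (hdis ha hb hab).mono (Finset.filter_subset _ _) (Finset.filter_subset _ _)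
  have hblk := abs_block hg s (fun ω => (C ω).filter (fun i => y ω i ≠ v i)) hB v
  have hlow : (N : ℝ) * (1 / 2 : ℝ) ^ j ≤
      ∑ i ∈ s, |g v - g (flipOn ((C i).filter (fun j => y i j ≠ v j)) v)| := by
    have h1 : ∑ _i ∈ s, (1 / 2 : ℝ) ^ j ≤
        ∑ i ∈ s, |g v - g (flipOn ((C i).filter (fun j => y i j ≠ v j)) v)| := by
      apply Finset.sum_le_sum
      intro ω hw
      rw [← mix_eq_flipOn, abs_sub_comm]
      exact (hω ω hw).2.le
    rw [Finset.sum_const, hs, nsmul_eq_mul] at h1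
    exact h1
  have h8 : (N : ℝ) * (1 / 2 : ℝ) ^ j = 4 * (d : ℝ) ^ 2 + (1 / 2 : ℝ) ^ j := by
    rw [hNR]
    have : (4 * (d : ℝ) ^ 2 * 2 ^ j + 1) * (1 / 2 : ℝ) ^ j
        = 4 * (d : ℝ) ^ 2 * ((1 / 2 : ℝ) ^ j * 2 ^ j) + (1 / 2 : ℝ) ^ j := by ring
    rw [this, hpow2]; ring
  linarith

theorem insens2 {Ω : Type*} [Fintype Ω] [DecidableEq Ω] (μ : Ω → ℝ) (hμ : ∀ ω, 0 ≤ μ ω)
    (hμ1 : ∑ ω, μ ω = 1) (C : Ω → Finset (Fin n)) (y : Ω → Cube n) {K π : ℝ} (hK0 : 0 ≤ K)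
    (hπ0 : 0 ≤ π) (hK : ∀ ω, 0 < μ ω → ((C ω).card : ℝ) ≤ K)
    (hπ : ∀ a, ∑ ω ∈ univ.filter (fun ω => a ∈ C ω), μ ω ≤ π) (J : ℕ) (hd : 1 ≤ d)
    {g : Cube n → ℝ} (hg : Bdd d g) (v : Cube n) :
    ∑ ω, μ ω * |g (mix (C ω) (y ω) v) - g v|
      ≤ 16 * ((J : ℝ) + 1) * (d : ℝ) ^ 2 * K * π + (1 / 2) ^ J := by
  have hΔ2 : ∀ ω, |g (mix (C ω) (y ω) v) - g v| ≤ 2 := by
    intro ω
    have h1 := hg.2 (mix (C ω) (y ω) v)
    have h2 := hg.2 v
    rw [abs_le] at h1 h2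
    rw [abs_le]
    constructor <;> linarith [h1.1, h1.2, h2.1, h2.2]
  -- pointwise dyadic bound
  have hpt : ∀ x : ℝ, x ≤ 2 → ∀ J : ℕ, x ≤ (1 / 2 : ℝ) ^ J +
      ∑ j ∈ Finset.range (J + 1), (if (1 / 2 : ℝ) ^ j < x then 2 * (1 / 2 : ℝ) ^ j else 0) := by
    intro x hx J
    induction J with
    | zero =>
      simp only [pow_zero, zero_add, Finset.range_one, Finset.sum_singleton]
      split_ifs with h
      · linarith
      · linarith
    | succ J ih =>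
      have hnn : 0 ≤ ∑ j ∈ Finset.range (J + 1),
          (if (1 / 2 : ℝ) ^ j < x then 2 * (1 / 2 : ℝ) ^ j else 0) := by
        apply Finset.sum_nonneg
        intro j _
        split_ifs <;> positivity
      have hp : (0 : ℝ) < (1 / 2 : ℝ) ^ (J + 1) := by positivity
      rw [Finset.sum_range_succ]
      split_ifs with h
      · have : (2 : ℝ) * (1 / 2 : ℝ) ^ (J + 1) = (1 / 2 : ℝ) ^ J := by rw [pow_succ]; ring
        linarith
      · linarith
  have hstep : ∀ ω, μ ω * |g (mix (C ω) (y ω) v) - g v| ≤ μ ω * (1 / 2 : ℝ) ^ J +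
      ∑ j ∈ Finset.range (J + 1), (2 * (1 / 2 : ℝ) ^ j) *
        (if (1 / 2 : ℝ) ^ j < |g (mix (C ω) (y ω) v) - g v| then μ ω else 0) := by
    intro ω
    have h1 := mul_le_mul_of_nonneg_left (hpt _ (hΔ2 ω) J) (hμ ω)
    rw [mul_add, Finset.mul_sum] at h1
    refine h1.trans (le_of_eq ?_)
    congr 1
    apply Finset.sum_congr rfl
    intro j _
    split_ifs <;> ring
  refine (Finset.sum_le_sum (fun ω _ => hstep ω)).trans ?_
  rw [Finset.sum_add_distrib, ← Finset.sum_mul, hμ1, one_mul, Finset.sum_comm]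
  have hlev : ∀ j ∈ Finset.range (J + 1), ∑ ω, (2 * (1 / 2 : ℝ) ^ j) *
        (if (1 / 2 : ℝ) ^ j < |g (mix (C ω) (y ω) v) - g v| then μ ω else 0)
      ≤ 16 * (d : ℝ) ^ 2 * K * π := by
    intro j _
    rw [← Finset.mul_sum, ← Finset.sum_filter]
    have h := insens2_level μ hμ C y hK0 hπ0 hK hπ j hd hg v
    have hp : (0 : ℝ) ≤ 2 * (1 / 2 : ℝ) ^ j := by positivity
    have hpow2 : (1 / 2 : ℝ) ^ j * 2 ^ j = 1 := by
      rw [← mul_pow]; norm_num
    refine (mul_le_mul_of_nonneg_left h hp).trans (le_of_eq ?_)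
    calc 2 * (1 / 2 : ℝ) ^ j * (8 * (d : ℝ) ^ 2 * 2 ^ j * K * π)
        = 16 * (d : ℝ) ^ 2 * ((1 / 2 : ℝ) ^ j * 2 ^ j) * K * π := by ring
      _ = 16 * (d : ℝ) ^ 2 * K * π := by rw [hpow2]; ring
  have hsum := Finset.sum_le_sum hlev
  rw [Finset.sum_const, Finset.card_range, nsmul_eq_mul] at hsum
  push_cast at hsum
  have : ((J : ℝ) + 1) * (16 * (d : ℝ) ^ 2 * K * π) = 16 * ((J : ℝ) + 1) * (d : ℝ) ^ 2 * K * π := by
    ring
  linarith

end Pool.Agent.SUB
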