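import Mathlib
import Pool.Agent.SUB.PlantDefs
import Pool.Agent.SUB.Plant1
import Pool.Agent.SUB.QIns

/-!
QP module QDEF: hypotheses of the improved planting lemma.

* `EW_insens2`: apply `insens2` to `Ω = Fin n × Cube n`,
  `μ (w,x) = if w ∈ W then hw η p f w x / (2^n m) else 0`, `C (w,x) = C w`, `y (w,x) = x` (exactly
  as `EW_insens` in `PlantDefs.lean`).
* `QH.meet`: union bound, as `EW_meet`.
-/

set_option linter.dupNamespace false

namespace Pool.Agent.SUB

open Finset Pool.Agent.Helper11.Cube Pool.Agent.Helper11.AA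

variable {n d p : ℕ} {η : ℝ} {f : Cube n → ℝ} {W : Finset (Fin n)} {C : Fin n → Finset (Fin n)}
  {K π ξ : ℝ}

/-- Hypotheses of the improved planting lemma. -/
structure QH (d p : ℕ) (η : ℝ) (f : Cube n → ℝ) (W : Finset (Fin n))
    (C : Fin n → Finset (Fin n)) (K π ξ : ℝ) : Prop where
  hd : 1 ≤ d
  hp : 1 ≤ p
  hη : 0 < η
  hf : Bdd d f
  hm : 0 < ∑ w ∈ W, Pw η p f w
  hK0 : 0 ≤ K
  hπ0 : 0 ≤ π
  hK : ∀ w ∈ W, ((C w).card : ℝ) ≤ K
  hπ : ∀ a, ∑ w ∈ W.filter (fun w => a ∈ C w), Pw η p f w ≤ π * ∑ w ∈ W, Pw η p f w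
  hξ0 : 0 ≤ ξ
  hins : ∀ g : Cube n → ℝ, Bdd d g → ∀ v : Cube n,
    EW η p f W (fun w x => |g (mix (C w) x v) - g v|) ≤ ξ

lemma EW_insens2 (hd : 1 ≤ d) (hm : 0 < ∑ w ∈ W, Pw η p f w) (hK0 : 0 ≤ K) (hπ0 : 0 ≤ π)
    (hK : ∀ w ∈ W, ((C w).card : ℝ) ≤ K)
    (hπ : ∀ a, ∑ w ∈ W.filter (fun w => a ∈ C w), Pw η p f w ≤ π * ∑ w ∈ W, Pw η p f w)
    (J : ℕ) {g : Cube n → ℝ} (hg : Bdd d g) (v : Cube n) :
    EW η p f W (fun w x => |g (mix (C w) x v) - g v|)
      ≤ 16 * ((J : ℝ) + 1) * (d : ℝ) ^ 2 * K * π + (1 / 2) ^ J := by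
  classical
  have hsum : ∀ F : Fin n × Cube n → ℝ,
      ∑ z, (if z.1 ∈ W then PLDq η p f W z else 0) * F z =
        ∑ z ∈ W ×ˢ (univ : Finset (Cube n)), PLDq η p f W z * F z := by
    intro F
    have h1 : W ×ˢ (univ : Finset (Cube n)) = univ.filter fun z : Fin n × Cube n => z.1 ∈ W := by
      ext z
      simp
    rw [h1, Finset.sum_filter]
    refine Finset.sum_congr rfl fun z _ => ?_
    split_ifs <;> simp
  have hI := insens2 (Ω := Fin n × Cube n) (fun z => if z.1 ∈ W then PLDq η p f W z else 0)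
    (fun z => by
      split_ifs
      · exact PLDq_nonneg z
      · exact le_refl _)
    (by
      have h1 := hsum fun _ => 1
      simp only [mul_one] at h1
      rw [h1, PLD_tot hm])
    (fun z => C z.1) (fun z => z.2) hK0 hπ0
    (fun z hz => by
      by_cases hzW : z.1 ∈ W
      · exact hK _ hzW
      · rw [if_neg hzW] at hz
        exact absurd hz (lt_irrefl _))
    (fun a => by
      have h1 := hsum fun z => if a ∈ C z.1 then 1 else 0
      rw [Finset.sum_filter]
      have h2 : ∑ z : Fin n × Cube n, (if a ∈ C z.1 then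
          (if z.1 ∈ W then PLDq η p f W z else 0) else 0) =
          ∑ z, (if z.1 ∈ W then PLDq η p f W z else 0) * (if a ∈ C z.1 then 1 else 0) := by
        refine Finset.sum_congr rfl fun z _ => ?_
        split_ifs <;> simp
      rw [h2, h1, Finset.sum_product]
      have h3 : ∀ w ∈ W, ∑ x, PLDq η p f W (w, x) * (if a ∈ C w then (1 : ℝ) else 0) =
          (if a ∈ C w then Pw η p f w else 0) / ∑ w ∈ W, Pw η p f w := by
        intro w _
        rw [← Finset.sum_mul, PLD_row]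
        split_ifs <;> simp
      rw [Finset.sum_congr rfl h3, ← Finset.sum_div, ← Finset.sum_filter, div_le_iff₀ hm]
      exact hπ a)
    J hd hg v
  rw [PLD_eq, ← hsum fun z => |g (mix (C z.1) z.2 v) - g v|]
  exact hI

lemma QH.meet (h : QH d p η f W C K π ξ) (U : Finset (Fin n)) :
    EW η p f W (fun w _ => if Disjoint (C w) U then 0 else 1) ≤ (U.card : ℝ) * π := by
  classical
  have h1 : EW η p f W (fun w _ => if Disjoint (C w) U then 0 else 1) ≤
      EW η p f W (fun w _ => ∑ a ∈ U, if a ∈ C w then (1 : ℝ) else 0) := by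
    refine EW_mono h.hm fun w _ x => ?_
    by_cases hd : Disjoint (C w) U
    · rw [if_pos hd]
      exact Finset.sum_nonneg fun a _ => by split_ifs <;> norm_num
    · rw [if_neg hd]
      obtain ⟨a, ha, haU⟩ := Finset.not_disjoint_iff.1 hd
      have h2 := Finset.single_le_sum (f := fun a => if a ∈ C w then (1 : ℝ) else 0)
        (fun a _ => by split_ifs <;> norm_num) haU
      simp only [if_pos ha] at h2
      exact h2
  refine h1.trans ?_
  rw [EW_sum U (fun a w _ => if a ∈ C w then (1 : ℝ) else 0)]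
  have h2 : ∀ a ∈ U, EW η p f W (fun w _ => if a ∈ C w then (1 : ℝ) else 0) ≤ π := by
    intro a _
    unfold EW
    rw [div_le_iff₀ h.hm]
    refine le_trans (le_of_eq ?_) (h.hπ a)
    rw [Finset.sum_filter]
    refine Finset.sum_congr rfl fun w _ => ?_
    by_cases haw : a ∈ C w
    · simp only [if_pos haw, mul_one]
      rfl
    · simp only [if_neg haw, mul_zero]
      rw [ex_const]
  have h3 := Finset.sum_le_sum h2
  rwa [Finset.sum_const, nsmul_eq_mul] at h3

end Pool.Agent.SUB
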