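import Mathlib
import Pool.Agent.SUB.QDefs

/-!
QP module QSH: one planting step increases `H v = ∑_w hw w v` on average by almost `RW v`.

As in `Plant2.lean`: pointwise in `(w,x)`, with `v' = mix (C w) x v`, `B = {w' | η < |D_{w'} f v|}`:
`H v' ≥ hw w v' + H v - hw w v - ∑_{w' ∈ B} (hw w' v - hw w' v')^+`
(for `w' ∉ B`, `hw w' v = 0 ≤ hw w' v'`). By `cut_diff` (if `|D_{w'} f v'| ≤ |D_{w'} f v|`;
otherwise the positive part is `0` by `cut_mono`)
`(hw w' v - hw w' v')^+ ≤ (4p/η) |D_{w'} f v - D_{w'} f v'| (hw w' v + (1/4)^p)`, so its `EW` is at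
most `(4p/η) ξ (hw w' v + 1)` (`hins` for `D_{w'} f`, `bdd_deriv`), and the sum over `w' ∈ B` is at
most `(4p/η) ξ (2 * 2d^2/η) = 16 p d^2/η^2 * ξ` (`sum_hw_le`, `card_big`). Finally
`EW (hw w v) = ∑_{w∈W} Pw w * hw w v / m ≤ Pm (2d^2/η)/m`.
-/

set_option linter.dupNamespace false

namespace Pool.Agent.SUB

open Finset Pool.Agent.Helper11.Cube Pool.Agent.Helper11.AA

variable {n d p : ℕ} {η : ℝ} {f : Cube n → ℝ} {W : Finset (Fin n)} {C : Fin n → Finset (Fin n)}
  {K π ξ : ℝ}

private lemma qstep_point (hη : 0 < η) (hp : 1 ≤ p) (v v' : Cube n) (w : Fin n) :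
    (∑ w', hw η p f w' v) + hw η p f w v' - hw η p f w v
        - ∑ w' ∈ univ.filter (fun w' => η < |discreteDeriv w' f v|),
            (4 * p / η * (hw η p f w' v + 1)) * |discreteDeriv w' f v' - discreteDeriv w' f v|
      ≤ ∑ w', hw η p f w' v' := by
  have key : ∀ w' : Fin n, (if w' = w then hw η p f w v' - hw η p f w v else 0)
      - (if η < |discreteDeriv w' f v| then
          (4 * p / η * (hw η p f w' v + 1)) * |discreteDeriv w' f v' - discreteDeriv w' f v|
          else 0)
      ≤ hw η p f w' v' - hw η p f w' v := by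
    intro w'
    have hw0 := hw_nonneg (η := η) (p := p) f w' v
    have hnn : 0 ≤ (4 * p / η * (hw η p f w' v + 1))
        * |discreteDeriv w' f v' - discreteDeriv w' f v| := by positivity
    have hlip : hw η p f w' v - hw η p f w' v'
        ≤ (4 * p / η * (hw η p f w' v + 1)) * |discreteDeriv w' f v' - discreteDeriv w' f v| := by
      rcases le_total (|discreteDeriv w' f v'|) (|discreteDeriv w' f v|) with hle | hle
      · have h1 := cut_diff (p := p) hη hp hle
        have h2 : |discreteDeriv w' f v| - |discreteDeriv w' f v'|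
            ≤ |discreteDeriv w' f v' - discreteDeriv w' f v| := by
          rw [abs_sub_comm (discreteDeriv w' f v')]
          exact abs_sub_abs_le_abs_sub _ _
        have hq : (1 / 4 : ℝ) ^ p ≤ 1 := pow_le_one₀ (by norm_num) (by norm_num)
        have h3 : (0 : ℝ) ≤ 4 * p / η := by positivity
        unfold hw at hw0 ⊢
        calc _ ≤ 4 * p / η * (|discreteDeriv w' f v| - |discreteDeriv w' f v'|)
              * (cut η p |discreteDeriv w' f v| + (1 / 4) ^ p) := h1
          _ ≤ 4 * p / η * |discreteDeriv w' f v' - discreteDeriv w' f v|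
              * (cut η p |discreteDeriv w' f v| + 1) := by
              apply mul_le_mul
              · exact mul_le_mul_of_nonneg_left h2 h3
              · linarith
              · positivity
              · positivity
          _ = _ := by ring
      · have h1 : hw η p f w' v ≤ hw η p f w' v' := by
          unfold hw
          exact cut_mono hη hle
        linarith
    by_cases h1 : w' = w
    · subst h1
      rw [if_pos rfl]
      split_ifs with h2
      · linarith
      · linarith
    · rw [if_neg h1]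
      split_ifs with h2
      · linarith
      · have h3 : hw η p f w' v = 0 := hw_eq_zero hη hp (not_lt.1 h2)
        have h4 := hw_nonneg (η := η) (p := p) f w' v'
        linarith
  have hs := Finset.sum_le_sum (fun w' (_ : w' ∈ (univ : Finset (Fin n))) => key w')
  rw [Finset.sum_sub_distrib, Finset.sum_sub_distrib, Finset.sum_ite_eq' univ w
    (fun _ => hw η p f w v' - hw η p f w v), if_pos (mem_univ w), ← Finset.sum_filter] at hs
  linarith

theorem qstep_H (h : QH d p η f W C K π ξ) {Pm : ℝ} (hPm : ∀ w ∈ W, Pw η p f w ≤ Pm)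
    (v : Cube n) :
    (∑ w, hw η p f w v) + RW η p f W C v
        - (16 * p * (d : ℝ) ^ 2 / η ^ 2 * ξ
          + 2 * (d : ℝ) ^ 2 / η * Pm / ∑ w ∈ W, Pw η p f w)
      ≤ EW η p f W (fun w x => ∑ w', hw η p f w' (mix (C w) x v)) := by
  have hη := h.hη
  have hp := h.hp
  have hm := h.hm
  have hξ0 := h.hξ0
  set B : Finset (Fin n) := univ.filter (fun w' => η < |discreteDeriv w' f v|) with hB
  have hmono := EW_mono (η := η) (p := p) (f := f) (W := W) hm
    (G := fun w x => (∑ w', hw η p f w' v) + hw η p f w (mix (C w) x v) - hw η p f w v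
        - ∑ w' ∈ B, (4 * p / η * (hw η p f w' v + 1))
            * |discreteDeriv w' f (mix (C w) x v) - discreteDeriv w' f v|)
    (G' := fun w x => ∑ w', hw η p f w' (mix (C w) x v))
    (fun w _ x => qstep_point hη hp v (mix (C w) x v) w)
  refine le_trans ?_ hmono
  rw [EW_sub (fun w x => (∑ w', hw η p f w' v) + hw η p f w (mix (C w) x v) - hw η p f w v)
    (fun w x => ∑ w' ∈ B, (4 * p / η * (hw η p f w' v + 1))
      * |discreteDeriv w' f (mix (C w) x v) - discreteDeriv w' f v|),
    EW_sub (fun w x => (∑ w', hw η p f w' v) + hw η p f w (mix (C w) x v))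
      (fun w _ => hw η p f w v),
    EW_add (fun _ _ => ∑ w', hw η p f w' v) (fun w x => hw η p f w (mix (C w) x v)),
    EW_const hm, EW_sum B (fun w' w x => (4 * p / η * (hw η p f w' v + 1))
      * |discreteDeriv w' f (mix (C w) x v) - discreteDeriv w' f v|)]
  have e1 : EW η p f W (fun w x => hw η p f w (mix (C w) x v)) = RW η p f W C v := rfl
  have e2 : ∑ w' ∈ B, EW η p f W (fun w x => (4 * p / η * (hw η p f w' v + 1))
      * |discreteDeriv w' f (mix (C w) x v) - discreteDeriv w' f v|)
      ≤ 16 * p * (d : ℝ) ^ 2 / η ^ 2 * ξ := by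
    have h1 : ∀ w' ∈ B, EW η p f W (fun w x => (4 * p / η * (hw η p f w' v + 1))
        * |discreteDeriv w' f (mix (C w) x v) - discreteDeriv w' f v|)
        ≤ 4 * p / η * ξ * hw η p f w' v + 4 * p / η * ξ := by
      intro w' _
      rw [EW_const_mul (4 * p / η * (hw η p f w' v + 1)) (fun w x =>
        |discreteDeriv w' f (mix (C w) x v) - discreteDeriv w' f v|)]
      have hw0 := hw_nonneg (η := η) (p := p) f w' v
      calc _ ≤ (4 * p / η * (hw η p f w' v + 1)) * ξ :=
            mul_le_mul_of_nonneg_left (h.hins _ (bdd_deriv h.hf w') v) (by positivity)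
        _ = _ := by ring
    refine (Finset.sum_le_sum h1).trans ?_
    rw [Finset.sum_add_distrib, ← Finset.mul_sum, Finset.sum_const, nsmul_eq_mul]
    have h3 : 0 ≤ 4 * p / η * ξ := mul_nonneg (by positivity) hξ0
    have h4 : ∑ w' ∈ B, hw η p f w' v ≤ 2 * (d : ℝ) ^ 2 / η :=
      (Finset.sum_le_sum_of_subset_of_nonneg (Finset.subset_univ _)
        (fun w _ _ => hw_nonneg f w v)).trans (sum_hw_le hη hp h.hf v)
    have h5 : (B.card : ℝ) ≤ 2 * (d : ℝ) ^ 2 / η := card_big h.hf hη v
    calc 4 * p / η * ξ * ∑ w' ∈ B, hw η p f w' v + (B.card : ℝ) * (4 * p / η * ξ)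
        ≤ 4 * p / η * ξ * (2 * (d : ℝ) ^ 2 / η) + 2 * (d : ℝ) ^ 2 / η * (4 * p / η * ξ) :=
          add_le_add (mul_le_mul_of_nonneg_left h4 h3) (mul_le_mul_of_nonneg_right h5 h3)
      _ = 16 * p * (d : ℝ) ^ 2 / η ^ 2 * ξ := by field_simp; ring
  have e3 : EW η p f W (fun w _ => hw η p f w v)
      ≤ 2 * (d : ℝ) ^ 2 / η * Pm / ∑ w ∈ W, Pw η p f w := by
    unfold EW
    refine div_le_div_of_nonneg_right ?_ hm.le
    have h1 : ∀ w, ex (fun x => hw η p f w x * hw η p f w v) = Pw η p f w * hw η p f w v := by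
      intro w
      unfold Pw ex
      rw [← Finset.sum_mul, div_mul_eq_mul_div]
    have hWne : W.Nonempty := by
      by_contra hne
      rw [Finset.not_nonempty_iff_eq_empty] at hne
      rw [hne, Finset.sum_empty] at hm
      exact lt_irrefl _ hm
    obtain ⟨w0, hw0⟩ := hWne
    have hPm0 : 0 ≤ Pm := (Pw_nonneg (η := η) (p := p) f w0).trans (hPm w0 hw0)
    calc ∑ w ∈ W, ex (fun x => hw η p f w x * hw η p f w v)
        = ∑ w ∈ W, Pw η p f w * hw η p f w v := Finset.sum_congr rfl (fun w _ => h1 w)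
      _ ≤ ∑ w ∈ W, Pm * hw η p f w v := Finset.sum_le_sum (fun w hwW =>
          mul_le_mul_of_nonneg_right (hPm w hwW) (hw_nonneg f w v))
      _ ≤ ∑ w, Pm * hw η p f w v := Finset.sum_le_sum_of_subset_of_nonneg (Finset.subset_univ _)
          (fun w _ _ => mul_nonneg hPm0 (hw_nonneg f w v))
      _ = Pm * ∑ w, hw η p f w v := by rw [Finset.mul_sum]
      _ ≤ Pm * (2 * (d : ℝ) ^ 2 / η) :=
          mul_le_mul_of_nonneg_left (sum_hw_le hη hp h.hf v) hPm0
      _ = 2 * (d : ℝ) ^ 2 / η * Pm := by ring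
  rw [e1]
  linarith

end Pool.Agent.SUB
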