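import Mathlib
import Pool.Agent.SUB.QDefs

/-!
QP module QSR: one planting step decreases `RW` on average only by a small factor.

As in `Plant3.lean`: `EW_{(w,x)} RW (mix (C w) x v) = EW_{(w,x)} EW_{(w',x')} hw w' (mix (C w') x' (mix (C w) x v))`.
If `C w`, `C w'` are disjoint, `mix (C w') x' (mix (C w) x v) = mix (C w) x z` with
`z = mix (C w') x' v`. Hence pointwise
`hw w' (mix (C w') x' (mix (C w) x v)) ≥ hw w' z * 1[C w ∩ C w' = ∅] - (hw w' z - hw w' (mix (C w) x z))^+`
(both cases), and by `cut_diff`/`cut_mono`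
`(hw w' z - hw w' (mix (C w) x z))^+ ≤ (4p/η) |D_{w'} f z - D_{w'} f (mix (C w) x z)| (hw w' z + (1/4)^p)`.
Exchange the expectations (`EW_comm`) and integrate over `(w,x)` for fixed `(w',x')` (`hins` for
`D_{w'} f` at the base point `z`, `QH.meet` with `U = C w'`, `hK`):
`≥ hw w' z (1 - K π) - (4p/η) ξ (hw w' z + (1/4)^p)`; integrate over `(w',x')`.
-/

set_option linter.dupNamespace false

namespace Pool.Agent.SUB

open Finset Pool.Agent.Helper11.Cube Pool.Agent.Helper11.AA

variable {n d p : ℕ} {η : ℝ} {f : Cube n → ℝ} {W : Finset (Fin n)} {C : Fin n → Finset (Fin n)}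
  {K π ξ : ℝ}

private lemma qsr_mix_comm {S T : Finset (Fin n)} (h : Disjoint S T) (x y v : Cube n) :
    mix T y (mix S x v) = mix S x (mix T y v) := by
  funext i
  unfold mix
  by_cases h1 : i ∈ S
  · have h2 : i ∉ T := Finset.disjoint_left.1 h h1
    simp [h1, h2]
  · simp [h1]

private lemma qsr_point (hη : 0 < η) (hp : 1 ≤ p) (w w' : Fin n) (x x' v : Cube n) :
    hw η p f w' (mix (C w') x' v)
        - 4 * p / η * (hw η p f w' (mix (C w') x' v) + (1 / 4) ^ p)
          * |discreteDeriv w' f (mix (C w) x (mix (C w') x' v))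
            - discreteDeriv w' f (mix (C w') x' v)|
        - hw η p f w' (mix (C w') x' v) * (if Disjoint (C w) (C w') then 0 else 1)
      ≤ hw η p f w' (mix (C w') x' (mix (C w) x v)) := by
  set z := mix (C w') x' v with hz
  have hb0 : 0 ≤ hw η p f w' z := hw_nonneg (η := η) (p := p) f w' z
  have hq0 : (0 : ℝ) ≤ (1 / 4 : ℝ) ^ p := by positivity
  have hc0 : 0 ≤ 4 * (p : ℝ) / η * (hw η p f w' z + (1 / 4) ^ p) := by positivity
  have hp0 : 0 ≤ 4 * (p : ℝ) / η * (hw η p f w' z + (1 / 4) ^ p)
      * |discreteDeriv w' f (mix (C w) x z) - discreteDeriv w' f z| :=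
    mul_nonneg hc0 (abs_nonneg _)
  by_cases hd : Disjoint (C w) (C w')
  · rw [if_pos hd, mul_zero, sub_zero, qsr_mix_comm hd, ← hz]
    rcases le_total |discreteDeriv w' f z| |discreteDeriv w' f (mix (C w) x z)| with hle | hle
    · have h1 : hw η p f w' z ≤ hw η p f w' (mix (C w) x z) := by
        unfold hw
        exact cut_mono hη hle
      linarith
    · have h1 : hw η p f w' z - hw η p f w' (mix (C w) x z) ≤
          4 * p / η * (|discreteDeriv w' f z| - |discreteDeriv w' f (mix (C w) x z)|)
            * (hw η p f w' z + (1 / 4) ^ p) := by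
        unfold hw
        exact cut_diff hη hp hle
      have h2 : |discreteDeriv w' f z| - |discreteDeriv w' f (mix (C w) x z)|
          ≤ |discreteDeriv w' f (mix (C w) x z) - discreteDeriv w' f z| := by
        rw [abs_sub_comm]
        exact abs_sub_abs_le_abs_sub _ _
      have h3 := mul_le_mul_of_nonneg_left h2 hc0
      have h4 : 4 * p / η * (|discreteDeriv w' f z| - |discreteDeriv w' f (mix (C w) x z)|)
            * (hw η p f w' z + (1 / 4) ^ p) = 4 * (p : ℝ) / η * (hw η p f w' z + (1 / 4) ^ p)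
            * (|discreteDeriv w' f z| - |discreteDeriv w' f (mix (C w) x z)|) := by ring
      rw [h4] at h1
      linarith
  · rw [if_neg hd, mul_one]
    have h2 := hw_nonneg (η := η) (p := p) f w' (mix (C w') x' (mix (C w) x v))
    linarith

theorem qstep_R (h : QH d p η f W C K π ξ) (v : Cube n) :
    (1 - (K * π + 4 * p / η * ξ)) * RW η p f W C v - 4 * p / η * ξ * (1 / 4) ^ p
      ≤ EW η p f W (fun w x => RW η p f W C (mix (C w) x v)) := by
  have hpη : 0 ≤ 4 * (p : ℝ) / η := by
    have := h.hη.le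
    positivity
  have e1 : EW η p f W (fun w x => RW η p f W C (mix (C w) x v)) =
      EW η p f W (fun w' x' => EW η p f W (fun w x =>
        hw η p f w' (mix (C w') x' (mix (C w) x v)))) := by
    unfold RW
    exact EW_comm (fun w x w' x' => hw η p f w' (mix (C w') x' (mix (C w) x v)))
  have e2 : (1 - (K * π + 4 * p / η * ξ)) * RW η p f W C v - 4 * p / η * ξ * (1 / 4) ^ p =
      EW η p f W (fun w' x' => (1 - (K * π + 4 * p / η * ξ)) * hw η p f w' (mix (C w') x' v)
        - 4 * p / η * ξ * (1 / 4) ^ p) := by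
    rw [EW_sub (fun w' x' => (1 - (K * π + 4 * p / η * ξ)) * hw η p f w' (mix (C w') x' v))
      (fun _ _ => 4 * p / η * ξ * (1 / 4) ^ p), EW_const h.hm, EW_const_mul]
    rfl
  rw [e1, e2]
  refine EW_mono h.hm fun w' hw' x' => ?_
  set z := mix (C w') x' v with hz
  have h1 : EW η p f W (fun w x => hw η p f w' z
        - 4 * p / η * (hw η p f w' z + (1 / 4) ^ p)
          * |discreteDeriv w' f (mix (C w) x z) - discreteDeriv w' f z|
        - hw η p f w' z * (if Disjoint (C w) (C w') then 0 else 1))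
      ≤ EW η p f W (fun w x => hw η p f w' (mix (C w') x' (mix (C w) x v))) :=
    EW_mono h.hm fun w _ x => qsr_point h.hη h.hp w w' x x' v
  refine le_trans ?_ h1
  have h2 : EW η p f W (fun w x => hw η p f w' z
        - 4 * p / η * (hw η p f w' z + (1 / 4) ^ p)
          * |discreteDeriv w' f (mix (C w) x z) - discreteDeriv w' f z|
        - hw η p f w' z * (if Disjoint (C w) (C w') then 0 else 1)) =
      hw η p f w' z
        - 4 * p / η * (hw η p f w' z + (1 / 4) ^ p) * EW η p f W (fun w x =>
            |discreteDeriv w' f (mix (C w) x z) - discreteDeriv w' f z|)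
        - hw η p f w' z * EW η p f W (fun w _ => if Disjoint (C w) (C w') then 0 else 1) := by
    rw [EW_sub (fun w x => hw η p f w' z
        - 4 * p / η * (hw η p f w' z + (1 / 4) ^ p)
          * |discreteDeriv w' f (mix (C w) x z) - discreteDeriv w' f z|)
        (fun w _ => hw η p f w' z * (if Disjoint (C w) (C w') then 0 else 1)),
      EW_sub (fun _ _ => hw η p f w' z)
        (fun w x => 4 * p / η * (hw η p f w' z + (1 / 4) ^ p)
          * |discreteDeriv w' f (mix (C w) x z) - discreteDeriv w' f z|),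
      EW_const h.hm, EW_const_mul, EW_const_mul]
  rw [h2]
  have hb0 : 0 ≤ hw η p f w' z := hw_nonneg (η := η) (p := p) f w' z
  have hc0 : 0 ≤ 4 * (p : ℝ) / η * (hw η p f w' z + (1 / 4) ^ p) := by positivity
  have h3 := h.hins (discreteDeriv w' f) (bdd_deriv h.hf w') z
  have h4 := h.meet (C w')
  have h5 := h.hK w' hw'
  have h6 : ((C w').card : ℝ) * π ≤ K * π := mul_le_mul_of_nonneg_right h5 h.hπ0
  have h7 := mul_le_mul_of_nonneg_left h3 hc0
  have h8 := mul_le_mul_of_nonneg_left (h4.trans h6) hb0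
  have h9 : (1 - (K * π + 4 * p / η * ξ)) * hw η p f w' z - 4 * p / η * ξ * (1 / 4) ^ p =
      hw η p f w' z - 4 * (p : ℝ) / η * (hw η p f w' z + (1 / 4) ^ p) * ξ
        - hw η p f w' z * (K * π) := by ring
  rw [h9]
  linarith

end Pool.Agent.SUB
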