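import Mathlib
import Pool.Agent.SUB.QStepH
import Pool.Agent.SUB.QStepR

/-!
QP module QPL: the improved planting lemma.

`δ = K π + 4p/η ξ ≥ 0`, `e₁ = 16 p d^2/η^2 ξ + 2 d^2/η Pm/m`, `e₂ = 4p/η ξ (1/4)^p ≥ 0`,
`H v = ∑_w hw w v`. Let `c_k`, `k ≤ N`, be defined by `c_N = 0`, `c_k = 1 + (1-δ) c_{k+1}`, i.e.
`c_k = ∑_{j < N-k} (1-δ)^j`; `0 ≤ c_k ≤ N` (`0 ≤ δ ≤ 1` if `N ≥ 1`), and
`c_0 ≥ ∑_{j<N} (1 - jδ) ≥ N - δ N^2/2 ≥ N/2` since `N δ ≤ 1` (Bernoulli `one_add_mul_le_pow`).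
Start from `v_0` with `RW v_0 ≥ G` (`exists_RW`). Claim: for `k ≤ N` there is `v_k` with
`H v_k + c_k RW v_k ≥ c_0 G - k (e₁ + N e₂)`. Step (`qstep_H`, `qstep_R`): the `EW`-average of
`H (v_k ⊕ ω) + c_{k+1} RW (v_k ⊕ ω)` is
`≥ H v_k + RW v_k - e₁ + c_{k+1} ((1-δ) RW v_k - e₂) ≥ H v_k + c_k RW v_k - e₁ - N e₂`; take `ω`
with value at least the average (`exists_EW_le`). For `k = N`:
`c_0 G - N (e₁ + N e₂) ≤ H v_N ≤ 2 d^2/η` (`sum_hw_le`), and `c_0 G ≥ N G/2`. (`N = 0` is trivial.)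
-/

set_option linter.dupNamespace false

namespace Pool.Agent.SUB

open Finset Pool.Agent.Helper11.Cube Pool.Agent.Helper11.AA

variable {n d p : ℕ} {η : ℝ} {f : Cube n → ℝ} {W : Finset (Fin n)} {C : Fin n → Finset (Fin n)}
  {K π ξ : ℝ}

/-- `c j = ∑_{i<j} (1-δ)^i` by recursion. -/
private noncomputable def QPLc (δ : ℝ) : ℕ → ℝ
  | 0 => 0
  | j + 1 => 1 + (1 - δ) * QPLc δ j

private lemma QPLc_bd {δ : ℝ} (h0 : 0 ≤ δ) (h1 : δ ≤ 1) (j : ℕ) :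
    0 ≤ QPLc δ j ∧ QPLc δ j ≤ j := by
  induction j with
  | zero => simp [QPLc]
  | succ j ih =>
    have h2 : 0 ≤ (1 - δ) * QPLc δ j := mul_nonneg (by linarith) ih.1
    have h3 : (1 - δ) * QPLc δ j ≤ QPLc δ j := by nlinarith [ih.1]
    constructor
    · simp only [QPLc]; linarith
    · simp only [QPLc]; push_cast; linarith [ih.2]

private lemma QPLc_lb {δ : ℝ} (h0 : 0 ≤ δ) (h1 : δ ≤ 1) (j : ℕ) :
    (j : ℝ) - δ * (j : ℝ) ^ 2 / 2 ≤ QPLc δ j := by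
  induction j with
  | zero => simp [QPLc]
  | succ j ih =>
    have h2 := mul_le_mul_of_nonneg_left ih (by linarith : 0 ≤ 1 - δ)
    simp only [QPLc]
    push_cast
    nlinarith [sq_nonneg (δ * (j : ℝ))]

private lemma qplant_iter (h : QH d p η f W C K π ξ) {Pm : ℝ} (hPm : ∀ w ∈ W, Pw η p f w ≤ Pm)
    {G : ℝ}
    (hG : ∀ w ∈ W, G * Pw η p f w ≤ ex (fun x => ex (fun z => hw η p f w (mix (C w) x z)) ^ 2))
    (N : ℕ) (hδ1 : K * π + 4 * p / η * ξ ≤ 1) : ∀ k : ℕ, k ≤ N → ∃ v : Cube n,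
      QPLc (K * π + 4 * p / η * ξ) N * G - k * ((16 * p * (d : ℝ) ^ 2 / η ^ 2 * ξ
          + 2 * (d : ℝ) ^ 2 / η * Pm / ∑ w ∈ W, Pw η p f w)
            + N * (4 * p / η * ξ * (1 / 4) ^ p))
        ≤ (∑ w, hw η p f w v) + QPLc (K * π + 4 * p / η * ξ) (N - k) * RW η p f W C v := by
  intro k
  have hη := h.hη
  have hξ := h.hξ0
  have he2 : 0 ≤ 4 * p / η * ξ * (1 / 4) ^ p := by positivity
  have hδ0 : 0 ≤ K * π + 4 * p / η * ξ :=
    add_nonneg (mul_nonneg h.hK0 h.hπ0) (by positivity)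
  induction k with
  | zero =>
    intro _
    obtain ⟨v, hv⟩ := exists_RW h.hm hG
    refine ⟨v, ?_⟩
    have h1 : 0 ≤ ∑ w, hw η p f w v := Finset.sum_nonneg (fun w _ => hw_nonneg f w v)
    have h2 := mul_le_mul_of_nonneg_left hv (QPLc_bd hδ0 hδ1 N).1
    simp only [Nat.cast_zero, zero_mul, sub_zero, Nat.sub_zero]
    linarith
  | succ k ih =>
    intro hk
    obtain ⟨v, hv⟩ := ih (by omega)
    have hH := qstep_H h hPm v
    have hR := qstep_R h v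
    obtain ⟨w, _, x, hwx⟩ := exists_EW_le (η := η) (p := p) (f := f) (W := W) h.hm
      (fun w x => (∑ w', hw η p f w' (mix (C w) x v))
        + QPLc (K * π + 4 * p / η * ξ) (N - (k + 1)) * RW η p f W C (mix (C w) x v))
    refine ⟨mix (C w) x v, le_trans ?_ hwx⟩
    rw [EW_add (fun w x => ∑ w', hw η p f w' (mix (C w) x v))
      (fun w x => QPLc (K * π + 4 * p / η * ξ) (N - (k + 1)) * RW η p f W C (mix (C w) x v)),
      EW_const_mul (QPLc (K * π + 4 * p / η * ξ) (N - (k + 1)))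
        (fun w x => RW η p f W C (mix (C w) x v))]
    have hc := QPLc_bd hδ0 hδ1 (N - (k + 1))
    have hmul := mul_le_mul_of_nonneg_left hR hc.1
    have hcN : QPLc (K * π + 4 * p / η * ξ) (N - (k + 1)) ≤ N := by
      refine hc.2.trans ?_
      exact_mod_cast Nat.sub_le _ _
    have hce := mul_le_mul_of_nonneg_right hcN he2
    have hrec : QPLc (K * π + 4 * p / η * ξ) (N - k) =
        1 + (1 - (K * π + 4 * p / η * ξ)) * QPLc (K * π + 4 * p / η * ξ) (N - (k + 1)) := by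
      have : N - k = (N - (k + 1)) + 1 := by omega
      rw [this]; rfl
    rw [hrec] at hv
    push_cast at hv hmul hce ⊢
    nlinarith [hv, hH, hmul, hce]

theorem qplant (h : QH d p η f W C K π ξ) {Pm : ℝ} (hPm : ∀ w ∈ W, Pw η p f w ≤ Pm) {G : ℝ}
    (hG0 : 0 ≤ G)
    (hG : ∀ w ∈ W, G * Pw η p f w ≤ ex (fun x => ex (fun z => hw η p f w (mix (C w) x z)) ^ 2))
    (N : ℕ) (hN : (N : ℝ) * (K * π + 4 * p / η * ξ) ≤ 1) :
    (N : ℝ) * (G / 2 - (16 * p * (d : ℝ) ^ 2 / η ^ 2 * ξ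
          + 2 * (d : ℝ) ^ 2 / η * Pm / ∑ w ∈ W, Pw η p f w)
        - N * (4 * p / η * ξ * (1 / 4) ^ p)) ≤ 2 * (d : ℝ) ^ 2 / η := by
  have hη := h.hη
  have hξ := h.hξ0
  have hδ0 : 0 ≤ K * π + 4 * p / η * ξ :=
    add_nonneg (mul_nonneg h.hK0 h.hπ0) (by positivity)
  rcases Nat.eq_zero_or_pos N with h0 | h0
  · subst h0
    simp only [Nat.cast_zero, zero_mul]
    positivity
  have hN1 : (1 : ℝ) ≤ N := by exact_mod_cast h0
  have hδ1 : K * π + 4 * p / η * ξ ≤ 1 := by nlinarith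
  obtain ⟨v, hv⟩ := qplant_iter h hPm hG N hδ1 N le_rfl
  have h1 := sum_hw_le h.hη h.hp h.hf v
  rw [Nat.sub_self] at hv
  have hc0 : QPLc (K * π + 4 * p / η * ξ) 0 = 0 := rfl
  rw [hc0, zero_mul, add_zero] at hv
  have h2 := QPLc_lb hδ0 hδ1 N
  have h3 : (N : ℝ) / 2 ≤ QPLc (K * π + 4 * p / η * ξ) N := by
    refine le_trans ?_ h2
    have : (N : ℝ) * (N * (K * π + 4 * p / η * ξ)) ≤ N * 1 :=
      mul_le_mul_of_nonneg_left hN (by positivity)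
    nlinarith
  have h4 := mul_le_mul_of_nonneg_right h3 hG0
  have h5 := hv.trans h1
  nlinarith [h4, h5]

end Pool.Agent.SUB
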