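import Mathlib
import Pool.Agent.SUB.QPlant
import Pool.Agent.SUB.QKL

/-!
QP module QSU: a shell of pivots with a product part and without popular coordinates is light.

Notation `L w = -log (Pw w) ∈ [Λ, Λ+1]`, `L w ≤ p`, `Q = QB d p β η = 10^6 p d^2/(β^2 η)`,
`b = bias (hw η p f w)`, `C w = {a | β ≤ |b a|}`, `m = ∑_{w∈W} Pw w`, `k = 2 d^2/η`. Suppose
`m > exp(-κΛ/4)`. `|C w| ≤ 2 L w/β^2 ≤ 2p/β^2 =: K ≤ Q` (`card_bias_le`). By `exp_sum_KL_le`,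
`ex ((E[hw|x_C])^2) ≥ exp(∑_{C w} KL) Pw^2 ≥ exp(κ L w - L w) Pw ≥ G Pw`,
`G = exp(-(1-κ)(Λ+1)) ≤ 1`. Put `π = G/Q^6`. Then `QH` holds: popularity
`A a ≤ exp(-(1-κ/2)Λ) ≤ π m`, since `π m ≥ exp(-(1-κ)(Λ+1) - κΛ/4)/Q^6 ≥ exp(-(1-3κ/4)Λ)/(e Q^6)` and
`e Q^6 ≤ exp(κΛ/4)` (`32 log Q ≤ κΛ`, `Q ≥ 10^6`). Insensitivity: let `J` be the least integer with
`(1/2)^J ≤ π` (`J = ⌈Real.logb 2 (1/π)⌉₊`); `J + 1 ≤ 1.45 (p + 1 + 6 log Q) + 2 ≤ Q` (`Q ≥ 10^6 p`); so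
`EW_insens2` gives `ξ = 16 (J+1) d^2 K π + (1/2)^J ≤ Q^2 π` (`16 d^2 K = 32 p d^2/β^2 ≤ Q/2`).
Let `N = ⌈5k/G⌉₊ ≤ 6k/G ≤ Q/G` (`k ≥ 2 ≥ G`). Then
(a) `N (Kπ + 4p/η ξ) ≤ (Q/G)(Qπ + Q·Q^2 π) ≤ 2 Q^4 π/G ≤ 1`;
(b) `16 p d^2/η^2 ξ ≤ Q^2 · Q^2 π = G/Q^2 ≤ G/16`;
(c) `k Pm/m ≤ Q exp(-Λ + κΛ/4) ≤ G/16` (`16 e Q ≤ exp(3κΛ/4)`), `Pm = exp(-Λ)`;
(d) `N (4p/η ξ (1/4)^p) ≤ (1/4)^p ≤ exp(-(p+1))/16 ≤ G/16` (by (a), `p ≥ 10`: `16 e^{11} ≤ 4^{10}`,
`e ≤ 4`; `Λ ≤ p`).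
So `qplant` gives `N (5G/16) ≤ k`, but `N ≥ 5k/G`: `25k/16 ≤ k`, a contradiction (`k > 0`).
-/

set_option linter.dupNamespace false

namespace Pool.Agent.SUB

open Finset Pool.Agent.Helper11.Cube Pool.Agent.Helper11.AA

variable {n d p : ℕ} {η : ℝ}

/-- A polynomial quantity which bounds all the others. -/
noncomputable def QB (d p : ℕ) (β η : ℝ) : ℝ := 1000000 * (p : ℝ) * (d : ℝ) ^ 2 / (β ^ 2 * η)

private lemma qsu_arith {G N k B C D : ℝ} (hk : 0 < k) (hN1 : 5 * k ≤ N * G) (hN0 : 0 ≤ N)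
    (hB : B ≤ G / 16) (hC : C ≤ G / 16) (hD : N * D ≤ G / 16)
    (hmain : N * (G / 2 - (B + C) - N * D) ≤ k) : False := by
  have h1 : 5 * G / 16 ≤ G / 2 - (B + C) - N * D := by linarith
  have h2 := (mul_le_mul_of_nonneg_left h1 hN0).trans hmain
  nlinarith

private lemma qsu_log {Q : ℝ} (hQ : 10000000 ≤ Q) : 1 ≤ Real.log Q ∧ Real.log Q ≤ Q / 100 + 4 := by
  have hQ0 : 0 < Q := by linarith
  constructor
  · rw [Real.le_log_iff_exp_le hQ0]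
    have := Real.exp_one_lt_d9
    linarith
  · have h1 := Real.log_le_sub_one_of_pos (show 0 < Q / 100 by positivity)
    rw [Real.log_div hQ0.ne' (by norm_num)] at h1
    have h2 : Real.log 100 ≤ 5 := by
      rw [Real.log_le_iff_le_exp (by norm_num)]
      have h3 : Real.exp 5 = Real.exp 1 ^ 5 := by
        rw [← Real.exp_nat_mul]; norm_num
      rw [h3]
      have h4 := Real.exp_one_gt_d9
      have h5 : (2.7 : ℝ) ^ 5 ≤ Real.exp 1 ^ 5 := pow_le_pow_left₀ (by norm_num) (by linarith) 5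
      norm_num at h5 ⊢
      linarith
    linarith

private lemma qsu_quarter {p : ℕ} (hp : 10 ≤ p) :
    16 * (1 / 4 : ℝ) ^ p ≤ Real.exp (-((p : ℝ) + 1)) := by
  obtain ⟨q, rfl⟩ := Nat.exists_eq_add_of_le hp
  have h1 := Real.exp_one_lt_d9
  have h0 := Real.exp_pos 1
  have h2 : Real.exp 1 ^ 11 ≤ 2.7182818286 ^ 11 := pow_le_pow_left₀ h0.le h1.le 11
  have h3 : Real.exp 1 ^ q ≤ 4 ^ q := pow_le_pow_left₀ h0.le (by linarith) q
  have h4 : Real.exp ((((10 + q : ℕ) : ℝ)) + 1) = Real.exp 1 ^ 11 * Real.exp 1 ^ q := by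
    rw [← pow_add, ← Real.exp_nat_mul]
    congr 1
    push_cast
    ring
  rw [Real.exp_neg, h4, one_div, inv_pow, ← div_eq_mul_inv, div_le_iff₀ (by positivity)]
  rw [inv_mul_eq_div, le_div_iff₀ (by positivity)]
  calc 16 * (Real.exp 1 ^ 11 * Real.exp 1 ^ q) = (16 * Real.exp 1 ^ 11) * Real.exp 1 ^ q := by ring
    _ ≤ 4 ^ 10 * 4 ^ q := by
        apply mul_le_mul _ h3 (by positivity) (by norm_num)
        refine le_trans (mul_le_mul_of_nonneg_left h2 (by norm_num)) ?_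
        norm_num
    _ = 4 ^ (10 + q) := by rw [pow_add]

theorem qshell_unpop (hd : 1 ≤ d) (hp : 10 ≤ p) (hη : 0 < η) (hη1 : η ≤ 1) {β κ Λ : ℝ}
    (hβ : 0 < β) (hβ1 : β ≤ 1) (hκ : 0 < κ) (hκ1 : κ ≤ 1) {f : Cube n → ℝ} (hf : Bdd d f)
    (hΛ : 32 * Real.log (QB d p β η) ≤ κ * Λ) (hΛp : Λ ≤ p) (W : Finset (Fin n))
    (hW1 : ∀ w ∈ W, Real.exp (-(Λ + 1)) ≤ Pw η p f w ∧ Pw η p f w ≤ Real.exp (-Λ))
    (hW2 : ∀ w ∈ W, Real.exp (-(p : ℝ)) ≤ Pw η p f w)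
    (hW3 : ∀ w ∈ W, κ * (- Real.log (Pw η p f w))
      ≤ ∑ a ∈ univ.filter (fun a => β ≤ |bias (hw η p f w) a|), KL (bias (hw η p f w) a))
    (hpop : ∀ a, ∑ w ∈ W.filter (fun w => β ≤ |bias (hw η p f w) a|), Pw η p f w
      ≤ Real.exp (-((1 - κ / 2) * Λ))) :
    ∑ w ∈ W, Pw η p f w ≤ Real.exp (-(κ * Λ / 4)) := by
  classical
  by_contra hcon
  push Not at hcon
  have hd' : (1 : ℝ) ≤ d := by exact_mod_cast hd
  have hp' : (10 : ℝ) ≤ p := by exact_mod_cast hp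
  have hd2 : (1 : ℝ) ≤ (d : ℝ) ^ 2 := one_le_pow₀ hd'
  have hd0 : (0 : ℝ) < d := by linarith
  have hp0 : (0 : ℝ) < p := by linarith
  obtain ⟨Q, hQ⟩ : ∃ Q : ℝ, Q = QB d p β η := ⟨_, rfl⟩
  have hβ2 : 0 < β ^ 2 := by positivity
  have hβ21 : β ^ 2 ≤ 1 := pow_le_one₀ hβ.le hβ1
  have hden : 0 < β ^ 2 * η := by positivity
  have hQeq : Q * (β ^ 2 * η) = 1000000 * (p : ℝ) * (d : ℝ) ^ 2 := by
    rw [hQ, QB]
    field_simp
  have hQ0 : 0 < Q := by rw [hQ, QB]; positivity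
  have hden1 : β ^ 2 * η ≤ 1 := mul_le_one₀ hβ21 hη.le hη1
  have hpp : (p : ℝ) ≤ p * (d : ℝ) ^ 2 := le_mul_of_one_le_right hp0.le hd2
  have hdp : (d : ℝ) ^ 2 ≤ p * (d : ℝ) ^ 2 := le_mul_of_one_le_left (by positivity) (by linarith)
  have hpd : (10 : ℝ) ≤ p * (d : ℝ) ^ 2 := by linarith
  have hQpd : 1000000 * ((p : ℝ) * (d : ℝ) ^ 2) ≤ Q := by
    have h := mul_le_mul_of_nonneg_left hden1 hQ0.le
    linarith
  have hη3 : β ^ 2 * η ≤ η := mul_le_of_le_one_left hη.le hβ21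
  have hη4 : β ^ 2 * η ≤ β ^ 2 := mul_le_of_le_one_right hβ2.le hη1
  have hQ7 : 10000000 ≤ Q := by linarith
  obtain ⟨hl1, hl2⟩ := qsu_log hQ7
  obtain ⟨l, hl⟩ : ∃ l : ℝ, l = Real.log Q := ⟨_, rfl⟩
  rw [← hl] at hl1 hl2
  have hQl : Q = Real.exp l := by rw [hl, Real.exp_log hQ0]
  rw [← hQ, ← hl] at hΛ
  have hΛ0 : 0 < Λ := by
    by_contra h
    push Not at h
    have := mul_nonpos_of_nonneg_of_nonpos hκ.le h
    linarith
  -- bounds of the simple quantities by `Q`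
  have hb1 : 1 / η ≤ Q := by
    rw [div_le_iff₀ hη]
    have : Q * (β ^ 2 * η) ≤ Q * η := mul_le_mul_of_nonneg_left hη3 hQ0.le
    linarith
  have hb2 : 1000000 * ((p : ℝ) * (d : ℝ) ^ 2 / η) ≤ Q := by
    rw [← mul_div_assoc, div_le_iff₀ hη]
    have : Q * (β ^ 2 * η) ≤ Q * η := mul_le_mul_of_nonneg_left hη3 hQ0.le
    linarith
  have hb3 : 1000000 * ((p : ℝ) * (d : ℝ) ^ 2 / β ^ 2) ≤ Q := by
    rw [← mul_div_assoc, div_le_iff₀ hβ2]
    have : Q * (β ^ 2 * η) ≤ Q * β ^ 2 := mul_le_mul_of_nonneg_left hη4 hQ0.le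
    linarith
  have hb4 : 4 * (p : ℝ) / η ≤ Q := by
    have h1 : (p : ℝ) / η ≤ p * (d : ℝ) ^ 2 / η := div_le_div_of_nonneg_right hpp hη.le
    have h2 : 0 < (p : ℝ) / η := by positivity
    rw [mul_div_assoc]
    linarith
  have hb5 : 2 * (d : ℝ) ^ 2 / η ≤ Q / 12 := by
    have h1 : (d : ℝ) ^ 2 / η ≤ p * (d : ℝ) ^ 2 / η := div_le_div_of_nonneg_right hdp hη.le
    have h2 : 0 < (d : ℝ) ^ 2 / η := by positivity
    rw [mul_div_assoc]
    linarith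
  have hk2 : 2 ≤ 2 * (d : ℝ) ^ 2 / η := by
    rw [le_div_iff₀ hη]
    linarith
  obtain ⟨K, hK⟩ : ∃ K : ℝ, K = 2 * (p : ℝ) / β ^ 2 := ⟨_, rfl⟩
  have hK0 : 0 ≤ K := by rw [hK]; positivity
  have hKd : 16 * (d : ℝ) ^ 2 * K ≤ Q / 2 := by
    have : 16 * (d : ℝ) ^ 2 * K = 32 * ((p : ℝ) * (d : ℝ) ^ 2 / β ^ 2) := by
      rw [hK]; ring
    rw [this]
    have h2 : 0 < (p : ℝ) * (d : ℝ) ^ 2 / β ^ 2 := by positivity
    linarith
  have hKQ : K ≤ Q := by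
    have h := mul_le_mul_of_nonneg_right hd2 hK0
    linarith
  -- `G` and `π`
  obtain ⟨G, hG⟩ : ∃ G : ℝ, G = Real.exp (-((1 - κ) * (Λ + 1))) := ⟨_, rfl⟩
  have hG0 : 0 < G := by rw [hG]; exact Real.exp_pos _
  have hG1 : G ≤ 1 := by
    rw [hG]
    apply Real.exp_le_one_iff.2
    have := mul_nonneg (show 0 ≤ 1 - κ by linarith) (show 0 ≤ Λ + 1 by linarith)
    linarith
  obtain ⟨π, hπ⟩ : ∃ π : ℝ, π = G / Q ^ 6 := ⟨_, rfl⟩
  have hπ0 : 0 < π := by rw [hπ]; positivity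
  have hπe : π = Real.exp (-((1 - κ) * (Λ + 1)) - 6 * l) := by
    rw [hπ, hG, hQl, Real.exp_sub, ← Real.exp_nat_mul]
    norm_num
  obtain ⟨m, hm⟩ : ∃ m : ℝ, m = ∑ w ∈ W, Pw η p f w := ⟨_, rfl⟩
  rw [← hm] at hcon
  have hm0 : 0 < m := lt_trans (Real.exp_pos _) hcon
  have hPpos : ∀ w ∈ W, 0 < Pw η p f w := fun w hw' =>
    lt_of_lt_of_le (Real.exp_pos _) (hW2 w hw')
  let C : Fin n → Finset (Fin n) := fun w =>
    univ.filter (fun a => β ≤ |bias (hw η p f w) a|)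
  have hCK : ∀ w ∈ W, ((C w).card : ℝ) ≤ K := by
    intro w hw'
    have h1 := card_bias_le (fun x => hw_nonneg (η := η) (p := p) f w x)
      (fun x => hw_le_one (η := η) (p := p) f w x)
      (show 0 < ex (hw η p f w) from hPpos w hw') hβ
    refine h1.trans ?_
    rw [hK]
    apply div_le_div_of_nonneg_right _ hβ2.le
    have h2 := Real.log_le_log (Real.exp_pos _) (hW2 w hw')
    rw [Real.log_exp] at h2
    have h3 : Real.log (ex (hw η p f w)) = Real.log (Pw η p f w) := rfl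
    rw [h3]
    linarith
  have hpopm : ∀ a, ∑ w ∈ W.filter (fun w => a ∈ C w), Pw η p f w ≤ π * m := by
    intro a
    have h1 : W.filter (fun w => a ∈ C w) =
        W.filter (fun w => β ≤ |bias (hw η p f w) a|) := by
      refine Finset.filter_congr (fun w _ => ?_)
      show a ∈ univ.filter (fun a => β ≤ |bias (hw η p f w) a|) ↔ _
      rw [Finset.mem_filter]
      exact ⟨fun h => h.2, fun h => ⟨Finset.mem_univ _, h⟩⟩
    rw [h1]
    refine (hpop a).trans ?_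
    refine le_trans ?_ (mul_le_mul_of_nonneg_left hcon.le hπ0.le)
    rw [hπe, ← Real.exp_add]
    apply Real.exp_le_exp.2
    have e1 : (1 - κ) * (Λ + 1) = Λ - κ * Λ + 1 - κ := by ring
    have e2 : (1 - κ / 2) * Λ = Λ - κ * Λ / 2 := by ring
    rw [e1, e2]
    linarith
  -- the number of steps in the insensitivity lemma
  obtain ⟨J, hJ⟩ : ∃ J : ℕ, J = ⌈2 * (Λ + 1 + 6 * l)⌉₊ := ⟨_, rfl⟩
  have hJ1 : 2 * (Λ + 1 + 6 * l) ≤ J := by rw [hJ]; exact Nat.le_ceil _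
  have hJ2 : (J : ℝ) ≤ 2 * (Λ + 1 + 6 * l) + 1 := by
    rw [hJ]; exact (Nat.ceil_lt_add_one (by positivity)).le
  have hJQ : (J : ℝ) + 1 ≤ Q := by
    have : 1000000 * (p : ℝ) ≤ Q := by linarith
    linarith
  have hJπ : (1 / 2 : ℝ) ^ J ≤ π := by
    have h1 : (1 / 2 : ℝ) ^ J = Real.exp (-(J * Real.log 2)) := by
      rw [one_div, inv_pow, Real.exp_neg, Real.exp_nat_mul, Real.exp_log (by norm_num)]
    rw [h1, hπe]
    apply Real.exp_le_exp.2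
    have h2 := Real.log_two_gt_d9
    have h3 : (J : ℝ) * (1 / 2) ≤ J * Real.log 2 := by
      apply mul_le_mul_of_nonneg_left _ (Nat.cast_nonneg _)
      linarith
    have h4 : (1 - κ) * (Λ + 1) ≤ Λ + 1 :=
      mul_le_of_le_one_left (by linarith) (by linarith)
    linarith
  have hξ : ∀ g : Cube n → ℝ, Bdd d g → ∀ v : Cube n,
      EW η p f W (fun w x => |g (mix (C w) x v) - g v|) ≤ Q ^ 2 * π := by
    intro g hg v
    have h1 := EW_insens2 (η := η) (p := p) (f := f) (W := W) (C := C) hd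
      (by rw [← hm]; exact hm0) hK0 hπ0.le hCK (fun a => by rw [← hm]; exact hpopm a) J hg v
    refine h1.trans ?_
    have h2 : 16 * ((J : ℝ) + 1) * (d : ℝ) ^ 2 * K * π
        = ((J : ℝ) + 1) * (16 * (d : ℝ) ^ 2 * K) * π := by ring
    rw [h2]
    have h3 : ((J : ℝ) + 1) * (16 * (d : ℝ) ^ 2 * K) ≤ Q * (Q / 2) :=
      mul_le_mul hJQ hKd (by positivity) hQ0.le
    have h4 := mul_le_mul_of_nonneg_right h3 hπ0.le
    have h5 : 1 * π ≤ Q ^ 2 / 2 * π := by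
      apply mul_le_mul_of_nonneg_right _ hπ0.le
      have : Q * 1 ≤ Q * Q := mul_le_mul_of_nonneg_left (by linarith) hQ0.le
      rw [sq]
      linarith
    have h6 : Q * (Q / 2) * π + Q ^ 2 / 2 * π = Q ^ 2 * π := by ring
    linarith
  have hQH : QH d p η f W C K π (Q ^ 2 * π) :=
    { hd := hd
      hp := by omega
      hη := hη
      hf := hf
      hm := by rw [← hm]; exact hm0
      hK0 := hK0
      hπ0 := hπ0.le
      hK := hCK
      hπ := by intro a; rw [← hm]; exact hpopm a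
      hξ0 := by positivity
      hins := hξ }
  -- the entropy bound
  have hGw : ∀ w ∈ W, G * Pw η p f w ≤
      ex (fun x => ex (fun z => hw η p f w (mix (C w) x z)) ^ 2) := by
    intro w hw'
    have hP := hPpos w hw'
    have h1 := exp_sum_KL_le (fun x => hw_nonneg (η := η) (p := p) f w x)
      (show 0 < ex (hw η p f w) from hP) (C w)
    refine le_trans ?_ h1
    show G * Pw η p f w ≤ Real.exp (∑ a ∈ C w, KL (bias (hw η p f w) a)) * Pw η p f w ^ 2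
    have h4 : κ * (- Real.log (Pw η p f w)) ≤ ∑ a ∈ C w, KL (bias (hw η p f w) a) := hW3 w hw'
    have h6 : -Real.log (Pw η p f w) ≤ Λ + 1 := by
      have := Real.log_le_log (Real.exp_pos _) (hW1 w hw').1
      rw [Real.log_exp] at this
      linarith
    have h7 : -((1 - κ) * (Λ + 1)) ≤
        ∑ a ∈ C w, KL (bias (hw η p f w) a) + Real.log (Pw η p f w) := by
      have h8 : (1 - κ) * (-Real.log (Pw η p f w)) ≤ (1 - κ) * (Λ + 1) :=
        mul_le_mul_of_nonneg_left h6 (by linarith)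
      linarith
    have h8 : G ≤ Real.exp (∑ a ∈ C w, KL (bias (hw η p f w) a)) * Pw η p f w := by
      have h8' : Real.exp (∑ a ∈ C w, KL (bias (hw η p f w) a)) * Pw η p f w =
          Real.exp (∑ a ∈ C w, KL (bias (hw η p f w) a) + Real.log (Pw η p f w)) := by
        rw [Real.exp_add, Real.exp_log hP]
      rw [h8', hG]
      exact Real.exp_le_exp.2 h7
    calc G * Pw η p f w
        ≤ Real.exp (∑ a ∈ C w, KL (bias (hw η p f w) a)) * Pw η p f w * Pw η p f w :=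
          mul_le_mul_of_nonneg_right h8 hP.le
      _ = _ := by ring
  -- the number of plantings
  obtain ⟨k, hk⟩ : ∃ k : ℝ, k = 2 * (d : ℝ) ^ 2 / η := ⟨_, rfl⟩
  rw [← hk] at hb5 hk2
  have hk0 : 0 < k := by linarith
  obtain ⟨N, hN⟩ : ∃ N : ℕ, N = ⌈5 * k / G⌉₊ := ⟨_, rfl⟩
  have hN1 : 5 * k ≤ N * G := by
    have : 5 * k / G ≤ N := by rw [hN]; exact Nat.le_ceil _
    rwa [div_le_iff₀ hG0] at this
  have hN2 : (N : ℝ) * G ≤ Q := by
    have h1 : (N : ℝ) ≤ 5 * k / G + 1 := by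
      rw [hN]; exact (Nat.ceil_lt_add_one (by positivity)).le
    have h2 := mul_le_mul_of_nonneg_right h1 hG0.le
    have h3 : (5 * k / G + 1) * G = 5 * k + G := by field_simp
    rw [h3] at h2
    linarith
  have hNπ : (N : ℝ) * π ≤ Q / Q ^ 6 := by
    rw [hπ, ← mul_div_assoc]
    exact div_le_div_of_nonneg_right hN2 (by positivity)
  have hNa : (N : ℝ) * (K * π + 4 * p / η * (Q ^ 2 * π)) ≤ 1 := by
    have h1 : (N : ℝ) * (K * π + 4 * p / η * (Q ^ 2 * π))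
        = (K + 4 * p / η * Q ^ 2) * (N * π) := by ring
    rw [h1]
    have h2 : K + 4 * p / η * Q ^ 2 ≤ Q + Q * Q ^ 2 := by
      have := mul_le_mul_of_nonneg_right hb4 (show 0 ≤ Q ^ 2 by positivity)
      linarith
    have h3 : (K + 4 * p / η * Q ^ 2) * (N * π) ≤ (Q + Q * Q ^ 2) * (Q / Q ^ 6) :=
      mul_le_mul h2 hNπ (by positivity) (by positivity)
    refine h3.trans ?_
    rw [← mul_div_assoc, div_le_one (by positivity)]
    have h50 : (2 : ℝ) ≤ Q ^ 2 := by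
      calc (2 : ℝ) ≤ Q := by linarith
        _ = Q ^ 1 := (pow_one Q).symm
        _ ≤ Q ^ 2 := pow_le_pow_right₀ (by linarith) (by norm_num)
    have h5 : Q ^ 2 ≤ Q ^ 4 := pow_le_pow_right₀ (by linarith) (by norm_num)
    have h6 : 2 * Q ^ 4 ≤ Q ^ 2 * Q ^ 4 := mul_le_mul_of_nonneg_right h50 (by positivity)
    have h7 : (Q + Q * Q ^ 2) * Q = Q ^ 2 + Q ^ 4 := by ring
    have h8 : Q ^ 2 * Q ^ 4 = Q ^ 6 := by ring
    rw [h7]
    linarith
  have hPm : ∀ w ∈ W, Pw η p f w ≤ Real.exp (-Λ) := fun w hw' => (hW1 w hw').2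
  have hmain := qplant hQH hPm hG0.le hGw N hNa
  rw [← hm, ← hk] at hmain
  refine qsu_arith hk0 hN1 (Nat.cast_nonneg N) ?_ ?_ ?_ hmain
  · -- (b)
    have h1 : 16 * (p : ℝ) * (d : ℝ) ^ 2 / η ^ 2 = (16 * ((p : ℝ) * (d : ℝ) ^ 2 / η)) * (1 / η) := by
      field_simp
    have h2 : 16 * ((p : ℝ) * (d : ℝ) ^ 2 / η) ≤ Q := by
      have : 0 < (p : ℝ) * (d : ℝ) ^ 2 / η := by positivity
      linarith
    have h3 : 16 * (p : ℝ) * (d : ℝ) ^ 2 / η ^ 2 ≤ Q * Q := by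
      rw [h1]
      exact mul_le_mul h2 hb1 (by positivity) hQ0.le
    have h4 : 16 * (p : ℝ) * (d : ℝ) ^ 2 / η ^ 2 * (Q ^ 2 * π) ≤ Q * Q * (Q ^ 2 * π) :=
      mul_le_mul_of_nonneg_right h3 (by positivity)
    refine h4.trans ?_
    have h5 : Q * Q * (Q ^ 2 * π) = G / Q ^ 2 := by
      rw [hπ]
      field_simp
    rw [h5]
    apply div_le_div_of_nonneg_left hG0.le (by norm_num)
    calc (16 : ℝ) ≤ Q := by linarith
      _ = Q ^ 1 := (pow_one Q).symm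
      _ ≤ Q ^ 2 := pow_le_pow_right₀ (by linarith) (by norm_num)
  · -- (c)
    rw [div_le_iff₀ hm0]
    have h1 : G / 16 * Real.exp (-(κ * Λ / 4)) ≤ G / 16 * m :=
      mul_le_mul_of_nonneg_left hcon.le (by positivity)
    refine le_trans ?_ h1
    have h2 : k * Real.exp (-Λ) ≤ Q / 16 * Real.exp (-Λ) := by
      apply mul_le_mul_of_nonneg_right _ (Real.exp_pos _).le
      have : 2 * (d : ℝ) ^ 2 / η ≤ Q / 16 := by
        have h1 : (d : ℝ) ^ 2 / η ≤ p * (d : ℝ) ^ 2 / η := div_le_div_of_nonneg_right hdp hη.le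
        have h2 : 0 < (d : ℝ) ^ 2 / η := by positivity
        rw [mul_div_assoc]
        linarith
      rw [hk]
      exact this
    refine h2.trans ?_
    have h3 : Q * Real.exp (-Λ) ≤ G * Real.exp (-(κ * Λ / 4)) := by
      rw [hQl, hG, ← Real.exp_add, ← Real.exp_add]
      apply Real.exp_le_exp.2
      have e1 : (1 - κ) * (Λ + 1) = Λ - κ * Λ + 1 - κ := by ring
      rw [e1]
      linarith
    linarith
  · -- (d)
    have h1 : (N : ℝ) * (4 * p / η * (Q ^ 2 * π) * (1 / 4) ^ p)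
        = (N * (4 * p / η * (Q ^ 2 * π))) * (1 / 4) ^ p := by ring
    rw [h1]
    have h2 : (N : ℝ) * (4 * p / η * (Q ^ 2 * π)) ≤ 1 := by
      refine le_trans ?_ hNa
      apply mul_le_mul_of_nonneg_left _ (Nat.cast_nonneg N)
      have : 0 ≤ K * π := mul_nonneg hK0 hπ0.le
      linarith
    have h3 : (N : ℝ) * (4 * p / η * (Q ^ 2 * π)) * (1 / 4) ^ p ≤ 1 * (1 / 4) ^ p :=
      mul_le_mul_of_nonneg_right h2 (by positivity)
    refine h3.trans ?_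
    have h4 := qsu_quarter hp
    have h5 : Real.exp (-((p : ℝ) + 1)) ≤ G := by
      rw [hG]
      apply Real.exp_le_exp.2
      have h4 : (1 - κ) * (Λ + 1) ≤ Λ + 1 :=
        mul_le_of_le_one_left (by linarith) (by linarith)
      linarith
    linarith

end Pool.Agent.SUB
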