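import Mathlib
import Pool.Agent.SUB.QShellU
import Pool.Agent.SUB.Pop
import Pool.Agent.SUB.Shell

/-!
QP module QSE: the improved shell lemma.

As in `Shell.lean`. `A a = ∑_{w ∈ W, β ≤ |bias (hw w) a|} Pw w`, `P' a = Pw η' p f a`,
`Q = QB d p β η`. By `pop` (for `W.filter ..`; `exp(-p) ≤ Pw w` gives `(1/4)^p ≤ Pw w`) and `Pw_anti`
(`η' ≤ βη/(48p)`), `A a ≤ K₀ P' a` with `K₀ = 4d^2/(β (βη/(24p))) = 96 p d^2/(β^2 η) ≤ Q`. Let
`Pop = {a | exp(-(1-κ/2)Λ) < A a}`; for `a ∈ Pop`,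
`P' a ≥ A a/Q ≥ exp(-(1-κ/2)Λ)/Q ≥ exp(-(1-κ/4)Λ)` (`Q ≤ exp(κΛ/4)`).
`W₁ = {w ∈ W | ∃ a ∈ Pop, β ≤ |bias (hw w) a|}` has mass `≤ ∑_{a∈Pop} A a ≤ Q ∑_{a∈Pop} P' a`;
`W \ W₁` satisfies the hypotheses of `qshell_unpop`.
-/

set_option linter.dupNamespace false

namespace Pool.Agent.SUB

open Finset Pool.Agent.Helper11.Cube Pool.Agent.Helper11.AA

variable {n d p : ℕ} {η : ℝ}

lemma QShell_QB_ge (hd : 1 ≤ d) (hp : 10 ≤ p) (hη : 0 < η) (hη1 : η ≤ 1) {β : ℝ}
    (hβ : 0 < β) (hβ1 : β ≤ 1) : 1 ≤ QB d p β η := by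
  have hd' : (1 : ℝ) ≤ d := by exact_mod_cast hd
  have hp' : (10 : ℝ) ≤ p := by exact_mod_cast hp
  unfold QB
  have hb2 : β ^ 2 ≤ 1 := pow_le_one₀ hβ.le hβ1
  have hden : β ^ 2 * η ≤ 1 := by
    have := mul_le_mul hb2 hη1 hη.le zero_le_one
    linarith
  rw [le_div_iff₀ (by positivity)]
  have h1 : (1 : ℝ) ≤ (d : ℝ) ^ 2 := one_le_pow₀ hd'
  have h2 : (10 : ℝ) ≤ (p : ℝ) * (d : ℝ) ^ 2 := by
    calc (10 : ℝ) = 10 * 1 := by ring
      _ ≤ (p : ℝ) * (d : ℝ) ^ 2 := mul_le_mul hp' h1 (by norm_num) (by linarith)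
  nlinarith

lemma QShell_popK (hd : 1 ≤ d) (hp : 10 ≤ p) (hη : 0 < η) {β : ℝ} (hβ : 0 < β) :
    4 * (d : ℝ) ^ 2 / (β * (β * η / (24 * p))) ≤ QB d p β η := by
  have hd' : (0 : ℝ) < d := by exact_mod_cast hd
  have hp' : (0 : ℝ) < p := by exact_mod_cast (by omega : 0 < p)
  unfold QB
  have hX : 0 < (p : ℝ) * (d : ℝ) ^ 2 / (β ^ 2 * η) := by positivity
  have e1 : 4 * (d : ℝ) ^ 2 / (β * (β * η / (24 * p))) =
      96 * ((p : ℝ) * (d : ℝ) ^ 2 / (β ^ 2 * η)) := by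
    field_simp
    ring
  have e2 : 1000000 * (p : ℝ) * (d : ℝ) ^ 2 / (β ^ 2 * η) =
      1000000 * ((p : ℝ) * (d : ℝ) ^ 2 / (β ^ 2 * η)) := by
    ring
  rw [e1, e2]
  nlinarith

theorem qshell (hd : 1 ≤ d) (hp : 10 ≤ p) (hη : 0 < η) (hη1 : η ≤ 1) {β κ Λ η' : ℝ}
    (hβ : 0 < β) (hβ1 : β ≤ 1) (hκ : 0 < κ) (hκ1 : κ ≤ 1) (hη' : 0 < η')
    (hη'1 : η' ≤ β * η / (48 * p)) {f : Cube n → ℝ} (hf : Bdd d f)
    (hΛ : 32 * Real.log (QB d p β η) ≤ κ * Λ) (hΛp : Λ ≤ p) (W : Finset (Fin n))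
    (hW1 : ∀ w ∈ W, Real.exp (-(Λ + 1)) ≤ Pw η p f w ∧ Pw η p f w ≤ Real.exp (-Λ))
    (hW2 : ∀ w ∈ W, Real.exp (-(p : ℝ)) ≤ Pw η p f w)
    (hW3 : ∀ w ∈ W, κ * (- Real.log (Pw η p f w))
      ≤ ∑ a ∈ univ.filter (fun a => β ≤ |bias (hw η p f w) a|), KL (bias (hw η p f w) a)) :
    ∑ w ∈ W, Pw η p f w
      ≤ QB d p β η * ∑ a ∈ univ.filter (fun a => Real.exp (-((1 - κ / 4) * Λ)) ≤ Pw η' p f a),
          Pw η' p f a + Real.exp (-(κ * Λ / 4)) := by
  classical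
  have hp1 : 1 ≤ p := by omega
  have hQ := QShell_QB_ge hd hp hη hη1 hβ hβ1
  set Q := QB d p β η with hQdef
  have hlog : 0 ≤ Real.log Q := Real.log_nonneg hQ
  have hκΛ : 0 ≤ κ * Λ := by linarith
  have hQexp : Q ≤ Real.exp (κ * Λ / 4) := by
    have h3 : Q = Real.exp (Real.log Q) := (Real.exp_log (lt_of_lt_of_le one_pos hQ)).symm
    rw [h3]
    refine Real.exp_le_exp.2 ?_
    linarith
  set A : Fin n → ℝ := fun a =>
    ∑ w ∈ W.filter (fun w => β ≤ |bias (hw η p f w) a|), Pw η p f w with hAdef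
  have hA : ∀ a, A a ≤ Q * Pw η' p f a := by
    intro a
    have h1 := pop hη hp1 hβ hf (W.filter (fun w => β ≤ |bias (hw η p f w) a|)) a
      (by
        intro w hw'
        rw [mem_filter] at hw'
        exact ⟨(quarter_pow_le p).trans (hW2 w hw'.1), hw'.2⟩)
    refine h1.trans ?_
    exact mul_le_mul (QShell_popK hd hp hη hβ) (Pw_anti hη' hη'1 f a) (Pw_nonneg _ _)
      (by linarith)
  set Po : Finset (Fin n) := univ.filter (fun a => Real.exp (-((1 - κ / 2) * Λ)) < A a) with hPo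
  have hPop : ∀ a ∈ Po, Real.exp (-((1 - κ / 4) * Λ)) ≤ Pw η' p f a := by
    intro a ha
    rw [hPo, mem_filter] at ha
    have h1 : Real.exp (-((1 - κ / 2) * Λ)) ≤ Q * Pw η' p f a := ha.2.le.trans (hA a)
    have h4 : Real.exp (-((1 - κ / 2) * Λ)) ≤ Real.exp (κ * Λ / 4) * Pw η' p f a :=
      h1.trans (mul_le_mul_of_nonneg_right hQexp (Pw_nonneg _ _))
    have h5 : Real.exp (-((1 - κ / 4) * Λ)) =
        Real.exp (-(κ * Λ / 4)) * Real.exp (-((1 - κ / 2) * Λ)) := by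
      rw [← Real.exp_add]
      congr 1
      ring
    have h6 : Real.exp (-(κ * Λ / 4)) * Real.exp (κ * Λ / 4) = 1 := by
      rw [← Real.exp_add]
      simp
    calc Real.exp (-((1 - κ / 4) * Λ)) =
          Real.exp (-(κ * Λ / 4)) * Real.exp (-((1 - κ / 2) * Λ)) := h5
      _ ≤ Real.exp (-(κ * Λ / 4)) * (Real.exp (κ * Λ / 4) * Pw η' p f a) :=
        mul_le_mul_of_nonneg_left h4 (Real.exp_pos _).le
      _ = Pw η' p f a := by rw [← mul_assoc, h6, one_mul]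
  have hsplit := Finset.sum_filter_add_sum_filter_not W
    (fun w => ∃ a ∈ Po, β ≤ |bias (hw η p f w) a|) (fun w => Pw η p f w)
  rw [← hsplit]
  refine add_le_add ?_ ?_
  · have h1 : ∑ w ∈ W.filter (fun w => ∃ a ∈ Po, β ≤ |bias (hw η p f w) a|),
        Pw η p f w ≤ ∑ a ∈ Po, A a := by
      have h2 : ∑ a ∈ Po, A a = ∑ w ∈ W, ∑ a ∈ Po,
          if β ≤ |bias (hw η p f w) a| then Pw η p f w else 0 := by
        rw [Finset.sum_comm]
        refine Finset.sum_congr rfl fun a _ => ?_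
        simp only [hAdef]
        rw [Finset.sum_filter]
      rw [h2, Finset.sum_filter]
      refine Finset.sum_le_sum fun w _ => ?_
      split_ifs with hex
      · obtain ⟨a, ha, hb⟩ := hex
        have h3 := Finset.single_le_sum (s := Po)
          (f := fun a => if β ≤ |bias (hw η p f w) a| then Pw η p f w else 0)
          (fun a _ => by
            split_ifs
            · exact Pw_nonneg _ _
            · exact le_rfl) ha
        simpa [hb] using h3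
      · exact Finset.sum_nonneg fun a _ => by
          split_ifs
          · exact Pw_nonneg _ _
          · exact le_rfl
    refine h1.trans ?_
    rw [Finset.mul_sum]
    refine (Finset.sum_le_sum fun a _ => hA a).trans ?_
    refine Finset.sum_le_sum_of_subset_of_nonneg ?_ ?_
    · intro a ha
      rw [mem_filter]
      exact ⟨mem_univ a, hPop a ha⟩
    · intro a _ _
      exact mul_nonneg (by linarith) (Pw_nonneg _ _)
  · refine qshell_unpop hd hp hη hη1 hβ hβ1 hκ hκ1 hf hΛ hΛp _ ?_ ?_ ?_ ?_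
    · intro w hw'
      exact hW1 w (mem_filter.1 hw').1
    · intro w hw'
      exact hW2 w (mem_filter.1 hw').1
    · intro w hw'
      exact hW3 w (mem_filter.1 hw').1
    · intro a
      by_cases ha : a ∈ Po
      · rw [Finset.sum_eq_zero]
        · exact (Real.exp_pos _).le
        · intro w hw'
          rw [mem_filter, mem_filter] at hw'
          exact absurd ⟨a, ha, hw'.2⟩ hw'.1.2
      · have h1 : A a ≤ Real.exp (-((1 - κ / 2) * Λ)) := by
          by_contra hcon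
          exact ha (by rw [hPo, mem_filter]; exact ⟨mem_univ a, not_le.1 hcon⟩)
        refine le_trans ?_ h1
        refine Finset.sum_le_sum_of_subset_of_nonneg ?_ ?_
        · intro w hw'
          rw [mem_filter, mem_filter] at hw'
          rw [mem_filter]
          exact ⟨hw'.1.1, hw'.2⟩
        · intro w _ _
          exact Pw_nonneg _ _

end Pool.Agent.SUB
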