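import Mathlib
import Pool.Agent.SUB.Defs
import Pool.Agent.SUB.Ex

/-!
QP module QFL: resetting random coordinates to prescribed values.

`pw q F` is the probability of the set `F` when `a` is put into `F` with probability `q a`
independently. The point `mix F τ x` has the coordinates of `F` reset to `τ`.

* `sum_pw`: `∏_a (q a + (1 - q a)) = 1` (`Finset.prod_add`, with `∑_{F ⊆ univ}`).
* `flip_poly`: by `inversion`, `g = ∑_A coef g A * chi A`, and
  `∑_F pw q F * chi A (mix F τ x) = ∏_{a∈A} ((1 - q a) x_a + q a τ_a)`; for `q a = t b a` this is a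
  polynomial in `t` of degree `≤ |A|`; `coef g A = 0` for `|A| > d`.
* `qpush`: `y = mix F τ x` with `x` uniform has independent coordinates;
  `P(y_a = u) = (1 - q a)/2 + q a 1[u = τ_a] = (1 + q a τ_a u)/2`. E.g. write
  `ex_x ∑_F pw q F φ(mix F τ x) = ∑_F pw q F ex_x φ(mix F τ x)` and
  `ex_x φ (mix F τ x) = ex_y φ(y) ∏_{a∈F} (1 + τ_a y_a)`, then
  `∑_F pw q F ∏_{a∈F} (1 + τ_a y_a) = ∏_a (q a (1 + τ_a y_a) + (1 - q a))` (`Finset.prod_add`).
-/

set_option linter.dupNamespace false

namespace Pool.Agent.SUB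

open Finset Polynomial Pool.Agent.Helper11.Cube Pool.Agent.Helper11.AA

variable {n : ℕ}

/-- Probability of `F` when `a` is put into `F` with probability `q a`. -/
noncomputable def pw (q : Fin n → ℝ) (F : Finset (Fin n)) : ℝ :=
  (∏ a ∈ F, q a) * ∏ a ∈ Fᶜ, (1 - q a)

lemma pw_nonneg {q : Fin n → ℝ} (h0 : ∀ a, 0 ≤ q a) (h1 : ∀ a, q a ≤ 1) (F : Finset (Fin n)) :
    0 ≤ pw q F :=
  mul_nonneg (Finset.prod_nonneg fun a _ => h0 a)
    (Finset.prod_nonneg fun a _ => sub_nonneg.2 (h1 a))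

/-- General product formula. -/
private lemma prod_formula (q v w : Fin n → ℝ) :
    ∑ F : Finset (Fin n), pw q F * ((∏ a ∈ F, v a) * ∏ a ∈ Fᶜ, w a)
      = ∏ a, (q a * v a + (1 - q a) * w a) := by
  rw [Finset.prod_add, Finset.powerset_univ]
  refine Finset.sum_congr rfl fun F _ => ?_
  rw [Finset.prod_mul_distrib, Finset.prod_mul_distrib, ← Finset.compl_eq_univ_sdiff]
  unfold pw
  ring

/-- Product formula: `∑_F pw q F ∏_{a∈F} u a = ∏_a (q a u a + (1 - q a))`. -/
lemma sum_pw_prod (q u : Fin n → ℝ) :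
    ∑ F : Finset (Fin n), pw q F * ∏ a ∈ F, u a = ∏ a, (q a * u a + (1 - q a)) := by
  have h := prod_formula q u (fun _ => 1)
  simpa using h

lemma sum_pw (q : Fin n → ℝ) : ∑ F : Finset (Fin n), pw q F = 1 := by
  have h := sum_pw_prod q (fun _ => 1)
  simpa using h

/-- The average of a character. -/
private lemma sum_pw_chi (q : Fin n → ℝ) (τ x : Cube n) (A : Finset (Fin n)) :
    ∑ F : Finset (Fin n), pw q F * chi A (mix F τ x)
      = ∏ a ∈ A, (q a * ((τ a : ℤ) : ℝ) + (1 - q a) * ((x a : ℤ) : ℝ)) := by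
  have h := prod_formula q (fun a => if a ∈ A then ((τ a : ℤ) : ℝ) else 1)
    (fun a => if a ∈ A then ((x a : ℤ) : ℝ) else 1)
  have h2 : ∏ a, (q a * (if a ∈ A then ((τ a : ℤ) : ℝ) else 1)
      + (1 - q a) * (if a ∈ A then ((x a : ℤ) : ℝ) else 1))
      = ∏ a ∈ A, (q a * ((τ a : ℤ) : ℝ) + (1 - q a) * ((x a : ℤ) : ℝ)) := by
    rw [← Finset.prod_subset (Finset.subset_univ A)]
    · refine Finset.prod_congr rfl fun a ha => ?_
      rw [if_pos ha, if_pos ha]
    · intro a _ ha
      rw [if_neg ha, if_neg ha]; ring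
  rw [← h2, ← h]
  refine Finset.sum_congr rfl fun F _ => ?_
  congr 1
  have h3 : chi A (mix F τ x) = ∏ a, (if a ∈ A then (((mix F τ x) a : ℤ) : ℝ) else 1) := by
    unfold chi
    rw [← Finset.prod_subset (Finset.subset_univ A)]
    · refine Finset.prod_congr rfl fun a ha => ?_
      rw [if_pos ha]
    · intro a _ ha
      rw [if_neg ha]
  rw [h3, ← Finset.prod_mul_prod_compl F]
  congr 1
  · refine Finset.prod_congr rfl fun a ha => ?_
    simp [mix, ha]
  · refine Finset.prod_congr rfl fun a ha => ?_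
    have ha' : a ∉ F := Finset.mem_compl.1 ha
    simp [mix, ha']

theorem flip_poly {d : ℕ} {g : Cube n → ℝ} (hg : DegLE g d) (b : Fin n → ℝ) (τ x : Cube n) :
    ∃ P : ℝ[X], P.natDegree ≤ d ∧
      ∀ t : ℝ, P.eval t = ∑ F : Finset (Fin n), pw (fun a => t * b a) F * g (mix F τ x) := by
  refine ⟨∑ A : Finset (Fin n), (if A.card ≤ d then C (coef g A) * ∏ a ∈ A,
    (C ((x a : ℤ) : ℝ) + C (b a * (((τ a : ℤ) : ℝ) - ((x a : ℤ) : ℝ))) * X) else 0), ?_, ?_⟩
  · refine Polynomial.natDegree_sum_le_of_forall_le _ _ fun A _ => ?_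
    split_ifs with hA
    · refine (Polynomial.natDegree_C_mul_le _ _).trans ?_
      refine (Polynomial.natDegree_prod_le _ _).trans ?_
      refine le_trans (Finset.sum_le_card_nsmul _ _ 1 fun a _ => ?_) (by simpa using hA)
      refine (Polynomial.natDegree_add_le _ _).trans (max_le ?_ ?_)
      · rw [Polynomial.natDegree_C]; exact Nat.zero_le _
      · exact (Polynomial.natDegree_C_mul_le _ _).trans Polynomial.natDegree_X_le
    · simp
  · intro t
    have h1 : ∀ F : Finset (Fin n), pw (fun a => t * b a) F * g (mix F τ x)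
        = ∑ A : Finset (Fin n), coef g A * (pw (fun a => t * b a) F * chi A (mix F τ x)) := by
      intro F
      rw [inversion g (mix F τ x), Finset.mul_sum]
      refine Finset.sum_congr rfl fun A _ => ?_
      ring
    simp only [h1]
    rw [Finset.sum_comm, Polynomial.eval_finsetSum]
    refine Finset.sum_congr rfl fun A _ => ?_
    rw [← Finset.mul_sum, sum_pw_chi]
    split_ifs with hA
    · rw [Polynomial.eval_mul, Polynomial.eval_C, Polynomial.eval_prod]
      congr 1
      refine Finset.prod_congr rfl fun a _ => ?_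
      simp only [Polynomial.eval_add, Polynomial.eval_C, Polynomial.eval_mul, Polynomial.eval_X]
      ring
    · rw [hg A (not_le.1 hA), zero_mul, Polynomial.eval_zero]

/-- The law of `mix F τ x` for a fixed set `F`. -/
private lemma ex_mix_fixed (τ : Cube n) (F : Finset (Fin n)) :
    ∀ φ : Cube n → ℝ, ex (fun x => φ (mix F τ x))
      = ex (fun y => φ y * ∏ a ∈ F, (1 + ((τ a : ℤ) : ℝ) * ((y a : ℤ) : ℝ))) := by
  induction F using Finset.induction_on with
  | empty =>
    intro φ
    congr 1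
    funext x
    have h0 : mix ∅ τ x = x := by
      funext i
      simp [mix]
    rw [h0, Finset.prod_empty, mul_one]
  | @insert a F ha ih =>
    intro φ
    have h1 : ∀ x : Cube n, mix (insert a F) τ x = mix F τ (Function.update x a (τ a)) := by
      intro x
      funext i
      by_cases hi : i = a
      · subst hi
        simp [mix, ha]
      · by_cases hF : i ∈ F
        · simp [mix, hF]
        · simp [mix, hi, hF]
    have h2 : ex (fun x => φ (mix (insert a F) τ x))
        = ex (fun x => (1 + ((τ a : ℤ) : ℝ) * ((x a : ℤ) : ℝ)) * φ (mix F τ x)) := by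
      simp only [h1]
      exact ex_update_one a (τ a) (fun x => φ (mix F τ x))
    have h3 : (fun x : Cube n => (1 + ((τ a : ℤ) : ℝ) * ((x a : ℤ) : ℝ)) * φ (mix F τ x))
        = fun x => (fun y : Cube n => (1 + ((τ a : ℤ) : ℝ) * ((y a : ℤ) : ℝ)) * φ y)
          (mix F τ x) := by
      funext x
      have : mix F τ x a = x a := by simp [mix, ha]
      simp only [this]
    rw [h2, h3]
    rw [ih (fun y : Cube n => (1 + ((τ a : ℤ) : ℝ) * ((y a : ℤ) : ℝ)) * φ y)]
    congr 1
    funext y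
    rw [Finset.prod_insert ha]
    ring

private lemma ex_sum {ι : Type*} (s : Finset ι) (g : ι → Cube n → ℝ) :
    ex (fun x => ∑ i ∈ s, g i x) = ∑ i ∈ s, ex (g i) := by
  unfold ex
  rw [Finset.sum_comm, Finset.sum_div]

theorem qpush (q : Fin n → ℝ) (τ : Cube n) (φ : Cube n → ℝ) :
    ex (fun x => ∑ F : Finset (Fin n), pw q F * φ (mix F τ x))
      = ex (fun y => φ y * ∏ a, (1 + q a * ((τ a : ℤ) : ℝ) * ((y a : ℤ) : ℝ))) := by
  rw [ex_sum]
  have h1 : ∀ F : Finset (Fin n), ex (fun x => pw q F * φ (mix F τ x))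
      = ex (fun y => pw q F * (φ y * ∏ a ∈ F, (1 + ((τ a : ℤ) : ℝ) * ((y a : ℤ) : ℝ)))) := by
    intro F
    rw [ex_mul_left', ex_mul_left', ex_mix_fixed]
  rw [Finset.sum_congr rfl fun F _ => h1 F, ← ex_sum]
  congr 1
  funext y
  have h2 := sum_pw_prod q (fun a => 1 + ((τ a : ℤ) : ℝ) * ((y a : ℤ) : ℝ))
  have h3 : ∏ a, (q a * (1 + ((τ a : ℤ) : ℝ) * ((y a : ℤ) : ℝ)) + (1 - q a))
      = ∏ a, (1 + q a * ((τ a : ℤ) : ℝ) * ((y a : ℤ) : ℝ)) := by
    refine Finset.prod_congr rfl fun a _ => ?_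
    ring
  rw [← h3, ← h2, Finset.mul_sum]
  refine Finset.sum_congr rfl fun F _ => ?_
  ring

end Pool.Agent.SUB
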