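import Mathlib
import Pool.Agent.SUB.QFlip

/-!
QP module QCH: a Chernoff bound.

With `θ = 1/β`: `∑_F pw q F exp(θ ∑_{a∈F} b a) = ∏_a (1 + q a (exp(θ b a) - 1))` (`sum_pw_prod` with
`u a = exp(θ b a)`), `exp y - 1 ≤ 2y` for `0 ≤ y ≤ 1`, so this is
`≤ ∏_a (1 + 2 t θ (b a)^2) ≤ exp(2 t θ B₂)`, `B₂ = ∑ (b a)^2`, `q a = t b a`. On the event
`B₂/8 < ∑_{a∈F} b a` the exponential is `≥ exp(θ B₂/8)`. So the probability is
`≤ exp(2tθB₂ - θB₂/8) ≤ exp(-θB₂/16)` as `t ≤ 1/32`.
-/

set_option linter.dupNamespace false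

namespace Pool.Agent.SUB

open Finset Pool.Agent.Helper11.Cube Pool.Agent.Helper11.AA

variable {n : ℕ}

theorem qchern {b : Fin n → ℝ} (hb0 : ∀ a, 0 ≤ b a) {β t : ℝ} (hβ : 0 < β) (hβ1 : β ≤ 1)
    (hb : ∀ a, b a ≤ β) (ht0 : 0 ≤ t) (ht : t ≤ 1 / 32) :
    ∑ F ∈ univ.filter (fun F : Finset (Fin n) => (∑ a, b a ^ 2) / 8 < ∑ a ∈ F, b a),
        pw (fun a => t * b a) F
      ≤ Real.exp (-((∑ a, b a ^ 2) / (16 * β))) := by
  have hB : 0 ≤ ∑ a, b a ^ 2 := sum_nonneg fun a _ => sq_nonneg _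
  have hq0 : ∀ a, 0 ≤ t * b a := fun a => mul_nonneg ht0 (hb0 a)
  have hq1 : ∀ a, t * b a ≤ 1 := fun a => by nlinarith [hb0 a, hb a]
  -- the exponential moment
  have hZ : ∑ F : Finset (Fin n), pw (fun a => t * b a) F * Real.exp (∑ a ∈ F, b a / β)
      ≤ Real.exp (2 * t / β * ∑ a, b a ^ 2) := by
    have h1 : ∀ F : Finset (Fin n), pw (fun a => t * b a) F * Real.exp (∑ a ∈ F, b a / β)
        = pw (fun a => t * b a) F * ∏ a ∈ F, Real.exp (b a / β) := by
      intro F
      rw [Real.exp_sum]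
    rw [sum_congr rfl (fun F _ => h1 F), sum_pw_prod, mul_sum, Real.exp_sum]
    refine prod_le_prod (fun a _ => ?_) (fun a _ => ?_)
    · have h2 := hq0 a
      have h3 := hq1 a
      have h4 := Real.exp_pos (b a / β)
      nlinarith
    · have hy0 : 0 ≤ b a / β := div_nonneg (hb0 a) hβ.le
      have hy1 : b a / β ≤ 1 := (div_le_one hβ).2 (hb a)
      have h2 : |Real.exp (b a / β) - 1| ≤ 2 * |b a / β| :=
        Real.abs_exp_sub_one_le (by rw [abs_of_nonneg hy0]; exact hy1)
      rw [abs_of_nonneg hy0] at h2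
      have h3 := (le_abs_self _).trans h2
      have h4 : t * b a * Real.exp (b a / β) + (1 - t * b a)
          ≤ 2 * t / β * b a ^ 2 + 1 := by
        have h5 : t * b a * (Real.exp (b a / β) - 1) ≤ t * b a * (2 * (b a / β)) :=
          mul_le_mul_of_nonneg_left h3 (hq0 a)
        have h6 : t * b a * (2 * (b a / β)) = 2 * t / β * b a ^ 2 := by
          field_simp
        linarith
      exact h4.trans (Real.add_one_le_exp _)
  -- Markov
  have hM : ∑ F ∈ univ.filter (fun F : Finset (Fin n) => (∑ a, b a ^ 2) / 8 < ∑ a ∈ F, b a),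
        pw (fun a => t * b a) F
      ≤ Real.exp (-((∑ a, b a ^ 2) / (8 * β))) *
        ∑ F : Finset (Fin n), pw (fun a => t * b a) F * Real.exp (∑ a ∈ F, b a / β) := by
    rw [mul_sum]
    calc ∑ F ∈ univ.filter (fun F : Finset (Fin n) => (∑ a, b a ^ 2) / 8 < ∑ a ∈ F, b a),
          pw (fun a => t * b a) F
        ≤ ∑ F ∈ univ.filter (fun F : Finset (Fin n) => (∑ a, b a ^ 2) / 8 < ∑ a ∈ F, b a),
          Real.exp (-((∑ a, b a ^ 2) / (8 * β))) *
            (pw (fun a => t * b a) F * Real.exp (∑ a ∈ F, b a / β)) := by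
          refine sum_le_sum fun F hF => ?_
          have hF' := (mem_filter.1 hF).2
          have h1 : 1 ≤ Real.exp (-((∑ a, b a ^ 2) / (8 * β))) *
              Real.exp (∑ a ∈ F, b a / β) := by
            rw [← Real.exp_add]
            apply Real.one_le_exp
            rw [← sum_div]
            have h2 : (∑ a, b a ^ 2) / (8 * β) = ((∑ a, b a ^ 2) / 8) / β := by
              rw [div_div]
            rw [h2]
            have h3 : ((∑ a, b a ^ 2) / 8) / β ≤ (∑ a ∈ F, b a) / β :=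
              div_le_div_of_nonneg_right hF'.le hβ.le
            linarith
          have h2 := pw_nonneg hq0 hq1 F
          calc pw (fun a => t * b a) F = pw (fun a => t * b a) F * 1 := (mul_one _).symm
            _ ≤ pw (fun a => t * b a) F * (Real.exp (-((∑ a, b a ^ 2) / (8 * β))) *
              Real.exp (∑ a ∈ F, b a / β)) := mul_le_mul_of_nonneg_left h1 h2
            _ = _ := by ring
      _ ≤ _ := by
          refine sum_le_sum_of_subset_of_nonneg (filter_subset _ _) fun F _ _ => ?_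
          have h2 := pw_nonneg hq0 hq1 F
          positivity
  refine hM.trans ?_
  calc Real.exp (-((∑ a, b a ^ 2) / (8 * β))) *
        ∑ F : Finset (Fin n), pw (fun a => t * b a) F * Real.exp (∑ a ∈ F, b a / β)
      ≤ Real.exp (-((∑ a, b a ^ 2) / (8 * β))) * Real.exp (2 * t / β * ∑ a, b a ^ 2) :=
        mul_le_mul_of_nonneg_left hZ (Real.exp_pos _).le
    _ = Real.exp (-((∑ a, b a ^ 2) / (8 * β)) + 2 * t / β * ∑ a, b a ^ 2) :=
        (Real.exp_add _ _).symm
    _ ≤ Real.exp (-((∑ a, b a ^ 2) / (16 * β))) := by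
        apply Real.exp_le_exp.2
        have h1 : -((∑ a, b a ^ 2) / (8 * β)) + 2 * t / β * ∑ a, b a ^ 2
            = (2 * t - 1 / 8) * ((∑ a, b a ^ 2) / β) := by
          field_simp
          ring
        have h2 : -((∑ a, b a ^ 2) / (16 * β)) = (-(1 / 16)) * ((∑ a, b a ^ 2) / β) := by
          field_simp
        rw [h1, h2]
        apply mul_le_mul_of_nonneg_right _ (div_nonneg hB hβ.le)
        linarith

end Pool.Agent.SUB
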