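import Mathlib
import Pool.Agent.SUB.Defs
import Pool.Agent.Helper11.Markov

/-!
QP module QMK: coefficients of a polynomial bounded on `[0, ρ]`.

* `deriv_bound`: if `natDegree P ≤ d` and `|P| ≤ B` on `[0,ρ]` then `|P'| ≤ (4 d^2/ρ) B` on
  `[0,ρ]`. For `t ∈ [0,ρ]` one of `[0,t]`, `[t,ρ]` has length `≥ ρ/2`; compose with the affine map
  sending `[-1,1]` onto it with `1 ↦ t` and use `Pool.Agent.Helper11.Cube.markov_endpoint`
  (`|Q'(1)| ≤ d^2 B`; the affine map has slope of absolute value `≥ ρ/4`).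
* `coeff_bound`: iterate: `|P^(j)| ≤ (4 d^2/ρ)^j` on `[0,ρ]` (`natDegree` of the derivative is
  `≤ d`), and `P.coeff j * j! = P^(j)(0)` (`Polynomial.coeff_iterate_derivative` /
  `Polynomial.coeff_zero_eq_eval_zero`), `j! ≥ 1`.
-/

set_option linter.dupNamespace false

namespace Pool.Agent.SUB

open Finset Polynomial Pool.Agent.Helper11.Cube

private lemma affine_bound {d : ℕ} {P : ℝ[X]} (hP : P.natDegree ≤ d) {ρ B : ℝ} (hB0 : 0 ≤ B)
    (hB : ∀ t, 0 ≤ t → t ≤ ρ → |P.eval t| ≤ B) (m c : ℝ)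
    (h : ∀ s ∈ Set.Icc (-1 : ℝ) 1, 0 ≤ m * s + c ∧ m * s + c ≤ ρ) :
    |(derivative P).eval (m + c)| * |m| ≤ (d : ℝ) ^ 2 * B := by
  have h1 := markov_endpoint (d := d) (P := P.comp (C m * X + C c)) hB0 ?_ ?_
  · have h2 : (derivative (P.comp (C m * X + C c))).eval 1 = m * (derivative P).eval (m + c) := by
      rw [derivative_comp]
      simp [eval_comp]
    rw [h2, abs_mul, mul_comm] at h1
    exact h1
  · rw [← natDegree_le_iff_degree_le]
    calc (P.comp (C m * X + C c)).natDegree ≤ P.natDegree * (C m * X + C c).natDegree :=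
          natDegree_comp_le
      _ ≤ d * 1 := Nat.mul_le_mul hP (natDegree_linear_le)
      _ = d := mul_one d
  · intro s hs
    have h3 := h s hs
    simp only [eval_comp, eval_add, eval_mul, eval_C, eval_X]
    exact hB _ h3.1 h3.2

lemma deriv_bound {d : ℕ} {P : ℝ[X]} (hP : P.natDegree ≤ d) {ρ B : ℝ} (hρ : 0 < ρ)
    (hB : ∀ t, 0 ≤ t → t ≤ ρ → |P.eval t| ≤ B) :
    ∀ t, 0 ≤ t → t ≤ ρ → |(derivative P).eval t| ≤ 4 * (d : ℝ) ^ 2 / ρ * B := by
  have hB0 : 0 ≤ B := le_trans (abs_nonneg _) (hB 0 le_rfl hρ.le)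
  intro t ht0 htρ
  have key : ∀ m c : ℝ, ρ / 4 ≤ |m| → m + c = t →
      (∀ s ∈ Set.Icc (-1 : ℝ) 1, 0 ≤ m * s + c ∧ m * s + c ≤ ρ) →
      |(derivative P).eval t| ≤ 4 * (d : ℝ) ^ 2 / ρ * B := by
    intro m c hm hmc h
    have h1 := affine_bound hP hB0 hB m c h
    rw [hmc] at h1
    have h2 : |(derivative P).eval t| * (ρ / 4) ≤ (d : ℝ) ^ 2 * B :=
      le_trans (mul_le_mul_of_nonneg_left hm (abs_nonneg _)) h1
    rw [div_mul_eq_mul_div, le_div_iff₀ hρ]
    linarith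
  by_cases ht : ρ / 2 ≤ t
  · refine key (t / 2) (t / 2) ?_ (by ring) ?_
    · rw [abs_of_nonneg (by linarith)]
      linarith
    · rintro s ⟨hs1, hs2⟩
      constructor <;> nlinarith
  · refine key (-(ρ - t) / 2) ((ρ + t) / 2) ?_ (by ring) ?_
    · rw [abs_of_nonpos (by linarith)]
      linarith
    · rintro s ⟨hs1, hs2⟩
      constructor <;> nlinarith

theorem coeff_bound {d : ℕ} {P : ℝ[X]} (hP : P.natDegree ≤ d) {ρ : ℝ} (hρ : 0 < ρ)
    (hB : ∀ t, 0 ≤ t → t ≤ ρ → |P.eval t| ≤ 1) (j : ℕ) :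
    |P.coeff j| ≤ (4 * (d : ℝ) ^ 2 / ρ) ^ j := by
  have hd : ∀ j : ℕ, (derivative^[j] P).natDegree ≤ d := fun j =>
    (natDegree_iterate_derivative P j).trans ((Nat.sub_le _ _).trans hP)
  have h1 : ∀ j : ℕ, ∀ t, 0 ≤ t → t ≤ ρ →
      |(derivative^[j] P).eval t| ≤ (4 * (d : ℝ) ^ 2 / ρ) ^ j := by
    intro j
    induction j with
    | zero => simpa using hB
    | succ j ih =>
      intro t h0 h2
      rw [Function.iterate_succ_apply', pow_succ']
      exact deriv_bound (hd j) hρ ih t h0 h2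
  have h2 := h1 j 0 le_rfl hρ.le
  rw [← coeff_zero_eq_eval_zero, coeff_iterate_derivative, Nat.zero_add, Nat.descFactorial_self,
    nsmul_eq_mul, abs_mul, Nat.abs_cast] at h2
  have h3 : (1 : ℝ) ≤ (j.factorial : ℝ) := by
    exact_mod_cast Nat.factorial_pos j
  nlinarith [abs_nonneg (P.coeff j)]

end Pool.Agent.SUB
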