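import Mathlib
import Pool.Agent.SUB.QMarkov

/-!
QP module QGR: a polynomial of degree `≤ d`, bounded by `1` on `[0,ρ]`, which is not too small at `0`,
is not too small at most points of a grid in `[1/64, 1/32]`.

Grid: `t_j = (1 + j/(4(k+1)))/64`, `0 ≤ j < 4(k+1)`; spacing `1/(256(k+1))`. Put `σ = 8ρ/d^2`, so
`hk : 4 e^V ≤ (σ/50)^(k+1)`. Since `|P(0)| ≤ 1`, `V ≥ 0`, hence `σ ≥ 50`.

`qlagr`: for a set `s` of `k+1` indices, `∑_{i∈s} |ℓ_i(0)| ≤ 50^(k+1)`, where
`ℓ_i(0) = ∏_{m ∈ s \ {i}} t_m/(t_m - t_i)` (`Lagrange.basis` evaluated at `0`): if `i` is the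
`r`-th smallest element of `s` (`0 ≤ r ≤ k`) then `∏_{m ≠ i} |m - i| ≥ r! (k-r)!`, so
`|ℓ_i(0)| ≤ (1/32)^k (256(k+1))^k/(r!(k-r)!) = (8(k+1))^k/(r!(k-r)!)`; the sum over `r` is
`(16(k+1))^k/k! ≤ 16^k e^(k+1) ≤ 50^(k+1)` (`(k+1)^k/k! ≤ e^(k+1)`).

`qgrid`: suppose `s` is a set of `k+1` bad indices. Let `P_k` be the truncation of `P` to degree
`≤ k`; for `0 ≤ t ≤ 1/32`,
`|P(t) - P_k(t)| ≤ ∑_{j>k} (4d^2/ρ)^j (1/32)^j = ∑_{j>k} σ^(-j) ≤ 2 σ^(-(k+1))` (`coeff_bound`).
By Lagrange interpolation (`Lagrange.eq_interpolate_of_eval_eq` or `Lagrange.sum_basis`..),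
`|P(0)| = |P_k(0)| ≤ ∑ |ℓ_i(0)| |P_k(t_i)| < 50^(k+1) (e^(-V)/(2·50^(k+1)) + 2σ^(-(k+1)))
 ≤ e^(-V)/2 + 2 (50/σ)^(k+1) ≤ e^(-V)`: contradiction. So at most `k` indices are bad.
-/

set_option linter.dupNamespace false

namespace Pool.Agent.SUB

open Finset Polynomial

/-- The grid points. -/
noncomputable def gpt (k j : ℕ) : ℝ := (1 + (j : ℝ) / (4 * ((k : ℝ) + 1))) / 64

private lemma gpt_pos (k j : ℕ) : 0 < gpt k j := by
  unfold gpt; positivity

private lemma gpt_sub (k m i : ℕ) :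
    gpt k m - gpt k i = ((m : ℝ) - i) / (256 * ((k : ℝ) + 1)) := by
  unfold gpt
  have : (k : ℝ) + 1 ≠ 0 := by positivity
  field_simp
  ring

private lemma gpt_le {k j : ℕ} (hj : j < 4 * (k + 1)) : gpt k j ≤ 1 / 32 := by
  unfold gpt
  have h1 : (0 : ℝ) < 4 * ((k : ℝ) + 1) := by positivity
  have h2 : (j : ℝ) / (4 * ((k : ℝ) + 1)) ≤ 1 := by
    rw [div_le_one h1]
    exact_mod_cast hj.le
  linarith

private lemma prod_dist (r k : ℕ) (hr : r ≤ k) :
    ∏ j ∈ (Finset.range (k + 1)).erase r, |(j : ℝ) - r| = (r.factorial : ℝ) * (k - r).factorial := by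
  induction k, hr using Nat.le_induction with
  | base =>
    have h1 : (Finset.range (r + 1)).erase r = Finset.range r := by
      rw [Finset.range_add_one, Finset.erase_insert Finset.notMem_range_self]
    rw [h1, Nat.sub_self, Nat.factorial_zero, Nat.cast_one, mul_one,
      ← Finset.prod_range_add_one_eq_factorial, ← Finset.prod_range_reflect]
    push_cast
    refine Finset.prod_congr rfl fun j hj => ?_
    have hj' := Finset.mem_range.1 hj
    have h2 : ((r - 1 - j : ℕ) : ℝ) = (r : ℝ) - 1 - j := by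
      rw [Nat.cast_sub (by omega), Nat.cast_sub (by omega)]; simp
    have h3 : (j : ℝ) < r := by exact_mod_cast hj'
    rw [h2, abs_sub_comm, abs_of_pos (by linarith)]
    ring
  | succ k hk ih =>
    have h1 : (Finset.range (k + 1 + 1)).erase r
        = insert (k + 1) ((Finset.range (k + 1)).erase r) := by
      rw [Finset.range_add_one, Finset.erase_insert_of_ne (by omega)]
    rw [h1, Finset.prod_insert (by simp), ih, Nat.succ_sub hk, Nat.factorial_succ]
    have h3 : (r : ℝ) ≤ k := by exact_mod_cast hk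
    rw [abs_of_pos (by push_cast; linarith)]
    push_cast [Nat.cast_sub hk]
    ring

private lemma emb_dist {N : ℕ} (e : Fin N ↪o ℕ) (i j : Fin N) (hij : i ≤ j) :
    (j : ℕ) + e i ≤ e j + i := by
  obtain ⟨m, hm⟩ := Nat.exists_eq_add_of_le (show (i : ℕ) ≤ j from hij)
  induction m generalizing j with
  | zero =>
    have : i = j := Fin.ext (by omega)
    subst this
    omega
  | succ m ih =>
    have hlt : (i : ℕ) + m < N := by have := j.2; omega
    have h1 := ih ⟨i + m, hlt⟩ (by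
      show (i : ℕ) ≤ i + m
      omega) rfl
    have h2 : e ⟨i + m, hlt⟩ < e j := e.strictMono (by
      show (i : ℕ) + m < j
      omega)
    simp only at h1
    omega

private lemma emb_abs {N : ℕ} (e : Fin N ↪o ℕ) (i j : Fin N) :
    |((j : ℕ) : ℝ) - (i : ℕ)| ≤ |((e j : ℕ) : ℝ) - (e i : ℕ)| := by
  rcases le_total i j with h | h
  · have h1 := emb_dist e i j h
    have h1' : ((j : ℕ) : ℝ) + (e i : ℕ) ≤ (e j : ℕ) + (i : ℕ) := by exact_mod_cast h1
    have h2 : ((i : ℕ) : ℝ) ≤ (j : ℕ) := by exact_mod_cast h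
    rw [abs_of_nonneg (by linarith), abs_of_nonneg (by linarith)]
    linarith
  · have h1 := emb_dist e j i h
    have h1' : ((i : ℕ) : ℝ) + (e j : ℕ) ≤ (e i : ℕ) + (j : ℕ) := by exact_mod_cast h1
    have h2 : ((j : ℕ) : ℝ) ≤ (i : ℕ) := by exact_mod_cast h
    rw [abs_of_nonpos (by linarith), abs_of_nonpos (by linarith)]
    linarith

lemma qlagr (k : ℕ) (s : Finset ℕ) (hs : s ⊆ Finset.range (4 * (k + 1))) (hc : s.card = k + 1) :
    ∑ i ∈ s, ∏ m ∈ s.erase i, |gpt k m / (gpt k m - gpt k i)| ≤ 50 ^ (k + 1) := by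
  set e := s.orderEmbOfFin hc with he
  have hmap : Finset.map e.toEmbedding Finset.univ = s := Finset.map_orderEmbOfFin_univ s hc
  have hk0 : (0 : ℝ) < (k : ℝ) + 1 := by positivity
  have h1 : ∑ i ∈ s, ∏ m ∈ s.erase i, |gpt k m / (gpt k m - gpt k i)|
      = ∑ r : Fin (k + 1), ∏ r' ∈ Finset.univ.erase r,
        |gpt k (e r') / (gpt k (e r') - gpt k (e r))| := by
    conv_lhs => rw [← hmap]
    rw [Finset.sum_map]
    refine Finset.sum_congr rfl fun r _ => ?_
    have h2 : (Finset.map e.toEmbedding Finset.univ).erase (e.toEmbedding r)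
        = (Finset.univ.erase r).map e.toEmbedding := by
      rw [Finset.map_erase]
    rw [h2, Finset.prod_map]
    rfl
  have h3 : ∀ r : Fin (k + 1), ∏ r' ∈ Finset.univ.erase r,
        |gpt k (e r') / (gpt k (e r') - gpt k (e r))|
      ≤ (8 * ((k : ℝ) + 1)) ^ k * (((k.choose r : ℕ) : ℝ) / k.factorial) := by
    intro r
    have hrk : (r : ℕ) ≤ k := by have := r.2; omega
    have h4 : ∏ r' ∈ Finset.univ.erase r, |gpt k (e r') / (gpt k (e r') - gpt k (e r))|
        ≤ ∏ r' ∈ Finset.univ.erase r, (8 * ((k : ℝ) + 1)) * |((r' : ℕ) : ℝ) - (r : ℕ)|⁻¹ := by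
      refine Finset.prod_le_prod (fun r' _ => abs_nonneg _) fun r' hr' => ?_
      have hne : r' ≠ r := Finset.ne_of_mem_erase hr'
      have hne' : (r' : ℕ) ≠ r := fun h => hne (Fin.ext h)
      have hpos : 0 < |((r' : ℕ) : ℝ) - (r : ℕ)| := by
        rw [abs_pos, sub_ne_zero]
        exact_mod_cast hne'
      have h5 := emb_abs e r r'
      have hmem : e r' ∈ Finset.range (4 * (k + 1)) := hs (Finset.orderEmbOfFin_mem s hc r')
      have h6 := gpt_le (Finset.mem_range.1 hmem)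
      rw [gpt_sub, abs_div, abs_div, abs_of_pos (gpt_pos k _),
        abs_of_pos (show (0 : ℝ) < 256 * ((k : ℝ) + 1) by positivity), div_div_eq_mul_div]
      rw [← div_eq_mul_inv]
      rw [div_le_div_iff₀ (lt_of_lt_of_le hpos h5) hpos]
      refine mul_le_mul ?_ h5 hpos.le (by positivity)
      nlinarith
    refine h4.trans (le_of_eq ?_)
    rw [Finset.prod_mul_distrib, Finset.prod_const, Finset.card_erase_of_mem (Finset.mem_univ _),
      Finset.card_univ, Fintype.card_fin, Nat.add_sub_cancel]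
    congr 1
    have h7 : ∏ r' ∈ Finset.univ.erase r, |((r' : ℕ) : ℝ) - (r : ℕ)|⁻¹
        = ((r : ℕ).factorial * (k - r).factorial : ℝ)⁻¹ := by
      rw [Finset.prod_inv_distrib, ← prod_dist r k hrk]
      congr 1
      have h8 : (Finset.range (k + 1)).erase r
          = (Finset.univ.erase r).map Fin.valEmbedding := by
        rw [Finset.map_erase]
        congr 1
        ext x
        simp only [Finset.mem_range, Finset.mem_map, Finset.mem_univ, true_and,
          Fin.valEmbedding_apply]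
        constructor
        · intro hx; exact ⟨⟨x, hx⟩, rfl⟩
        · rintro ⟨y, rfl⟩; exact y.2
      rw [h8, Finset.prod_map]
      rfl
    rw [h7]
    have h9 : ((k.choose r : ℕ) : ℝ) * (r : ℕ).factorial * (k - r).factorial = k.factorial := by
      exact_mod_cast Nat.choose_mul_factorial_mul_factorial hrk
    have h10 : ((r : ℕ).factorial : ℝ) ≠ 0 := by positivity
    have h11 : ((k - r).factorial : ℝ) ≠ 0 := by positivity
    have h12 : (k.factorial : ℝ) ≠ 0 := by positivity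
    rw [eq_div_iff h12, ← h9]
    field_simp
  rw [h1]
  refine (Finset.sum_le_sum fun r _ => h3 r).trans ?_
  rw [← Finset.mul_sum, ← Finset.sum_div]
  have h13 : ∑ r : Fin (k + 1), ((k.choose r : ℕ) : ℝ) = 2 ^ k := by
    rw [Fin.sum_univ_eq_sum_range (fun r => ((k.choose r : ℕ) : ℝ)) (k + 1)]
    exact_mod_cast Nat.sum_range_choose k
  rw [h13]
  have h14 := Real.pow_div_factorial_le_exp ((k : ℝ) + 1) (by positivity) k
  have h15 : Real.exp ((k : ℝ) + 1) = Real.exp 1 ^ (k + 1) := by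
    rw [← Real.exp_nat_mul]; push_cast; ring_nf
  rw [h15] at h14
  have h16 : Real.exp 1 ≤ 3 := by
    have := Real.exp_one_lt_d9; linarith
  calc (8 * ((k : ℝ) + 1)) ^ k * (2 ^ k / k.factorial)
      = 16 ^ k * (((k : ℝ) + 1) ^ k / k.factorial) := by
        rw [mul_pow, show (16 : ℝ) = 8 * 2 by norm_num, mul_pow 8 2]; ring
    _ ≤ 16 ^ k * 3 ^ (k + 1) := by
        refine mul_le_mul_of_nonneg_left (h14.trans ?_) (by positivity)
        exact pow_le_pow_left₀ (Real.exp_pos 1).le h16 _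
    _ = 48 ^ k * 3 := by
        rw [pow_succ, ← mul_assoc, ← mul_pow]; norm_num
    _ ≤ 50 ^ k * 50 := by
        refine mul_le_mul ?_ (by norm_num) (by norm_num) (by positivity)
        exact pow_le_pow_left₀ (by norm_num) (by norm_num) _
    _ = 50 ^ (k + 1) := by rw [pow_succ]

theorem qgrid {d : ℕ} (hd : 1 ≤ d) {P : ℝ[X]} (hP : P.natDegree ≤ d) {ρ V : ℝ} (hρ : 0 < ρ)
    (hB : ∀ t, 0 ≤ t → t ≤ ρ → |P.eval t| ≤ 1) (h0 : Real.exp (-V) ≤ |P.eval 0|) (k : ℕ)
    (hk : 4 * Real.exp V ≤ (8 * ρ / (50 * (d : ℝ) ^ 2)) ^ (k + 1)) :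
    ((Finset.range (4 * (k + 1))).filter
      (fun j => |P.eval (gpt k j)| < Real.exp (-V) / (2 * 50 ^ (k + 1)))).card ≤ k := by
  by_contra hcon
  push Not at hcon
  obtain ⟨s, hsub, hc⟩ := Finset.exists_subset_card_eq (Nat.succ_le_of_lt hcon)
  have hsub1 : s ⊆ Finset.range (4 * (k + 1)) := hsub.trans (Finset.filter_subset _ _)
  have hbad : ∀ j ∈ s, |P.eval (gpt k j)| < Real.exp (-V) / (2 * 50 ^ (k + 1)) := fun j hj =>
    (Finset.mem_filter.1 (hsub hj)).2
  have hd0 : (0 : ℝ) < (d : ℝ) := by exact_mod_cast hd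
  -- `V ≥ 0`
  have hP0 : |P.eval 0| ≤ 1 := hB 0 le_rfl hρ.le
  have hV : 1 ≤ Real.exp V := by
    have h1 : Real.exp (-V) ≤ 1 := h0.trans hP0
    rw [Real.exp_neg] at h1
    exact (inv_le_one₀ (Real.exp_pos V)).1 h1
  set σ : ℝ := 8 * ρ / (d : ℝ) ^ 2 with hσ
  have hσpos : 0 < σ := by rw [hσ]; positivity
  have hσ' : 8 * ρ / (50 * (d : ℝ) ^ 2) = σ / 50 := by
    rw [hσ]; field_simp
  rw [hσ'] at hk
  have hσ50 : 50 ≤ σ := by
    by_contra hlt
    push Not at hlt
    have h1 : (σ / 50) ^ (k + 1) ≤ 1 := by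
      refine pow_le_one₀ (by positivity) ?_
      rw [div_le_one (by norm_num)]; exact hlt.le
    linarith
  set x : ℝ := σ⁻¹ with hx
  have hx0 : 0 < x := inv_pos.2 hσpos
  have hx1 : x ≤ 1 / 50 := by
    rw [hx, ← one_div]
    exact one_div_le_one_div_of_le (by norm_num) hσ50
  -- truncation
  set Pk : ℝ[X] := ∑ j ∈ Finset.range (k + 1), C (P.coeff j) * X ^ j with hPk
  have hPkev : ∀ t, Pk.eval t = ∑ j ∈ Finset.range (k + 1), P.coeff j * t ^ j := by
    intro t
    rw [hPk, Polynomial.eval_finsetSum]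
    refine Finset.sum_congr rfl fun j _ => ?_
    simp
  have hPkdeg : Pk.degree < (s.card : ℕ) := by
    rw [hc, hPk]
    refine lt_of_le_of_lt (Polynomial.degree_sum_le _ _) ?_
    rw [Finset.sup_lt_iff (by exact WithBot.bot_lt_coe _)]
    intro j hj
    refine lt_of_le_of_lt (Polynomial.degree_C_mul_X_pow_le _ _) ?_
    exact_mod_cast Finset.mem_range.1 hj
  have htail : ∀ t, 0 ≤ t → t ≤ 1 / 32 → |P.eval t - Pk.eval t| ≤ 2 * x ^ (k + 1) := by
    intro t ht0 ht1
    have hlt : P.natDegree < d + k + 2 := by omega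
    rw [Polynomial.eval_eq_sum_range' hlt, hPkev]
    rw [← Finset.sum_Ico_eq_sub _ (show k + 1 ≤ d + k + 2 by omega)]
    refine (Finset.abs_sum_le_sum_abs _ _).trans ?_
    have h1 : ∀ j ∈ Finset.Ico (k + 1) (d + k + 2), |P.coeff j * t ^ j| ≤ x ^ j := by
      intro j _
      rw [abs_mul, abs_of_nonneg (pow_nonneg ht0 j)]
      have h2 := coeff_bound hP hρ hB j
      have h3 : x = (4 * (d : ℝ) ^ 2 / ρ) * (1 / 32) := by
        rw [hx, hσ]; field_simp; norm_num
      rw [h3, mul_pow]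
      exact mul_le_mul h2 (pow_le_pow_left₀ ht0 ht1 j) (pow_nonneg ht0 j) (by positivity)
    refine (Finset.sum_le_sum h1).trans ?_
    refine (geom_sum_Ico_le_of_lt_one hx0.le (by linarith)).trans ?_
    rw [div_le_iff₀ (by linarith)]
    have h4 : 0 ≤ x ^ (k + 1) := by positivity
    nlinarith
  -- Lagrange interpolation
  have hinj : Set.InjOn (gpt k) (s : Set ℕ) := by
    intro a _ b _ hab
    have h1 := gpt_sub k a b
    rw [hab, sub_self, eq_comm, div_eq_zero_iff] at h1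
    rcases h1 with h1 | h1
    · have : (a : ℝ) = b := by linarith
      exact_mod_cast this
    · exfalso
      have : (0 : ℝ) < 256 * ((k : ℝ) + 1) := by positivity
      linarith
  have hlag := Lagrange.eq_interpolate hinj hPkdeg
  have hev0 : |P.eval 0| ≤ ∑ i ∈ s, |Pk.eval (gpt k i)| *
      ∏ m ∈ s.erase i, |gpt k m / (gpt k m - gpt k i)| := by
    have h1 : P.eval 0 = Pk.eval 0 := by
      rw [hPkev, ← Polynomial.coeff_zero_eq_eval_zero, Finset.sum_range_succ']
      simp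
    rw [h1]
    conv_lhs => rw [hlag]
    rw [Lagrange.interpolate_apply, Polynomial.eval_finsetSum]
    refine (Finset.abs_sum_le_sum_abs _ _).trans (le_of_eq ?_)
    refine Finset.sum_congr rfl fun i _ => ?_
    rw [Polynomial.eval_mul, Polynomial.eval_C, abs_mul]
    congr 1
    rw [Lagrange.basis, Polynomial.eval_prod, Finset.abs_prod]
    refine Finset.prod_congr rfl fun m hm => ?_
    rw [Lagrange.basisDivisor]
    simp only [Polynomial.eval_mul, Polynomial.eval_C, Polynomial.eval_sub, Polynomial.eval_X]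
    rw [zero_sub, abs_mul, abs_neg, abs_inv, abs_div, abs_sub_comm]
    rw [mul_comm, div_eq_mul_inv]
  have hLpos : ∀ i ∈ s, 0 < ∏ m ∈ s.erase i, |gpt k m / (gpt k m - gpt k i)| := by
    intro i hi
    refine Finset.prod_pos fun m hm => ?_
    rw [abs_pos]
    refine div_ne_zero (gpt_pos k m).ne' (sub_ne_zero.2 fun h => ?_)
    exact Finset.ne_of_mem_erase hm (hinj (Finset.mem_of_mem_erase hm) hi h)
  set M : ℝ := Real.exp (-V) / (2 * 50 ^ (k + 1)) + 2 * x ^ (k + 1) with hM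
  have hM0 : 0 ≤ M := by rw [hM]; positivity
  have hlt : |P.eval 0| < M * 50 ^ (k + 1) := by
    refine lt_of_le_of_lt hev0 ?_
    have hne : s.Nonempty := Finset.card_pos.1 (by rw [hc]; omega)
    refine lt_of_lt_of_le (Finset.sum_lt_sum_of_nonempty hne (g := fun i => M *
      ∏ m ∈ s.erase i, |gpt k m / (gpt k m - gpt k i)|) fun i hi => ?_) ?_
    · refine mul_lt_mul_of_pos_right ?_ (hLpos i hi)
      have h2 := htail (gpt k i) (gpt_pos k i).le (gpt_le (Finset.mem_range.1 (hsub1 hi)))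
      have h3 := hbad i hi
      have h4 : |Pk.eval (gpt k i)| ≤ |P.eval (gpt k i)| + |P.eval (gpt k i) - Pk.eval (gpt k i)| := by
        have h5 := abs_sub_abs_le_abs_sub (Pk.eval (gpt k i)) (P.eval (gpt k i))
        rw [abs_sub_comm (Pk.eval (gpt k i))] at h5
        linarith
      rw [hM]
      linarith
    · rw [← Finset.mul_sum]
      exact mul_le_mul_of_nonneg_left (qlagr k s hsub1 hc) hM0
  have hfin : M * 50 ^ (k + 1) ≤ Real.exp (-V) := by
    have h1 : M * 50 ^ (k + 1) = Real.exp (-V) / 2 + 2 * (x * 50) ^ (k + 1) := by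
      rw [hM, mul_pow]
      field_simp
    have h2 : x * 50 = (σ / 50)⁻¹ := by
      rw [hx]; field_simp
    have h3 : (x * 50) ^ (k + 1) ≤ (4 * Real.exp V)⁻¹ := by
      rw [h2, inv_pow]
      exact inv_anti₀ (by positivity) hk
    have h4 : (4 * Real.exp V)⁻¹ = Real.exp (-V) / 4 := by
      rw [Real.exp_neg, mul_inv]; ring
    rw [h1]
    linarith
  linarith

end Pool.Agent.SUB
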