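import Mathlib
import Pool.Agent.SUB.Hw
import Pool.Agent.SUB.QKL
import Pool.Agent.SUB.Ex

/-!
QP module QTA: the linear form of the biases is large with probability `≥ B₂/(8L)`.

`P = ex h`, `L = -log P > 0`, `b_a = bias h a`, `B₂ = ∑_{a∈S} b_a^2 ≥ 4`, `Z x = ∑_{a∈S} b_a x_a`.
`B₂ ≤ 2 ∑ KL(b_a) ≤ 2L` (`sq_le_two_KL`, `sum_KL_le`, `KL_nonneg`). `ex (h Z) = P B₂` (`bias`).
`ex (exp(λ Z)) = ∏_{a∈S} cosh(λ b_a) ≤ exp(λ^2 B₂/2)` (`sum_prod_cube`, `Real.cosh_le_exp_half_sq`).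
Let `λ = √(2L/B₂) ≥ 1`, `z₁ = 2L/λ`. `h ≤ 1` and `y ≤ exp y` give
`ex (h (Z - z₁)^+) ≤ (1/λ) ex (exp(λ(Z - z₁))) ≤ (1/λ) exp(λ^2B₂/2 - λ z₁) = (1/λ) exp(-L) = P/λ`.
Since `Z ≤ B₂/2 + z₁ 1[B₂/2 ≤ Z] + (Z - z₁)^+` pointwise,
`P B₂ ≤ (B₂/2) P + z₁ E + P/λ`, `E = ex (h 1[B₂/2 ≤ Z])`; so
`E ≥ P (B₂/2 - 1/λ)/z₁ ≥ P (B₂/4)/z₁` (`1/λ ≤ 1 ≤ B₂/4`) and
`z₁ = 2L/λ ≤ 2L`; so `E ≥ P B₂/(8L)`.
-/

set_option linter.dupNamespace false

namespace Pool.Agent.SUB

open Finset Pool.Agent.Helper11.Cube Pool.Agent.Helper11.AA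

variable {n : ℕ}

private lemma qt_exp (b : Fin n → ℝ) (S : Finset (Fin n)) (l : ℝ) :
    ex (fun x : Cube n => Real.exp (l * ∑ a ∈ S, b a * ((x a : ℤ) : ℝ)))
      ≤ Real.exp (l ^ 2 * (∑ a ∈ S, b a ^ 2) / 2) := by
  classical
  have h1 : (fun x : Cube n => Real.exp (l * ∑ a ∈ S, b a * ((x a : ℤ) : ℝ)))
      = fun x : Cube n => ∏ a, (fun (a : Fin n) (u : ℤˣ) =>
          if a ∈ S then Real.exp (l * (b a * ((u : ℤ) : ℝ))) else 1) a (x a) := by
    funext x
    rw [Finset.mul_sum, Real.exp_sum]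
    change _ = ∏ a, (if a ∈ S then Real.exp (l * (b a * ((x a : ℤ) : ℝ))) else 1)
    rw [Finset.prod_ite_mem, Finset.univ_inter]
  rw [h1]
  unfold ex
  rw [sum_prod_cube (fun (a : Fin n) (u : ℤˣ) =>
          if a ∈ S then Real.exp (l * (b a * ((u : ℤ) : ℝ))) else 1)]
  have h2 : ((2 : ℝ) ^ n) = ∏ _a : Fin n, (2 : ℝ) := by
    rw [Finset.prod_const, Finset.card_univ, Fintype.card_fin]
  rw [h2, ← Finset.prod_div_distrib]
  have h3 : ∀ a : Fin n, ((if a ∈ S then Real.exp (l * (b a * (((1 : ℤˣ) : ℤ) : ℝ))) else 1) +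
      (if a ∈ S then Real.exp (l * (b a * (((-1 : ℤˣ) : ℤ) : ℝ))) else 1)) / 2
      = if a ∈ S then Real.cosh (l * b a) else 1 := by
    intro a
    split_ifs with h
    · rw [Real.cosh_eq]
      simp
    · norm_num
  rw [Finset.prod_congr rfl (fun a _ => h3 a), Finset.prod_ite_mem, Finset.univ_inter]
  calc ∏ a ∈ S, Real.cosh (l * b a) ≤ ∏ a ∈ S, Real.exp ((l * b a) ^ 2 / 2) :=
        Finset.prod_le_prod (fun a _ => (Real.cosh_pos _).le)
          (fun a _ => Real.cosh_le_exp_half_sq _)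
    _ = Real.exp (l ^ 2 * (∑ a ∈ S, b a ^ 2) / 2) := by
        rw [← Real.exp_sum]
        congr 1
        rw [Finset.mul_sum, Finset.sum_div]
        exact Finset.sum_congr rfl (fun a _ => by ring)

private lemma qt_lin {h : Cube n → ℝ} (hP : 0 < ex h) (S : Finset (Fin n)) :
    ex (fun x => h x * ∑ a ∈ S, bias h a * ((x a : ℤ) : ℝ))
      = ex h * ∑ a ∈ S, bias h a ^ 2 := by
  have h1 : ex (fun x => h x * ∑ a ∈ S, bias h a * ((x a : ℤ) : ℝ))
      = ∑ a ∈ S, bias h a * ex (fun x => ((x a : ℤ) : ℝ) * h x) := by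
    have e : ∀ x : Cube n, h x * ∑ a ∈ S, bias h a * ((x a : ℤ) : ℝ)
        = ∑ a ∈ S, bias h a * (((x a : ℤ) : ℝ) * h x) := by
      intro x
      rw [Finset.mul_sum]
      exact Finset.sum_congr rfl fun a _ => by ring
    unfold ex
    rw [Finset.sum_congr rfl fun x _ => e x, Finset.sum_comm, Finset.sum_div]
    refine Finset.sum_congr rfl fun a _ => ?_
    rw [← Finset.mul_sum, mul_div_assoc]
  rw [h1, Finset.mul_sum]
  refine Finset.sum_congr rfl fun a _ => ?_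
  have h2 : ex (fun x => ((x a : ℤ) : ℝ) * h x) = bias h a * ex h := by
    unfold bias
    field_simp
  rw [h2]
  ring

theorem qtail {h : Cube n → ℝ} (h0 : ∀ x, 0 ≤ h x) (h1 : ∀ x, h x ≤ 1) (hP : 0 < ex h)
    (S : Finset (Fin n)) (hB : 4 ≤ ∑ a ∈ S, bias h a ^ 2) :
    ex h * ((∑ a ∈ S, bias h a ^ 2) / (8 * (- Real.log (ex h))))
      ≤ ex (fun x => if (∑ a ∈ S, bias h a ^ 2) / 2 ≤ ∑ a ∈ S, bias h a * ((x a : ℤ) : ℝ)
          then h x else 0) := by
  set P := ex h with hPdef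
  set L := - Real.log P with hL
  set B := ∑ a ∈ S, bias h a ^ 2 with hBdef
  set Z : Cube n → ℝ := fun x => ∑ a ∈ S, bias h a * ((x a : ℤ) : ℝ) with hZ
  set E := ex (fun x => if B / 2 ≤ ∑ a ∈ S, bias h a * ((x a : ℤ) : ℝ) then h x else 0) with hE
  have hBL : B ≤ 2 * L := by
    have e1 : B / 2 ≤ ∑ a, KL (bias h a) := by
      rw [hBdef, Finset.sum_div]
      calc ∑ a ∈ S, bias h a ^ 2 / 2 ≤ ∑ a ∈ S, KL (bias h a) :=
            Finset.sum_le_sum fun a _ => sq_le_two_KL (abs_bias_le h0 a)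
        _ ≤ ∑ a, KL (bias h a) :=
            Finset.sum_le_sum_of_subset_of_nonneg (Finset.subset_univ _)
              (fun a _ _ => KL_nonneg (abs_bias_le h0 a))
    have e2 := sum_KL_le h0 h1 hP
    rw [← hPdef, ← hL] at e2
    linarith
  have hB0 : 0 < B := by linarith
  have hL0 : 0 < L := by linarith
  set l := Real.sqrt (2 * L / B) with hl
  have hl1 : 1 ≤ l := by
    rw [hl, Real.one_le_sqrt, le_div_iff₀ hB0]
    linarith
  have hl0 : 0 < l := by linarith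
  have hl2 : l ^ 2 * B / 2 = L := by
    rw [hl, Real.sq_sqrt (by positivity)]
    field_simp
  set z := 2 * L / l with hz
  have hlz : l * z = 2 * L := by rw [hz]; field_simp
  have hz2 : z ≤ 2 * L := by
    rw [hz, div_le_iff₀ hl0]
    nlinarith
  have hz0 : 0 < z := by rw [hz]; positivity
  have hE0 : 0 ≤ E := by
    have h00 : ∀ x : Cube n, (0 : ℝ) ≤ (if B / 2 ≤ ∑ a ∈ S,
        bias h a * ((x a : ℤ) : ℝ) then h x else 0) := by
      intro x
      split_ifs
      · exact h0 x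
      · exact le_rfl
    have := ex_mono h00
    rwa [ex_const'] at this
  -- pointwise bound
  have hpt : ∀ x, h x * Z x ≤ (B / 2) * h x + (z * (if B / 2 ≤ ∑ a ∈ S,
      bias h a * ((x a : ℤ) : ℝ) then h x else 0) + (1 / l * Real.exp (-(l * z))) *
        Real.exp (l * Z x)) := by
    intro x
    have e1 : (1 / l * Real.exp (-(l * z))) * Real.exp (l * Z x)
        = (1 / l) * Real.exp (l * (Z x - z)) := by
      rw [mul_assoc, ← Real.exp_add]
      congr 2
      ring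
    rw [e1]
    have e2 : Z x - z ≤ (1 / l) * Real.exp (l * (Z x - z)) := by
      have e3 := Real.add_one_le_exp (l * (Z x - z))
      rw [one_div, ← div_eq_inv_mul, le_div_iff₀ hl0]
      linarith [mul_comm l (Z x - z)]
    have e4 : 0 ≤ (1 / l) * Real.exp (l * (Z x - z)) := by positivity
    have hx0 := h0 x
    have hx1 := h1 x
    have e5 : h x * (Z x - z) ≤ (1 / l) * Real.exp (l * (Z x - z)) := by
      calc h x * (Z x - z) ≤ h x * ((1 / l) * Real.exp (l * (Z x - z))) :=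
            mul_le_mul_of_nonneg_left e2 hx0
        _ ≤ 1 * ((1 / l) * Real.exp (l * (Z x - z))) := mul_le_mul_of_nonneg_right hx1 e4
        _ = _ := one_mul _
    split_ifs with hif
    · nlinarith [mul_nonneg hB0.le hx0]
    · have hif' : Z x < B / 2 := not_le.mp hif
      nlinarith [mul_le_mul_of_nonneg_left hif'.le hx0]
  have hexp : ex (fun x => h x * Z x) ≤ (B / 2) * P + (z * E + (1 / l * Real.exp (-(l * z))) *
      ex (fun x => Real.exp (l * Z x))) := by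
    have e1 := ex_mono hpt
    rw [ex_add', ex_mul_left', ex_add', ex_mul_left', ex_mul_left'] at e1
    exact e1
  have hlin : ex (fun x => h x * Z x) = P * B := qt_lin hP S
  have hchern : ex (fun x => Real.exp (l * Z x)) ≤ Real.exp L := by
    have := qt_exp (fun a => bias h a) S l
    rwa [← hBdef, hl2] at this
  have hfin : (1 / l * Real.exp (-(l * z))) * ex (fun x => Real.exp (l * Z x)) ≤ P := by
    have e1 : Real.exp (-(l * z)) * Real.exp L = P := by
      rw [← Real.exp_add, hlz, hL]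
      have : -(2 * -Real.log P) + -Real.log P = Real.log P := by ring
      rw [this, Real.exp_log hP]
    calc (1 / l * Real.exp (-(l * z))) * ex (fun x => Real.exp (l * Z x))
        ≤ (1 / l * Real.exp (-(l * z))) * Real.exp L :=
          mul_le_mul_of_nonneg_left hchern (by positivity)
      _ = (1 / l) * P := by rw [mul_assoc, e1]
      _ ≤ 1 * P := mul_le_mul_of_nonneg_right (by rw [div_le_one hl0]; exact hl1) hP.le
      _ = P := one_mul _
  rw [hlin] at hexp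
  have hfin2 : P * (B / 4) ≤ 2 * L * E := by
    have e1 : z * E ≤ 2 * L * E := mul_le_mul_of_nonneg_right hz2 hE0
    nlinarith
  have e3 : P * (B / (8 * L)) = (P * (B / 4)) / (2 * L) := by
    field_simp
    ring
  rw [e3, div_le_iff₀ (by positivity)]
  linarith [mul_comm E (2 * L)]

end Pool.Agent.SUB
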