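import Mathlib
import Pool.Agent.SUB.QGrid
import Pool.Agent.SUB.QFlip
import Pool.Agent.SUB.QChern
import Pool.Agent.SUB.QTail

/-!
QP module QTR: if a fixed proportion of the entropy of a pivot `w` comes from tiny biases, then `w` is
pivotal with much larger probability at a slightly smaller threshold.

Notation: `g = D_w f` (`bdd_deriv`), `h = hw η p f w ∈ [0,1]`, `P = ex h = Pw`, `L = -log P`,
`S = {a | |bias h a| < β}`, `b a = |bias h a|` for `a ∈ S` and `b a = 0` otherwise,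
`B₂ = ∑_a (b a)^2 = ∑_{a∈S} (bias h a)^2`; `κL ≤ ∑_{a∈S} KL ≤ B₂` (`KL_le_sq`). `τ a = 1` if
`bias h a < 0` and `τ a = -1` otherwise, so `τ_a bias_a = -|bias_a|`. `Z x = ∑_{a∈S} bias_a x_a`,
`η'' = η/(4·50^(k+1))`, `q a = t b a`.
(1) `h' x = h x` if `B₂/2 ≤ Z x`, else `0`. `ex h' ≥ P B₂/(8L) ≥ P κ/8` (`qtail`, `B₂ ≥ κL ≥ 4`).
(2) For `x` with `h' x ≠ 0`: `|g x| > η` (`cut_eq_zero`). Let `r_x(t) = ∑_F pw (t b) F g (mix F τ x)`,
a polynomial in `t` of degree `≤ d` (`flip_poly`), bounded by `1` on `[0, 1/β]` (`t b a ≤ 1`,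
`pw_nonneg`, `sum_pw`), `r_x(0) = g x`. By `qgrid` (`ρ = 1/β`, `V = log (1/η)`, `hk` says
`4/η ≤ (8/(50 β d^2))^(k+1)`) at most `k` of the `4(k+1)` grid points `t_j` have
`|r_x(t_j)| < 2η''`. Averaging over `j`: there is `j` such that, with `t = t_j ∈ [1/64, 1/32]`,
`ex (h' x 1[|r_x(t)| ≥ 2η'']) ≥ (3/4) ex h'`.
(3) For such `x`: `2η'' ≤ ∑_F pw |g (mix F τ x)| ≤ η'' + P_F(|g (mix F τ x)| ≥ η'')`, so
`P_F(|g| ≥ η'') ≥ η''`. Moreover `Z (mix F τ x) ≥ Z x - 2 ∑_{a∈F} b a`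
(`bias_a (τ_a - x_a) = -b a - bias_a x_a ≥ -2 b a`), so by `qchern`
`P_F(Z (mix F τ x) < B₂/4) ≤ exp(-B₂/(16β)) ≤ exp(-1/(4β)) ≤ η''/2`. So with
`E = {y | η'' ≤ |g y| ∧ B₂/4 ≤ Z y}`, `P_F(mix F τ x ∈ E) ≥ η''/2`.
(4) `h' ≤ 1` and `qpush`: `(3/4)(Pκ/8)(η''/2) ≤ ex_x (h' x P_F(mix F τ x ∈ E))
≤ ex_y (1_E(y) ∏_a (1 + q a τ_a y_a)) ≤ exp(-t B₂/4) ex 1_E`, since
`∏ (1 + q a τ_a y_a) ≤ exp(∑ q a τ_a y_a) = exp(-t Z y) ≤ exp(-t B₂/4)` on `E`
(`b a τ_a = -bias_a` on `S`; factors are `≥ 0`).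
(5) `ex 1_E ≤ ex 1[η'' ≤ |g|] ≤ Pw (η''/2) p f w` (`cut_eq_one`), and
`exp(t B₂/4) ≥ exp(κL/256)`; `P = exp(-L)`.
-/

set_option linter.dupNamespace false

namespace Pool.Agent.SUB

open Finset Pool.Agent.Helper11.Cube Pool.Agent.Helper11.AA

variable {n d p : ℕ} {η : ℝ}

/-- An indicator as a real number. -/
private noncomputable def ind (c : Prop) : ℝ := by
  classical exact if c then 1 else 0

private lemma ind_true {c : Prop} (h : c) : ind c = 1 := by
  unfold ind; exact if_pos h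

private lemma ind_false {c : Prop} (h : ¬ c) : ind c = 0 := by
  unfold ind; exact if_neg h

private lemma ind_nonneg (c : Prop) : 0 ≤ ind c := by
  by_cases h : c
  · rw [ind_true h]; norm_num
  · rw [ind_false h]

private lemma ind_le_one (c : Prop) : ind c ≤ 1 := by
  by_cases h : c
  · rw [ind_true h]
  · rw [ind_false h]; norm_num

private lemma pw_zero (F : Finset (Fin n)) (b : Fin n → ℝ) :
    pw (fun a => 0 * b a) F = if F = ∅ then 1 else 0 := by
  unfold pw
  simp only [zero_mul, sub_zero, prod_const_one, mul_one]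
  split_ifs with h
  · subst h; simp
  · obtain ⟨a, ha⟩ := nonempty_iff_ne_empty.2 h
    exact prod_eq_zero ha rfl

private lemma mix_empty (τ x : Cube n) : mix ∅ τ x = x := by
  funext i; simp [mix]

/-- The value at `t = 0`. -/
private lemma flip_zero (g : Cube n → ℝ) (b : Fin n → ℝ) (τ x : Cube n) :
    ∑ F : Finset (Fin n), pw (fun a => 0 * b a) F * g (mix F τ x) = g x := by
  rw [sum_eq_single ∅]
  · rw [pw_zero, if_pos rfl, mix_empty, one_mul]
  · intro F _ hF
    rw [pw_zero, if_neg hF, zero_mul]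
  · intro h
    exact absurd (mem_univ _) h

/-- The polynomial is bounded by `1`. -/
private lemma flip_bd {g : Cube n → ℝ} (hg : ∀ x, |g x| ≤ 1) {b : Fin n → ℝ} {t : ℝ}
    (h0 : ∀ a, 0 ≤ t * b a) (h1 : ∀ a, t * b a ≤ 1) (τ x : Cube n) :
    |∑ F : Finset (Fin n), pw (fun a => t * b a) F * g (mix F τ x)| ≤ 1 := by
  calc |∑ F : Finset (Fin n), pw (fun a => t * b a) F * g (mix F τ x)|
      ≤ ∑ F : Finset (Fin n), |pw (fun a => t * b a) F * g (mix F τ x)| :=
        abs_sum_le_sum_abs _ _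
    _ ≤ ∑ F : Finset (Fin n), pw (fun a => t * b a) F := by
        refine sum_le_sum fun F _ => ?_
        rw [abs_mul, abs_of_nonneg (pw_nonneg h0 h1 F)]
        exact mul_le_of_le_one_right (pw_nonneg h0 h1 F) (hg _)
    _ = 1 := sum_pw _

private lemma gpt_lo (k j : ℕ) : 1 / 64 ≤ gpt k j := by
  unfold gpt
  have : (0 : ℝ) ≤ (j : ℝ) / (4 * ((k : ℝ) + 1)) := by positivity
  linarith

private lemma gpt_hi {k j : ℕ} (h : j < 4 * (k + 1)) : gpt k j ≤ 1 / 32 := by
  unfold gpt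
  have h1 : (j : ℝ) / (4 * ((k : ℝ) + 1)) ≤ 1 := by
    rw [div_le_one (by positivity)]
    have : (j : ℝ) ≤ ((4 * (k + 1) : ℕ) : ℝ) := Nat.cast_le.2 h.le
    push_cast at this
    linarith
  linarith

/-- Averaging over the grid. -/
private lemma pick {h' : Cube n → ℝ} (h0 : ∀ x, 0 ≤ h' x) (k : ℕ) (bad : ℕ → Cube n → Prop)
    [∀ j x, Decidable (bad j x)]
    (hb : ∀ x, h' x ≠ 0 → ((range (4 * (k + 1))).filter (fun j => bad j x)).card ≤ k) :
    ∃ j ∈ range (4 * (k + 1)),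
      3 / 4 * ex h' ≤ ex (fun x => h' x * ind (¬ bad j x)) := by
  have hsum : ∑ j ∈ range (4 * (k + 1)), (3 / 4 * ex h')
      ≤ ∑ j ∈ range (4 * (k + 1)), ex (fun x => h' x * ind (¬ bad j x)) := by
    rw [← ex_sum, sum_const, card_range, nsmul_eq_mul]
    have h2 : ((4 * (k + 1) : ℕ) : ℝ) * (3 / 4 * ex h') = ex (fun x => (3 * (k + 1) : ℝ) * h' x) := by
      rw [ex_const_mul]; push_cast; ring
    rw [h2]
    refine ex_mono fun x => ?_
    rw [← mul_sum, mul_comm]
    by_cases hx : h' x = 0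
    · rw [hx]; simp
    refine mul_le_mul_of_nonneg_left ?_ (h0 x)
    have h3 : ∑ j ∈ range (4 * (k + 1)), ind (¬ bad j x)
        = (((range (4 * (k + 1))).filter (fun j => ¬ bad j x)).card : ℝ) := by
      rw [card_filter]
      push_cast
      refine sum_congr rfl fun j _ => ?_
      by_cases hj : bad j x
      · rw [ind_false (not_not.2 hj)]; simp [hj]
      · rw [ind_true hj]; simp [hj]
    rw [h3]
    have h4 := card_filter_add_card_filter_not (s := range (4 * (k + 1))) (fun j => bad j x)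
    rw [card_range] at h4
    have h5 := hb x hx
    have h6 : 3 * (k + 1) ≤ ((range (4 * (k + 1))).filter (fun j => ¬ bad j x)).card := by omega
    calc (3 * (k + 1) : ℝ) = ((3 * (k + 1) : ℕ) : ℝ) := by push_cast; ring
      _ ≤ _ := Nat.cast_le.2 h6
  exact exists_le_of_sum_le (nonempty_range_iff.2 (by omega)) hsum

/-- Resetting coordinates decreases the linear form by at most `2 ∑_{a∈F} b a`. -/
private lemma zmix (c b : Fin n → ℝ) (τ : Cube n) (S F : Finset (Fin n)) (x : Cube n)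
    (hb0 : ∀ a, 0 ≤ b a) (hb : ∀ a ∈ S, b a = |c a|) :
    ∑ a ∈ S, c a * ((x a : ℤ) : ℝ) - 2 * ∑ a ∈ F, b a
      ≤ ∑ a ∈ S, c a * (((mix F τ x) a : ℤ) : ℝ) := by
  have h1 : ∀ a ∈ S, c a * ((x a : ℤ) : ℝ) - (if a ∈ F then 2 * b a else 0)
      ≤ c a * (((mix F τ x) a : ℤ) : ℝ) := by
    intro a ha
    unfold mix
    by_cases hF : a ∈ F
    · simp only [hF, if_true]
      rw [hb a ha]
      have h2 : |c a * ((x a : ℤ) : ℝ)| ≤ |c a| := by
        rcases Int.units_eq_one_or (x a) with h | h <;> simp [h]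
      have h3 : |c a * ((τ a : ℤ) : ℝ)| ≤ |c a| := by
        rcases Int.units_eq_one_or (τ a) with h | h <;> simp [h]
      have h4 := (abs_le.1 h2).2
      have h5 := (abs_le.1 h3).1
      linarith
    · simp only [hF, if_false]
      linarith
  have h6 : ∑ a ∈ S, (if a ∈ F then 2 * b a else 0) ≤ 2 * ∑ a ∈ F, b a := by
    rw [← sum_filter, mul_sum]
    refine sum_le_sum_of_subset_of_nonneg ?_ (fun a _ _ => by have := hb0 a; linarith)
    intro a ha
    exact (mem_filter.1 ha).2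
  have h7 := sum_le_sum h1
  rw [sum_sub_distrib] at h7
  linarith

/-- The event of being large has probability at least `η''`. -/
private lemma big_prob {g : Cube n → ℝ} (hg : ∀ x, |g x| ≤ 1) {q : Fin n → ℝ}
    (h0 : ∀ a, 0 ≤ q a) (h1 : ∀ a, q a ≤ 1) (τ x : Cube n) {e : ℝ} (he : 0 < e)
    (hx : 2 * e ≤ |∑ F : Finset (Fin n), pw q F * g (mix F τ x)|) :
    e ≤ ∑ F : Finset (Fin n), pw q F * ind (e ≤ |g (mix F τ x)|) := by
  have h2 : |∑ F : Finset (Fin n), pw q F * g (mix F τ x)|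
      ≤ e + ∑ F : Finset (Fin n), pw q F * ind (e ≤ |g (mix F τ x)|) := by
    calc |∑ F : Finset (Fin n), pw q F * g (mix F τ x)|
        ≤ ∑ F : Finset (Fin n), |pw q F * g (mix F τ x)| := abs_sum_le_sum_abs _ _
      _ ≤ ∑ F : Finset (Fin n), (e * pw q F + pw q F * ind (e ≤ |g (mix F τ x)|)) := by
          refine sum_le_sum fun F _ => ?_
          have hp := pw_nonneg h0 h1 F
          rw [abs_mul, abs_of_nonneg hp]
          by_cases hF : e ≤ |g (mix F τ x)|
          · rw [ind_true hF]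
            have h3 := mul_le_mul_of_nonneg_left (hg (mix F τ x)) hp
            have h4 : 0 ≤ e * pw q F := mul_nonneg he.le hp
            linarith
          · rw [ind_false hF]
            have h3 := mul_le_mul_of_nonneg_left (not_le.1 hF).le hp
            linarith
      _ = e + ∑ F : Finset (Fin n), pw q F * ind (e ≤ |g (mix F τ x)|) := by
          rw [sum_add_distrib, ← mul_sum, sum_pw, mul_one]
  linarith

/-- The event `E` has probability at least `η''/2`. -/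
private lemma E_prob {g : Cube n → ℝ} (hg : ∀ x, |g x| ≤ 1) {b c : Fin n → ℝ} {β t : ℝ}
    (hβ : 0 < β) (hβ1 : β ≤ 1) (hb0 : ∀ a, 0 ≤ b a) (hbβ : ∀ a, b a ≤ β)
    (ht0 : 0 ≤ t) (ht : t ≤ 1 / 32) (τ x : Cube n) (S : Finset (Fin n))
    (hb : ∀ a ∈ S, b a = |c a|) {e : ℝ} (he : 0 < e)
    (hx : 2 * e ≤ |∑ F : Finset (Fin n), pw (fun a => t * b a) F * g (mix F τ x)|)
    (hZ : (∑ a, b a ^ 2) / 2 ≤ ∑ a ∈ S, c a * ((x a : ℤ) : ℝ)) (hB : 4 ≤ ∑ a, b a ^ 2)
    (hβe : Real.exp (-(1 / (4 * β))) ≤ e / 2) :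
    e / 2 ≤ ∑ F : Finset (Fin n), pw (fun a => t * b a) F *
      ind (e ≤ |g (mix F τ x)| ∧
        (∑ a, b a ^ 2) / 4 ≤ ∑ a ∈ S, c a * (((mix F τ x) a : ℤ) : ℝ)) := by
  classical
  have hq0 : ∀ a, 0 ≤ t * b a := fun a => mul_nonneg ht0 (hb0 a)
  have hq1 : ∀ a, t * b a ≤ 1 := fun a => by nlinarith [hb0 a, hbβ a]
  have h1 := big_prob hg hq0 hq1 τ x he hx
  have h2 := qchern hb0 hβ hβ1 hbβ ht0 ht
  have h3 : Real.exp (-((∑ a, b a ^ 2) / (16 * β))) ≤ e / 2 := by
    refine le_trans (Real.exp_le_exp.2 ?_) hβe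
    have h4 : 1 / (4 * β) = 4 / (16 * β) := by field_simp; norm_num
    rw [h4]
    apply neg_le_neg
    exact div_le_div_of_nonneg_right hB (by positivity)
  have h5 : ∑ F : Finset (Fin n), pw (fun a => t * b a) F * ind (e ≤ |g (mix F τ x)|)
      ≤ (∑ F : Finset (Fin n), pw (fun a => t * b a) F *
        ind (e ≤ |g (mix F τ x)| ∧
          (∑ a, b a ^ 2) / 4 ≤ ∑ a ∈ S, c a * (((mix F τ x) a : ℤ) : ℝ)))
      + ∑ F ∈ univ.filter (fun F : Finset (Fin n) => (∑ a, b a ^ 2) / 8 < ∑ a ∈ F, b a),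
        pw (fun a => t * b a) F := by
    rw [sum_filter, ← sum_add_distrib]
    refine sum_le_sum fun F _ => ?_
    have hp := pw_nonneg hq0 hq1 F
    by_cases hF : (∑ a, b a ^ 2) / 8 < ∑ a ∈ F, b a
    · rw [if_pos hF]
      have h6 := mul_le_mul_of_nonneg_left (ind_le_one (e ≤ |g (mix F τ x)|)) hp
      have h7 := mul_nonneg hp (ind_nonneg (e ≤ |g (mix F τ x)| ∧
          (∑ a, b a ^ 2) / 4 ≤ ∑ a ∈ S, c a * (((mix F τ x) a : ℤ) : ℝ)))
      linarith
    · rw [if_neg hF, add_zero]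
      apply mul_le_mul_of_nonneg_left _ hp
      by_cases hG : e ≤ |g (mix F τ x)|
      · have hz := zmix c b τ S F x hb0 hb
        have h8 : (∑ a, b a ^ 2) / 4 ≤ ∑ a ∈ S, c a * (((mix F τ x) a : ℤ) : ℝ) := by
          have := not_lt.1 hF
          linarith
        rw [ind_true hG, ind_true ⟨hG, h8⟩]
      · rw [ind_false hG]
        exact ind_nonneg _
  linarith

/-- Step (4). -/
private lemma push_bound {b c : Fin n → ℝ} {β t : ℝ} (hβ1 : β ≤ 1) (hb0 : ∀ a, 0 ≤ b a)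
    (hbβ : ∀ a, b a ≤ β) (ht0 : 0 ≤ t) (ht : t ≤ 1 / 32) (τ : Cube n) (S : Finset (Fin n))
    (hbS : ∀ a ∈ S, b a * ((τ a : ℤ) : ℝ) = - c a) (hbS' : ∀ a, a ∉ S → b a = 0)
    {B : ℝ} (E : Cube n → Prop) (hE : ∀ y, E y → B ≤ ∑ a ∈ S, c a * ((y a : ℤ) : ℝ)) :
    ex (fun x => ∑ F : Finset (Fin n), pw (fun a => t * b a) F * ind (E (mix F τ x)))
      ≤ Real.exp (-(t * B)) * ex (fun y => ind (E y)) := by
  rw [qpush (fun a => t * b a) τ (fun y => ind (E y)), ← ex_const_mul]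
  refine ex_mono fun y => ?_
  by_cases hy : E y
  · rw [ind_true hy, one_mul, mul_one]
    have h1 : ∏ a, (1 + t * b a * ((τ a : ℤ) : ℝ) * ((y a : ℤ) : ℝ))
        ≤ ∏ a, Real.exp (t * b a * ((τ a : ℤ) : ℝ) * ((y a : ℤ) : ℝ)) := by
      refine prod_le_prod (fun a _ => ?_) (fun a _ => ?_)
      · have h2 : |t * b a * ((τ a : ℤ) : ℝ) * ((y a : ℤ) : ℝ)| ≤ 1 := by
          have h3 : |t * b a * ((τ a : ℤ) : ℝ) * ((y a : ℤ) : ℝ)| = |t * b a| := by
            rcases Int.units_eq_one_or (τ a) with h | h <;>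
              rcases Int.units_eq_one_or (y a) with h' | h' <;> simp [h, h']
          rw [h3, abs_of_nonneg (mul_nonneg ht0 (hb0 a))]
          nlinarith [hb0 a, hbβ a]
        have h4 := (abs_le.1 h2).1
        linarith
      · have := Real.add_one_le_exp (t * b a * ((τ a : ℤ) : ℝ) * ((y a : ℤ) : ℝ))
        linarith
    refine h1.trans ?_
    rw [← Real.exp_sum]
    apply Real.exp_le_exp.2
    have h5 : ∑ a, t * b a * ((τ a : ℤ) : ℝ) * ((y a : ℤ) : ℝ)
        = -(t * ∑ a ∈ S, c a * ((y a : ℤ) : ℝ)) := by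
      rw [mul_sum, ← sum_neg_distrib, ← sum_subset (subset_univ S)]
      · refine sum_congr rfl fun a ha => ?_
        have := hbS a ha
        calc t * b a * ((τ a : ℤ) : ℝ) * ((y a : ℤ) : ℝ)
            = t * (b a * ((τ a : ℤ) : ℝ)) * ((y a : ℤ) : ℝ) := by ring
          _ = _ := by rw [this]; ring
      · intro a _ ha
        rw [hbS' a ha]; simp
    rw [h5]
    apply neg_le_neg
    exact mul_le_mul_of_nonneg_left (hE y hy) ht0
  · rw [ind_false hy]; simp

theorem qtrans (hd : 1 ≤ d) (hp : 1 ≤ p) (hη : 0 < η) (hη1 : η ≤ 1) {f : Cube n → ℝ}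
    (hf : Bdd d f) (w : Fin n) {β κ : ℝ} (hβ : 0 < β) (hβ1 : β ≤ 1) (hκ : 0 < κ) (hκ1 : κ ≤ 1)
    (hP : 0 < Pw η p f w)
    (hS : κ * (- Real.log (Pw η p f w))
      ≤ ∑ a ∈ univ.filter (fun a => |bias (hw η p f w) a| < β), KL (bias (hw η p f w) a))
    (hL : 4 ≤ κ * (- Real.log (Pw η p f w))) (k : ℕ)
    (hk : 4 / η ≤ (8 / (50 * β * (d : ℝ) ^ 2)) ^ (k + 1))
    (hβη : Real.log (2 * (4 * 50 ^ (k + 1) / η)) ≤ 1 / (4 * β)) :
    3 / 64 * κ * (η / (4 * 50 ^ (k + 1)))
        * Real.exp (-((1 - κ / 256) * (- Real.log (Pw η p f w))))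
      ≤ Pw (η / (8 * 50 ^ (k + 1))) p f w := by
  classical
  set g : Cube n → ℝ := discreteDeriv w f with hgdef
  have hg := bdd_deriv hf w
  set h : Cube n → ℝ := hw η p f w with hhdef
  have hh0 : ∀ x, 0 ≤ h x := fun x => hw_nonneg f w x
  have hh1 : ∀ x, h x ≤ 1 := fun x => hw_le_one f w x
  have hPex : Pw η p f w = ex h := rfl
  set P : ℝ := Pw η p f w with hPdef
  set L : ℝ := -Real.log P with hLdef
  set c : Fin n → ℝ := bias h with hcdef
  have hc1 : ∀ a, |c a| ≤ 1 := fun a => abs_bias_le hh0 a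
  set S : Finset (Fin n) := univ.filter (fun a => |c a| < β) with hSdef
  set b : Fin n → ℝ := fun a => if a ∈ S then |c a| else 0 with hbdef
  have hb0 : ∀ a, 0 ≤ b a := by
    intro a
    simp only [hbdef]
    split_ifs
    · exact abs_nonneg _
    · exact le_rfl
  have hbβ : ∀ a, b a ≤ β := by
    intro a
    simp only [hbdef]
    split_ifs with ha
    · exact (mem_filter.1 ha).2.le
    · exact hβ.le
  have hbS : ∀ a ∈ S, b a = |c a| := fun a ha => by simp only [hbdef]; rw [if_pos ha]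
  have hbS' : ∀ a, a ∉ S → b a = 0 := fun a ha => by simp only [hbdef]; rw [if_neg ha]
  set B : ℝ := ∑ a, b a ^ 2 with hBdef
  have hBS : B = ∑ a ∈ S, c a ^ 2 := by
    rw [hBdef, ← sum_subset (subset_univ S)]
    · refine sum_congr rfl fun a ha => ?_
      rw [hbS a ha, sq_abs]
    · intro a _ ha
      rw [hbS' a ha]; simp
  have hκB : κ * L ≤ B := by
    rw [hBS]
    exact hS.trans (sum_le_sum fun a _ => KL_le_sq (hc1 a))
  have hB4 : 4 ≤ B := hL.trans hκB
  have hL0 : 0 < L := by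
    by_contra hcon
    have := mul_nonpos_of_nonneg_of_nonpos hκ.le (not_lt.1 hcon)
    linarith
  set e : ℝ := η / (4 * 50 ^ (k + 1)) with hedef
  have h50 : (0 : ℝ) < 4 * 50 ^ (k + 1) := by positivity
  have he : 0 < e := div_pos hη h50
  set τ : Cube n := fun a => if c a < 0 then 1 else -1 with hτdef
  have hτ : ∀ a ∈ S, b a * ((τ a : ℤ) : ℝ) = - c a := by
    intro a ha
    rw [hbS a ha]
    simp only [hτdef]
    by_cases hca : c a < 0
    · rw [if_pos hca, abs_of_neg hca]; simp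
    · rw [if_neg hca, abs_of_nonneg (not_lt.1 hca)]; simp
  -- step (1)
  set h' : Cube n → ℝ := fun x => if B / 2 ≤ ∑ a ∈ S, c a * ((x a : ℤ) : ℝ) then h x else 0
    with hh'def
  have hh'0 : ∀ x, 0 ≤ h' x := by
    intro x
    simp only [hh'def]
    split_ifs
    · exact hh0 x
    · exact le_rfl
  have hh'1 : ∀ x, h' x ≤ 1 := by
    intro x
    simp only [hh'def]
    split_ifs
    · exact hh1 x
    · norm_num
  have hstep1 : P * (κ / 8) ≤ ex h' := by
    have h1 := qtail hh0 hh1 (by rw [← hPex]; exact hP) S (by rw [← hBS]; exact hB4)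
    rw [← hPex] at h1
    have h2 : ex h' = ex (fun x => if (∑ a ∈ S, bias h a ^ 2) / 2 ≤ ∑ a ∈ S, bias h a * ((x a : ℤ) : ℝ)
          then h x else 0) := by
      rw [hh'def, hBS]
    rw [h2]
    refine le_trans ?_ h1
    apply mul_le_mul_of_nonneg_left _ hP.le
    have h3 : (∑ a ∈ S, bias h a ^ 2) = B := hBS.symm
    rw [h3]
    show κ / 8 ≤ B / (8 * L)
    rw [div_le_div_iff₀ (by norm_num) (by positivity)]
    nlinarith
  -- step (2)
  have hpoly : ∀ x : Cube n, ∃ Q : Polynomial ℝ, Q.natDegree ≤ d ∧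
      ∀ t : ℝ, Q.eval t = ∑ F : Finset (Fin n), pw (fun a => t * b a) F * g (mix F τ x) :=
    fun x => flip_poly hg.1 b τ x
  choose Q hQd hQ using hpoly
  have hexpV : Real.exp (-Real.log (1 / η)) = η := by
    rw [Real.log_div one_ne_zero hη.ne', Real.log_one, zero_sub, neg_neg, Real.exp_log hη]
  have hexpV' : Real.exp (Real.log (1 / η)) = 1 / η := Real.exp_log (by positivity)
  have hgrid : ∀ x, h' x ≠ 0 → ((range (4 * (k + 1))).filter
      (fun j => |(Q x).eval (gpt k j)| < 2 * e)).card ≤ k := by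
    intro x hx
    have hhx : h x ≠ 0 := by
      intro h0
      apply hx
      simp only [hh'def]
      split_ifs
      · exact h0
      · rfl
    have hgx : η < |g x| := by
      by_contra hcon
      exact hhx (hw_eq_zero hη hp (not_lt.1 hcon))
    have h1 := qgrid hd (hQd x) (ρ := 1 / β) (V := Real.log (1 / η)) (by positivity)
      (fun t ht0 ht1 => by
        rw [hQ x t]
        have htβ : t * β ≤ 1 := by
          rw [le_div_iff₀ hβ] at ht1
          exact ht1
        refine flip_bd hg.2 (fun a => mul_nonneg ht0 (hb0 a)) (fun a => ?_) τ x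
        exact (mul_le_mul_of_nonneg_left (hbβ a) ht0).trans htβ)
      (by rw [hexpV, hQ x 0, flip_zero]; exact hgx.le) k
      (by
        rw [hexpV']
        have h2 : (8 * (1 / β) / (50 * (d : ℝ) ^ 2)) = 8 / (50 * β * (d : ℝ) ^ 2) := by
          have hd0 : (d : ℝ) ≠ 0 := by
            have : 0 < d := hd
            positivity
          field_simp
        rw [h2]
        have h3 : 4 * (1 / η) = 4 / η := by ring
        rw [h3]
        exact hk)
    rw [hexpV] at h1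
    have h4 : η / (2 * 50 ^ (k + 1)) = 2 * e := by
      rw [hedef]; field_simp; ring
    rw [h4] at h1
    exact h1
  obtain ⟨j, hj, hpick⟩ := pick hh'0 k (fun j x => |(Q x).eval (gpt k j)| < 2 * e) hgrid
  set t : ℝ := gpt k j with htdef
  have ht1 : 1 / 64 ≤ t := gpt_lo k j
  have ht2 : t ≤ 1 / 32 := gpt_hi (mem_range.1 hj)
  have ht0 : 0 ≤ t := by linarith
  -- steps (3) and (4)
  set E : Cube n → Prop := fun y => e ≤ |g y| ∧ B / 4 ≤ ∑ a ∈ S, c a * ((y a : ℤ) : ℝ) with hEdef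
  have hβe : Real.exp (-(1 / (4 * β))) ≤ e / 2 := by
    have h1 : 2 * (4 * 50 ^ (k + 1) / η) = (e / 2)⁻¹ := by
      rw [hedef]; field_simp
    rw [h1, Real.log_inv] at hβη
    have h2 : -(1 / (4 * β)) ≤ Real.log (e / 2) := by linarith
    calc Real.exp (-(1 / (4 * β))) ≤ Real.exp (Real.log (e / 2)) := Real.exp_le_exp.2 h2
      _ = e / 2 := Real.exp_log (by positivity)
  have hpt : ∀ x, e / 2 * (h' x * ind (¬ |(Q x).eval t| < 2 * e))
      ≤ ∑ F : Finset (Fin n), pw (fun a => t * b a) F * ind (E (mix F τ x)) := by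
    intro x
    have hq0 : ∀ a, 0 ≤ t * b a := fun a => mul_nonneg ht0 (hb0 a)
    have hq1 : ∀ a, t * b a ≤ 1 := fun a => by nlinarith [hb0 a, hbβ a]
    have hnn : 0 ≤ ∑ F : Finset (Fin n), pw (fun a => t * b a) F * ind (E (mix F τ x)) :=
      sum_nonneg fun F _ => mul_nonneg (pw_nonneg hq0 hq1 F) (ind_nonneg _)
    by_cases hx : h' x = 0
    · rw [hx]; simpa using hnn
    by_cases hbad : |(Q x).eval t| < 2 * e
    · rw [ind_false (not_not.2 hbad)]; simpa using hnn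
    · have hZ : B / 2 ≤ ∑ a ∈ S, c a * ((x a : ℤ) : ℝ) := by
        by_contra hcon
        apply hx
        simp only [hh'def]
        rw [if_neg hcon]
      have h1 := E_prob hg.2 hβ hβ1 hb0 hbβ ht0 ht2 τ x S hbS he
        (by rw [← hQ x t]; exact not_lt.1 hbad) hZ hB4 hβe
      rw [ind_true hbad, mul_one]
      have h2 : e / 2 * h' x ≤ e / 2 := mul_le_of_le_one_right (by positivity) (hh'1 x)
      exact h2.trans h1
  have h34 : e / 2 * (3 / 4 * (P * (κ / 8))) ≤ Real.exp (-(t * (B / 4))) * ex (fun y => ind (E y)) := by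
    calc e / 2 * (3 / 4 * (P * (κ / 8))) ≤ e / 2 * (3 / 4 * ex h') := by
          apply mul_le_mul_of_nonneg_left _ (by positivity)
          apply mul_le_mul_of_nonneg_left hstep1 (by norm_num)
      _ ≤ e / 2 * ex (fun x => h' x * ind (¬ |(Q x).eval t| < 2 * e)) :=
          mul_le_mul_of_nonneg_left hpick (by positivity)
      _ = ex (fun x => e / 2 * (h' x * ind (¬ |(Q x).eval t| < 2 * e))) := (ex_const_mul _ _).symm
      _ ≤ ex (fun x => ∑ F : Finset (Fin n), pw (fun a => t * b a) F * ind (E (mix F τ x))) :=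
          ex_mono hpt
      _ ≤ _ := push_bound hβ1 hb0 hbβ ht0 ht2 τ S hτ hbS' E (fun y hy => hy.2)
  -- step (5)
  have h5 : ex (fun y => ind (E y)) ≤ Pw (η / (8 * 50 ^ (k + 1))) p f w := by
    have he2 : η / (8 * 50 ^ (k + 1)) = e / 2 := by rw [hedef]; field_simp; norm_num
    rw [he2]
    unfold Pw
    refine ex_mono fun y => ?_
    by_cases hy : E y
    · rw [ind_true hy]
      unfold hw
      have : 2 * (e / 2) ≤ |discreteDeriv w f y| := by
        have := hy.1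
        simpa [mul_div_cancel₀] using this
      rw [cut_eq_one (by positivity) this]
    · rw [ind_false hy]
      exact hw_nonneg f w y
  have h6 : e / 2 * (3 / 4 * (P * (κ / 8))) ≤
      Real.exp (-(t * (B / 4))) * Pw (η / (8 * 50 ^ (k + 1))) p f w :=
    h34.trans (mul_le_mul_of_nonneg_left h5 (Real.exp_pos _).le)
  have h7 : Real.exp (t * (B / 4)) * (e / 2 * (3 / 4 * (P * (κ / 8))))
      ≤ Pw (η / (8 * 50 ^ (k + 1))) p f w := by
    calc Real.exp (t * (B / 4)) * (e / 2 * (3 / 4 * (P * (κ / 8))))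
        ≤ Real.exp (t * (B / 4)) * (Real.exp (-(t * (B / 4))) *
            Pw (η / (8 * 50 ^ (k + 1))) p f w) :=
          mul_le_mul_of_nonneg_left h6 (Real.exp_pos _).le
      _ = Real.exp (t * (B / 4) + -(t * (B / 4))) * Pw (η / (8 * 50 ^ (k + 1))) p f w := by
          rw [Real.exp_add]; ring
      _ = _ := by rw [add_neg_cancel, Real.exp_zero, one_mul]
  have h8 : Real.exp (κ * L / 256) ≤ Real.exp (t * (B / 4)) := by
    apply Real.exp_le_exp.2
    have : 1 / 64 * (κ * L / 4) ≤ t * (B / 4) := by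
      apply mul_le_mul ht1 (by linarith) (by positivity) ht0
    linarith
  have h9 : Real.exp (-((1 - κ / 256) * L)) = P * Real.exp (κ * L / 256) := by
    have : -((1 - κ / 256) * L) = Real.log P + κ * L / 256 := by rw [hLdef]; ring
    rw [this, Real.exp_add, Real.exp_log hP]
  rw [h9]
  calc 3 / 64 * κ * e * (P * Real.exp (κ * L / 256))
      = Real.exp (κ * L / 256) * (e / 2 * (3 / 4 * (P * (κ / 8)))) := by ring
    _ ≤ Real.exp (t * (B / 4)) * (e / 2 * (3 / 4 * (P * (κ / 8)))) :=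
        mul_le_mul_of_nonneg_right h8 (by positivity)
    _ ≤ _ := h7

end Pool.Agent.SUB
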