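import Mathlib
import Pool.Agent.SUB.QShell
import Pool.Agent.SUB.QTrans

/-!
QP module QLO: the improved local inequality.

Notation: `P = Pw η p f w`, `L = -log P`, `P' a = Pw η' p f a`, `E w = ∑_a KL (bias (hw w) a) ≤ L`,
`F' = Fg η' p γ f`. `H ≥ QB d p β η ≥ 10^6 p ≥ 10^7`, `1/(κ η') ≤ H`.

`qloc_term` (`0 < P`, `0 < γ ≤ 1`): `∑_a phi ≤ γ(1+γ) E w` (`phi_le`, `abs_bias_le`). If `E w < κL/2`
then `(1+γ) E w ≤ 2 E w < κ L` and the left side is `≤ γ((1+γ)E w - κL) ≤ 0`; otherwise it is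
`≤ γ(1+γ)L ≤ 2γL`.

`qloc_trans` (`L ≤ p`, `4096 log H ≤ κ L`, tiny biases carry `≥ (κ/4) L`): `qtrans` with `κ/4` in
place of `κ` (`κL/4 ≥ 4`), `η'' = η/(4·50^(k+1)) ≥ 2η'` and `Pw_anti`:
`P' w ≥ (3/64)(κ/4) η'' exp(-(1 - κ/1024) L)`, so
`P/P' w ≤ 43 H exp(-κL/1024) ≤ 43 H · H^(-4) ≤ 1`, hence
`P^(1+γ) ≤ (P/P' w) (P' w)^(1+γ)` (as `P/P' ≤ 1`) and, since `2γL ≤ 2p ≤ H`,
`2γL P^(1+γ) ≤ H · 43 H exp(-κL/1024) (P' w)^(1+γ) ≤ H^3 exp(-κL/1024) (P' w)^(1+γ)`.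

`qloc_shell` (shell `j ≤ L ≤ j+1`, `j ≤ p` a natural number, big biases carry `≥ (κ/4) L`,
`128 log H ≤ κ j`): by `qshell` with `κ/4`, `Λ = j`:
`∑_{W} 2γL P^(1+γ) ≤ 2(j+1) exp(-γj) ∑_W P ≤ 2(p+1) exp(-γj) (H ∑_{a : P' a ≥ exp(-(1-κ/16)j)} P' a + exp(-κj/16))`
and `P' a = P' a^(1+γ) P' a^(-γ) ≤ P' a^(1+γ) exp(γ(1-κ/16)j)` there; `2(p+1) ≤ H`.
-/

set_option linter.dupNamespace false

namespace Pool.Agent.SUB

open Finset Pool.Agent.Helper11.Cube Pool.Agent.Helper11.AA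

variable {n d p : ℕ} {η : ℝ}

lemma qloc_term {f : Cube n → ℝ} (w : Fin n) (hP : 0 < Pw η p f w) {γ κ : ℝ} (hγ : 0 < γ)
    (hγ1 : γ ≤ 1) (hκ : 0 < κ) :
    (∑ a, phi γ (bias (hw η p f w) a)) + κ * γ * Real.log (Pw η p f w)
      ≤ if κ / 2 * (- Real.log (Pw η p f w)) ≤ ∑ a, KL (bias (hw η p f w) a)
        then 2 * γ * (- Real.log (Pw η p f w)) else 0 := by
  set L : ℝ := - Real.log (Pw η p f w) with hL
  have hlog : Real.log (Pw η p f w) = - L := by rw [hL]; ring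
  have hL0 : 0 ≤ L := by
    have := Real.log_nonpos (Pw_nonneg (η := η) (p := p) f w) (Pw_le_one f w)
    rw [hL]
    linarith
  set E : ℝ := ∑ a, KL (bias (hw η p f w) a) with hE
  have hEL : E ≤ L := by
    have := sum_KL_le (h := hw η p f w) (hw_nonneg f w) (hw_le_one f w) hP
    exact this
  have hE0 : 0 ≤ E := Finset.sum_nonneg fun a _ => KL_nonneg (abs_bias_le (hw_nonneg f w) a)
  have hS : (∑ a, phi γ (bias (hw η p f w) a)) ≤ γ * (1 + γ) * E := by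
    rw [hE, Finset.mul_sum]
    refine Finset.sum_le_sum fun a _ => ?_
    exact phi_le hγ.le hγ1 (abs_bias_le (hw_nonneg f w) a)
  have hg2 : γ * (1 + γ) * E ≤ 2 * γ * E := by
    have h1 : γ * (1 + γ) ≤ 2 * γ := by nlinarith
    exact mul_le_mul_of_nonneg_right h1 hE0
  rw [hlog]
  split_ifs with h
  · have h1 : 2 * γ * E ≤ 2 * γ * L := mul_le_mul_of_nonneg_left hEL (by linarith)
    have h2 : 0 ≤ κ * γ * L := by positivity
    linarith
  · rw [not_le] at h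
    have h1 : 2 * γ * E ≤ 2 * γ * (κ / 2 * L) := mul_le_mul_of_nonneg_left h.le (by linarith)
    have h2 : 2 * γ * (κ / 2 * L) = κ * γ * L := by ring
    linarith

private lemma qloc_H (hd : 1 ≤ d) (hη : 0 < η) (hη1 : η ≤ 1) {β H : ℝ}
    (hβ : 0 < β) (hβ1 : β ≤ 1) (hH1 : QB d p β η ≤ H) : 1000000 * (p : ℝ) ≤ H := by
  refine le_trans ?_ hH1
  unfold QB
  have hd' : (1 : ℝ) ≤ (d : ℝ) ^ 2 := one_le_pow₀ (by exact_mod_cast hd)
  have hb2 : β ^ 2 ≤ 1 := pow_le_one₀ hβ.le hβ1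
  have hden : β ^ 2 * η ≤ 1 := by
    have := mul_le_mul hb2 hη1 hη.le zero_le_one
    linarith
  have hp0 : (0 : ℝ) ≤ p := Nat.cast_nonneg p
  rw [le_div_iff₀ (by positivity)]
  calc 1000000 * (p : ℝ) * (β ^ 2 * η) ≤ 1000000 * (p : ℝ) * 1 :=
        mul_le_mul_of_nonneg_left hden (by positivity)
    _ ≤ 1000000 * (p : ℝ) * (d : ℝ) ^ 2 := mul_le_mul_of_nonneg_left hd' (by positivity)

private lemma qloc_log {H : ℝ} (hH : 10000000 ≤ H) : 1 ≤ Real.log H := by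
  rw [Real.le_log_iff_exp_le (by linarith)]
  have := Real.exp_one_lt_d9
  linarith

lemma qloc_trans (hd : 1 ≤ d) (hp : 10 ≤ p) (hη : 0 < η) (hη1 : η ≤ 1) {f : Cube n → ℝ}
    (hf : Bdd d f) {κ γ β H η' : ℝ} (hκ : 0 < κ) (hκ1 : κ ≤ 1) (hγ : 0 < γ) (hγ1 : γ ≤ 1)
    (hβ : 0 < β) (hβ1 : β ≤ 1) (k : ℕ) (hk : 4 / η ≤ (8 / (50 * β * (d : ℝ) ^ 2)) ^ (k + 1))
    (hβη : Real.log (2 * (4 * 50 ^ (k + 1) / η)) ≤ 1 / (4 * β)) (hη' : 0 < η')
    (hη'2 : η' ≤ η / (8 * 50 ^ (k + 1))) (hH1 : QB d p β η ≤ H) (hH2 : 1 / (κ * η') ≤ H)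
    (w : Fin n) (hP : 0 < Pw η p f w) (hLp : - Real.log (Pw η p f w) ≤ p)
    (hL : 4096 * Real.log H ≤ κ * (- Real.log (Pw η p f w)))
    (hS : κ / 4 * (- Real.log (Pw η p f w))
      ≤ ∑ a ∈ univ.filter (fun a => |bias (hw η p f w) a| < β), KL (bias (hw η p f w) a)) :
    2 * γ * (- Real.log (Pw η p f w)) * Pw η p f w ^ (1 + γ)
      ≤ H ^ 3 * Real.exp (-(κ * (- Real.log (Pw η p f w)) / 1024)) * Pw η' p f w ^ (1 + γ) := by
  have hp1 : 1 ≤ p := by omega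
  have hp10 : (10 : ℝ) ≤ p := by exact_mod_cast hp
  have hHp := qloc_H hd hη hη1 hβ hβ1 hH1
  have hH7 : 10000000 ≤ H := by linarith
  have hH0 : 0 < H := by linarith
  have hlog := qloc_log hH7
  set P : ℝ := Pw η p f w with hPdef
  set P' : ℝ := Pw η' p f w with hP'def
  set L : ℝ := -Real.log P with hLdef
  have hL0 : 0 ≤ L := by
    have := Real.log_nonpos hP.le (Pw_le_one f w)
    rw [hLdef]
    linarith
  have h1 := qtrans hd hp1 hη hη1 hf w hβ hβ1 (κ := κ / 4) (by positivity) (by linarith) hP hS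
    (by
      have : κ / 4 * (-Real.log (Pw η p f w)) = κ * L / 4 := by rw [hLdef, hPdef]; ring
      rw [this]
      linarith) k hk hβη
  have h2 := Pw_anti (p := p) hη' hη'2 f w
  have h3 := h1.trans h2
  rw [← hP'def, ← hPdef, ← hLdef] at h3
  set R : ℝ := 43 * H * Real.exp (-(κ * L / 1024)) with hR
  have hR0 : 0 < R := by positivity
  have hexp4 : Real.exp (-(κ * L / 1024)) ≤ (H ^ 4)⁻¹ := by
    have e1 : (H ^ 4)⁻¹ = Real.exp (-(4 * Real.log H)) := by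
      rw [Real.exp_neg, mul_comm, Real.exp_mul, Real.exp_log hH0]
      norm_num
    rw [e1]
    exact Real.exp_le_exp.2 (by linarith)
  have hR1 : R ≤ 1 := by
    have h4 : R ≤ 43 * H * (H ^ 4)⁻¹ := mul_le_mul_of_nonneg_left hexp4 (by positivity)
    refine h4.trans ?_
    rw [← div_eq_mul_inv, div_le_one (by positivity)]
    have h5 : H ≤ H ^ 2 := by nlinarith
    have h6 : (43 : ℝ) ≤ H ^ 2 := by nlinarith
    calc 43 * H ≤ H ^ 2 * H ^ 2 := mul_le_mul h6 h5 hH0.le (by positivity)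
      _ = H ^ 4 := by ring
  have hPR : P ≤ R * P' := by
    have h4 : Real.exp (-((1 - κ / 4 / 256) * L)) = P * Real.exp (κ * L / 1024) := by
      have : -((1 - κ / 4 / 256) * L) = Real.log P + κ * L / 1024 := by rw [hLdef]; ring
      rw [this, Real.exp_add, Real.exp_log hP]
    rw [h4] at h3
    have h5 : 2 * η' ≤ η / (4 * 50 ^ (k + 1)) := by
      have : η / (4 * 50 ^ (k + 1)) = 2 * (η / (8 * 50 ^ (k + 1))) := by
        field_simp; ring
      rw [this]; linarith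
    have h6 : 1 / H ≤ κ * η' := by
      rw [div_le_iff₀ hH0]
      rw [div_le_iff₀ (by positivity)] at hH2
      linarith
    have h7 : 3 / 128 * (1 / H) ≤ 3 / 64 * (κ / 4) * (η / (4 * 50 ^ (k + 1))) := by
      have h8 : 3 / 64 * (κ / 4) * (2 * η') ≤ 3 / 64 * (κ / 4) * (η / (4 * 50 ^ (k + 1))) :=
        mul_le_mul_of_nonneg_left h5 (by positivity)
      have h9 : 3 / 64 * (κ / 4) * (2 * η') = 3 / 128 * (κ * η') := by ring
      linarith
    have h8 : 3 / 128 * (1 / H) * (P * Real.exp (κ * L / 1024)) ≤ P' :=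
      (mul_le_mul_of_nonneg_right h7 (by positivity)).trans h3
    have h9 : P = 128 / 3 * H * Real.exp (-(κ * L / 1024)) *
        (3 / 128 * (1 / H) * (P * Real.exp (κ * L / 1024))) := by
      have e1 : Real.exp (-(κ * L / 1024)) * Real.exp (κ * L / 1024) = 1 := by
        rw [← Real.exp_add]; simp
      have e2 : H * (1 / H) = 1 := by field_simp
      calc P = (H * (1 / H)) * (Real.exp (-(κ * L / 1024)) * Real.exp (κ * L / 1024)) * P := by
            rw [e1, e2]; ring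
        _ = _ := by ring
    have hP'0 : 0 ≤ P' := Pw_nonneg f w
    calc P = 128 / 3 * H * Real.exp (-(κ * L / 1024)) *
        (3 / 128 * (1 / H) * (P * Real.exp (κ * L / 1024))) := h9
      _ ≤ 128 / 3 * H * Real.exp (-(κ * L / 1024)) * P' :=
          mul_le_mul_of_nonneg_left h8 (by positivity)
      _ ≤ R * P' := by
          refine mul_le_mul_of_nonneg_right ?_ hP'0
          rw [hR]
          have : 0 ≤ H * Real.exp (-(κ * L / 1024)) := by positivity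
          nlinarith
  have hP'0 : 0 ≤ P' := Pw_nonneg f w
  have hPg : P ^ (1 + γ) ≤ R * P' ^ (1 + γ) := by
    calc P ^ (1 + γ) ≤ (R * P') ^ (1 + γ) := Real.rpow_le_rpow hP.le hPR (by linarith)
      _ = R ^ (1 + γ) * P' ^ (1 + γ) := Real.mul_rpow hR0.le hP'0
      _ ≤ R * P' ^ (1 + γ) := by
          refine mul_le_mul_of_nonneg_right ?_ (Real.rpow_nonneg hP'0 _)
          calc R ^ (1 + γ) ≤ R ^ (1 : ℝ) :=
                Real.rpow_le_rpow_of_exponent_ge hR0 hR1 (by linarith)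
            _ = R := Real.rpow_one R
  have h2L : 2 * γ * L ≤ 2 * p := by
    have : γ * L ≤ 1 * p := mul_le_mul hγ1 hLp hL0 zero_le_one
    linarith
  have hP'g : 0 ≤ P' ^ (1 + γ) := Real.rpow_nonneg hP'0 _
  calc 2 * γ * L * P ^ (1 + γ) ≤ 2 * p * (R * P' ^ (1 + γ)) :=
        mul_le_mul h2L hPg (Real.rpow_nonneg hP.le _) (by positivity)
    _ = (86 * p) * H * Real.exp (-(κ * L / 1024)) * P' ^ (1 + γ) := by rw [hR]; ring
    _ ≤ H ^ 2 * H * Real.exp (-(κ * L / 1024)) * P' ^ (1 + γ) := by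
        have h4 : 86 * (p : ℝ) ≤ H ^ 2 := by nlinarith
        gcongr
    _ = H ^ 3 * Real.exp (-(κ * L / 1024)) * P' ^ (1 + γ) := by ring

lemma qloc_shell (hd : 1 ≤ d) (hp : 10 ≤ p) (hη : 0 < η) (hη1 : η ≤ 1) {f : Cube n → ℝ}
    (hf : Bdd d f) {κ γ β H η' : ℝ} (hκ : 0 < κ) (hκ1 : κ ≤ 1) (hγ : 0 < γ) (hγ1 : γ ≤ 1)
    (hβ : 0 < β) (hβ1 : β ≤ 1) (hη' : 0 < η') (hη'1 : η' ≤ β * η / (48 * p))
    (hH1 : QB d p β η ≤ H) (j : ℕ) (hj : 128 * Real.log H ≤ κ * j) (hjp : j ≤ p)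
    (W : Finset (Fin n))
    (hW1 : ∀ w ∈ W, Real.exp (-((j : ℝ) + 1)) ≤ Pw η p f w ∧ Pw η p f w ≤ Real.exp (-(j : ℝ)))
    (hW2 : ∀ w ∈ W, Real.exp (-(p : ℝ)) ≤ Pw η p f w)
    (hW3 : ∀ w ∈ W, κ / 4 * (- Real.log (Pw η p f w))
      ≤ ∑ a ∈ univ.filter (fun a => β ≤ |bias (hw η p f w) a|), KL (bias (hw η p f w) a)) :
    ∑ w ∈ W, 2 * γ * (- Real.log (Pw η p f w)) * Pw η p f w ^ (1 + γ)
      ≤ H ^ 2 * Real.exp (-(γ * κ * j / 16)) * Fg η' p γ f
        + H * Real.exp (-(κ * j / 16)) := by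
  have hp10 : (10 : ℝ) ≤ p := by exact_mod_cast hp
  have hHp := qloc_H hd hη hη1 hβ hβ1 hH1
  have hH7 : 10000000 ≤ H := by linarith
  have hH0 : 0 < H := by linarith
  have hlog := qloc_log hH7
  have hQ1 := QShell_QB_ge hd hp hη hη1 hβ hβ1
  have hjp' : (j : ℝ) ≤ p := by exact_mod_cast hjp
  have hj0 : (0 : ℝ) ≤ j := Nat.cast_nonneg j
  have hsh := qshell hd hp hη hη1 (β := β) (κ := κ / 4) (Λ := (j : ℝ)) hβ hβ1 (by positivity)
    (by linarith) hη' hη'1 hf (by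
      have : Real.log (QB d p β η) ≤ Real.log H := Real.log_le_log (by linarith) hH1
      linarith) hjp' W hW1 hW2 hW3
  -- each term
  have hterm : ∀ w ∈ W, 2 * γ * (- Real.log (Pw η p f w)) * Pw η p f w ^ (1 + γ)
      ≤ H * Real.exp (-(γ * j)) * Pw η p f w := by
    intro w hw
    obtain ⟨h1, h2⟩ := hW1 w hw
    have hP : 0 < Pw η p f w := lt_of_lt_of_le (Real.exp_pos _) h1
    have h3 : -((j : ℝ) + 1) ≤ Real.log (Pw η p f w) := by
      rw [Real.le_log_iff_exp_le hP]; exact h1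
    have h4 : Real.log (Pw η p f w) ≤ -(j : ℝ) := by
      rw [Real.log_le_iff_le_exp hP]; exact h2
    have h5 : 2 * γ * (- Real.log (Pw η p f w)) ≤ H := by
      have h6 : γ * (- Real.log (Pw η p f w)) ≤ 1 * (j + 1) :=
        mul_le_mul hγ1 (by linarith) (by linarith) zero_le_one
      linarith
    have h7 : Pw η p f w ^ (1 + γ) ≤ Real.exp (-(γ * j)) * Pw η p f w := by
      rw [Real.rpow_add hP, Real.rpow_one, mul_comm]
      refine mul_le_mul_of_nonneg_right ?_ hP.le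
      rw [Real.rpow_def_of_pos hP]
      refine Real.exp_le_exp.mpr ?_
      have := mul_le_mul_of_nonneg_left h4 hγ.le
      linarith
    have h8 : 0 ≤ Pw η p f w ^ (1 + γ) := Real.rpow_nonneg hP.le _
    calc 2 * γ * (- Real.log (Pw η p f w)) * Pw η p f w ^ (1 + γ)
        ≤ H * Pw η p f w ^ (1 + γ) := mul_le_mul_of_nonneg_right h5 h8
      _ ≤ H * (Real.exp (-(γ * j)) * Pw η p f w) := mul_le_mul_of_nonneg_left h7 hH0.le
      _ = H * Real.exp (-(γ * j)) * Pw η p f w := by ring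
  -- the popular coordinates
  have hpop : ∑ a ∈ univ.filter (fun a => Real.exp (-((1 - κ / 4 / 4) * j)) ≤ Pw η' p f a),
      Pw η' p f a ≤ Real.exp (γ * ((1 - κ / 16) * j)) * Fg η' p γ f := by
    rw [Fg, Finset.mul_sum]
    have h1 : ∑ a ∈ univ.filter (fun a => Real.exp (-((1 - κ / 4 / 4) * j)) ≤ Pw η' p f a),
        Pw η' p f a ≤
        ∑ a ∈ univ.filter (fun a => Real.exp (-((1 - κ / 4 / 4) * j)) ≤ Pw η' p f a),
          Real.exp (γ * ((1 - κ / 16) * j)) * Pw η' p f a ^ (1 + γ) := by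
      refine Finset.sum_le_sum fun a ha => ?_
      rw [Finset.mem_filter] at ha
      have hP : 0 < Pw η' p f a := lt_of_lt_of_le (Real.exp_pos _) ha.2
      have h2 : -((1 - κ / 4 / 4) * j) ≤ Real.log (Pw η' p f a) := by
        rw [Real.le_log_iff_exp_le hP]; exact ha.2
      have h3 : Real.exp (-(γ * ((1 - κ / 16) * j))) ≤ Pw η' p f a ^ γ := by
        rw [Real.rpow_def_of_pos hP]
        refine Real.exp_le_exp.mpr ?_
        have := mul_le_mul_of_nonneg_left h2 hγ.le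
        have e : γ * (-((1 - κ / 4 / 4) * j)) = -(γ * ((1 - κ / 16) * j)) := by ring
        linarith
      rw [Real.rpow_add hP, Real.rpow_one]
      have h4 : 1 ≤ Real.exp (γ * ((1 - κ / 16) * j)) * Pw η' p f a ^ γ := by
        have h5 := mul_le_mul_of_nonneg_left h3 (Real.exp_pos (γ * ((1 - κ / 16) * j))).le
        rw [← Real.exp_add, add_neg_cancel, Real.exp_zero] at h5
        exact h5
      nlinarith
    refine h1.trans ?_
    refine Finset.sum_le_sum_of_subset_of_nonneg (Finset.filter_subset _ _) fun a _ _ => ?_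
    exact mul_nonneg (Real.exp_pos _).le (Real.rpow_nonneg (Pw_nonneg f a) _)
  have hFg : 0 ≤ Fg η' p γ f :=
    Finset.sum_nonneg fun a _ => Real.rpow_nonneg (Pw_nonneg f a) _
  have hsum : ∑ w ∈ W, Pw η p f w ≤ H * (Real.exp (γ * ((1 - κ / 16) * j)) * Fg η' p γ f)
      + Real.exp (-(κ * j / 16)) := by
    refine hsh.trans (add_le_add ?_ (le_of_eq ?_))
    · refine mul_le_mul hH1 hpop (Finset.sum_nonneg fun a _ => Pw_nonneg f a) hH0.le
    · congr 1
      ring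
  calc ∑ w ∈ W, 2 * γ * (- Real.log (Pw η p f w)) * Pw η p f w ^ (1 + γ)
      ≤ ∑ w ∈ W, H * Real.exp (-(γ * j)) * Pw η p f w := Finset.sum_le_sum hterm
    _ = H * Real.exp (-(γ * j)) * ∑ w ∈ W, Pw η p f w := by rw [Finset.mul_sum]
    _ ≤ H * Real.exp (-(γ * j)) * (H * (Real.exp (γ * ((1 - κ / 16) * j)) * Fg η' p γ f)
      + Real.exp (-(κ * j / 16))) := mul_le_mul_of_nonneg_left hsum (by positivity)
    _ = H ^ 2 * (Real.exp (-(γ * j)) * Real.exp (γ * ((1 - κ / 16) * j))) * Fg η' p γ f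
        + H * Real.exp (-(γ * j)) * Real.exp (-(κ * j / 16)) := by ring
    _ ≤ H ^ 2 * Real.exp (-(γ * κ * j / 16)) * Fg η' p γ f
        + H * Real.exp (-(κ * j / 16)) := by
        refine add_le_add (le_of_eq ?_) ?_
        · rw [← Real.exp_add]
          congr 3
          ring
        · have h1 : Real.exp (-(γ * j)) ≤ 1 := by
            rw [Real.exp_le_one_iff]
            have : 0 ≤ γ * j := by positivity
            linarith
          refine mul_le_mul_of_nonneg_right ?_ (Real.exp_pos _).le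
          exact mul_le_of_le_one_right hH0.le h1

end Pool.Agent.SUB
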