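import Mathlib
import Pool.Agent.SUB.QLocal

/-!
QP module QL2: assembly of the improved local inequality.

Notation as in `QLocal.lean`; `F = Fg η p γ f`, `F' = Fg η' p γ f`. For each `w` with `P > 0` use
`qloc_term`; terms with `P = 0` vanish. Only `w` with `κL/2 ≤ E w` contribute, at most
`2γL P^(1+γ)` each. Cases:
(1) `γ L ≤ J`: `≤ 2J P^(1+γ)`; all of them: `≤ 2J F`.
(2) `p < L`: `2γL P^(1+γ) = P · 2γL exp(-γL) ≤ 2 P exp(-γL/2) ≤ 2 P exp(-γp/2)`
(`x exp(-x) ≤ exp(-x/2)`), `∑ P ≤ 2 d^2/η` (`sum_Pw_le`), `4 d^2/η ≤ H`.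
(3) `J < γL`, `L ≤ p`, `(κ/4)L ≤ ∑_{|bias| < β} KL`: `qloc_trans` (`κL ≥ κJ ≥ 4096 log H`), and
`exp(-κL/1024) ≤ exp(-κJ/1024)` (`L ≥ J/γ ≥ J`): sum `≤ H^3 exp(-κJ/1024) F'`.
(4) `J < γL`, `L ≤ p`, `(κ/4)L ≤ ∑_{β ≤ |bias|} KL` (one of (3), (4) holds since
`κL/2 ≤ E w = ∑_{|bias|<β} KL + ∑_{β≤|bias|} KL`): group by `j = ⌊L⌋₊ ∈ {0,..,p}`; `j ≥ J/γ - 1`, so
`κ j ≥ κ J - 1 ≥ 128 log H`, `exp(-γκj/16) ≤ 2 exp(-κJ/16) ≤ 2 exp(-κJ/1024)`,
`exp(-κj/16) ≤ 2 exp(-κJ/(16γ))`. At most `p+1 ≤ H/4` values of `j`: by `qloc_shell` the sum is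
`≤ (p+1)(2H^2 exp(-κJ/1024) F' + 2H exp(-κJ/(16γ))) ≤ H^3 exp(-κJ/1024) F' + H^2 exp(-κJ/(16γ))`.
Total coefficient of `F'`: `2H^3 ≤ H^4`.
-/

set_option linter.dupNamespace false

namespace Pool.Agent.SUB

open Finset Pool.Agent.Helper11.Cube Pool.Agent.Helper11.AA

variable {n d p : ℕ} {η : ℝ}

private lemma ql2_H (hd : 1 ≤ d) (hp : 10 ≤ p) (hη : 0 < η) (hη1 : η ≤ 1) {β H : ℝ}
    (hβ : 0 < β) (hβ1 : β ≤ 1) (hH1 : QB d p β η ≤ H) :
    10000000 ≤ H ∧ 2 * ((p : ℝ) + 1) ≤ H ∧ 4 * (d : ℝ) ^ 2 / η ≤ H := by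
  have h1 : (10 : ℝ) ≤ (p : ℝ) := by exact_mod_cast hp
  have h2 : (1 : ℝ) ≤ (d : ℝ) := by exact_mod_cast hd
  have h3 : (1 : ℝ) ≤ (d : ℝ) ^ 2 := one_le_pow₀ h2
  have hb2 : β ^ 2 ≤ 1 := pow_le_one₀ hβ.le hβ1
  have hb0 : 0 < β ^ 2 := by positivity
  have hden : β ^ 2 * η ≤ η := by nlinarith
  have hden1 : β ^ 2 * η ≤ 1 := by nlinarith
  have hden0 : 0 < β ^ 2 * η := by positivity
  have hnum : 0 ≤ 1000000 * (p : ℝ) * (d : ℝ) ^ 2 := by positivity
  have hQ1 : 1000000 * (p : ℝ) * (d : ℝ) ^ 2 ≤ QB d p β η := by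
    unfold QB
    rw [le_div_iff₀ hden0]
    nlinarith
  have hQ2 : 1000000 * (p : ℝ) * (d : ℝ) ^ 2 / η ≤ QB d p β η := by
    unfold QB
    exact div_le_div_of_nonneg_left hnum hden0 hden
  have h4 : (p : ℝ) ≤ (p : ℝ) * (d : ℝ) ^ 2 := by nlinarith
  refine ⟨by linarith, by linarith, ?_⟩
  refine le_trans ?_ (hQ2.trans hH1)
  apply div_le_div_of_nonneg_right _ hη.le
  nlinarith

theorem qlocal (hd : 1 ≤ d) (hp : 10 ≤ p) (hη : 0 < η) (hη1 : η ≤ 1) {f : Cube n → ℝ}
    (hf : Bdd d f) {κ γ β H η' J : ℝ} (hκ : 0 < κ) (hκ1 : κ ≤ 1) (hγ : 0 < γ) (hγ1 : γ ≤ 1)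
    (hβ : 0 < β) (hβ1 : β ≤ 1) (k : ℕ) (hk : 4 / η ≤ (8 / (50 * β * (d : ℝ) ^ 2)) ^ (k + 1))
    (hβη : Real.log (2 * (4 * 50 ^ (k + 1) / η)) ≤ 1 / (4 * β)) (hη' : 0 < η')
    (hη'1 : η' ≤ β * η / (48 * p)) (hη'2 : η' ≤ η / (8 * 50 ^ (k + 1)))
    (hH1 : QB d p β η ≤ H) (hH2 : 1 / (κ * η') ≤ H) (hJ : 4096 * Real.log H ≤ κ * J) :
    ∑ w, Pw η p f w ^ (1 + γ) * ((∑ a, phi γ (bias (hw η p f w) a))
        + κ * γ * Real.log (Pw η p f w))
      ≤ 2 * J * Fg η p γ f
        + H ^ 4 * Real.exp (-(κ * J / 1024)) * Fg η' p γ f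
        + H ^ 3 * Real.exp (-(κ * J / (16 * γ)))
        + H * Real.exp (-(γ * p / 2)) := by
  classical
  obtain ⟨hH7, hHp, hHd⟩ := ql2_H hd hp hη hη1 hβ hβ1 hH1
  have hH0 : 0 < H := by linarith
  have hH1' : 1 ≤ H := by linarith
  have hlogH : 1 ≤ Real.log H := by
    rw [Real.le_log_iff_exp_le hH0]
    have := Real.exp_one_lt_d9
    linarith
  have hκJ : 4096 ≤ κ * J := by linarith
  have hJ0 : 0 < J := by
    by_contra hcon
    push Not at hcon
    have : κ * J ≤ 0 := mul_nonpos_of_nonneg_of_nonpos hκ.le hcon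
    linarith
  have hJκ : κ * J ≤ J := by nlinarith
  have hpR : (10 : ℝ) ≤ (p : ℝ) := by exact_mod_cast hp
  -- notation
  set L : Fin n → ℝ := fun w => - Real.log (Pw η p f w) with hL
  set t : Fin n → ℝ := fun w => 2 * γ * L w * Pw η p f w ^ (1 + γ) with ht
  have hL0 : ∀ w, 0 ≤ L w := by
    intro w
    have := Real.log_nonpos (Pw_nonneg (η := η) (p := p) f w) (Pw_le_one f w)
    simp only [hL]
    linarith
  have hpw0 : ∀ w, 0 ≤ Pw η p f w ^ (1 + γ) := fun w => Real.rpow_nonneg (Pw_nonneg f w) _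
  have hpw0' : ∀ w, 0 ≤ Pw η' p f w ^ (1 + γ) := fun w => Real.rpow_nonneg (Pw_nonneg f w) _
  have ht0 : ∀ w, 0 ≤ t w := fun w => by
    simp only [ht]
    exact mul_nonneg (mul_nonneg (by linarith) (hL0 w)) (hpw0 w)
  set G : Finset (Fin n) := univ.filter (fun w => 0 < Pw η p f w ∧
    κ / 2 * L w ≤ ∑ a, KL (bias (hw η p f w) a)) with hG
  have hmain : ∑ w, Pw η p f w ^ (1 + γ) * ((∑ a, phi γ (bias (hw η p f w) a))
      + κ * γ * Real.log (Pw η p f w)) ≤ ∑ w ∈ G, t w := by
    rw [hG, Finset.sum_filter]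
    refine Finset.sum_le_sum fun w _ => ?_
    rcases (Pw_nonneg (η := η) (p := p) f w).eq_or_lt with h0 | h0
    · rw [if_neg (by rw [← h0]; exact fun h => lt_irrefl _ h.1), ← h0,
        Real.zero_rpow (by linarith), zero_mul]
    · have h1 := qloc_term w h0 hγ hγ1 hκ
      by_cases h2 : κ / 2 * (- Real.log (Pw η p f w)) ≤ ∑ a, KL (bias (hw η p f w) a)
      · rw [if_pos h2] at h1
        rw [if_pos ⟨h0, h2⟩]
        calc Pw η p f w ^ (1 + γ) * ((∑ a, phi γ (bias (hw η p f w) a))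
              + κ * γ * Real.log (Pw η p f w))
            ≤ Pw η p f w ^ (1 + γ) * (2 * γ * (- Real.log (Pw η p f w))) :=
              mul_le_mul_of_nonneg_left h1 (hpw0 w)
          _ = t w := by simp only [ht, hL]; ring
      · rw [if_neg h2] at h1
        rw [if_neg (fun h => h2 h.2)]
        exact mul_nonpos_of_nonneg_of_nonpos (hpw0 w) h1
  refine hmain.trans ?_
  have hF' : 0 ≤ Fg η' p γ f := Finset.sum_nonneg fun w _ => hpw0' w
  -- the shells
  set W : ℕ → Finset (Fin n) := fun j => G.filter (fun w => (j : ℝ) ≤ L w ∧ L w ≤ (j : ℝ) + 1 ∧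
    L w ≤ p ∧ J < γ * L w ∧
    κ / 4 * L w ≤ ∑ a ∈ univ.filter (fun a => β ≤ |bias (hw η p f w) a|),
      KL (bias (hw η p f w) a)) with hW
  have hshell : ∀ j ∈ Finset.range (p + 1), ∑ w ∈ W j, t w ≤
      H ^ 2 * (2 * Real.exp (-(κ * J / 1024))) * Fg η' p γ f
        + H * (2 * Real.exp (-(κ * J / (16 * γ)))) := by
    intro j hj
    rw [Finset.mem_range] at hj
    rcases (W j).eq_empty_or_nonempty with h0 | ⟨w0, hw0⟩
    · rw [h0, Finset.sum_empty]
      have : 0 ≤ H ^ 2 * (2 * Real.exp (-(κ * J / 1024))) * Fg η' p γ f :=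
        mul_nonneg (by positivity) hF'
      have : 0 ≤ H * (2 * Real.exp (-(κ * J / (16 * γ)))) := by positivity
      linarith
    · simp only [hW, Finset.mem_filter] at hw0
      obtain ⟨-, -, h2, -, h4, -⟩ := hw0
      -- `J < γ (j + 1)`
      have h5 : J < γ * ((j : ℝ) + 1) := lt_of_lt_of_le h4 (mul_le_mul_of_nonneg_left h2 hγ.le)
      have hj0 : (0 : ℝ) ≤ (j : ℝ) := Nat.cast_nonneg j
      have h6 : J ≤ (j : ℝ) + 1 := by nlinarith
      have h7 : κ * J ≤ κ * ((j : ℝ) + 1) := mul_le_mul_of_nonneg_left h6 hκ.le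
      have hjκ : 128 * Real.log H ≤ κ * j := by nlinarith
      have h8 := qloc_shell hd hp hη hη1 hf hκ hκ1 hγ hγ1 hβ hβ1 hη' hη'1 hH1 j hjκ (by omega)
        (W j) (by
          intro w hw
          simp only [hW, hG, Finset.mem_filter, Finset.mem_univ, true_and] at hw
          obtain ⟨⟨g1, -⟩, g2, g3, -, -, -⟩ := hw
          constructor
          · rw [← Real.le_log_iff_exp_le g1]
            simp only [hL] at g3
            linarith
          · rw [← Real.log_le_iff_le_exp g1]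
            simp only [hL] at g2
            linarith) (by
          intro w hw
          simp only [hW, hG, Finset.mem_filter, Finset.mem_univ, true_and] at hw
          obtain ⟨⟨g1, -⟩, -, -, g4, -, -⟩ := hw
          rw [← Real.le_log_iff_exp_le g1]
          simp only [hL] at g4
          linarith) (by
          intro w hw
          simp only [hW, hG, Finset.mem_filter, Finset.mem_univ, true_and] at hw
          exact hw.2.2.2.2.2)
      have he2 : Real.exp (1 / 16) ≤ 2 := by
        have h9 : Real.exp (1 / 16) ≤ Real.exp (Real.log 2) := by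
          refine Real.exp_le_exp.mpr ?_
          have := Real.log_two_gt_d9
          linarith
        rwa [Real.exp_log (by norm_num)] at h9
      have e1 : Real.exp (-(γ * κ * j / 16)) ≤ 2 * Real.exp (-(κ * J / 1024)) := by
        have h9 : -(γ * κ * j / 16) ≤ 1 / 16 + -(κ * J / 1024) := by
          have h10 : κ * J ≤ κ * (γ * ((j : ℝ) + 1)) := mul_le_mul_of_nonneg_left h5.le hκ.le
          have h11 : κ * (γ * ((j : ℝ) + 1)) = γ * κ * j + γ * κ := by ring
          have h12 : γ * κ ≤ 1 := by nlinarith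
          rw [h11] at h10
          linarith
        calc Real.exp (-(γ * κ * j / 16)) ≤ Real.exp (1 / 16 + -(κ * J / 1024)) :=
              Real.exp_le_exp.mpr h9
          _ = Real.exp (1 / 16) * Real.exp (-(κ * J / 1024)) := Real.exp_add _ _
          _ ≤ 2 * Real.exp (-(κ * J / 1024)) :=
              mul_le_mul_of_nonneg_right he2 (Real.exp_pos _).le
      have e2 : Real.exp (-(κ * j / 16)) ≤ 2 * Real.exp (-(κ * J / (16 * γ))) := by
        have h9 : -(κ * j / 16) ≤ 1 / 16 + -(κ * J / (16 * γ)) := by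
          have h10 : κ * J / (16 * γ) ≤ (κ * j + κ) / 16 := by
            rw [div_le_div_iff₀ (by positivity) (by norm_num)]
            have h11 : κ * J ≤ κ * (γ * ((j : ℝ) + 1)) := mul_le_mul_of_nonneg_left h5.le hκ.le
            nlinarith
          linarith
        calc Real.exp (-(κ * j / 16)) ≤ Real.exp (1 / 16 + -(κ * J / (16 * γ))) :=
              Real.exp_le_exp.mpr h9
          _ = Real.exp (1 / 16) * Real.exp (-(κ * J / (16 * γ))) := Real.exp_add _ _
          _ ≤ 2 * Real.exp (-(κ * J / (16 * γ))) :=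
              mul_le_mul_of_nonneg_right he2 (Real.exp_pos _).le
      calc ∑ w ∈ W j, t w ≤ H ^ 2 * Real.exp (-(γ * κ * j / 16)) * Fg η' p γ f
            + H * Real.exp (-(κ * j / 16)) := h8
        _ ≤ H ^ 2 * (2 * Real.exp (-(κ * J / 1024))) * Fg η' p γ f
            + H * (2 * Real.exp (-(κ * J / (16 * γ)))) := by
          refine add_le_add ?_ ?_
          · exact mul_le_mul_of_nonneg_right (mul_le_mul_of_nonneg_left e1 (by positivity)) hF'
          · exact mul_le_mul_of_nonneg_left e2 hH0.le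
  -- pointwise splitting
  have hpoint : ∀ w ∈ G, t w ≤ 2 * J * Pw η p f w ^ (1 + γ) +
      2 * Real.exp (-(γ * p / 2)) * Pw η p f w +
      H ^ 3 * Real.exp (-(κ * J / 1024)) * Pw η' p f w ^ (1 + γ) +
      ∑ j ∈ Finset.range (p + 1), (if w ∈ W j then t w else 0) := by
    intro w hw
    have hwG := hw
    rw [hG, Finset.mem_filter] at hw
    obtain ⟨-, hP, hE⟩ := hw
    have hs0 : 0 ≤ ∑ j ∈ Finset.range (p + 1), (if w ∈ W j then t w else 0) :=
      Finset.sum_nonneg fun i _ => by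
        split_ifs
        · exact ht0 w
        · exact le_rfl
    have hb0 : 0 ≤ 2 * Real.exp (-(γ * p / 2)) * Pw η p f w :=
      mul_nonneg (by positivity) hP.le
    have ha0 : 0 ≤ 2 * J * Pw η p f w ^ (1 + γ) := mul_nonneg (by linarith) (hpw0 w)
    have hc0 : 0 ≤ H ^ 3 * Real.exp (-(κ * J / 1024)) * Pw η' p f w ^ (1 + γ) :=
      mul_nonneg (by positivity) (hpw0' w)
    by_cases h1 : γ * L w ≤ J
    · have : t w ≤ 2 * J * Pw η p f w ^ (1 + γ) := by
        simp only [ht]
        exact mul_le_mul_of_nonneg_right (by linarith) (hpw0 w)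
      linarith
    · push Not at h1
      by_cases h2 : (p : ℝ) < L w
      · have h3 : t w ≤ 2 * Real.exp (-(γ * p / 2)) * Pw η p f w := by
          have e1 : Pw η p f w ^ (1 + γ) = Pw η p f w * Real.exp (-(γ * L w)) := by
            rw [Real.rpow_add hP, Real.rpow_one, Real.rpow_def_of_pos hP]
            congr 2
            simp only [hL]
            ring
          have e2 : γ * L w ≤ Real.exp (γ * L w / 2) := by
            have h4 : 0 ≤ γ * L w := mul_nonneg hγ.le (hL0 w)
            have h5 := Real.quadratic_le_exp_of_nonneg (x := γ * L w / 2) (by linarith)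
            nlinarith [sq_nonneg (γ * L w - 2)]
          have e3 : γ * L w * Real.exp (-(γ * L w)) ≤ Real.exp (-(γ * p / 2)) := by
            calc γ * L w * Real.exp (-(γ * L w))
                ≤ Real.exp (γ * L w / 2) * Real.exp (-(γ * L w)) :=
                  mul_le_mul_of_nonneg_right e2 (Real.exp_pos _).le
              _ = Real.exp (-(γ * L w / 2)) := by
                  rw [← Real.exp_add]
                  congr 1
                  ring
              _ ≤ Real.exp (-(γ * p / 2)) := by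
                  refine Real.exp_le_exp.mpr ?_
                  have := mul_le_mul_of_nonneg_left h2.le hγ.le
                  linarith
          simp only [ht]
          rw [e1]
          calc 2 * γ * L w * (Pw η p f w * Real.exp (-(γ * L w)))
              = 2 * (γ * L w * Real.exp (-(γ * L w))) * Pw η p f w := by ring
            _ ≤ 2 * Real.exp (-(γ * p / 2)) * Pw η p f w :=
              mul_le_mul_of_nonneg_right (by linarith) hP.le
        linarith
      · push Not at h2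
        have hLJ : J < L w := by
          have : γ * L w ≤ L w := by
            have := mul_le_mul_of_nonneg_right hγ1 (hL0 w)
            linarith
          linarith
        have hκL : κ * J ≤ κ * L w := mul_le_mul_of_nonneg_left hLJ.le hκ.le
        by_cases h3 : κ / 4 * L w ≤ ∑ a ∈ univ.filter (fun a => |bias (hw η p f w) a| < β),
            KL (bias (hw η p f w) a)
        · -- tiny biases
          have h4 := qloc_trans hd hp hη hη1 hf hκ hκ1 hγ hγ1 hβ hβ1 k hk hβη hη' hη'2 hH1 hH2 w hP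
            h2 (by
              simp only [hL] at hκL
              linarith) h3
          have h5 : t w ≤ H ^ 3 * Real.exp (-(κ * J / 1024)) * Pw η' p f w ^ (1 + γ) := by
            refine le_trans h4 ?_
            refine mul_le_mul_of_nonneg_right (mul_le_mul_of_nonneg_left
              (Real.exp_le_exp.mpr ?_) (by positivity)) (hpw0' w)
            simp only [hL] at hκL
            linarith
          linarith
        · -- big biases
          push Not at h3
          have h4 : κ / 4 * L w ≤ ∑ a ∈ univ.filter (fun a => β ≤ |bias (hw η p f w) a|),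
              KL (bias (hw η p f w) a) := by
            have h5 := Finset.sum_filter_add_sum_filter_not univ
              (fun a => |bias (hw η p f w) a| < β) (fun a => KL (bias (hw η p f w) a))
            simp only [not_lt] at h5
            linarith
          have hfl : ((⌊L w⌋₊ : ℕ) : ℝ) ≤ L w := Nat.floor_le (hL0 w)
          have hfl1 : L w ≤ ((⌊L w⌋₊ : ℕ) : ℝ) + 1 := (Nat.lt_floor_add_one _).le
          have hflp : ⌊L w⌋₊ < p + 1 := by
            have : ⌊L w⌋₊ ≤ p := Nat.floor_le_of_le h2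
            omega
          have hwW : w ∈ W ⌊L w⌋₊ := by
            simp only [hW, Finset.mem_filter]
            exact ⟨hwG, hfl, hfl1, h2, h1, h4⟩
          have h5 : t w ≤ ∑ j ∈ Finset.range (p + 1), (if w ∈ W j then t w else 0) := by
            have := Finset.single_le_sum (f := fun j => if w ∈ W j then t w else 0)
              (s := Finset.range (p + 1)) (fun j _ => by
                split_ifs
                · exact ht0 w
                · exact le_rfl) (Finset.mem_range.mpr hflp)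
            simpa only [hwW, if_true] using this
          linarith
  have hsum := Finset.sum_le_sum hpoint
  rw [Finset.sum_add_distrib, Finset.sum_add_distrib, Finset.sum_add_distrib] at hsum
  have s1 : ∑ w ∈ G, 2 * J * Pw η p f w ^ (1 + γ) ≤ 2 * J * Fg η p γ f := by
    rw [Fg, Finset.mul_sum]
    exact Finset.sum_le_sum_of_subset_of_nonneg (Finset.filter_subset _ _)
      fun w _ _ => mul_nonneg (by linarith) (hpw0 w)
  have s2 : ∑ w ∈ G, 2 * Real.exp (-(γ * p / 2)) * Pw η p f w ≤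
      H * Real.exp (-(γ * p / 2)) := by
    have h1 := sum_Pw_le (p := p) hη (by omega) hf
    have h2 : ∑ w ∈ G, Pw η p f w ≤ ∑ w, Pw η p f w :=
      Finset.sum_le_sum_of_subset_of_nonneg (Finset.filter_subset _ _)
        fun w _ _ => Pw_nonneg f w
    rw [← Finset.mul_sum]
    have h3 : 2 * ∑ w ∈ G, Pw η p f w ≤ H := by
      have e : 4 * (d : ℝ) ^ 2 / η = 2 * (2 * (d : ℝ) ^ 2 / η) := by ring
      rw [e] at hHd
      linarith
    calc 2 * Real.exp (-(γ * p / 2)) * ∑ w ∈ G, Pw η p f w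
        = (2 * ∑ w ∈ G, Pw η p f w) * Real.exp (-(γ * p / 2)) := by ring
      _ ≤ H * Real.exp (-(γ * p / 2)) := mul_le_mul_of_nonneg_right h3 (Real.exp_pos _).le
  have s3 : ∑ w ∈ G, H ^ 3 * Real.exp (-(κ * J / 1024)) * Pw η' p f w ^ (1 + γ) ≤
      H ^ 3 * Real.exp (-(κ * J / 1024)) * Fg η' p γ f := by
    rw [Fg, Finset.mul_sum]
    exact Finset.sum_le_sum_of_subset_of_nonneg (Finset.filter_subset _ _)
      fun w _ _ => mul_nonneg (by positivity) (hpw0' w)
  have s4 : ∑ w ∈ G, ∑ j ∈ Finset.range (p + 1), (if w ∈ W j then t w else 0) ≤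
      H ^ 3 * Real.exp (-(κ * J / 1024)) * Fg η' p γ f
        + H ^ 2 * Real.exp (-(κ * J / (16 * γ))) := by
    rw [Finset.sum_comm]
    have h1 : ∀ j ∈ Finset.range (p + 1), ∑ w ∈ G, (if w ∈ W j then t w else 0) ≤
        H ^ 2 * (2 * Real.exp (-(κ * J / 1024))) * Fg η' p γ f
          + H * (2 * Real.exp (-(κ * J / (16 * γ)))) := by
      intro j hj
      rw [← Finset.sum_filter]
      have h2 : G.filter (fun w => w ∈ W j) = W j := by
        ext w
        simp only [Finset.mem_filter, hW]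
        tauto
      rw [h2]
      exact hshell j hj
    refine (Finset.sum_le_sum h1).trans ?_
    rw [Finset.sum_const, Finset.card_range, nsmul_eq_mul]
    push_cast
    have hx : 0 ≤ H ^ 2 * Real.exp (-(κ * J / 1024)) * Fg η' p γ f :=
      mul_nonneg (by positivity) hF'
    have hy : 0 ≤ H * Real.exp (-(κ * J / (16 * γ))) := by positivity
    have h3 := mul_le_mul_of_nonneg_right hHp hx
    have h4 := mul_le_mul_of_nonneg_right hHp hy
    calc ((p : ℝ) + 1) * (H ^ 2 * (2 * Real.exp (-(κ * J / 1024))) * Fg η' p γ f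
          + H * (2 * Real.exp (-(κ * J / (16 * γ)))))
        = 2 * ((p : ℝ) + 1) * (H ^ 2 * Real.exp (-(κ * J / 1024)) * Fg η' p γ f)
          + 2 * ((p : ℝ) + 1) * (H * Real.exp (-(κ * J / (16 * γ)))) := by ring
      _ ≤ H * (H ^ 2 * Real.exp (-(κ * J / 1024)) * Fg η' p γ f)
          + H * (H * Real.exp (-(κ * J / (16 * γ)))) := add_le_add h3 h4
      _ = _ := by ring
  have hE1 : 0 ≤ Real.exp (-(κ * J / 1024)) * Fg η' p γ f :=
    mul_nonneg (Real.exp_pos _).le hF'
  have hE2 : 0 ≤ Real.exp (-(κ * J / (16 * γ))) := (Real.exp_pos _).le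
  have hH3 : 2 * H ^ 3 ≤ H ^ 4 := by
    have : 0 ≤ H ^ 3 := by positivity
    nlinarith
  have hH2' : H ^ 2 ≤ H ^ 3 := pow_le_pow_right₀ hH1' (by norm_num)
  have f1 := mul_le_mul_of_nonneg_right hH3 hE1
  have f2 := mul_le_mul_of_nonneg_right hH2' hE2
  have g1 : 2 * H ^ 3 * (Real.exp (-(κ * J / 1024)) * Fg η' p γ f) =
      H ^ 3 * Real.exp (-(κ * J / 1024)) * Fg η' p γ f +
      H ^ 3 * Real.exp (-(κ * J / 1024)) * Fg η' p γ f := by ring
  have g2 : H ^ 4 * (Real.exp (-(κ * J / 1024)) * Fg η' p γ f) =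
      H ^ 4 * Real.exp (-(κ * J / 1024)) * Fg η' p γ f := by ring
  linarith

end Pool.Agent.SUB
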