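import Mathlib
import Pool.Agent.SUB.PsiDeriv
import Pool.Agent.SUB.QLocal2
import Pool.Agent.SUB.Init

/-!
QP module QEA: the averaged improved local inequality along the slow curve `γ' = κ γ`.

Exactly as `Early.lean`: apply `qlocal` to all restrictions `f_{S,y}` (`bdd_mix`), average
(`avg_mono`, `avg_add`, `avg_const_mul`, `avg_const`; `s = 1 - exp(-u) ∈ [0,1]`), multiply by
`exp u`.
-/

set_option linter.dupNamespace false

namespace Pool.Agent.SUB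

open Finset Pool.Agent.Helper11.Cube Pool.Agent.Helper11.AA

variable {n d p : ℕ} {η : ℝ}

theorem qearly (hd : 1 ≤ d) (hp : 10 ≤ p) (hη : 0 < η) (hη1 : η ≤ 1) {f : Cube n → ℝ}
    (hf : Bdd d f) {κ γ β H η' J u : ℝ} (hκ : 0 < κ) (hκ1 : κ ≤ 1) (hγ : 0 < γ) (hγ1 : γ ≤ 1)
    (hβ : 0 < β) (hβ1 : β ≤ 1) (k : ℕ) (hk : 4 / η ≤ (8 / (50 * β * (d : ℝ) ^ 2)) ^ (k + 1))
    (hβη : Real.log (2 * (4 * 50 ^ (k + 1) / η)) ≤ 1 / (4 * β)) (hη' : 0 < η')
    (hη'1 : η' ≤ β * η / (48 * p)) (hη'2 : η' ≤ η / (8 * 50 ^ (k + 1)))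
    (hH1 : QB d p β η ≤ H) (hH2 : 1 / (κ * η') ≤ H) (hJ : 4096 * Real.log H ≤ κ * J)
    (hu : 0 ≤ u) :
    Real.exp u * avg (1 - Real.exp (-u)) (fun g => ∑ w, Pw η p g w ^ (1 + γ)
        * ((∑ a, phi γ (bias (hw η p g w) a)) + (κ * γ) * Real.log (Pw η p g w))) f
      ≤ 2 * J * Psi η p γ u f
        + H ^ 4 * Real.exp (-(κ * J / 1024)) * Psi η' p γ u f
        + Real.exp u * (H ^ 3 * Real.exp (-(κ * J / (16 * γ))) + H * Real.exp (-(γ * p / 2))) := by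
  set s : ℝ := 1 - Real.exp (-u) with hs
  have hs0 : 0 ≤ s := by
    have : Real.exp (-u) ≤ 1 := Real.exp_le_one_iff.2 (by linarith)
    rw [hs]; linarith
  have hs1 : s ≤ 1 := by
    have : 0 < Real.exp (-u) := Real.exp_pos _
    rw [hs]; linarith
  set c1 : ℝ := H ^ 4 * Real.exp (-(κ * J / 1024)) with hc1
  set c2 : ℝ := H ^ 3 * Real.exp (-(κ * J / (16 * γ))) with hc2
  set c3 : ℝ := H * Real.exp (-(γ * p / 2)) with hc3
  have h1 : avg s (fun g => ∑ w, Pw η p g w ^ (1 + γ)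
        * ((∑ a, phi γ (bias (hw η p g w) a)) + (κ * γ) * Real.log (Pw η p g w))) f
      ≤ avg s (fun g => ((2 * J) * Fg η p γ g + c1 * Fg η' p γ g) + (c2 + c3)) f := by
    refine avg_mono hs0 hs1 fun S y => ?_
    have h2 := qlocal hd hp hη hη1 (bdd_mix hf S y) hκ hκ1 hγ hγ1 hβ hβ1 k hk hβη hη' hη'1 hη'2
      hH1 hH2 hJ
    refine h2.trans (le_of_eq ?_)
    simp only [hc1, hc2, hc3]
    ring
  have h3 : avg s (fun g => ((2 * J) * Fg η p γ g + c1 * Fg η' p γ g) + (c2 + c3)) f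
      = ((2 * J) * avg s (Fg η p γ) f + c1 * avg s (Fg η' p γ) f) + (c2 + c3) := by
    rw [avg_add s (fun g => (2 * J) * Fg η p γ g + c1 * Fg η' p γ g) (fun _ => c2 + c3),
      avg_add s (fun g => (2 * J) * Fg η p γ g) (fun g => c1 * Fg η' p γ g),
      avg_const_mul s (2 * J) (Fg η p γ), avg_const_mul s c1 (Fg η' p γ), avg_const]
  rw [h3] at h1
  have h4 := mul_le_mul_of_nonneg_left h1 (Real.exp_pos u).le
  refine h4.trans (le_of_eq ?_)
  unfold Psi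
  rw [← hs]
  ring

end Pool.Agent.SUB
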