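import Mathlib
import Pool.Agent.SUB.QEarly

/-!
QP: the barrier argument for the early part (downward induction on the level).
-/

set_option linter.dupNamespace false

namespace Pool.Agent.SUB

open Finset Pool.Agent.Helper11.Cube Pool.Agent.Helper11.AA

variable {n d p : ℕ}

/-- The exponent on the early curve ending with `g` at time `U`. -/
noncomputable def eγ (κ g U t : ℝ) : ℝ := g * Real.exp (κ * (t - U))

/-- The barrier. -/
noncomputable def qbar (T ω kb : ℝ) (R r : ℕ) (t : ℝ) : ℝ :=
  -T + 2 * T * Real.exp (ω * t - kb * ((R : ℝ) - r))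

lemma eγ_pos {κ g U t : ℝ} (hg : 0 < g) : 0 < eγ κ g U t := by
  unfold eγ; positivity

lemma eγ_le {κ g U t : ℝ} (hκ : 0 < κ) (hg : 0 < g) (ht : t ≤ U) : eγ κ g U t ≤ g := by
  unfold eγ
  have : Real.exp (κ * (t - U)) ≤ 1 := by
    apply Real.exp_le_one_iff.mpr
    nlinarith
  nlinarith

lemma eγ_ge {κ g U t : ℝ} (hκ : 0 < κ) (hg : 0 < g) (ht : 0 ≤ t) : eγ κ g U 0 ≤ eγ κ g U t := by
  unfold eγ
  apply mul_le_mul_of_nonneg_left _ hg.le
  apply Real.exp_le_exp.mpr
  nlinarith

lemma eγ_self (κ g U : ℝ) : eγ κ g U U = g := by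
  unfold eγ; simp

lemma hasDerivAt_eγ (κ g U t : ℝ) : HasDerivAt (eγ κ g U) (κ * eγ κ g U t) t := by
  have h1 : HasDerivAt (fun t : ℝ => κ * (t - U)) κ t := by
    have := ((hasDerivAt_id t).sub_const U).const_mul κ
    simpa using this
  have h2 := (h1.exp).const_mul g
  have h3 : κ * eγ κ g U t = g * (Real.exp (κ * (t - U)) * κ) := by
    unfold eγ; ring
  rw [h3]
  exact h2

lemma hasDerivAt_qbar (T ω kb : ℝ) (R r : ℕ) (t : ℝ) :
    HasDerivAt (fun t => Real.exp (qbar T ω kb R r t))
      (Real.exp (qbar T ω kb R r t) * (ω * (2 * T *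
        Real.exp (ω * t - kb * ((R : ℝ) - r))))) t := by
  have h1 : HasDerivAt (fun t : ℝ => ω * t - kb * ((R : ℝ) - r)) ω t := by
    have := ((hasDerivAt_id t).const_mul ω).sub_const (kb * ((R : ℝ) - r))
    simpa using this
  have h2 : HasDerivAt (fun t => qbar T ω kb R r t) (2 * T *
      (Real.exp (ω * t - kb * ((R : ℝ) - r)) * ω)) t := by
    unfold qbar
    exact ((h1.exp).const_mul (2 * T)).const_add (-T)
  have h3 := h2.exp
  convert h3 using 1
  simp only [mul_eq_mul_left_iff]
  left
  ring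

theorem qbarrier (hd : 1 ≤ d) (hp : 10 ≤ p) {f : Cube n → ℝ} (hf : Bdd d f)
    {κ ω kb g U T B β H : ℝ} (R : ℕ) (thr : ℕ → ℝ) (hthr : ∀ r ≤ R, 0 < thr r ∧ thr r ≤ 1)
    (hκ : 0 < κ) (hκ1 : κ ≤ 1) (hg : 0 < g) (hg1 : g ≤ 1) (hβ : 0 < β) (hβ1 : β ≤ 1)
    (hlev : ∀ r < R, ∃ k : ℕ, 4 / thr r ≤ (8 / (50 * β * (d : ℝ) ^ 2)) ^ (k + 1) ∧
      Real.log (2 * (4 * 50 ^ (k + 1) / thr r)) ≤ 1 / (4 * β) ∧
      thr (r + 1) ≤ β * thr r / (48 * p) ∧ thr (r + 1) ≤ thr r / (8 * 50 ^ (k + 1)) ∧
      QB d p β (thr r) ≤ H ∧ 1 / (κ * thr (r + 1)) ≤ H)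
    (hH0 : 0 < H) (hHB : 4 * Real.log H ≤ B) (hB0 : 0 < B) (hT0 : 0 < T) (hω : 0 ≤ ω)
    (hkb : 0 ≤ kb)
    (hX : ∀ X : ℝ, 2 * T * Real.exp (-(kb * R)) ≤ X →
      2 * (1024 / κ * ((Real.exp kb - 1) * X + B)) + 2 < ω * X)
    (hs1 : Real.exp (U + T) * (H ^ 3 * Real.exp (-(64 * B / g))) ≤ 1 / 2)
    (hs2 : Real.exp (U + T) * (H * Real.exp (-(eγ κ g U 0 * p / 2))) ≤ 1 / 2)
    (htop : Real.exp U * (2 * (d : ℝ) ^ 2 / thr R) ≤ Real.exp T)
    (hinit : ∀ r < R, Psi (thr r) p (eγ κ g U 0) 0 f ≤ Real.exp (-T)) :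
    ∀ k, k ≤ R → ∀ t ∈ Set.Icc 0 U,
      Psi (thr (R - k)) p (eγ κ g U t) t f ≤ Real.exp (qbar T ω kb R (R - k) t) := by
  have hp1 : 1 ≤ p := by omega
  intro k
  induction k with
  | zero =>
    intro _ t ht
    have hη' := (hthr R le_rfl).1
    simp only [Nat.sub_zero]
    refine (psi_le hη' hp1 hf (eγ_pos hg).le ht.1).trans ?_
    calc Real.exp t * (2 * (d : ℝ) ^ 2 / thr R)
        ≤ Real.exp U * (2 * (d : ℝ) ^ 2 / thr R) := by
          apply mul_le_mul_of_nonneg_right (Real.exp_le_exp.mpr ht.2) (by positivity)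
      _ ≤ Real.exp T := htop
      _ ≤ Real.exp (qbar T ω kb R R t) := by
          apply Real.exp_le_exp.mpr
          unfold qbar
          have : (1 : ℝ) ≤ Real.exp (ω * t - kb * ((R : ℝ) - R)) := by
            apply Real.one_le_exp
            have := ht.1
            simp only [sub_self, mul_zero, sub_zero]
            positivity
          nlinarith
  | succ k ih =>
    intro hk
    have hk' : k ≤ R := by omega
    have ihk := ih hk'
    set r := R - (k + 1) with hr
    have hrR : r < R := by omega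
    have hr1 : R - k = r + 1 := by omega
    rw [hr1] at ihk
    have hη' := (hthr r hrR.le).1
    have hη1' := (hthr r hrR.le).2
    have hη'' := (hthr (r + 1) hrR).1
    obtain ⟨k₀, hk1, hk2, hk3, hk4, hk5, hk6⟩ := hlev r hrR
    have hderiv : ∀ t, HasDerivAt (fun t => Psi (thr r) p (eγ κ g U t) t f) _ t :=
      fun t => hasDerivAt_Psi hη' hp1 (hasDerivAt_eγ κ g U t) (eγ_pos hg).le f
    apply image_le_of_deriv_right_lt_deriv_boundary (a := 0) (b := U)
      (fun t _ => (hderiv t).continuousAt.continuousWithinAt)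
      (fun t _ => (hderiv t).hasDerivWithinAt)
    · refine (hinit r hrR).trans (Real.exp_le_exp.mpr ?_)
      unfold qbar
      have : 0 < 2 * T * Real.exp (ω * (0 : ℝ) - kb * ((R : ℝ) - r)) := by positivity
      linarith
    · exact fun t => hasDerivAt_qbar T ω kb R r t
    · intro t ht heq
      have ht' : t ∈ Set.Icc 0 U := ⟨ht.1, ht.2.le⟩
      set X := 2 * T * Real.exp (ω * t - kb * ((R : ℝ) - r)) with hXdef
      set J := 1024 / κ * ((Real.exp kb - 1) * X + B) with hJ
      set γ := eγ κ g U t with hγ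
      have hγ0 : 0 < γ := eγ_pos hg
      have hγg : γ ≤ g := eγ_le hκ hg ht'.2
      have hX0 : 0 < X := by positivity
      have he1 : 1 ≤ Real.exp kb := Real.one_le_exp hkb
      have hDX : 0 ≤ (Real.exp kb - 1) * X := mul_nonneg (by linarith) hX0.le
      have hκJ : κ * J = 1024 * ((Real.exp kb - 1) * X + B) := by
        rw [hJ]; field_simp
      have hκJB : 1024 * B ≤ κ * J := by rw [hκJ]; linarith
      have hJQ : 4096 * Real.log H ≤ κ * J := by linarith
      have hXlow : 2 * T * Real.exp (-(kb * R)) ≤ X := by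
        rw [hXdef]
        apply mul_le_mul_of_nonneg_left _ (by positivity)
        apply Real.exp_le_exp.mpr
        have h1 : 0 ≤ ω * t := mul_nonneg hω ht'.1
        have h2 : 0 ≤ kb * (r : ℝ) := by positivity
        linarith [mul_sub kb (R : ℝ) r]
      have hnum := hX X hXlow
      have hearly := qearly hd hp hη' hη1' hf (γ := γ) (κ := κ) (β := β) (H := H)
        (η' := thr (r + 1)) (J := J) (u := t) hκ hκ1 hγ0 (hγg.trans hg1) hβ hβ1 k₀ hk1 hk2 hη''
        hk3 hk4 hk5 hk6 hJQ ht'.1
      refine lt_of_le_of_lt hearly ?_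
      set E := Real.exp (qbar T ω kb R r t) with hE
      have hE0 : 0 < E := Real.exp_pos _
      have hPsi1 : Psi (thr r) p γ t f = E := heq
      have hPsi2 : Psi (thr (r + 1)) p γ t f ≤ Real.exp (qbar T ω kb R (r + 1) t) := ihk t ht'
      have hbar : qbar T ω kb R (r + 1) t = qbar T ω kb R r t + (Real.exp kb - 1) * X := by
        rw [hXdef]
        unfold qbar
        have h1 : Real.exp (ω * t - kb * ((R : ℝ) - ((r + 1 : ℕ) : ℝ)))
            = Real.exp kb * Real.exp (ω * t - kb * ((R : ℝ) - r)) := by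
          rw [← Real.exp_add]; congr 1; push_cast; ring
        rw [h1]; ring
      have ht2 : H ^ 4 * Real.exp (-(κ * J / 1024)) * Psi (thr (r + 1)) p γ t f ≤ 1 * E := by
        have h1 : H ^ 4 ≤ Real.exp B := by
          have h6 : H ≤ Real.exp (B / 4) := by
            rw [← Real.log_le_iff_le_exp hH0]
            linarith
          calc H ^ 4 ≤ Real.exp (B / 4) ^ 4 := pow_le_pow_left₀ hH0.le h6 4
            _ = Real.exp B := by rw [← Real.exp_nat_mul]; congr 1; push_cast; ring
        calc H ^ 4 * Real.exp (-(κ * J / 1024)) * Psi (thr (r + 1)) p γ t f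
            ≤ Real.exp B * Real.exp (-(κ * J / 1024)) * Real.exp (qbar T ω kb R (r + 1) t) := by
              apply mul_le_mul _ hPsi2 (psi_nonneg f ht'.1) (by positivity)
              apply mul_le_mul_of_nonneg_right h1 (Real.exp_pos _).le
          _ = 1 * E := by
              rw [hE, one_mul, ← Real.exp_add, ← Real.exp_add, hbar]
              congr 1
              rw [hκJ]; ring
      have hyT : -T ≤ qbar T ω kb R r t := by
        unfold qbar
        have : 0 < 2 * T * Real.exp (ω * t - kb * ((R : ℝ) - r)) := by positivity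
        linarith
      have hET : Real.exp t ≤ Real.exp (U + T) * E := by
        rw [hE, ← Real.exp_add]
        apply Real.exp_le_exp.mpr
        have := ht'.2
        linarith
      have ht3 : Real.exp t * (H ^ 3 * Real.exp (-(κ * J / (16 * γ)))
          + H * Real.exp (-(γ * p / 2))) ≤ 1 * E := by
        have h1 : H ^ 3 * Real.exp (-(κ * J / (16 * γ))) ≤ H ^ 3 * Real.exp (-(64 * B / g)) := by
          apply mul_le_mul_of_nonneg_left _ (by positivity)
          apply Real.exp_le_exp.mpr
          apply neg_le_neg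
          have h2 : 64 * B / g = 1024 * B / (16 * g) := by field_simp; norm_num
          rw [h2]
          apply div_le_div₀ (by linarith) (by linarith) (by positivity) (by linarith)
        have h2 : H * Real.exp (-(γ * p / 2)) ≤ H * Real.exp (-(eγ κ g U 0 * p / 2)) := by
          apply mul_le_mul_of_nonneg_left _ hH0.le
          apply Real.exp_le_exp.mpr
          apply neg_le_neg
          have h3 := eγ_ge (U := U) hκ hg ht'.1
          have h4 : (0 : ℝ) ≤ p := by positivity
          have := mul_le_mul_of_nonneg_right h3 h4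
          linarith
        have h5 : 0 ≤ H ^ 3 * Real.exp (-(64 * B / g)) + H * Real.exp (-(eγ κ g U 0 * p / 2)) := by
          positivity
        calc Real.exp t * (H ^ 3 * Real.exp (-(κ * J / (16 * γ))) + H * Real.exp (-(γ * p / 2)))
            ≤ Real.exp t * (H ^ 3 * Real.exp (-(64 * B / g))
              + H * Real.exp (-(eγ κ g U 0 * p / 2))) := by
              apply mul_le_mul_of_nonneg_left _ (Real.exp_pos _).le
              linarith
          _ ≤ (Real.exp (U + T) * E) * (H ^ 3 * Real.exp (-(64 * B / g))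
              + H * Real.exp (-(eγ κ g U 0 * p / 2))) :=
              mul_le_mul_of_nonneg_right hET h5
          _ = E * (Real.exp (U + T) * (H ^ 3 * Real.exp (-(64 * B / g)))
              + Real.exp (U + T) * (H * Real.exp (-(eγ κ g U 0 * p / 2)))) := by ring
          _ ≤ E * (1 / 2 + 1 / 2) := by
              apply mul_le_mul_of_nonneg_left _ hE0.le
              linarith
          _ = 1 * E := by ring
      rw [hPsi1]
      calc 2 * J * E + H ^ 4 * Real.exp (-(κ * J / 1024)) * Psi (thr (r + 1)) p γ t f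
            + Real.exp t * (H ^ 3 * Real.exp (-(κ * J / (16 * γ)))
              + H * Real.exp (-(γ * p / 2)))
          ≤ (2 * J + 2) * E := by linarith
        _ < (ω * X) * E := mul_lt_mul_of_pos_right hnum hE0
        _ = E * (ω * X) := by ring

end Pool.Agent.SUB
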