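import Mathlib
import Pool.Agent.SUB.QBarrier
import Pool.Agent.SUB.Param

/-!
QP: the levels and their thresholds.
-/

set_option linter.dupNamespace false

namespace Pool.Agent.SUB

open Finset Pool.Agent.Helper11.Cube Pool.Agent.Helper11.AA

/-- The thresholds. -/
noncomputable def qthr (p : ℕ) (β lam η₀ : ℝ) : ℕ → ℝ
  | 0 => η₀
  | r + 1 => (qthr p β lam η₀ r) ^ (1 + lam) * β / (1000000 * p)

lemma qthr_pos {p : ℕ} {β lam η₀ : ℝ} (hp : 1 ≤ p) (hβ : 0 < β) (hη : 0 < η₀) (r : ℕ) :
    0 < qthr p β lam η₀ r := by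
  have hp' : (0 : ℝ) < p := by exact_mod_cast hp
  induction r with
  | zero => simpa [qthr] using hη
  | succ r ih => simp only [qthr]; positivity

lemma qthr_le {p : ℕ} {β lam η₀ : ℝ} (hp : 1 ≤ p) (hβ : 0 < β) (hβ1 : β ≤ 1) (hlam : 0 ≤ lam)
    (hη : 0 < η₀) (h1 : η₀ ≤ 1) (r : ℕ) : qthr p β lam η₀ r ≤ 1 := by
  have hp' : (1 : ℝ) ≤ p := by exact_mod_cast hp
  induction r with
  | zero => simpa [qthr] using h1
  | succ r ih =>
    simp only [qthr]
    have h2 := qthr_pos (lam := lam) hp hβ hη r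
    have h3 : qthr p β lam η₀ r ^ (1 + lam) ≤ 1 := Real.rpow_le_one h2.le ih (by linarith)
    have h4 : 0 < qthr p β lam η₀ r ^ (1 + lam) := by positivity
    rw [div_le_one (by positivity)]
    nlinarith

lemma neg_log_qthr {p : ℕ} {β lam η₀ : ℝ} (hp : 1 ≤ p) (hβ : 0 < β) (hlam : 0 ≤ lam)
    (hη : 0 < η₀) (hA : 0 ≤ Real.log (1000000 * p / β)) (r : ℕ) :
    - Real.log (qthr p β lam η₀ r)
      ≤ (1 + lam) ^ r * (- Real.log η₀ + r * Real.log (1000000 * p / β)) := by
  have hp' : (0 : ℝ) < p := by exact_mod_cast hp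
  induction r with
  | zero => simp [qthr]
  | succ r ih =>
    have h2 := qthr_pos (lam := lam) hp hβ hη r
    have h3 : - Real.log (qthr p β lam η₀ (r + 1))
        = (1 + lam) * (- Real.log (qthr p β lam η₀ r)) + Real.log (1000000 * p / β) := by
      simp only [qthr]
      rw [Real.log_div (by positivity) (by positivity), Real.log_mul (by positivity) hβ.ne',
        Real.log_rpow h2, Real.log_div (by positivity) hβ.ne']
      ring
    rw [h3]
    have h4 : (1 : ℝ) ≤ (1 + lam) ^ (r + 1) := one_le_pow₀ (by linarith)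
    have h5 : (1 + lam) * (- Real.log (qthr p β lam η₀ r))
        ≤ (1 + lam) * ((1 + lam) ^ r * (- Real.log η₀ + r * Real.log (1000000 * p / β))) :=
      mul_le_mul_of_nonneg_left ih (by linarith)
    have h6 : Real.log (1000000 * p / β) ≤ (1 + lam) ^ (r + 1) * Real.log (1000000 * p / β) := by
      nlinarith
    calc (1 + lam) * (- Real.log (qthr p β lam η₀ r)) + Real.log (1000000 * p / β)
        ≤ (1 + lam) * ((1 + lam) ^ r * (- Real.log η₀ + r * Real.log (1000000 * p / β)))
          + (1 + lam) ^ (r + 1) * Real.log (1000000 * p / β) := by linarith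
      _ = (1 + lam) ^ (r + 1) * (- Real.log η₀ + ((r + 1 : ℕ) : ℝ)
            * Real.log (1000000 * p / β)) := by
          push_cast; ring

lemma pow_le_exp {lam : ℝ} (hlam : 0 ≤ lam) (r : ℕ) : (1 + lam) ^ r ≤ Real.exp (lam * r) := by
  have h1 : 1 + lam ≤ Real.exp lam := by linarith [Real.add_one_le_exp lam]
  calc (1 + lam) ^ r ≤ Real.exp lam ^ r := pow_le_pow_left₀ (by linarith) h1 r
    _ = Real.exp (lam * r) := by rw [← Real.exp_nat_mul]; congr 1; ring

/-- Choice of the number `k` of interpolation nodes. -/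
lemma exists_k {η s lam : ℝ} (hη : 0 < η) (hη1 : η ≤ 1) (hs : 1 < s)
    (hlam : 4 / Real.log s ≤ lam) (hlam1 : lam ≤ 1) :
    ∃ k : ℕ, 4 / η ≤ s ^ (k + 1) ∧ η ^ (1 + lam) / 1600 ≤ η / (8 * 50 ^ (k + 1)) := by
  have hls : 0 < Real.log s := Real.log_pos hs
  have h4η : 1 < 4 / η := by rw [lt_div_iff₀ hη]; linarith
  have hl4 : 0 < Real.log (4 / η) := Real.log_pos h4η
  have hs0 : 0 < s := by linarith
  refine ⟨⌊Real.log (4 / η) / Real.log s⌋₊, ?_, ?_⟩
  · set k := ⌊Real.log (4 / η) / Real.log s⌋₊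
    have h1 : Real.log (4 / η) / Real.log s < k + 1 := Nat.lt_floor_add_one _
    rw [div_lt_iff₀ hls] at h1
    rw [← Real.log_le_log_iff (by positivity) (by positivity), Real.log_pow]
    push_cast
    exact h1.le
  · set k := ⌊Real.log (4 / η) / Real.log s⌋₊
    have h1 : (k : ℝ) ≤ Real.log (4 / η) / Real.log s := Nat.floor_le (by positivity)
    have h50 : Real.log 50 ≤ 4 := by
      have h2 := Real.log_two_lt_d9
      have h3 : Real.log 50 ≤ Real.log (2 ^ 6) := Real.log_le_log (by norm_num) (by norm_num)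
      rw [Real.log_pow] at h3
      have h5 : (50 : ℝ) ≤ Real.exp 4 := by
        have h6 := Real.exp_one_gt_d9
        have h7 : Real.exp 4 = Real.exp 1 ^ 4 := by rw [← Real.exp_nat_mul]; norm_num
        rw [h7]
        have h8 : (2.718 : ℝ) ^ 4 ≤ Real.exp 1 ^ 4 := pow_le_pow_left₀ (by norm_num) (by linarith) 4
        norm_num at h8 ⊢
        linarith
      calc Real.log 50 ≤ Real.log (Real.exp 4) := Real.log_le_log (by norm_num) h5
        _ = 4 := Real.log_exp 4
    have h2 : (50 : ℝ) ^ k ≤ (4 / η) ^ lam := by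
      rw [Real.rpow_def_of_pos (by positivity), ← Real.log_le_iff_le_exp (by positivity),
        Real.log_pow]
      have h3 : (k : ℝ) * Real.log 50 ≤ Real.log (4 / η) / Real.log s * 4 := by
        apply mul_le_mul h1 h50 (Real.log_nonneg (by norm_num)) (by positivity)
      calc (k : ℝ) * Real.log 50 ≤ Real.log (4 / η) / Real.log s * 4 := h3
        _ = Real.log (4 / η) * (4 / Real.log s) := by ring
        _ ≤ Real.log (4 / η) * lam := mul_le_mul_of_nonneg_left hlam hl4.le
    have hlam0 : 0 ≤ lam := le_trans (by positivity) hlam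
    have h3 : (4 / η) ^ lam ≤ 4 / η ^ lam := by
      rw [Real.div_rpow (by norm_num) hη.le]
      apply div_le_div_of_nonneg_right _ (by positivity)
      calc (4 : ℝ) ^ lam ≤ (4 : ℝ) ^ (1 : ℝ) :=
            Real.rpow_le_rpow_of_exponent_le (by norm_num) hlam1
        _ = 4 := by norm_num
    have h4 : (50 : ℝ) ^ (k + 1) ≤ 200 / η ^ lam := by
      rw [pow_succ]
      calc (50 : ℝ) ^ k * 50 ≤ (4 / η ^ lam) * 50 := by
            apply mul_le_mul_of_nonneg_right (h2.trans h3) (by norm_num)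
        _ = 200 / η ^ lam := by ring
    have hηl : 0 < η ^ lam := by positivity
    rw [div_le_div_iff₀ (by norm_num) (by positivity), Real.rpow_add hη, Real.rpow_one]
    calc η * η ^ lam * (8 * 50 ^ (k + 1)) ≤ η * η ^ lam * (8 * (200 / η ^ lam)) := by
          apply mul_le_mul_of_nonneg_left _ (by positivity)
          linarith
      _ = η * 1600 := by field_simp; norm_num

end Pool.Agent.SUB
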