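import Mathlib
import Pool.Agent.SUB.QParam
import Pool.Agent.SUB.BasicBound

/-!
QP: the main theorem.
-/

set_option linter.dupNamespace false

namespace Pool.Agent.SUB

open Finset Pool.Agent.Helper11.Cube Pool.Agent.Helper11.AA

variable {n d : ℕ}

lemma exp_small {x : ℝ} (hx : 0 < x) (hx1 : x ≤ 1 / 20) : Real.exp x - 1 ≤ 1.1 * x := by
  have h1 : 1 - x ≤ Real.exp (-x) := by linarith [Real.add_one_le_exp (-x)]
  have h2 : Real.exp x * (1 - x) ≤ 1 := by
    calc Real.exp x * (1 - x) ≤ Real.exp x * Real.exp (-x) :=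
          mul_le_mul_of_nonneg_left h1 (Real.exp_pos _).le
      _ = 1 := by rw [← Real.exp_add]; simp
  nlinarith [Real.exp_pos x]

theorem qmain_large {f : Cube n → ℝ} (hf : Bdd d f) (hV : 0 < variance f) (hd : 1 ≤ d)
    (hl30 : 30 ≤ Real.log (2 * d / variance f))
    (hdl : 2000 * Real.log (2 * d / variance f) ^ 2 ≤ d) :
    Real.exp (-(30000000000000000000 * Real.log (2 * d / variance f) ^ 8)) ≤ maxDerivNorm f := by
  by_contra hM
  push Not at hM
  have hV1 : variance f ≤ 1 := variance_le_one hf.2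
  set V := variance f with hVdef
  have hd1 : (1 : ℝ) ≤ d := by exact_mod_cast hd
  have hd0 : (0 : ℝ) < d := by linarith
  have hlo := log_two_lo
  have hhi := log_two_hi
  set D := Real.log d with hD
  have hD0 : 0 ≤ D := Real.log_nonneg hd1
  set l := Real.log (2 * d / V) with hl
  have hl_eq : l = Real.log 2 + D - Real.log V := by
    rw [hl, Real.log_div (by positivity) hV.ne', Real.log_mul (by norm_num) hd0.ne']
  have hlogV : Real.log V ≤ 0 := Real.log_nonpos hV.le hV1
  have hDl : D ≤ l := by rw [hl_eq]; linarith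
  have hl0 : 0 < l := by linarith
  have hl2 : 900 ≤ l ^ 2 := by nlinarith
  have hl4 : 1 ≤ l ^ 4 := one_le_pow₀ (by linarith)
  have hl_l2 : 30 * l ≤ l ^ 2 := by nlinarith
  have hl_l4 : l ≤ l ^ 4 := by
    calc l = l ^ 1 := (pow_one l).symm
      _ ≤ l ^ 4 := pow_le_pow_right₀ (by linarith) (by norm_num)
  have hl2_l4 : 900 * l ^ 2 ≤ l ^ 4 := by
    have : l ^ 4 = l ^ 2 * l ^ 2 := by ring
    rw [this]; exact mul_le_mul_of_nonneg_right hl2 (by positivity)
  -- parameters
  set β := Real.exp (-(100000 * l ^ 2)) with hβ_def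
  have hβ : 0 < β := Real.exp_pos _
  have hβ1 : β ≤ 1 := Real.exp_le_one_iff.mpr (by linarith)
  have hlogβ : Real.log β = -(100000 * l ^ 2) := Real.log_exp _
  set lam := 1 / (12500 * l ^ 2) with hlam_def
  have hlam0 : 0 ≤ lam := by positivity
  have hlam1 : lam ≤ 1 := by
    rw [hlam_def, div_le_one (by positivity)]; linarith
  set kb := 1 / (5000 * l ^ 2) with hkb_def
  have hkb0 : 0 < kb := by positivity
  set R := ⌈12000 * l ^ 2⌉₊ with hR_def
  have hR1 : 12000 * l ^ 2 ≤ R := Nat.le_ceil _
  have hR2 : (R : ℝ) ≤ 12000 * l ^ 2 + 1 := (Nat.ceil_lt_add_one (by positivity)).le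
  set H := Real.exp (5000000000 * l ^ 4) with hH_def
  have hH0 : 0 < H := Real.exp_pos _
  have hlogH : Real.log H = 5000000000 * l ^ 4 := Real.log_exp _
  set B := 20000000000 * l ^ 4 with hB_def
  have hB0 : 0 < B := by positivity
  set T := 100000 * l ^ 2 * B with hT_def
  have hT0 : 0 < T := by positivity
  have hTB : 90000000 * B ≤ T := by
    rw [hT_def]
    have := mul_le_mul_of_nonneg_right (show (90000000 : ℝ) ≤ 100000 * l ^ 2 by linarith) hB0.le
    linarith
  have hBl : 20000000000 * l ≤ B := by rw [hB_def]; linarith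
  set g := 1 / (4000 * l ^ 2) with hg_def
  have hg0 : 0 < g := by positivity
  have hg1 : g ≤ 1 := by rw [hg_def, div_le_one (by positivity)]; linarith
  set p := ⌈48000 * l ^ 2 * T⌉₊ with hp_def
  have hp_ge : 48000 * l ^ 2 * T ≤ p := Nat.le_ceil _
  have hp_le : (p : ℝ) ≤ 48000 * l ^ 2 * T + 1 := (Nat.ceil_lt_add_one (by positivity)).le
  have hT1 : 1 ≤ T := by linarith
  have hl2T : 1 ≤ l ^ 2 * T := one_le_mul_of_one_le_of_one_le (by linarith) hT1
  have hp10' : (10 : ℝ) ≤ p := by linarith
  have hp10 : 10 ≤ p := by exact_mod_cast hp10'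
  have hp1 : 1 ≤ p := by omega
  have hp0 : (0 : ℝ) < p := by linarith
  have hlogl : Real.log l ≤ l := by linarith [Real.log_le_sub_one_of_pos hl0]
  have hlogp : Real.log p ≤ 47 + 8 * l := by
    have h1 : (p : ℝ) ≤ 2 ^ 67 * l ^ 8 := by
      calc (p : ℝ) ≤ 48000 * l ^ 2 * T + 1 := hp_le
        _ ≤ 48001 * (l ^ 2 * T) := by linarith
        _ = 48001 * (100000 * 20000000000) * l ^ 8 := by rw [hT_def, hB_def]; ring
        _ ≤ 2 ^ 67 * l ^ 8 := by
            apply mul_le_mul_of_nonneg_right _ (by positivity)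
            norm_num
    calc Real.log p ≤ Real.log (2 ^ 67 * l ^ 8) := Real.log_le_log hp0 h1
      _ = 67 * Real.log 2 + 8 * Real.log l := by
          rw [Real.log_mul (by positivity) (by positivity), Real.log_pow, Real.log_pow]
          norm_num
      _ ≤ 47 + 8 * l := by linarith
  have hlog6 : Real.log 1000000 ≤ 14 := by
    have := log_le_of_le_two_pow (x := 1000000) (k := 20) (by norm_num) (by norm_num)
    push_cast at this
    linarith
  have hlog6' : 0 ≤ Real.log 1000000 := Real.log_nonneg (by norm_num)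
  have hlogp0 : 0 ≤ Real.log p := Real.log_nonneg (by linarith)
  have hA_eq : Real.log (1000000 * p / β) = Real.log 1000000 + Real.log p + 100000 * l ^ 2 := by
    rw [Real.log_div (by positivity) hβ.ne', Real.log_mul (by norm_num) hp0.ne', hlogβ]; ring
  have hA0 : 0 ≤ Real.log (1000000 * p / β) := by rw [hA_eq]; positivity
  have hA1 : Real.log (1000000 * p / β) ≤ 100001 * l ^ 2 := by
    rw [hA_eq]
    linarith
  -- the first threshold
  set η₀ := V / (64 * (d : ℝ) ^ 3) with hη₀
  have hη : 0 < η₀ := by positivity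
  have hη1 : η₀ ≤ 1 := by
    rw [hη₀, div_le_one (by positivity)]
    have : (1 : ℝ) ≤ (d : ℝ) ^ 3 := one_le_pow₀ hd1
    linarith
  have hlogη : - Real.log η₀ = 6 * Real.log 2 + 3 * D - Real.log V := by
    rw [hη₀, Real.log_div hV.ne' (by positivity), Real.log_mul (by norm_num) (by positivity),
      Real.log_pow, show (64 : ℝ) = 2 ^ 6 by norm_num, Real.log_pow]
    push_cast; ring
  have hV0 : - Real.log η₀ ≤ 4 * l := by rw [hlogη, hl_eq]; rw [hl_eq] at hl30; linarith
  -- thresholds
  set thr := qthr p β lam η₀ with hthr_def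
  have hthr0 : thr 0 = η₀ := rfl
  have hthr_pos : ∀ r, 0 < thr r := fun r => qthr_pos hp1 hβ hη r
  have hthr_le : ∀ r, thr r ≤ 1 := fun r => qthr_le hp1 hβ hβ1 hlam0 hη hη1 r
  have hVr : ∀ r, r ≤ R → - Real.log (thr r) ≤ 4000000000 * l ^ 4 := by
    intro r hr
    have h1 := neg_log_qthr (lam := lam) (β := β) (η₀ := η₀) hp1 hβ hlam0 hη hA0 r
    have hrR : (r : ℝ) ≤ R := by exact_mod_cast hr
    have h2 : (1 + lam) ^ r ≤ 2.7183 := by
      refine (pow_le_exp hlam0 r).trans ?_
      have h3 : lam * r ≤ 1 := by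
        rw [hlam_def, div_mul_eq_mul_div, one_mul, div_le_one (by positivity)]
        linarith
      calc Real.exp (lam * r) ≤ Real.exp 1 := Real.exp_le_exp.mpr h3
        _ ≤ 2.7183 := by have := Real.exp_one_lt_d9; linarith
    have h4 : - Real.log η₀ + r * Real.log (1000000 * p / β)
        ≤ 4 * l + (12000 * l ^ 2 + 1) * (100001 * l ^ 2) := by
      have h5 : (r : ℝ) * Real.log (1000000 * p / β) ≤ (12000 * l ^ 2 + 1) * (100001 * l ^ 2) := by
        apply mul_le_mul (hrR.trans hR2) hA1 hA0 (by positivity)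
      linarith
    have h6 : 0 ≤ 4 * l + (12000 * l ^ 2 + 1) * (100001 * l ^ 2) := by positivity
    calc - Real.log (thr r) ≤ (1 + lam) ^ r * (- Real.log η₀
          + r * Real.log (1000000 * p / β)) := h1
      _ ≤ (1 + lam) ^ r * (4 * l + (12000 * l ^ 2 + 1) * (100001 * l ^ 2)) := by
          apply mul_le_mul_of_nonneg_left h4 (by positivity)
      _ ≤ 2.7183 * (4 * l + (12000 * l ^ 2 + 1) * (100001 * l ^ 2)) :=
          mul_le_mul_of_nonneg_right h2 h6
      _ ≤ 4000000000 * l ^ 4 := by
          have h7 : (12000 * l ^ 2 + 1) * (100001 * l ^ 2)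
              = 1200012000 * l ^ 4 + 100001 * l ^ 2 := by ring
          rw [h7]
          linarith
  have hQB : ∀ r, r ≤ R → QB d p β (thr r) ≤ H := by
    intro r hr
    have hpos : 0 < QB d p β (thr r) := by
      unfold QB; have := hthr_pos r; positivity
    rw [hH_def, ← Real.log_le_iff_le_exp hpos]
    unfold QB
    have h1 := hVr r hr
    rw [Real.log_div (by positivity) (by have := hthr_pos r; positivity),
      Real.log_mul (by positivity) (by positivity), Real.log_mul (by norm_num) hp0.ne',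
      Real.log_pow, Real.log_mul (by positivity) (hthr_pos r).ne', Real.log_pow, hlogβ]
    push_cast
    linarith
  have h2d : ∀ r, r ≤ R → 2 * (d : ℝ) ^ 2 / thr r ≤ H := by
    intro r hr
    refine le_trans ?_ (hQB r hr)
    unfold QB
    have h3 := hthr_pos r
    have h4 : β ^ 2 ≤ 1 := pow_le_one₀ hβ.le hβ1
    have h5 : β ^ 2 * thr r ≤ thr r := mul_le_of_le_one_left h3.le h4
    have h6 : 2 * (d : ℝ) ^ 2 ≤ 1000000 * (p : ℝ) * (d : ℝ) ^ 2 := by
      apply mul_le_mul_of_nonneg_right _ (by positivity)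
      linarith
    exact div_le_div₀ (by positivity) h6 (by positivity) h5
  -- levels
  set s := 8 / (50 * β * (d : ℝ) ^ 2) with hs_def
  have hs0 : 0 < s := by positivity
  have hlogs : 50000 * l ^ 2 ≤ Real.log s := by
    rw [hs_def, Real.log_div (by norm_num) (by positivity), Real.log_mul (by positivity)
      (by positivity), Real.log_mul (by norm_num) hβ.ne', hlogβ, Real.log_pow]
    have h1 : Real.log 50 ≤ 6 * Real.log 2 := by
      have := log_le_of_le_two_pow (x := 50) (k := 6) (by norm_num) (by norm_num)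
      exact_mod_cast this
    have h2 : 0 ≤ Real.log 8 := Real.log_nonneg (by norm_num)
    push_cast
    linarith
  have hs1' : 1 < s := by
    by_contra h
    push Not at h
    have := Real.log_nonpos hs0.le h
    linarith
  have hlam4 : 4 / Real.log s ≤ lam := by
    have h0 : 0 < Real.log s := Real.log_pos hs1'
    rw [hlam_def, div_le_div_iff₀ h0 (by positivity)]
    linarith
  have hlev : ∀ r < R, ∃ k : ℕ, 4 / thr r ≤ (8 / (50 * β * (d : ℝ) ^ 2)) ^ (k + 1) ∧
      Real.log (2 * (4 * 50 ^ (k + 1) / thr r)) ≤ 1 / (4 * β) ∧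
      thr (r + 1) ≤ β * thr r / (48 * p) ∧ thr (r + 1) ≤ thr r / (8 * 50 ^ (k + 1)) ∧
      QB d p β (thr r) ≤ H ∧ 1 / (1 / l * thr (r + 1)) ≤ H := by
    intro r hr
    have hpos := hthr_pos r
    have hle := hthr_le r
    obtain ⟨k, hk1, hk2⟩ := exists_k hpos hle hs1' hlam4 hlam1
    have hpow : thr r ^ (1 + lam) ≤ thr r := by
      calc thr r ^ (1 + lam) ≤ thr r ^ (1 : ℝ) :=
            Real.rpow_le_rpow_of_exponent_ge hpos hle (by linarith)
        _ = thr r := Real.rpow_one _
    have hpow0 : 0 < thr r ^ (1 + lam) := by positivity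
    have hnext : thr (r + 1) = thr r ^ (1 + lam) * β / (1000000 * p) := rfl
    have h3 : thr (r + 1) ≤ thr r / (8 * 50 ^ (k + 1)) := by
      refine le_trans ?_ hk2
      rw [hnext, div_le_div_iff₀ (by positivity) (by norm_num)]
      have h5 : thr r ^ (1 + lam) * β ≤ thr r ^ (1 + lam) * 1 :=
        mul_le_mul_of_nonneg_left hβ1 hpow0.le
      have h6 : thr r ^ (1 + lam) * 1600 ≤ thr r ^ (1 + lam) * (1000000 * p) := by
        apply mul_le_mul_of_nonneg_left _ hpow0.le
        linarith
      linarith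
    refine ⟨k, hk1, ?_, ?_, h3, hQB r hr.le, ?_⟩
    · have h4 : 2 * (4 * 50 ^ (k + 1) / thr r) ≤ 1 / thr (r + 1) := by
        rw [le_div_iff₀ (hthr_pos (r + 1))]
        calc 2 * (4 * 50 ^ (k + 1) / thr r) * thr (r + 1)
            ≤ 2 * (4 * 50 ^ (k + 1) / thr r) * (thr r / (8 * 50 ^ (k + 1))) := by
              apply mul_le_mul_of_nonneg_left h3 (by positivity)
          _ = 1 := by field_simp; norm_num
      have h5 : Real.log (2 * (4 * 50 ^ (k + 1) / thr r)) ≤ 4000000000 * l ^ 4 := by
        refine (Real.log_le_log (by positivity) h4).trans ?_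
        rw [one_div, Real.log_inv]
        exact hVr (r + 1) hr
      refine h5.trans ?_
      have h6 : 1 / (4 * β) = Real.exp (100000 * l ^ 2) / 4 := by
        rw [hβ_def, Real.exp_neg]; field_simp
      rw [h6]
      have h7 : (100000 * l ^ 2 / 3) ^ 3 ≤ Real.exp (100000 * l ^ 2) := by
        have h8 : 100000 * l ^ 2 / 3 ≤ Real.exp (100000 * l ^ 2 / 3) := by
          linarith [Real.add_one_le_exp (100000 * l ^ 2 / 3)]
        calc (100000 * l ^ 2 / 3) ^ 3 ≤ Real.exp (100000 * l ^ 2 / 3) ^ 3 :=
              pow_le_pow_left₀ (by positivity) h8 3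
          _ = Real.exp (100000 * l ^ 2) := by rw [← Real.exp_nat_mul]; congr 1; push_cast; ring
      have h9 : (100000 * l ^ 2 / 3) ^ 3 = (1000000000000000 / 27) * (l ^ 2 * l ^ 4) := by ring
      have h10 : 900 * l ^ 4 ≤ l ^ 2 * l ^ 4 := mul_le_mul_of_nonneg_right hl2 (by positivity)
      rw [h9] at h7
      linarith
    · rw [hnext, div_le_div_iff₀ (by positivity) (by positivity)]
      have h5 : thr r ^ (1 + lam) * β * (48 * p) ≤ thr r * β * (48 * p) := by
        apply mul_le_mul_of_nonneg_right _ (by positivity)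
        exact mul_le_mul_of_nonneg_right hpow hβ.le
      have h6 : 0 ≤ thr r * β * p := by positivity
      calc thr r ^ (1 + lam) * β * (48 * p) ≤ thr r * β * (48 * p) := h5
        _ = 48 * (thr r * β * p) := by ring
        _ ≤ 1000000 * (thr r * β * p) := by linarith
        _ = β * thr r * (1000000 * p) := by ring
    · have hpos1 := hthr_pos (r + 1)
      have h7 : 1 / (1 / l * thr (r + 1)) = l / thr (r + 1) := by field_simp
      rw [h7, hH_def, ← Real.log_le_iff_le_exp (by positivity), Real.log_div hl0.ne' hpos1.ne']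
      have := hVr (r + 1) hr
      linarith
  -- the curve
  set U := Real.log (2 * d) + Real.log (2 * g / (1 + g)) with hU_def
  have hfrac : 2 * g / (1 + g) ≤ 1 := by
    rw [div_le_one (by linarith)]; linarith
  have hfrac0 : 0 < 2 * g / (1 + g) := by positivity
  have hU_le : U ≤ Real.log (2 * d) := by
    rw [hU_def]
    linarith [Real.log_nonpos hfrac0.le hfrac]
  have hlog2d : Real.log (2 * d) ≤ l := by
    rw [hl_eq, Real.log_mul (by norm_num) hd0.ne', ← hD]; linarith
  have hUl : U ≤ l := hU_le.trans hlog2d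
  have hU0 : 0 ≤ U := by
    rw [hU_def, ← Real.log_mul (by positivity) (by positivity)]
    apply Real.log_nonneg
    rw [mul_div_assoc', le_div_iff₀ (by linarith)]
    have h1 : 2 ≤ 2 * d * (2 * g) := by
      rw [hg_def]
      have h2 : 2 * (d : ℝ) * (2 * (1 / (4000 * l ^ 2))) = d / (1000 * l ^ 2) := by
        field_simp; norm_num
      rw [h2, le_div_iff₀ (by positivity)]
      linarith
    linarith
  have hlate_eq : lateγ (Real.log (2 * d)) U = g := by
    unfold lateγ
    have h1 : Real.exp (U - Real.log (2 * d)) = 2 * g / (1 + g) := by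
      rw [hU_def, add_sub_cancel_left, Real.exp_log hfrac0]
    rw [h1]
    have h2 : (1 + g) ≠ 0 := by positivity
    have h3 : 1 - 2 * g / (1 + g) / 2 = 1 / (1 + g) := by field_simp; ring
    rw [h3]
    field_simp
  set γ0 := eγ (1 / l) g U 0 with hγ0_def
  have hγ0 : 0 < γ0 := eγ_pos hg0
  have hγ0_1 : γ0 ≤ 1 := (eγ_le (by positivity) hg0 hU0).trans hg1
  have hγ0_lo : 1 / (12000 * l ^ 2) ≤ γ0 := by
    rw [hγ0_def]
    unfold eγ
    have h1 : Real.exp (-1) ≤ Real.exp (1 / l * (0 - U)) := by
      apply Real.exp_le_exp.mpr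
      have h2 : 1 / l * U ≤ 1 := by
        rw [div_mul_eq_mul_div, one_mul, div_le_one hl0]; exact hUl
      linarith [mul_sub (1 / l) 0 U]
    have h3 : (1 : ℝ) / 3 ≤ Real.exp (-1) := by
      rw [Real.exp_neg, one_div]
      apply inv_anti₀ (Real.exp_pos 1)
      have := Real.exp_one_lt_d9; linarith
    calc 1 / (12000 * l ^ 2) = g * (1 / 3) := by rw [hg_def]; field_simp; norm_num
      _ ≤ g * Real.exp (1 / l * (0 - U)) := mul_le_mul_of_nonneg_left (h3.trans h1) hg0.le
  -- apply the barrier
  have hbar := qbarrier (d := d) (p := p) hd hp10 hf (κ := 1 / l) (ω := 1 / l) (kb := kb)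
    (g := g) (U := U) (T := T) (B := B) (β := β) (H := H) R thr
    (fun r _ => ⟨hthr_pos r, hthr_le r⟩) (by positivity)
    (by rw [div_le_one hl0]; linarith) hg0 hg1 hβ hβ1 hlev hH0
    (by rw [hlogH, hB_def]; linarith) hB0 hT0 (by positivity) hkb0.le ?_ ?_ ?_ ?_ ?_ R le_rfl
    U ⟨hU0, le_rfl⟩
  rotate_left
  · -- hX
    intro X hX
    have hkbR : kb * R ≤ 3 := by
      rw [hkb_def, div_mul_eq_mul_div, one_mul, div_le_iff₀ (by positivity)]
      linarith
    have h27 : (1 : ℝ) / 27 ≤ Real.exp (-(kb * R)) := by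
      have h1 : Real.exp (-3) ≤ Real.exp (-(kb * R)) := Real.exp_le_exp.mpr (by linarith)
      refine le_trans ?_ h1
      rw [Real.exp_neg, one_div]
      apply inv_anti₀ (Real.exp_pos 3)
      have h2 : Real.exp 3 = Real.exp 1 ^ 3 := by rw [← Real.exp_nat_mul]; norm_num
      rw [h2]
      have h3 : Real.exp 1 ^ 3 ≤ 3 ^ 3 :=
        pow_le_pow_left₀ (Real.exp_pos 1).le (by have := Real.exp_one_lt_d9; linarith) 3
      exact h3.trans (by norm_num)
    have hXlow : 5000 * l ^ 2 * B ≤ X := by
      refine le_trans ?_ hX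
      have h1 : 2 * T * (1 / 27) ≤ 2 * T * Real.exp (-(kb * R)) :=
        mul_le_mul_of_nonneg_left h27 (by positivity)
      refine le_trans ?_ h1
      rw [hT_def]
      have : 0 < l ^ 2 * B := by positivity
      linarith
    have hX0 : 0 < X := lt_of_lt_of_le (by positivity) hXlow
    have hkb1 : kb ≤ 1 / 20 := by
      rw [hkb_def]
      apply one_div_le_one_div_of_le (by norm_num)
      linarith
    have hexp : Real.exp kb - 1 ≤ 1.1 * kb := exp_small hkb0 hkb1
    have h1 : (Real.exp kb - 1) * X ≤ 1.1 * kb * X := mul_le_mul_of_nonneg_right hexp hX0.le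
    have h2 : 1024 / (1 / l) = 1024 * l := by field_simp
    rw [h2]
    have h3 : 2 * (1024 * l * (1.1 * kb * X)) ≤ 0.46 * (X / l) := by
      rw [hkb_def]
      have h4 : 2 * (1024 * l * (1.1 * (1 / (5000 * l ^ 2)) * X))
          = (2 * 1024 * 1.1 / 5000) * (X / l) := by field_simp
      rw [h4]
      apply mul_le_mul_of_nonneg_right _ (by positivity)
      norm_num
    have h5 : 5000 * l * B ≤ X / l := by
      rw [le_div_iff₀ hl0]
      calc 5000 * l * B * l = 5000 * l ^ 2 * B := by ring
        _ ≤ X := hXlow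
    have h6 : 2 * (1024 * l * ((Real.exp kb - 1) * X + B))
        ≤ 2 * (1024 * l * (1.1 * kb * X)) + 2048 * l * B := by
      have : 1024 * l * ((Real.exp kb - 1) * X) ≤ 1024 * l * (1.1 * kb * X) :=
        mul_le_mul_of_nonneg_left h1 (by positivity)
      linarith
    have h7 : 1 ≤ l * B := one_le_mul_of_one_le_of_one_le (by linarith) (by linarith)
    calc 2 * (1024 * l * ((Real.exp kb - 1) * X + B)) + 2
        ≤ 0.46 * (X / l) + 2048 * l * B + 2 := by linarith
      _ < 1 / l * X := by
          rw [div_mul_eq_mul_div, one_mul]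
          linarith
  · -- hs1
    have h1 : 64 * B / g = 256000 * l ^ 2 * B := by rw [hg_def]; field_simp; norm_num
    have h2 : H ^ 3 = Real.exp (15000000000 * l ^ 4) := by
      rw [hH_def, ← Real.exp_nat_mul]; congr 1; push_cast; ring
    rw [h1, h2, ← Real.exp_add, ← Real.exp_add]
    have h10 : (1 : ℝ) / 2 = Real.exp (-Real.log 2) := by
      rw [Real.exp_neg, Real.exp_log (by norm_num)]; norm_num
    rw [h10]
    apply Real.exp_le_exp.mpr
    have h3 : 256000 * l ^ 2 * B = 2.56 * T := by rw [hT_def]; ring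
    rw [h3]
    have h4 : 15000000000 * l ^ 4 ≤ B := by rw [hB_def]; linarith
    linarith
  · -- hs2
    have h2 : 2 * T ≤ γ0 * p / 2 := by
      have h3 : 1 / (12000 * l ^ 2) * (48000 * l ^ 2 * T) ≤ γ0 * p :=
        mul_le_mul hγ0_lo hp_ge (by positivity) hγ0.le
      have h4 : 1 / (12000 * l ^ 2) * (48000 * l ^ 2 * T) = 4 * T := by field_simp; norm_num
      linarith
    rw [hH_def, ← Real.exp_add, ← Real.exp_add]
    have h10 : (1 : ℝ) / 2 = Real.exp (-Real.log 2) := by
      rw [Real.exp_neg, Real.exp_log (by norm_num)]; norm_num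
    rw [h10]
    apply Real.exp_le_exp.mpr
    have h4 : 5000000000 * l ^ 4 ≤ B := by rw [hB_def]; linarith
    linarith
  · -- htop
    have h1 := h2d R le_rfl
    calc Real.exp U * (2 * (d : ℝ) ^ 2 / thr R)
        ≤ Real.exp U * H := mul_le_mul_of_nonneg_left h1 (Real.exp_pos _).le
      _ = Real.exp (U + 5000000000 * l ^ 4) := by rw [hH_def, ← Real.exp_add]
      _ ≤ Real.exp T := by
          apply Real.exp_le_exp.mpr
          have h4 : 5000000000 * l ^ 4 ≤ B := by rw [hB_def]; linarith
          linarith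
  · -- hinit
    intro r hr
    refine (init_upper (hthr_pos r) hp1 hf hγ0.le).trans ?_
    set lm := 30000000000000000000 * l ^ 8 with hlm
    have hM0 : 0 ≤ maxDerivNorm f := maxDerivNorm_nonneg f
    have h1 : maxDerivNorm f ^ 2 / thr r ^ 2
        ≤ Real.exp (-(2 * lm) - 2 * Real.log (thr r)) := by
      have h2 : maxDerivNorm f ^ 2 ≤ Real.exp (-(2 * lm)) := by
        have h3 : maxDerivNorm f ^ 2 ≤ Real.exp (-lm) ^ 2 := pow_le_pow_left₀ hM0 hM.le 2
        refine h3.trans (le_of_eq ?_)
        rw [← Real.exp_nat_mul]; congr 1; push_cast; ring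
      have h4 : Real.exp (-(2 * lm) - 2 * Real.log (thr r))
          = Real.exp (-(2 * lm)) / thr r ^ 2 := by
        rw [Real.exp_sub]
        congr 1
        have : 2 * Real.log (thr r) = Real.log (thr r ^ 2) := by
          rw [Real.log_pow]; norm_num
        rw [this, Real.exp_log (by have := hthr_pos r; positivity)]
      rw [h4]
      exact div_le_div_of_nonneg_right h2 (by positivity)
    have h5 : (maxDerivNorm f ^ 2 / thr r ^ 2) ^ γ0
        ≤ Real.exp ((-(2 * lm) - 2 * Real.log (thr r)) * γ0) := by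
      rw [Real.exp_mul]
      exact Real.rpow_le_rpow (by positivity) h1 hγ0.le
    have h6 := h2d r hr.le
    calc 2 * (d : ℝ) ^ 2 / thr r * (maxDerivNorm f ^ 2 / thr r ^ 2) ^ γ0
        ≤ H * Real.exp ((-(2 * lm) - 2 * Real.log (thr r)) * γ0) := by
          apply mul_le_mul h6 h5 (by positivity) hH0.le
      _ = Real.exp (5000000000 * l ^ 4 + (-(2 * lm) - 2 * Real.log (thr r)) * γ0) := by
          rw [hH_def, ← Real.exp_add]
      _ ≤ Real.exp (-T) := by
          apply Real.exp_le_exp.mpr
          have h7 := hVr r hr.le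
          have h8 : (-(2 * Real.log (thr r))) * γ0 ≤ 8000000000 * l ^ 4 := by
            have h9 : (-(2 * Real.log (thr r))) * γ0 ≤ (8000000000 * l ^ 4) * γ0 := by
              apply mul_le_mul_of_nonneg_right _ hγ0.le
              linarith
            have h10 : (8000000000 * l ^ 4) * γ0 ≤ (8000000000 * l ^ 4) * 1 :=
              mul_le_mul_of_nonneg_left hγ0_1 (by positivity)
            linarith
          have h11 : 2 * T ≤ 2 * lm * γ0 := by
            have h12 : 2 * lm * (1 / (12000 * l ^ 2)) ≤ 2 * lm * γ0 := by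
              apply mul_le_mul_of_nonneg_left hγ0_lo
              rw [hlm]; positivity
            have h13 : 2 * lm * (1 / (12000 * l ^ 2)) = 5000000000000000 * l ^ 6 := by
              rw [hlm]; field_simp; norm_num
            have h14 : T = 2000000000000000 * l ^ 6 := by rw [hT_def, hB_def]; ring
            rw [h13] at h12
            rw [h14]
            have h15 : 0 ≤ l ^ 6 := by positivity
            linarith
          have h15 : (-(2 * lm) - 2 * Real.log (thr r)) * γ0
              = -(2 * lm * γ0) + (-(2 * Real.log (thr r))) * γ0 := by ring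
          rw [h15]
          have h16 : 13000000000 * l ^ 4 ≤ B := by rw [hB_def]; linarith
          linarith
  -- conclusion
  simp only [Nat.sub_self] at hbar
  rw [eγ_self, hthr0] at hbar
  have hfin := final_lower hd hp1 hf hV
  rw [← hVdef, ← hη₀] at hfin
  have hlate := late (η := η₀) (p := p) hη hp1 f (u₁ := Real.log (2 * d)) (s := U)
    (t := Real.log (2 * d)) hU0 hU_le le_rfl
  rw [lateγ_self, hlate_eq] at hlate
  have h1 : V / 4 ≤ Real.exp (qbar T (1 / l) kb R 0 U) := hfin.trans (hlate.trans hbar)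
  have h2 : qbar T (1 / l) kb R 0 U ≤ -(T / 2) := by
    unfold qbar
    have h3 : Real.exp (1 / l * U - kb * ((R : ℝ) - ((0 : ℕ) : ℝ))) ≤ 1 / 4 := by
      have h4 : (1 : ℝ) / 4 = Real.exp (-(2 * Real.log 2)) := by
        rw [Real.exp_neg, show (2 : ℝ) * Real.log 2 = Real.log (2 ^ 2) by rw [Real.log_pow]; norm_num,
          Real.exp_log (by norm_num)]
        norm_num
      rw [h4]
      apply Real.exp_le_exp.mpr
      push_cast
      have h5 : 1 / l * U ≤ 1 := by
        rw [div_mul_eq_mul_div, one_mul, div_le_one hl0]; exact hUl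
      have h6 : 2.4 ≤ kb * R := by
        rw [hkb_def, div_mul_eq_mul_div, one_mul, le_div_iff₀ (by positivity)]
        linarith
      rw [sub_zero]
      linarith
    have h7 := mul_le_mul_of_nonneg_left h3 (show 0 ≤ 2 * T by linarith)
    linarith
  have h5 : Real.exp (qbar T (1 / l) kb R 0 U) ≤ Real.exp (-(T / 2)) := Real.exp_le_exp.mpr h2
  have h6 : Real.exp (-(T / 2)) < V / 4 := by
    have h7 : V / 4 = Real.exp (Real.log (V / 4)) := (Real.exp_log (by positivity)).symm
    rw [h7]
    apply Real.exp_lt_exp.mpr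
    rw [Real.log_div hV.ne' (by norm_num)]
    have h8 : Real.log 4 = 2 * Real.log 2 := by
      rw [show (4 : ℝ) = 2 ^ 2 by norm_num, Real.log_pow]; norm_num
    rw [h8]
    have h9 : -Real.log V ≤ l := by rw [hl_eq]; linarith
    linarith
  linarith

/-- **Quasi-polynomial Aaronson-Ambainis bound.** -/
theorem quasipoly (hd : 1 ≤ d) {f : Cube n → ℝ} (hf : Bdd d f) (hV : 0 < variance f) :
    Real.exp (-(30000000000000000000 * Real.log (2 * d / variance f) ^ 8)) ≤ maxDerivNorm f := by
  have hd1 : (1 : ℝ) ≤ d := by exact_mod_cast hd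
  have hd0 : (0 : ℝ) < d := by linarith
  have hV1 : variance f ≤ 1 := variance_le_one hf.2
  set l := Real.log (2 * d / variance f) with hl
  have hz : 0 < variance f / (2 * d) := by positivity
  have hl_ge : Real.log 2 ≤ l := by
    rw [hl]
    apply Real.log_le_log (by norm_num)
    rw [le_div_iff₀ hV]
    nlinarith
  have hlo := log_two_lo
  have hl0 : 0 < l := by linarith
  have hbasic : Real.exp (-(26 * (d : ℝ) * l)) ≤ maxDerivNorm f := by
    refine le_trans (le_of_eq ?_) (basic_bound hd hf hV)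
    rw [Real.rpow_def_of_pos hz]
    congr 1
    have h2 : Real.log (variance f / (2 * d)) = - l := by
      rw [hl, ← Real.log_inv, inv_div]
    rw [h2]; ring
  by_cases h30 : 30 ≤ l
  · by_cases hdl : 2000 * l ^ 2 ≤ d
    · exact qmain_large hf hV hd h30 hdl
    · push Not at hdl
      refine le_trans (Real.exp_le_exp.mpr ?_) hbasic
      apply neg_le_neg
      have h1 : 26 * (d : ℝ) * l ≤ 26 * (2000 * l ^ 2) * l := by
        apply mul_le_mul_of_nonneg_right _ hl0.le
        linarith
      have h2 : l ^ 3 ≤ l ^ 8 := pow_le_pow_right₀ (by linarith) (by norm_num)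
      have h3 : 0 ≤ l ^ 8 := by positivity
      nlinarith
  · push Not at h30
    refine le_trans (Real.exp_le_exp.mpr ?_) hbasic
    apply neg_le_neg
    have h1 : (d : ℝ) ≤ Real.exp 30 := by
      have h2 : Real.log d ≤ l := by
        rw [hl]
        apply Real.log_le_log hd0
        rw [le_div_iff₀ hV]
        nlinarith
      calc (d : ℝ) = Real.exp (Real.log d) := (Real.exp_log hd0).symm
        _ ≤ Real.exp 30 := Real.exp_le_exp.mpr (by linarith)
    have h3 : Real.exp 30 ≤ 200000000000000 := by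
      have h4 : Real.exp 30 = Real.exp 1 ^ 30 := by rw [← Real.exp_nat_mul]; norm_num
      rw [h4]
      have h5 : Real.exp 1 ^ 30 ≤ 2.7183 ^ 30 :=
        pow_le_pow_left₀ (Real.exp_pos 1).le (by have := Real.exp_one_lt_d9; linarith) 30
      refine h5.trans ?_
      norm_num
    have h6 : 0.07 ≤ l ^ 7 := by
      have h7 : (0.6931 : ℝ) ^ 7 ≤ l ^ 7 := pow_le_pow_left₀ (by norm_num) (by linarith) 7
      refine le_trans ?_ h7
      norm_num
    have h8 : l ^ 8 = l ^ 7 * l := by ring
    rw [h8]
    have h9 : 26 * (d : ℝ) ≤ 30000000000000000000 * l ^ 7 := by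
      norm_num at h6 ⊢
      linarith
    calc 26 * (d : ℝ) * l ≤ (30000000000000000000 * l ^ 7) * l :=
          mul_le_mul_of_nonneg_right h9 hl0.le
      _ = 30000000000000000000 * (l ^ 7 * l) := by ring

end Pool.Agent.SUB
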